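import Pool.Agent.K9h78.S6.Stm

/-! Factorisation of binary cubics (helper19). -/

set_option autoImplicit false

namespace Pool.Agent.K9h78.S6

theorem cf_quad_root (a b c : ℂ) (ha : a ≠ 0) : ∃ r : ℂ, a * r ^ 2 + b * r + c = 0 := by
  obtain ⟨r, hr⟩ := IsAlgClosed.exists_root
    (Polynomial.C a * Polynomial.X ^ 2 + Polynomial.C b * Polynomial.X + Polynomial.C c)
    (by rw [Polynomial.degree_quadratic ha]; norm_num)
  refine ⟨r, ?_⟩
  simpa [Polynomial.IsRoot] using hr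

theorem cf_cubic_root (a b c d : ℂ) (ha : a ≠ 0) :
    ∃ r : ℂ, a * r ^ 3 + b * r ^ 2 + c * r + d = 0 := by
  obtain ⟨r, hr⟩ := IsAlgClosed.exists_root
    (Polynomial.C a * Polynomial.X ^ 3 + Polynomial.C b * Polynomial.X ^ 2 +
      Polynomial.C c * Polynomial.X + Polynomial.C d)
    (by rw [Polynomial.degree_cubic ha]; norm_num)
  refine ⟨r, ?_⟩
  simpa [Polynomial.IsRoot] using hr

/-- a binary quadratic form is a product of two linear forms -/
theorem cf_quad_split (a b c : ℂ) : ∃ l₁ m₁ l₂ m₂ : ℂ,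
    a = l₁ * l₂ ∧ b = l₁ * m₂ + l₂ * m₁ ∧ c = m₁ * m₂ := by
  by_cases ha : a = 0
  · exact ⟨0, 1, b, c, by simp [ha], by simp, by simp⟩
  · obtain ⟨r, hr⟩ := cf_quad_root a b c ha
    refine ⟨1, -r, a, b + a * r, by ring, by ring, ?_⟩
    linear_combination hr

/-- a binary cubic form is a product of three linear forms -/
theorem cf_cubic_split (a b c d : ℂ) : ∃ l₁ m₁ l₂ m₂ l₃ m₃ : ℂ,
    a = l₁ * l₂ * l₃ ∧ b = l₁ * l₂ * m₃ + l₁ * l₃ * m₂ + l₂ * l₃ * m₁ ∧
      c = l₁ * m₂ * m₃ + l₂ * m₁ * m₃ + l₃ * m₁ * m₂ ∧ d = m₁ * m₂ * m₃ := by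
  by_cases ha : a = 0
  · obtain ⟨l, m, l', m', h1, h2, h3⟩ := cf_quad_split b c d
    exact ⟨0, 1, l, m, l', m', by simp [ha], by rw [h1]; ring, by rw [h2]; ring,
      by rw [h3]; ring⟩
  · obtain ⟨r, hr⟩ := cf_cubic_root a b c d ha
    obtain ⟨l, m, l', m', h1, h2, h3⟩ := cf_quad_split a (b + a * r) (c + b * r + a * r ^ 2)
    refine ⟨1, -r, l, m, l', m', by rw [h1]; ring, ?_, ?_, ?_⟩
    · linear_combination h2 + r * (-h1)
    · linear_combination h3 - r * h2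
    · linear_combination hr - r * h3

theorem cf_par {l m l' m' : ℂ} (h : l ≠ 0 ∨ m ≠ 0) (hd : l * m' - m * l' = 0) :
    ∃ t : ℂ, l' = t * l ∧ m' = t * m := by
  by_cases hl : l = 0
  · have hm : m ≠ 0 := h.resolve_left (not_not.2 hl)
    have h1 : m * l' = 0 := by rw [hl] at hd; linear_combination -hd
    have h2 : l' = 0 := (mul_eq_zero.1 h1).resolve_left hm
    exact ⟨m' / m, by rw [h2, hl, mul_zero], by field_simp⟩
  · refine ⟨l' / l, by field_simp, ?_⟩
    field_simp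
    linear_combination hd

theorem cf : S_CF := by
  intro c hc
  obtain ⟨l₁, m₁, l₂, m₂, l₃, m₃, h0, h1, h2, h3⟩ := cf_cubic_split (c 0) (c 1) (c 2) (c 3)
  have hcub : ∀ x y : ℂ, cub c x y = (l₁ * x + m₁ * y) * (l₂ * x + m₂ * y) * (l₃ * x + m₃ * y) := by
    intro x y
    unfold cub
    rw [h0, h1, h2, h3]
    ring
  have hz : ¬ (c 0 = 0 ∧ c 1 = 0 ∧ c 2 = 0 ∧ c 3 = 0) := by
    rintro ⟨a0, a1, a2, a3⟩
    apply hc
    funext i
    fin_cases i
    · exact a0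
    · exact a1
    · exact a2
    · exact a3
  have n1 : l₁ ≠ 0 ∨ m₁ ≠ 0 := by
    by_contra hcon
    push Not at hcon
    obtain ⟨e1, e2⟩ := hcon
    exact hz ⟨by rw [h0, e1]; ring, by rw [h1, e1, e2]; ring, by rw [h2, e1, e2]; ring,
      by rw [h3, e2]; ring⟩
  have n2 : l₂ ≠ 0 ∨ m₂ ≠ 0 := by
    by_contra hcon
    push Not at hcon
    obtain ⟨e1, e2⟩ := hcon
    exact hz ⟨by rw [h0, e1]; ring, by rw [h1, e1, e2]; ring, by rw [h2, e1, e2]; ring,
      by rw [h3, e2]; ring⟩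
  have n3 : l₃ ≠ 0 ∨ m₃ ≠ 0 := by
    by_contra hcon
    push Not at hcon
    obtain ⟨e1, e2⟩ := hcon
    exact hz ⟨by rw [h0, e1]; ring, by rw [h1, e1, e2]; ring, by rw [h2, e1, e2]; ring,
      by rw [h3, e2]; ring⟩
  by_cases hd : l₁ * m₂ - m₁ * l₂ = 0
  · obtain ⟨t, ht1, ht2⟩ := cf_par n1 hd
    have ht : t ≠ 0 := by
      rintro rfl
      rw [zero_mul] at ht1 ht2
      rcases n2 with h | h
      · exact h ht1
      · exact h ht2
    by_cases hd' : l₁ * m₃ - m₁ * l₃ = 0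
    · obtain ⟨u, hu1, hu2⟩ := cf_par n1 hd'
      have hu : u ≠ 0 := by
        rintro rfl
        rw [zero_mul] at hu1 hu2
        rcases n3 with h | h
        · exact h hu1
        · exact h hu2
      have key : ∀ x y : ℂ, cub c x y = t * u * (l₁ * x + m₁ * y) ^ 3 := by
        intro x y
        rw [hcub, ht1, ht2, hu1, hu2]
        ring
      rcases n1 with h | h
      · exact ⟨l₁, m₁, 0, 1, t * u, by simpa using h, mul_ne_zero ht hu,
          Or.inr (Or.inr key)⟩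
      · exact ⟨l₁, m₁, 1, 0, t * u, by simpa using h, mul_ne_zero ht hu,
          Or.inr (Or.inr key)⟩
    · refine ⟨l₁, m₁, l₃, m₃, t, hd', ht, Or.inr (Or.inl fun x y => ?_)⟩
      rw [hcub, ht1, ht2]
      ring
  · -- `L₃ = α L₁ + β L₂`
    obtain ⟨α, hα⟩ : ∃ α : ℂ, α = (l₃ * m₂ - m₃ * l₂) / (l₁ * m₂ - m₁ * l₂) := ⟨_, rfl⟩
    obtain ⟨β, hβ⟩ : ∃ β : ℂ, β = (l₁ * m₃ - m₁ * l₃) / (l₁ * m₂ - m₁ * l₂) := ⟨_, rfl⟩
    have hα' : α * (l₁ * m₂ - m₁ * l₂) = l₃ * m₂ - m₃ * l₂ := by rw [hα, div_mul_cancel₀ _ hd]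
    have hβ' : β * (l₁ * m₂ - m₁ * l₂) = l₁ * m₃ - m₁ * l₃ := by rw [hβ, div_mul_cancel₀ _ hd]
    have e1 : l₃ = α * l₁ + β * l₂ := by
      apply mul_right_cancel₀ hd
      linear_combination -l₁ * hα' - l₂ * hβ'
    have e2 : m₃ = α * m₁ + β * m₂ := by
      apply mul_right_cancel₀ hd
      linear_combination -m₁ * hα' - m₂ * hβ'
    by_cases ha : α = 0
    · have hb : β ≠ 0 := by
        rintro rfl
        rw [ha] at e1 e2
        rcases n3 with h | h
        · exact h (by rw [e1]; ring)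
        · exact h (by rw [e2]; ring)
      refine ⟨l₂, m₂, l₁, m₁, β, ?_, hb, Or.inr (Or.inl fun x y => ?_)⟩
      · intro h
        apply hd
        linear_combination -h
      · rw [hcub, e1, e2, ha]
        ring
    · by_cases hb : β = 0
      · refine ⟨l₁, m₁, l₂, m₂, α, hd, ha, Or.inr (Or.inl fun x y => ?_)⟩
        rw [hcub, e1, e2, hb]
        ring
      · refine ⟨α * l₁, α * m₁, β * l₂, β * m₂, 1 / (α * β), ?_, ?_, Or.inl fun x y => ?_⟩
        · intro h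
          apply hd
          have h4 : α * β * (l₁ * m₂ - m₁ * l₂) = 0 := by linear_combination h
          exact (mul_eq_zero.1 h4).resolve_left (mul_ne_zero ha hb)
        · exact one_div_ne_zero (mul_ne_zero ha hb)
        · rw [hcub, e1, e2]
          field_simp
          ring

end Pool.Agent.K9h78.S6
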