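import Pool.Agent.K9h78.S6.Stm

set_option autoImplicit false
open ComplexConjugate Matrix

namespace Pool.Agent.K9h78.S6

theorem defi : S_DEF := by
  intro Φ _ hPos α δ β hne hM
  by_contra hcon
  rw [not_lt] at hcon
  by_cases hα : α = 0
  · have hβ : β = 0 := by
      rw [hα, zero_mul] at hcon
      have h1 : ‖β‖ = 0 := by
        have h2 := norm_nonneg β
        nlinarith
      exact norm_eq_zero.1 h1
    have hδ : δ ≠ 0 := by
      rcases hne with h | h | h
      · exact absurd hα h
      · exact h
      · exact absurd hβ h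
    have h3 := hM 2 2 le_rfl le_rfl
    have e : (fun x y => gf α δ β x y * (x ^ (2 - 2) * y ^ 2 * conj (x ^ (2 - 2) * y ^ 2))) =
        (δ : ℂ) • sq (cub ![0, 0, 0, 1]) := by
      funext x y
      simp only [gf, sq, cub, hα, hβ, Pi.smul_apply, smul_eq_mul, Matrix.cons_val_zero, Matrix.cons_val_one,
        Matrix.cons_val, map_add, map_mul, map_pow, map_zero, map_one, Nat.sub_self, pow_zero, Complex.ofReal_zero]
      ring
    rw [e, map_smul, smul_eq_mul] at h3
    have h4 : Φ (sq (cub ![0, 0, 0, 1])) = 0 := by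
      rcases mul_eq_zero.1 h3 with h | h
      · exact absurd (Complex.ofReal_eq_zero.1 h) hδ
      · exact h
    have h5 := hPos ![0, 0, 0, 1] (by
      intro h
      have := congrFun h 3
      simp at this)
    rw [h4] at h5
    simp at h5
  · have h3 := hM 0 0 (by norm_num) (by norm_num)
    have hbb : β * conj β = ((‖β‖ ^ 2 : ℝ) : ℂ) := by
      rw [Complex.mul_conj']
      push_cast
      rfl
    have e : (α : ℂ) • (fun x y => gf α δ β x y * (x ^ (2 - 0) * y ^ 0 * conj (x ^ (2 - 0) * y ^ 0))) =
        sq (cub ![(α : ℂ), β, 0, 0]) + (((α * δ - ‖β‖ ^ 2 : ℝ) : ℂ)) • sq (cub ![0, 1, 0, 0]) := by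
      funext x y
      simp only [gf, sq, cub, Pi.smul_apply, Pi.add_apply, smul_eq_mul, Matrix.cons_val_zero, Matrix.cons_val_one,
        Matrix.cons_val, map_add, map_mul, map_pow, map_zero, map_one, Nat.sub_zero, pow_zero, Complex.conj_ofReal,
        Complex.ofReal_sub, ← hbb, Complex.ofReal_mul]
      ring
    have h4 : Φ ((α : ℂ) • (fun x y => gf α δ β x y * (x ^ (2 - 0) * y ^ 0 * conj (x ^ (2 - 0) * y ^ 0)))) = 0 := by
      rw [map_smul, h3, smul_zero]
    rw [e, map_add, map_smul] at h4
    have h5 := hPos ![(α : ℂ), β, 0, 0] (by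
      intro h
      have := congrFun h 0
      simp at this
      exact hα this)
    have h6 := hPos ![0, 1, 0, 0] (by
      intro h
      have := congrFun h 1
      simp at this)
    have h7 := congrArg Complex.re h4
    rw [Complex.add_re, smul_eq_mul, Complex.re_ofReal_mul, Complex.zero_re] at h7
    have h8 : 0 ≤ (α * δ - ‖β‖ ^ 2) * (Φ (sq (cub ![0, 1, 0, 0]))).re := mul_nonneg (by linarith) h6.le
    linarith

end Pool.Agent.K9h78.S6
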