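import Pool.Agent.K9h78.S6.Stm

/-! An extremal functional has a kernel of dimension at least two (leaf DIM, helper2). -/

set_option autoImplicit false
open ComplexConjugate Matrix

namespace Pool.Agent.K9h78.S6.DimAux

/-- the form of the matrix `m` of moments on `ℂ⁶` -/
noncomputable def BF (m : ℕ → ℕ → ℂ) (h h' : Fin 6 → ℂ) : ℂ :=
  ∑ i : Fin 6, ∑ l : Fin 6, h i * conj (h' l) * m (i.1 % 3 + l.1 / 3) (l.1 % 3 + i.1 / 3)

theorem BF_fun (h h' : Fin 6 → ℂ) : (fun x y => hh h x y * conj (hh h' x y) : Fn) =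
    ∑ i : Fin 6, ∑ l : Fin 6, (h i * conj (h' l)) •
      mon (i.1 % 3 + l.1 / 3) (l.1 % 3 + i.1 / 3) := by
  funext x y
  simp only [Fin.sum_univ_six, Pi.add_apply, Pi.smul_apply, smul_eq_mul, mon, hh, map_add, map_mul,
    map_pow, Complex.conj_conj]
  norm_num
  ring

theorem BF_eq (Ψ : Fn →ₗ[ℂ] ℂ) (h h' : Fin 6 → ℂ) :
    Ψ (fun x y => hh h x y * conj (hh h' x y)) = BF (fun a b => Ψ (mon a b)) h h' := by
  rw [BF_fun, map_sum]
  unfold BF
  refine Finset.sum_congr rfl fun i _ => ?_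
  rw [map_sum]
  refine Finset.sum_congr rfl fun l _ => ?_
  rw [map_smul, smul_eq_mul]

theorem BF_sq (Ψ : Fn →ₗ[ℂ] ℂ) (h : Fin 6 → ℂ) :
    Ψ (sq (hh h)) = BF (fun a b => Ψ (mon a b)) h h := BF_eq Ψ h h

theorem BF_congr {m m' : ℕ → ℕ → ℂ} (hm : ∀ a b, a ≤ 3 → b ≤ 3 → m a b = m' a b)
    (h h' : Fin 6 → ℂ) : BF m h h' = BF m' h h' := by
  unfold BF
  refine Finset.sum_congr rfl fun i _ => Finset.sum_congr rfl fun l _ => ?_
  rw [hm _ _ (by omega) (by omega)]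

theorem BF_add_left (m : ℕ → ℕ → ℂ) (g h h' : Fin 6 → ℂ) :
    BF m (g + h) h' = BF m g h' + BF m h h' := by
  unfold BF
  simp only [Pi.add_apply, ← Finset.sum_add_distrib]
  refine Finset.sum_congr rfl fun i _ => Finset.sum_congr rfl fun l _ => ?_
  ring

theorem BF_smul_left (m : ℕ → ℕ → ℂ) (z : ℂ) (h h' : Fin 6 → ℂ) :
    BF m (z • h) h' = z * BF m h h' := by
  unfold BF
  simp only [Pi.smul_apply, smul_eq_mul, Finset.mul_sum]
  refine Finset.sum_congr rfl fun i _ => Finset.sum_congr rfl fun l _ => ?_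
  ring

theorem BF_conj {m : ℕ → ℕ → ℂ} (hm : ∀ a b, m b a = conj (m a b)) (h h' : Fin 6 → ℂ) :
    BF m h' h = conj (BF m h h') := by
  unfold BF
  simp only [map_sum, map_mul, Complex.conj_conj]
  rw [Finset.sum_comm]
  refine Finset.sum_congr rfl fun i _ => Finset.sum_congr rfl fun l _ => ?_
  rw [← hm]
  ring

theorem BF_cont (m : ℕ → ℕ → ℂ) : Continuous fun h : Fin 6 → ℂ => (BF m h h).re := by
  unfold BF
  fun_prop

theorem mon_conj (a b : ℕ) : (fun x y => conj (mon a b x y) : Fn) = mon b a := by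
  funext x y
  unfold mon
  rw [map_mul, Complex.conj_conj, mul_comm]

theorem herm_mon {Φ : Fn →ₗ[ℂ] ℂ} (hΦ : Herm Φ) (a b : ℕ) : Φ (mon b a) = conj (Φ (mon a b)) := by
  rw [← mon_conj a b]
  exact hΦ _

/-- removing the component in the kernel -/
theorem BF_shift {m : ℕ → ℕ → ℂ} (hm : ∀ a b, m b a = conj (m a b)) {g : Fin 6 → ℂ}
    (hg : ∀ h', BF m g h' = 0) (w : Fin 6 → ℂ) : BF m (g + w) (g + w) = BF m w w := by
  rw [BF_add_left, hg, zero_add, BF_conj hm (g + w) w, BF_add_left, hg, zero_add,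
    ← BF_conj hm]

theorem BF_scale (m : ℕ → ℕ → ℂ) (hm : ∀ a b, m b a = conj (m a b)) (c : ℝ) (w : Fin 6 → ℂ) :
    (BF m ((c : ℂ) • w) ((c : ℂ) • w)).re = c ^ 2 * (BF m w w).re := by
  rw [BF_smul_left, BF_conj hm ((c : ℂ) • w) w, BF_smul_left, map_mul, Complex.conj_ofReal,
    ← BF_conj hm, ← mul_assoc, ← Complex.ofReal_mul, Complex.re_ofReal_mul]
  ring

/-- Hermitian matrices from real ones -/
noncomputable def mu (r : Fin 4 × Fin 4 → ℝ) (a b : ℕ) : ℂ :=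
  if h : a < 4 ∧ b < 4 then
    ((r (⟨a, h.1⟩, ⟨b, h.2⟩) + r (⟨b, h.2⟩, ⟨a, h.1⟩) : ℝ) : ℂ) +
      ((r (⟨a, h.1⟩, ⟨b, h.2⟩) - r (⟨b, h.2⟩, ⟨a, h.1⟩) : ℝ) : ℂ) * Complex.I
  else 0

theorem mu_herm (r : Fin 4 × Fin 4 → ℝ) (a b : ℕ) : mu r b a = conj (mu r a b) := by
  unfold mu
  by_cases h : a < 4 ∧ b < 4
  · rw [dif_pos h, dif_pos h.symm]
    simp only [map_add, map_mul, Complex.conj_ofReal, Complex.conj_I]
    push_cast
    ring
  · rw [dif_neg h, dif_neg (fun h' => h h'.symm), map_zero]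

theorem mu_add (r r' : Fin 4 × Fin 4 → ℝ) (a b : ℕ) : mu (r + r') a b = mu r a b + mu r' a b := by
  unfold mu
  by_cases h : a < 4 ∧ b < 4
  · simp only [dif_pos h, Pi.add_apply]
    push_cast
    ring
  · simp only [dif_neg h, add_zero]

theorem mu_smul (c : ℝ) (r : Fin 4 × Fin 4 → ℝ) (a b : ℕ) : mu (c • r) a b = c * mu r a b := by
  unfold mu
  by_cases h : a < 4 ∧ b < 4
  · simp only [dif_pos h, Pi.smul_apply, smul_eq_mul]
    push_cast
    ring
  · simp only [dif_neg h, mul_zero]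

/-- the real matrix of a Hermitian matrix -/
noncomputable def nu (m : ℕ → ℕ → ℂ) : Fin 4 × Fin 4 → ℝ :=
  fun q => ((m q.1 q.2).re + (m q.1 q.2).im) / 2

theorem nu_mu (r : Fin 4 × Fin 4 → ℝ) : nu (mu r) = r := by
  funext q
  obtain ⟨a, b⟩ := q
  unfold nu mu
  simp only [dif_pos (And.intro a.2 b.2), Complex.add_re, Complex.add_im, Complex.ofReal_re,
    Complex.ofReal_im, Complex.mul_re, Complex.mul_im, Complex.I_re, Complex.I_im, Fin.eta]
  ring

/-- the twelve real equations -/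
noncomputable def LL (g : Fin 6 → ℂ) : (Fin 4 × Fin 4 → ℝ) →ₗ[ℝ] (Fin 6 → ℂ) where
  toFun r := fun j => BF (mu r) g (Pi.single j 1)
  map_add' r r' := by
    funext j
    simp only [Pi.add_apply]
    unfold BF
    simp only [mu_add, ← Finset.sum_add_distrib]
    refine Finset.sum_congr rfl fun i _ => Finset.sum_congr rfl fun l _ => ?_
    ring
  map_smul' c r := by
    funext j
    simp only [Pi.smul_apply, RingHom.id_apply, Complex.real_smul]
    unfold BF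
    simp only [mu_smul, Finset.mul_sum]
    refine Finset.sum_congr rfl fun i _ => Finset.sum_congr rfl fun l _ => ?_
    ring

theorem BF_right (m : ℕ → ℕ → ℂ) (g h' : Fin 6 → ℂ) :
    BF m g h' = ∑ j, conj (h' j) * BF m g (Pi.single j 1) := by
  unfold BF
  have e : ∀ j : Fin 6, ∑ i : Fin 6, ∑ l : Fin 6, g i * conj ((Pi.single j 1 : Fin 6 → ℂ) l) *
      m (i.1 % 3 + l.1 / 3) (l.1 % 3 + i.1 / 3) =
      ∑ i : Fin 6, g i * m (i.1 % 3 + j.1 / 3) (j.1 % 3 + i.1 / 3) := by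
    intro j
    refine Finset.sum_congr rfl fun i _ => ?_
    rw [Finset.sum_eq_single j]
    · simp
    · intro l _ hl
      simp [hl]
    · intro h
      exact absurd (Finset.mem_univ _) h
  simp only [e, Finset.mul_sum]
  rw [Finset.sum_comm]
  refine Finset.sum_congr rfl fun i _ => Finset.sum_congr rfl fun l _ => ?_
  ring

/-- more than two solutions -/
theorem exists_sol (g : Fin 6 → ℂ) (r₀ : Fin 4 × Fin 4 → ℝ) :
    ∃ r, LL g r = 0 ∧ ∀ t : ℝ, r ≠ t • r₀ := by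
  by_contra hcon
  push Not at hcon
  have h1 : LinearMap.ker (LL g) ≤ Submodule.span ℝ {r₀} := by
    intro r hr
    obtain ⟨t, ht⟩ := hcon r (LinearMap.mem_ker.1 hr)
    rw [ht]
    exact Submodule.smul_mem _ _ (Submodule.mem_span_singleton_self _)
  have h2 : Module.finrank ℝ (LinearMap.ker (LL g)) ≤ 1 :=
    (Submodule.finrank_mono h1).trans ((finrank_span_le_card ({r₀} : Set (Fin 4 × Fin 4 → ℝ))).trans (by simp))
  have h3 := LinearMap.finrank_range_add_finrank_ker (LL g)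
  have h4 : Module.finrank ℝ (LinearMap.range (LL g)) ≤ 12 := by
    refine (Submodule.finrank_le _).trans (le_of_eq ?_)
    rw [Module.finrank_pi_fintype]
    simp [Complex.finrank_real_complex]
  have h5 : Module.finrank ℝ (Fin 4 × Fin 4 → ℝ) = 16 := by
    rw [Module.finrank_fintype_fun_eq_card]
    simp
  omega

/-- the kernel -/
noncomputable def KN (m : ℕ → ℕ → ℂ) : Submodule ℂ (Fin 6 → ℂ) where
  carrier := {g | ∀ h', BF m g h' = 0}
  add_mem' {g h} hg hh h' := by rw [BF_add_left, hg, hh, add_zero]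
  zero_mem' h' := by
    have := BF_smul_left m 0 0 h'
    rwa [zero_smul, zero_mul] at this
  smul_mem' c g hg h' := by rw [BF_smul_left, hg, mul_zero]

theorem pert {m m' : ℕ → ℕ → ℂ} (hm : ∀ a b, m b a = conj (m a b))
    (hm' : ∀ a b, m' b a = conj (m' a b)) (hpos : ∀ h, 0 ≤ (BF m h h).re)
    (hker : ∀ h, (BF m h h).re = 0 → h ∈ KN m) (hN : ∀ g ∈ KN m, g ∈ KN m') :
    ∃ ε : ℝ, 0 < ε ∧ ∀ h, 0 ≤ (1 / 2) * (BF m h h).re + ε * (BF m' h h).re ∧
      0 ≤ (1 / 2) * (BF m h h).re - ε * (BF m' h h).re := by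
  obtain ⟨W, hW⟩ := Submodule.exists_isCompl (KN m)
  have hK : IsCompact (Metric.sphere (0 : Fin 6 → ℂ) 1 ∩ (W : Set (Fin 6 → ℂ))) :=
    (isCompact_sphere 0 1).inter_right W.closed_of_finiteDimensional
  have hK1 : ∀ w ∈ Metric.sphere (0 : Fin 6 → ℂ) 1 ∩ (W : Set (Fin 6 → ℂ)),
      0 < (BF m w w).re := by
    rintro w ⟨hw1, hw2⟩
    refine lt_of_le_of_ne (hpos w) fun h0 => ?_
    have h1 := hker w h0.symm
    have h2 : w ∈ KN m ⊓ W := ⟨h1, hw2⟩
    rw [hW.inf_eq_bot, Submodule.mem_bot] at h2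
    rw [h2] at hw1
    simp at hw1
  obtain ⟨δ, hδ, hδ'⟩ := hK.exists_forall_le' (BF_cont m).continuousOn hK1
  obtain ⟨C, hC⟩ := hK.exists_bound_of_continuousOn (BF_cont m').continuousOn
  have hC0 : 0 < |C| + 1 := by positivity
  refine ⟨δ / (2 * (|C| + 1)), by positivity, fun h => ?_⟩
  obtain ⟨g, hg, w, hw, rfl⟩ : ∃ g ∈ KN m, ∃ w ∈ W, g + w = h := by
    have : h ∈ KN m ⊔ W := by rw [hW.sup_eq_top]; exact Submodule.mem_top
    exact Submodule.mem_sup.1 this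
  rw [BF_shift hm hg, BF_shift hm' (hN g hg)]
  by_cases hw0 : w = 0
  · have e : ∀ m : ℕ → ℕ → ℂ, BF m 0 0 = 0 := fun m => by
      have := BF_smul_left m 0 0 0
      rwa [zero_smul, zero_mul] at this
    rw [hw0, e, e]
    simp
  have hn : 0 < ‖w‖ := norm_pos_iff.2 hw0
  obtain ⟨u, hu⟩ : ∃ u, u = ((‖w‖⁻¹ : ℝ) : ℂ) • w := ⟨_, rfl⟩
  have hwu : w = ((‖w‖ : ℝ) : ℂ) • u := by
    rw [hu, smul_smul, ← Complex.ofReal_mul, mul_inv_cancel₀ hn.ne', Complex.ofReal_one, one_smul]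
  have huK : u ∈ Metric.sphere (0 : Fin 6 → ℂ) 1 ∩ (W : Set (Fin 6 → ℂ)) := by
    refine ⟨?_, ?_⟩
    · rw [mem_sphere_zero_iff_norm, hu, norm_smul, Complex.norm_real, norm_inv, norm_norm,
        inv_mul_cancel₀ hn.ne']
    · rw [hu]
      exact W.smul_mem _ hw
  have h1 := hδ' u huK
  have h2 := hC u huK
  rw [Real.norm_eq_abs] at h2
  have e1 : (BF m w w).re = ‖w‖ ^ 2 * (BF m u u).re := by
    conv_lhs => rw [hwu]
    exact BF_scale m hm _ _
  have e2 : (BF m' w w).re = ‖w‖ ^ 2 * (BF m' u u).re := by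
    conv_lhs => rw [hwu]
    exact BF_scale m' hm' _ _
  rw [e1, e2]
  have h3 : δ / (2 * (|C| + 1)) * |(BF m' u u).re| ≤ δ / 2 := by
    rw [div_mul_eq_mul_div, div_le_div_iff₀ (by positivity) (by norm_num)]
    have : |(BF m' u u).re| ≤ |C| + 1 := h2.trans ((le_abs_self C).trans (by linarith))
    nlinarith
  have h4 : |δ / (2 * (|C| + 1)) * (BF m' u u).re| ≤ δ / 2 := by
    rw [abs_mul, abs_of_pos (by positivity : 0 < δ / (2 * (|C| + 1)))]
    exact h3
  obtain ⟨h5, h6⟩ := abs_le.1 h4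
  have h7 : 0 ≤ ‖w‖ ^ 2 := by positivity
  constructor
  · have h8 : 0 ≤ (1 / 2) * (BF m u u).re + δ / (2 * (|C| + 1)) * (BF m' u u).re := by linarith
    have h9 := mul_nonneg h7 h8
    linarith
  · have h8 : 0 ≤ (1 / 2) * (BF m u u).re - δ / (2 * (|C| + 1)) * (BF m' u u).re := by linarith
    have h9 := mul_nonneg h7 h8
    linarith

end Pool.Agent.K9h78.S6.DimAux

namespace Pool.Agent.K9h78.S6

open DimAux

/-- the dimension count and the perturbation -/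
theorem dim (hKER : S_KER) (hEX : S_EX) : S_DIM := by
  intro Φ hH hP hE _
  by_contra hcon
  obtain ⟨m, hmdef⟩ : ∃ m : ℕ → ℕ → ℂ, m = fun a b => Φ (mon a b) := ⟨_, rfl⟩
  have hm : ∀ a b, m b a = conj (m a b) := fun a b => by rw [hmdef]; exact herm_mon hH a b
  have hQ : ∀ h, Φ (sq (hh h)) = BF m h h := fun h => by rw [hmdef]; exact BF_sq Φ h
  have hpos : ∀ h, 0 ≤ (BF m h h).re := fun h => by rw [← hQ]; exact hP h
  have hker : ∀ h, (BF m h h).re = 0 → h ∈ KN m := by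
    intro h h0 h'
    rw [← hQ] at h0
    have := hKER Φ hH hP h h0 h'
    rw [BF_eq] at this
    rw [hmdef]
    exact this
  have hker' : ∀ h ∈ KN m, (Φ (sq (hh h))).re = 0 := by
    intro h h0
    rw [hQ, h0 h, Complex.zero_re]
  -- the kernel is spanned by one vector
  obtain ⟨g, hg, hspan⟩ : ∃ g ∈ KN m, ∀ h ∈ KN m, ∃ c : ℂ, h = c • g := by
    by_cases h0 : ∃ g ∈ KN m, g ≠ 0
    · obtain ⟨g, hg, hg0⟩ := h0
      refine ⟨g, hg, fun h hh => ?_⟩
      by_contra hc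
      push Not at hc
      refine hcon ⟨g, h, fun s t hst => ?_, hker' g hg, hker' h hh⟩
      by_cases ht : t = 0
      · rw [ht, zero_smul, add_zero] at hst
        exact ⟨(smul_eq_zero.1 hst).resolve_right hg0, ht⟩
      · exfalso
        refine hc (-s / t) ?_
        have h1 : t • h = -(s • g) := by
          rw [eq_neg_iff_add_eq_zero, add_comm]
          exact hst
        have h2 : h = t⁻¹ • (t • h) := by rw [smul_smul, inv_mul_cancel₀ ht, one_smul]
        rw [h2, h1, smul_neg, smul_smul, neg_div, neg_smul, div_eq_inv_mul]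
    · push Not at h0
      exact ⟨0, (KN m).zero_mem, fun h hh => ⟨0, by rw [h0 h hh, zero_smul]⟩⟩
  obtain ⟨r, hr, hr'⟩ := exists_sol g (nu m)
  obtain ⟨Ψ, hΨH, hΨ⟩ := hEX (mu r) (fun a b => mu_herm r a b)
  obtain ⟨m', hm'def⟩ : ∃ m' : ℕ → ℕ → ℂ, m' = fun a b => Ψ (mon a b) := ⟨_, rfl⟩
  have hm' : ∀ a b, m' b a = conj (m' a b) := fun a b => by rw [hm'def]; exact herm_mon hΨH a b
  have hmm : ∀ a b, a ≤ 3 → b ≤ 3 → m' a b = mu r a b := fun a b ha hb => by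
    rw [hm'def]; exact hΨ a b ha hb
  have hN : ∀ h ∈ KN m, h ∈ KN m' := by
    intro h hh
    obtain ⟨c, rfl⟩ := hspan h hh
    refine (KN m').smul_mem c ?_
    intro h'
    rw [BF_congr hmm, BF_right]
    refine Finset.sum_eq_zero fun j _ => ?_
    have := congrFun hr j
    change BF (mu r) g (Pi.single j 1) = 0 at this
    rw [this, mul_zero]
  obtain ⟨ε, hε, hpert⟩ := pert hm hm' hpos hker hN
  obtain ⟨Θ, hΘ⟩ : ∃ Θ : Fn →ₗ[ℂ] ℂ, Θ = (((1 / 2 : ℝ) : ℂ)) • Φ + ((ε : ℝ) : ℂ) • Ψ := ⟨_, rfl⟩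
  have hΘv : ∀ f, Θ f = ((1 / 2 : ℝ) : ℂ) * Φ f + ((ε : ℝ) : ℂ) * Ψ f := fun f => by
    rw [hΘ]; rfl
  have hsqΨ : ∀ h, Ψ (sq (hh h)) = BF m' h h := fun h => by rw [hm'def]; exact BF_sq Ψ h
  have hΘH : Herm Θ := by
    intro f
    rw [hΘv, hΘv, hH f, hΨH f, map_add, map_mul, map_mul, Complex.conj_ofReal, Complex.conj_ofReal]
  have hΘP : P2 Θ := by
    intro h
    rw [hΘv, hQ, hsqΨ, Complex.add_re, Complex.re_ofReal_mul, Complex.re_ofReal_mul]
    exact (hpert h).1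
  have hΘP' : P2 (Φ - Θ) := by
    intro h
    rw [LinearMap.sub_apply, hΘv, hQ, hsqΨ, Complex.sub_re, Complex.add_re, Complex.re_ofReal_mul,
      Complex.re_ofReal_mul]
    have := (hpert h).2
    linarith
  obtain ⟨t, ht⟩ := hE Θ hΘH hΘP hΘP'
  refine hr' ((t - 1 / 2) / ε) ?_
  have hεC : ((ε : ℝ) : ℂ) ≠ 0 := by exact_mod_cast hε.ne'
  have key : ∀ a b, a ≤ 3 → b ≤ 3 → mu r a b = (((t - 1 / 2) / ε : ℝ) : ℂ) * m a b := by
    intro a b ha hb
    have h1 := ht a b ha hb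
    rw [hΘv, hΨ a b ha hb] at h1
    rw [hmdef]
    push_cast at h1 ⊢
    field_simp
    linear_combination 2 * h1
  rw [← nu_mu r]
  funext q
  obtain ⟨a, b⟩ := q
  simp only [nu, Pi.smul_apply, smul_eq_mul]
  rw [key a b (by omega) (by omega), Complex.re_ofReal_mul, Complex.im_ofReal_mul]
  ring

end Pool.Agent.K9h78.S6
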