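import Pool.Agent.K9h78.S6.Stm

/-! Leaf EM: existence of the functional of a pair of matrices. -/

set_option autoImplicit false
open ComplexConjugate Matrix

namespace Pool.Agent.K9h78.S6

/-- the words -/
abbrev EmW := Bool × Bool × Bool × Bool × Bool × Bool

/-- `A` or `B` -/
def emM {n : ℕ} (A B : Matrix (Fin n) (Fin n) ℂ) (i : Bool) : Matrix (Fin n) (Fin n) ℂ :=
  if i then B else A

noncomputable def emw {n : ℕ} (A B : Matrix (Fin n) (Fin n) ℂ) (x : EmW) : ℂ :=
  ((emM A B x.1)ᴴ * (emM A B x.2.1 * ((emM A B x.2.2.1)ᴴ * (emM A B x.2.2.2.1 *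
    ((emM A B x.2.2.2.2.1)ᴴ * emM A B x.2.2.2.2.2))))).trace

def emN (x : EmW) : ℕ := x.2.1.toNat + x.2.2.2.1.toNat + x.2.2.2.2.2.toNat

def emN' (x : EmW) : ℕ := x.1.toNat + x.2.2.1.toNat + x.2.2.2.2.1.toNat

def emR : EmW ≃ EmW where
  toFun x := (x.2.2.2.2.2, x.2.2.2.2.1, x.2.2.2.1, x.2.2.1, x.2.1, x.1)
  invFun x := (x.2.2.2.2.2, x.2.2.2.2.1, x.2.2.2.1, x.2.2.1, x.2.1, x.1)
  left_inv _ := rfl
  right_inv _ := rfl

theorem emN_R (x : EmW) : emN (emR x) = emN' x := by
  unfold emN emN' emR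
  simp only [Equiv.coe_fn_mk]
  ring

theorem emN'_R (x : EmW) : emN' (emR x) = emN x := by
  unfold emN emN' emR
  simp only [Equiv.coe_fn_mk]
  ring

theorem emN_lt (x : EmW) : emN x < 4 := by
  unfold emN
  have h1 := Bool.toNat_le x.2.1
  have h2 := Bool.toNat_le x.2.2.2.1
  have h3 := Bool.toNat_le x.2.2.2.2.2
  omega

theorem emN'_lt (x : EmW) : emN' x < 4 := by
  rw [← emN_R]
  exact emN_lt _

theorem emw_conj {n : ℕ} (A B : Matrix (Fin n) (Fin n) ℂ) (x : EmW) :
    conj (emw A B x) = emw A B (emR x) := by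
  unfold emw
  rw [starRingEnd_apply, ← Matrix.trace_conjTranspose]
  simp only [Matrix.conjTranspose_mul, Matrix.conjTranspose_conjTranspose, Matrix.mul_assoc]
  rfl

noncomputable def emm {n : ℕ} (A B : Matrix (Fin n) (Fin n) ℂ) (a b : ℕ) : ℂ :=
  (∑ x : EmW, (if emN x = a then (1 : ℂ) else 0) * (if emN' x = b then (1 : ℂ) else 0) * emw A B x) /
    ((Nat.choose 3 a : ℂ) * (Nat.choose 3 b : ℂ))

theorem emm_symm {n : ℕ} (A B : Matrix (Fin n) (Fin n) ℂ) (a b : ℕ) :
    emm A B b a = conj (emm A B a b) := by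
  unfold emm
  rw [map_div₀, map_mul, Complex.conj_natCast, Complex.conj_natCast, map_sum]
  have : ∑ x : EmW, (if emN x = b then (1 : ℂ) else 0) * (if emN' x = a then (1 : ℂ) else 0) *
      emw A B x = ∑ x : EmW, conj ((if emN x = a then (1 : ℂ) else 0) *
        (if emN' x = b then (1 : ℂ) else 0) * emw A B x) := by
    symm
    refine Fintype.sum_equiv emR _ _ fun x => ?_
    rw [map_mul, map_mul, emw_conj, emN_R, emN'_R]
    have e1 : conj (if emN x = a then (1 : ℂ) else 0) = if emN x = a then (1 : ℂ) else 0 := by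
      split_ifs <;> simp
    have e2 : conj (if emN' x = b then (1 : ℂ) else 0) = if emN' x = b then (1 : ℂ) else 0 := by
      split_ifs <;> simp
    rw [e1, e2]
    ring
  rw [this]
  ring

/-- the coefficient of a word -/
noncomputable def emc (α β : ℂ) (x : EmW) : ℂ :=
  (α ^ (3 - emN x) * β ^ emN x) * conj (α ^ (3 - emN' x) * β ^ emN' x)

theorem em_trace {n : ℕ} (A B : Matrix (Fin n) (Fin n) ℂ) (α β : ℂ) :
    (((α • A + β • B)ᴴ * (α • A + β • B)) ^ 3).trace = ∑ x : EmW, emc α β x * emw A B x := by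
  simp only [pow_succ, pow_zero, one_mul, Matrix.conjTranspose_add, Matrix.conjTranspose_smul,
    Matrix.mul_add, Matrix.add_mul, Matrix.smul_mul, Matrix.mul_smul, smul_smul, Matrix.trace_add,
    Matrix.trace_smul, Matrix.mul_assoc, smul_eq_mul, smul_add]
  simp only [Fintype.sum_prod_type, Fintype.sum_bool, emc, emw, emN, emN', emM, Bool.toNat_true,
    Bool.toNat_false, if_true, if_false, Bool.false_eq_true]
  norm_num
  simp only [starRingEnd_apply]
  ring

theorem em_sq (α β : ℂ) : sq (fun x y => (α * x + β * y) ^ 3) =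
    ∑ a ∈ Finset.range 4, ∑ b ∈ Finset.range 4,
      ((Nat.choose 3 a : ℂ) * (Nat.choose 3 b : ℂ) * ((α ^ (3 - a) * β ^ a) *
        conj (α ^ (3 - b) * β ^ b))) • mon a b := by
  funext x y
  simp only [Finset.sum_range_succ, Finset.sum_range_zero, sq, mon, Pi.add_apply, Pi.smul_apply,
    Pi.zero_apply, smul_eq_mul, map_pow, map_add, map_mul]
  norm_num [Nat.choose]
  ring

theorem em (hex : S_EX) : S_EM := by
  intro n A B
  obtain ⟨Φ, hH, hm⟩ := hex (emm A B) (fun a b => emm_symm A B a b)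
  refine ⟨Φ, hH, fun α β => ?_⟩
  rw [em_trace, em_sq, map_sum]
  have h1 : ∀ a ∈ Finset.range 4, Φ (∑ b ∈ Finset.range 4,
      ((Nat.choose 3 a : ℂ) * (Nat.choose 3 b : ℂ) * ((α ^ (3 - a) * β ^ a) *
        conj (α ^ (3 - b) * β ^ b))) • mon a b) = ∑ b ∈ Finset.range 4, ∑ x : EmW,
      ((if emN x = a then (1 : ℂ) else 0) * (α ^ (3 - a) * β ^ a)) *
      ((if emN' x = b then (1 : ℂ) else 0) * conj (α ^ (3 - b) * β ^ b)) * emw A B x := by
    intro a ha
    rw [map_sum]
    refine Finset.sum_congr rfl fun b hb => ?_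
    rw [Finset.mem_range] at ha hb
    rw [map_smul, hm a b (by omega) (by omega), smul_eq_mul, emm]
    have ha0 : (Nat.choose 3 a : ℂ) ≠ 0 := by
      have := Nat.choose_pos (n := 3) (k := a) (by omega)
      exact_mod_cast this.ne'
    have hb0 : (Nat.choose 3 b : ℂ) ≠ 0 := by
      have := Nat.choose_pos (n := 3) (k := b) (by omega)
      exact_mod_cast this.ne'
    have e : ∀ S : ℂ, (Nat.choose 3 a : ℂ) * (Nat.choose 3 b : ℂ) * ((α ^ (3 - a) * β ^ a) *
        conj (α ^ (3 - b) * β ^ b)) * (S / ((Nat.choose 3 a : ℂ) * (Nat.choose 3 b : ℂ))) =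
        ((α ^ (3 - a) * β ^ a) * conj (α ^ (3 - b) * β ^ b)) * S := by
      intro S
      field_simp
    rw [e, Finset.mul_sum]
    refine Finset.sum_congr rfl fun x _ => ?_
    ring
  rw [Finset.sum_congr rfl h1]
  have h2 : ∀ a ∈ Finset.range 4, (∑ b ∈ Finset.range 4, ∑ x : EmW,
      ((if emN x = a then (1 : ℂ) else 0) * (α ^ (3 - a) * β ^ a)) *
      ((if emN' x = b then (1 : ℂ) else 0) * conj (α ^ (3 - b) * β ^ b)) * emw A B x) =
      ∑ x : EmW, ((if emN x = a then (1 : ℂ) else 0) * (α ^ (3 - a) * β ^ a)) *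
        (conj (α ^ (3 - emN' x) * β ^ emN' x) * emw A B x) := by
    intro a _
    rw [Finset.sum_comm]
    refine Finset.sum_congr rfl fun x _ => ?_
    rw [← Finset.sum_mul, ← Finset.mul_sum]
    have : ∑ b ∈ Finset.range 4, (if emN' x = b then (1 : ℂ) else 0) *
        conj (α ^ (3 - b) * β ^ b) = conj (α ^ (3 - emN' x) * β ^ emN' x) := by
      simp only [ite_mul, one_mul, zero_mul]
      rw [Finset.sum_ite_eq, if_pos (Finset.mem_range.2 (emN'_lt x))]
    rw [this]
    ring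
  rw [Finset.sum_congr rfl h2, Finset.sum_comm]
  refine Finset.sum_congr rfl fun x _ => ?_
  rw [← Finset.sum_mul]
  have : ∑ a ∈ Finset.range 4, (if emN x = a then (1 : ℂ) else 0) *
      (α ^ (3 - a) * β ^ a) = α ^ (3 - emN x) * β ^ emN x := by
    simp only [ite_mul, one_mul, zero_mul]
    rw [Finset.sum_ite_eq, if_pos (Finset.mem_range.2 (emN_lt x))]
  rw [this, emc]
  ring

end Pool.Agent.K9h78.S6
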