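import Pool.Agent.K9h78.S6.Stm

/-!
# Leaf HK of MP_41c25d_an (`p = 6`): the Hankel case (helper1)
-/

set_option autoImplicit false
open ComplexConjugate Matrix

namespace Pool.Agent.K9h78.S6

namespace HKleaf

theorem sq_hh_eq (h : Fin 6 → ℂ) : sq (hh h) =
    sq (cub ![h 0, h 1 + h 3, h 2 + h 4, h 5]) +
      ∑ i : Fin 3, ∑ j : Fin 3,
        ((![h 0, h 1, h 2] : Fin 3 → ℂ) i * conj ((![h 3, h 4, h 5] : Fin 3 → ℂ) j) -
          (![h 3, h 4, h 5] : Fin 3 → ℂ) i * conj ((![h 0, h 1, h 2] : Fin 3 → ℂ) j)) •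
          (mon ((i : ℕ) + 1) (j : ℕ) - mon (i : ℕ) ((j : ℕ) + 1)) := by
  funext x y
  simp only [sq, hh, cub, mon, Fin.sum_univ_three, Pi.add_apply, Pi.smul_apply, Pi.sub_apply,
    smul_eq_mul, map_add, map_mul, map_pow, Matrix.cons_val_zero, Matrix.cons_val_one,
    Matrix.cons_val, Complex.conj_conj, Fin.val_zero, Fin.val_one, Fin.val_two]
  norm_num
  ring

theorem phi_sq_hh (Φ : Fn →ₗ[ℂ] ℂ)
    (hH : ∀ a b : ℕ, a ≤ 2 → b ≤ 2 → Φ (mon (a + 1) b) = Φ (mon a (b + 1))) (h : Fin 6 → ℂ) :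
    Φ (sq (hh h)) = Φ (sq (cub ![h 0, h 1 + h 3, h 2 + h 4, h 5])) := by
  rw [sq_hh_eq, map_add, map_sum]
  rw [Finset.sum_eq_zero, add_zero]
  intro i _
  rw [map_sum]
  refine Finset.sum_eq_zero fun j _ => ?_
  rw [map_smul, map_sub, hH i j (by omega) (by omega), sub_self, smul_zero]

theorem sq_cub_eq (c : Fin 4 → ℂ) : sq (cub c) =
    ∑ i : Fin 4, ∑ j : Fin 4, (c i * conj (c j)) • mon (i : ℕ) (j : ℕ) := by
  funext x y
  simp only [sq, cub, mon, Fin.sum_univ_four, Pi.add_apply, Pi.smul_apply,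
    smul_eq_mul, map_add, map_mul, map_pow, Fin.val_zero, Fin.val_one, Fin.val_two]
  norm_num
  ring

theorem phi_sq_cub (Φ : Fn →ₗ[ℂ] ℂ) (c : Fin 4 → ℂ) : Φ (sq (cub c)) =
    ∑ i : Fin 4, ∑ j : Fin 4, (c i * conj (c j)) * Φ (mon (i : ℕ) (j : ℕ)) := by
  rw [sq_cub_eq, map_sum]
  refine Finset.sum_congr rfl fun i _ => ?_
  rw [map_sum]
  refine Finset.sum_congr rfl fun j _ => ?_
  rw [map_smul, smul_eq_mul]

theorem exists_eps (Φ : Fn →ₗ[ℂ] ℂ) (hP : Pos Φ) :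
    ∃ ε : ℝ, 0 < ε ∧ ∀ c : Fin 4 → ℂ, ε * ‖c 0‖ ^ 2 ≤ (Φ (sq (cub c))).re := by
  have hcont : Continuous fun c : Fin 4 → ℂ => (Φ (sq (cub c))).re := by
    have : (fun c : Fin 4 → ℂ => (Φ (sq (cub c))).re) = fun c =>
      (∑ i : Fin 4, ∑ j : Fin 4, (c i * conj (c j)) * Φ (mon (i : ℕ) (j : ℕ))).re := by
      funext c
      rw [phi_sq_cub]
    rw [this]
    refine Complex.continuous_re.comp ?_
    refine continuous_finsetSum _ fun i _ => continuous_finsetSum _ fun j _ => ?_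
    exact ((continuous_apply i).mul (Complex.continuous_conj.comp (continuous_apply j))).mul
      continuous_const
  have hne : (Metric.sphere (0 : Fin 4 → ℂ) 1).Nonempty :=
    NormedSpace.sphere_nonempty.2 zero_le_one
  obtain ⟨c₀, hc₀, hmin⟩ := (isCompact_sphere (0 : Fin 4 → ℂ) 1).exists_isMinOn hne
    hcont.continuousOn
  have hc₀0 : c₀ ≠ 0 := by
    rintro rfl
    simp at hc₀
  refine ⟨(Φ (sq (cub c₀))).re, hP c₀ hc₀0, fun c => ?_⟩
  by_cases hc : c = 0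
  · subst hc
    rw [phi_sq_cub Φ 0]
    simp
  · have hn : 0 < ‖c‖ := norm_pos_iff.2 hc
    set u : Fin 4 → ℂ := ((‖c‖⁻¹ : ℝ) : ℂ) • c with hu
    have hus : u ∈ Metric.sphere (0 : Fin 4 → ℂ) 1 := by
      rw [mem_sphere_zero_iff_norm, hu, norm_smul, Complex.norm_real, norm_inv, norm_norm,
        inv_mul_cancel₀ hn.ne']
    have h1 : (Φ (sq (cub c₀))).re ≤ (Φ (sq (cub u))).re := hmin hus
    have h2 : Φ (sq (cub c)) = ((‖c‖ ^ 2 : ℝ) : ℂ) * Φ (sq (cub u)) := by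
      rw [phi_sq_cub, phi_sq_cub, Finset.mul_sum]
      refine Finset.sum_congr rfl fun i _ => ?_
      rw [Finset.mul_sum]
      refine Finset.sum_congr rfl fun j _ => ?_
      have hcn : ((‖c‖ : ℝ) : ℂ) ≠ 0 := by exact_mod_cast hn.ne'
      simp only [hu, Pi.smul_apply, smul_eq_mul, map_mul, Complex.conj_ofReal]
      push_cast
      field_simp
    rw [h2, Complex.re_ofReal_mul]
    have h3 : ‖c 0‖ ≤ ‖c‖ := norm_le_pi_norm c 0
    have h4 : ‖c 0‖ ^ 2 ≤ ‖c‖ ^ 2 := by gcongr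
    calc (Φ (sq (cub c₀))).re * ‖c 0‖ ^ 2 ≤ (Φ (sq (cub c₀))).re * ‖c‖ ^ 2 :=
          mul_le_mul_of_nonneg_left h4 (hP c₀ hc₀0).le
      _ ≤ ‖c‖ ^ 2 * (Φ (sq (cub u))).re := by
          rw [mul_comm]
          exact mul_le_mul_of_nonneg_left h1 (by positivity)

end HKleaf

open HKleaf in
theorem hk : S_HK := by
  intro Φ hHerm hP2 hPos hExt hH
  obtain ⟨ε, hε, hc⟩ := exists_eps Φ hPos
  set Ψ : Fn →ₗ[ℂ] ℂ := ((ε : ℝ) : ℂ) • ev 1 0 with hΨ
  have hΨa : ∀ f : Fn, Ψ f = (ε : ℂ) * f 1 0 := fun f => rfl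
  have hs : ∀ h : Fin 6 → ℂ, Ψ (sq (hh h)) = ((ε * ‖h 0‖ ^ 2 : ℝ) : ℂ) := by
    intro h
    rw [hΨa]
    simp only [sq, hh]
    have : h 0 * conj (h 0) = ((‖h 0‖ ^ 2 : ℝ) : ℂ) := by
      rw [Complex.mul_conj, Complex.normSq_eq_norm_sq]
    push_cast
    push_cast at this
    rw [← this]
    simp
  have h1 : Herm Ψ := by
    intro f
    rw [hΨa, hΨa, map_mul, Complex.conj_ofReal]
  have h2 : P2 Ψ := by
    intro h
    rw [hs, Complex.ofReal_re]
    positivity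
  have h3 : P2 (Φ - Ψ) := by
    intro h
    rw [LinearMap.sub_apply, Complex.sub_re, hs, Complex.ofReal_re, phi_sq_hh Φ hH]
    have := hc ![h 0, h 1 + h 3, h 2 + h 4, h 5]
    simp only [Matrix.cons_val_zero] at this
    linarith
  obtain ⟨t, ht⟩ := hExt Ψ h1 h2 h3
  have h33 := ht 3 3 le_rfl le_rfl
  have h00 := ht 0 0 (by norm_num) (by norm_num)
  have e33 : Ψ (mon 3 3) = 0 := by
    rw [hΨa]; simp [mon]
  have e00 : Ψ (mon 0 0) = (ε : ℂ) := by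
    rw [hΨa]; simp [mon]
  have p33 : 0 < (Φ (mon 3 3)).re := by
    have := hPos ![0, 0, 0, 1] (by
      intro h0
      have := congrFun h0 3
      simp at this)
    have hf : sq (cub ![0, 0, 0, 1]) = mon 3 3 := by
      funext x y
      simp [sq, cub, mon]
    rwa [hf] at this
  rw [e33] at h33
  rw [e00] at h00
  have ht0 : t = 0 := by
    rcases mul_eq_zero.1 h33.symm with h | h
    · exact_mod_cast h
    · rw [h] at p33
      simp at p33
  rw [ht0] at h00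
  have : (ε : ℂ) = 0 := by rw [h00]; simp
  exact hε.ne' (by exact_mod_cast this)

end Pool.Agent.K9h78.S6
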