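import Pool.Agent.K9h78.S6.Stm

set_option autoImplicit false
open ComplexConjugate Matrix

namespace Pool.Agent.K9h78.S6.HN89

/-- the real form times a monomial of bidegree `(2,2)` -/
noncomputable def N (α δ : ℝ) (β : ℂ) (s t : ℕ) : Fn := fun x y =>
  gf α δ β x y * (x ^ (2 - s) * y ^ s * conj (x ^ (2 - t) * y ^ t))

theorem quad (p q r s : ℂ) (a : ℕ) (ha : a ≤ 2) : ∃ A : Fin 3 → ℂ, ∀ x y : ℂ,
    (p * x + q * y) ^ (2 - a) * (r * x + s * y) ^ a = A 0 * x ^ 2 + A 1 * (x * y) + A 2 * y ^ 2 := by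
  interval_cases a
  · refine ⟨![p ^ 2, 2 * p * q, q ^ 2], fun x y => ?_⟩
    simp only [Nat.sub_zero, Matrix.cons_val]
    ring
  · refine ⟨![p * r, p * s + q * r, q * s], fun x y => ?_⟩
    simp only [Nat.reduceSub, Matrix.cons_val]
    ring
  · refine ⟨![r ^ 2, 2 * r * s, s ^ 2], fun x y => ?_⟩
    simp only [Nat.sub_self, Matrix.cons_val]
    ring

theorem key (Φ : Fn →ₗ[ℂ] ℂ) (α δ : ℝ) (β : ℂ)
    (hN : ∀ s t : ℕ, s ≤ 2 → t ≤ 2 → Φ (N α δ β s t) = 0) (p q r s κ : ℂ)
    (hid : ∀ x y : ℂ, (r * x + s * y) * conj (p * x + q * y) -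
      (p * x + q * y) * conj (r * x + s * y) = κ * gf α δ β x y) (a b : ℕ) (ha : a ≤ 2)
    (hb : b ≤ 2) :
    pull p q r s Φ (mon (a + 1) b) = pull p q r s Φ (mon a (b + 1)) := by
  obtain ⟨A, hA⟩ := quad p q r s a ha
  obtain ⟨B, hB⟩ := quad p q r s b hb
  have h1 : (fun x y : ℂ => mon (a + 1) b (p * x + q * y) (r * x + s * y)) =
      (fun x y : ℂ => mon a (b + 1) (p * x + q * y) (r * x + s * y)) +
      ((κ * (A 0 * conj (B 0))) • N α δ β 0 0 + (κ * (A 0 * conj (B 1))) • N α δ β 0 1 +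
       (κ * (A 0 * conj (B 2))) • N α δ β 0 2 + (κ * (A 1 * conj (B 0))) • N α δ β 1 0 +
       (κ * (A 1 * conj (B 1))) • N α δ β 1 1 + (κ * (A 1 * conj (B 2))) • N α δ β 1 2 +
       (κ * (A 2 * conj (B 0))) • N α δ β 2 0 + (κ * (A 2 * conj (B 1))) • N α δ β 2 1 +
       (κ * (A 2 * conj (B 2))) • N α δ β 2 2) := by
    funext x y
    have e1 : mon (a + 1) b (p * x + q * y) (r * x + s * y) =
        ((p * x + q * y) ^ (2 - a) * (r * x + s * y) ^ a) *
        conj ((p * x + q * y) ^ (2 - b) * (r * x + s * y) ^ b) *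
        ((r * x + s * y) * conj (p * x + q * y)) := by
      have h2 : 3 - (a + 1) = 2 - a := by omega
      have h3 : 3 - b = 2 - b + 1 := by omega
      simp only [mon, h2, h3, pow_succ, map_mul]
      ring
    have e2 : mon a (b + 1) (p * x + q * y) (r * x + s * y) =
        ((p * x + q * y) ^ (2 - a) * (r * x + s * y) ^ a) *
        conj ((p * x + q * y) ^ (2 - b) * (r * x + s * y) ^ b) *
        ((p * x + q * y) * conj (r * x + s * y)) := by
      have h2 : 3 - (b + 1) = 2 - b := by omega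
      have h3 : 3 - a = 2 - a + 1 := by omega
      simp only [mon, h2, h3, pow_succ, map_mul]
      ring
    have e3 : (r * x + s * y) * conj (p * x + q * y) =
        (p * x + q * y) * conj (r * x + s * y) + κ * gf α δ β x y := by
      rw [← hid]; ring
    simp only [Pi.add_apply, Pi.smul_apply, smul_eq_mul, e1, e2]
    rw [e3, hA, hB]
    simp only [N, map_add, map_mul, map_pow, Nat.sub_zero, Nat.reduceSub, Nat.sub_self, pow_zero,
      one_mul, mul_one, pow_one]
    ring
  show Φ (fun x y : ℂ => mon (a + 1) b (p * x + q * y) (r * x + s * y)) =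
    Φ (fun x y : ℂ => mon a (b + 1) (p * x + q * y) (r * x + s * y))
  rw [h1]
  simp only [map_add, map_smul, smul_eq_mul]
  rw [hN 0 0 (by omega) (by omega), hN 0 1 (by omega) (by omega), hN 0 2 (by omega) (by omega),
    hN 1 0 (by omega) (by omega), hN 1 1 (by omega) (by omega), hN 1 2 (by omega) (by omega),
    hN 2 0 (by omega) (by omega), hN 2 1 (by omega) (by omega), hN 2 2 (by omega) (by omega)]
  simp

theorem leaf : S_HN := by
  intro Φ _ α δ β hind hN'
  have hN : ∀ s t : ℕ, s ≤ 2 → t ≤ 2 → Φ (N α δ β s t) = 0 := hN'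
  obtain ⟨w, hw0, hw⟩ : ∃ w : ℝ, 0 < w ∧ w ^ 2 = ‖β‖ ^ 2 - α * δ :=
    ⟨Real.sqrt (‖β‖ ^ 2 - α * δ), Real.sqrt_pos.2 (by linarith), Real.sq_sqrt (by linarith)⟩
  have hwC : (w : ℂ) ^ 2 = β * conj β - α * δ := by
    rw [Complex.mul_conj, Complex.normSq_eq_norm_sq]
    exact_mod_cast hw
  have hw0' : (w : ℂ) ≠ 0 := by exact_mod_cast hw0.ne'
  by_cases hα : α = 0
  · by_cases hδ : δ = 0
    · have hβ : β ≠ 0 := by
        rintro rfl
        simp [hα, hδ] at hind
      refine ⟨1, 0, 0, Complex.I * β, by simp [hβ], key Φ α δ β hN _ _ _ _ Complex.I ?_⟩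
      intro x y
      simp only [gf, hα, hδ, map_add, map_mul, Complex.conj_I, map_one, map_zero,
        Complex.ofReal_zero]
      ring
    · refine ⟨conj β - w, δ, Complex.I * (conj β + w), Complex.I * δ, ?_,
        key Φ α δ β hN _ _ _ _ (2 * Complex.I * δ) ?_⟩
      · have hδ' : (δ : ℂ) ≠ 0 := by exact_mod_cast hδ
        have : (conj β - w) * (Complex.I * δ) - δ * (Complex.I * (conj β + w)) =
          -(2 * Complex.I * δ * w) := by ring
        rw [this]
        exact neg_ne_zero.2 (mul_ne_zero (mul_ne_zero (mul_ne_zero two_ne_zero Complex.I_ne_zero)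
          hδ') hw0')
      · intro x y
        simp only [gf, map_add, map_sub, map_mul, Complex.conj_I, Complex.conj_ofReal,
          Complex.conj_conj]
        linear_combination (-2 * Complex.I * x * conj x) * hwC
  · refine ⟨α, β - w, Complex.I * α, Complex.I * (β + w), ?_,
      key Φ α δ β hN _ _ _ _ (2 * Complex.I * α) ?_⟩
    · have hα' : (α : ℂ) ≠ 0 := by exact_mod_cast hα
      have : (α : ℂ) * (Complex.I * (β + w)) - (β - w) * (Complex.I * α) =
        2 * Complex.I * α * w := by ring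
      rw [this]
      exact mul_ne_zero (mul_ne_zero (mul_ne_zero two_ne_zero Complex.I_ne_zero) hα') hw0'
    · intro x y
      simp only [gf, map_add, map_sub, map_mul, Complex.conj_I, Complex.conj_ofReal]
      linear_combination (-2 * Complex.I * y * conj y) * hwC

end Pool.Agent.K9h78.S6.HN89

namespace Pool.Agent.K9h78.S6

theorem hn : S_HN := HN89.leaf

end Pool.Agent.K9h78.S6
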