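import Pool.Agent.K9h78.S6.Stm

/-! Leaf K1: triple root. -/

set_option autoImplicit false
open ComplexConjugate

namespace Pool.Agent.K9h78.S6

theorem k1_aux (hker : S_KER) (Φ : Fn →ₗ[ℂ] ℂ) (hH : Herm Φ) (hP : P2 Φ) (h h' : Fin 6 → ℂ)
    (f g : Fn) (e1 : sq (hh h) = f) (e2 : (Φ f).re = 0)
    (e3 : (fun x y => hh h x y * conj (hh h' x y)) = g) : Φ g = 0 := by
  subst e1
  subst e3
  exact hker Φ hH hP h e2 h'

theorem k1_ev (w : ℝ) (hw : 0 ≤ w) (a b : ℕ) (ha : a ≤ 3) (hb : b ≤ 3) :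
    mon a b 0 ((w ^ (1 / 6 : ℝ) : ℝ) : ℂ) = if a = 3 ∧ b = 3 then (w : ℂ) else 0 := by
  unfold mon
  by_cases h1 : a = 3
  · by_cases h2 : b = 3
    · subst h1 h2
      rw [if_pos ⟨rfl, rfl⟩]
      simp only [Nat.sub_self, pow_zero, one_mul]
      rw [← Complex.ofReal_pow, Complex.conj_ofReal, ← Complex.ofReal_mul, ← pow_add,
        ← Real.rpow_natCast, ← Real.rpow_mul hw]
      norm_num
    · rw [if_neg (fun h => h2 h.2)]
      have : 3 - b ≠ 0 := by omega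
      simp [this]
  · rw [if_neg (fun h => h1 h.1)]
    have : 3 - a ≠ 0 := by omega
    simp [this]

theorem k1 (hker : S_KER) : S_K1 := by
  intro Φ hH hP h0
  have key := k1_aux hker Φ hH hP
  have m00 : Φ (mon 0 0) = 0 := key ![1, 0, 0, 0, 0, 0] ![1, 0, 0, 0, 0, 0] _ _
    (by funext x y; simp [sq, hh]; ring) h0 (by funext x y; simp [mon, hh]; ring)
  have m01 : Φ (mon 0 1) = 0 := key ![1, 0, 0, 0, 0, 0] ![0, 1, 0, 0, 0, 0] _ _
    (by funext x y; simp [sq, hh]; ring) h0 (by funext x y; simp [mon, hh]; ring)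
  have m02 : Φ (mon 0 2) = 0 := key ![1, 0, 0, 0, 0, 0] ![0, 0, 1, 0, 0, 0] _ _
    (by funext x y; simp [sq, hh]; ring) h0 (by funext x y; simp [mon, hh]; ring)
  have m10 : Φ (mon 1 0) = 0 := key ![1, 0, 0, 0, 0, 0] ![0, 0, 0, 1, 0, 0] _ _
    (by funext x y; simp [sq, hh]; ring) h0 (by funext x y; simp [mon, hh]; ring)
  have m11 : Φ (mon 1 1) = 0 := key ![1, 0, 0, 0, 0, 0] ![0, 0, 0, 0, 1, 0] _ _
    (by funext x y; simp [sq, hh]; ring) h0 (by funext x y; simp [mon, hh]; ring)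
  have m12 : Φ (mon 1 2) = 0 := key ![1, 0, 0, 0, 0, 0] ![0, 0, 0, 0, 0, 1] _ _
    (by funext x y; simp [sq, hh]; ring) h0 (by funext x y; simp [mon, hh]; ring)
  have r11 : (Φ (mon 1 1)).re = 0 := by rw [m11]; simp
  have m03 : Φ (mon 0 3) = 0 := key ![0, 0, 0, 1, 0, 0] ![0, 0, 1, 0, 0, 0] _ _
    (by funext x y; simp [sq, hh, mon]; ring) r11 (by funext x y; simp [mon, hh]; ring)
  have m13 : Φ (mon 1 3) = 0 := key ![0, 0, 0, 1, 0, 0] ![0, 0, 0, 0, 0, 1] _ _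
    (by funext x y; simp [sq, hh, mon]; ring) r11 (by funext x y; simp [mon, hh]; ring)
  have m20 : Φ (mon 2 0) = 0 := key ![0, 1, 0, 0, 0, 0] ![0, 0, 0, 1, 0, 0] _ _
    (by funext x y; simp [sq, hh, mon]; ring) r11 (by funext x y; simp [mon, hh]; ring)
  have m21 : Φ (mon 2 1) = 0 := key ![0, 1, 0, 0, 0, 0] ![0, 0, 0, 0, 1, 0] _ _
    (by funext x y; simp [sq, hh, mon]; ring) r11 (by funext x y; simp [mon, hh]; ring)
  have m22 : Φ (mon 2 2) = 0 := key ![0, 1, 0, 0, 0, 0] ![0, 0, 0, 0, 0, 1] _ _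
    (by funext x y; simp [sq, hh, mon]; ring) r11 (by funext x y; simp [mon, hh]; ring)
  have r22 : (Φ (mon 2 2)).re = 0 := by rw [m22]; simp
  have m23 : Φ (mon 2 3) = 0 := key ![0, 0, 0, 0, 1, 0] ![0, 0, 0, 0, 0, 1] _ _
    (by funext x y; simp [sq, hh, mon]; ring) r22 (by funext x y; simp [mon, hh]; ring)
  have m30 : Φ (mon 3 0) = 0 := key ![0, 0, 1, 0, 0, 0] ![0, 0, 0, 1, 0, 0] _ _
    (by funext x y; simp [sq, hh, mon]; ring) r22 (by funext x y; simp [mon, hh]; ring)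
  have m31 : Φ (mon 3 1) = 0 := key ![0, 0, 1, 0, 0, 0] ![0, 0, 0, 0, 1, 0] _ _
    (by funext x y; simp [sq, hh, mon]; ring) r22 (by funext x y; simp [mon, hh]; ring)
  have m32 : Φ (mon 3 2) = 0 := key ![0, 0, 1, 0, 0, 0] ![0, 0, 0, 0, 0, 1] _ _
    (by funext x y; simp [sq, hh, mon]; ring) r22 (by funext x y; simp [mon, hh]; ring)
  have p33 : 0 ≤ (Φ (mon 3 3)).re := by
    have h := hP ![0, 0, 0, 0, 0, 1]
    have e : sq (hh ![0, 0, 0, 0, 0, 1]) = mon 3 3 := by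
      funext x y
      simp [sq, hh, mon]
      ring
    rwa [e] at h
  have r33 : Φ (mon 3 3) = ((Φ (mon 3 3)).re : ℂ) := by
    have h := hH (mon 3 3)
    have e : (fun x y => conj (mon 3 3 x y)) = mon 3 3 := by
      funext x y
      simp [mon]
      ring
    rw [e] at h
    exact (Complex.conj_eq_iff_re.1 h.symm).symm
  refine ⟨1, fun _ => 0, fun _ => (((Φ (mon 3 3)).re ^ (1 / 6 : ℝ) : ℝ) : ℂ), fun a b ha hb => ?_⟩
  rw [Fin.sum_univ_one]
  change Φ (mon a b) = mon a b 0 (((Φ (mon 3 3)).re ^ (1 / 6 : ℝ) : ℝ) : ℂ)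
  rw [k1_ev _ p33 a b ha hb]
  interval_cases a <;> interval_cases b <;> simp <;> assumption

end Pool.Agent.K9h78.S6
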