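import Pool.Agent.K9h78.S6.Stm

/-! # Leaf K2 (double root) -/

set_option autoImplicit false
open ComplexConjugate Matrix

namespace Pool.Agent.K9h78.S6

/-- Hermitian symmetry of the moments -/
theorem k2_symm (Φ : Fn →ₗ[ℂ] ℂ) (hH : Herm Φ) (a b : ℕ) : Φ (mon b a) = conj (Φ (mon a b)) := by
  rw [← hH (mon a b)]
  congr 1
  funext x y
  simp only [mon, map_mul, map_pow, Complex.conj_conj]
  ring

theorem k2 (hker : S_KER) : S_K2 := by
  intro Φ hH hP h0
  have symm := k2_symm Φ hH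
  -- the kernel property in terms of the moments
  have key : ∀ (h h' : Fin 6 → ℂ) (g : Fn), (Φ (sq (hh h))).re = 0 →
      (fun x y => hh h x y * conj (hh h' x y)) = g → Φ g = 0 := by
    intro h h' g hk e
    rw [← e]
    exact hker Φ hH hP h hk h'
  have z11 : (Φ (mon 1 1)).re = 0 := by
    rw [← h0]
    congr 2
    funext x y
    simp only [mon, sq, map_mul, map_pow]
    norm_num
  have k1 : (Φ (sq (hh ![0, 1, 0, 0, 0, 0]))).re = 0 := by
    rw [← z11]
    congr 2
    funext x y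
    simp only [mon, sq, hh, map_mul, map_pow, map_add, Complex.conj_conj]
    simp
    ring
  have k3 : (Φ (sq (hh ![0, 0, 0, 1, 0, 0]))).re = 0 := by
    rw [← z11]
    congr 2
    funext x y
    simp only [mon, sq, hh, map_mul, map_pow, map_add, Complex.conj_conj]
    simp
    ring
  have m10 : Φ (mon 1 0) = 0 := by
    refine key _ ![1, 0, 0, 0, 0, 0] _ k1 ?_
    funext x y
    simp [mon, hh]
    ring
  have m11 : Φ (mon 1 1) = 0 := by
    refine key _ ![0, 1, 0, 0, 0, 0] _ k1 ?_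
    funext x y
    simp [mon, hh]
    ring
  have m12 : Φ (mon 1 2) = 0 := by
    refine key _ ![0, 0, 1, 0, 0, 0] _ k1 ?_
    funext x y
    simp [mon, hh]
    ring
  have m20 : Φ (mon 2 0) = 0 := by
    refine key _ ![0, 0, 0, 1, 0, 0] _ k1 ?_
    funext x y
    simp [mon, hh]
    ring
  have m22 : Φ (mon 2 2) = 0 := by
    refine key _ ![0, 0, 0, 0, 0, 1] _ k1 ?_
    funext x y
    simp [mon, hh]
    ring
  have m03 : Φ (mon 0 3) = 0 := by
    refine key _ ![0, 0, 1, 0, 0, 0] _ k3 ?_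
    funext x y
    simp [mon, hh]
    ring
  have m13 : Φ (mon 1 3) = 0 := by
    refine key _ ![0, 0, 0, 0, 0, 1] _ k3 ?_
    funext x y
    simp [mon, hh]
    ring
  have k4 : (Φ (sq (hh ![0, 0, 0, 0, 1, 0]))).re = 0 := by
    have : Φ (sq (hh ![0, 0, 0, 0, 1, 0])) = Φ (mon 2 2) := by
      congr 1
      funext x y
      simp only [mon, sq, hh, map_mul, map_pow, map_add, Complex.conj_conj]
      simp
      ring
    rw [this, m22]
    simp
  have m23 : Φ (mon 2 3) = 0 := by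
    refine key _ ![0, 0, 0, 0, 0, 1] _ k4 ?_
    funext x y
    simp [mon, hh]
    ring
  -- the nonnegative ones
  have p0 : 0 ≤ (Φ (mon 0 0)).re := by
    have h := hP ![1, 0, 0, 0, 0, 0]
    have : Φ (sq (hh ![1, 0, 0, 0, 0, 0])) = Φ (mon 0 0) := by
      congr 1
      funext x y
      simp only [mon, sq, hh, map_mul, map_pow, map_add, Complex.conj_conj]
      simp
      ring
    rwa [this] at h
  have p3 : 0 ≤ (Φ (mon 3 3)).re := by
    have h := hP ![0, 0, 0, 0, 0, 1]
    have : Φ (sq (hh ![0, 0, 0, 0, 0, 1])) = Φ (mon 3 3) := by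
      congr 1
      funext x y
      simp only [mon, sq, hh, map_mul, map_pow, map_add, Complex.conj_conj]
      simp
      ring
    rwa [this] at h
  have r0 : Φ (mon 0 0) = (((Φ (mon 0 0)).re : ℝ) : ℂ) :=
    (Complex.conj_eq_iff_re.mp (symm 0 0).symm).symm
  have r3 : Φ (mon 3 3) = (((Φ (mon 3 3)).re : ℝ) : ℂ) :=
    (Complex.conj_eq_iff_re.mp (symm 3 3).symm).symm
  -- the sixth roots
  have root : ∀ w : ℝ, 0 ≤ w → ∃ u : ℝ, u ^ 6 = w := fun w hw =>
    ⟨w ^ ((1 : ℝ) / 6), by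
      rw [← Real.rpow_natCast, ← Real.rpow_mul hw]
      norm_num⟩
  obtain ⟨u, hu⟩ := root _ p0
  obtain ⟨v, hv⟩ := root _ p3
  refine ⟨2, ![(u : ℂ), 0], ![0, (v : ℂ)], ?_⟩
  intro a b ha hb
  have e : (∑ k, ev ((![(u : ℂ), 0] : Fin 2 → ℂ) k) ((![0, (v : ℂ)] : Fin 2 → ℂ) k)) (mon a b) =
      mon a b u 0 + mon a b 0 v := by
    rw [Fin.sum_univ_two]
    rfl
  rw [e]
  have m01 : Φ (mon 0 1) = 0 := by rw [symm 1 0, m10, map_zero]
  have m02 : Φ (mon 0 2) = 0 := by rw [symm 2 0, m20, map_zero]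
  have m21 : Φ (mon 2 1) = 0 := by rw [symm 1 2, m12, map_zero]
  have m30 : Φ (mon 3 0) = 0 := by rw [symm 0 3, m03, map_zero]
  have m31 : Φ (mon 3 1) = 0 := by rw [symm 1 3, m13, map_zero]
  have m32 : Φ (mon 3 2) = 0 := by rw [symm 2 3, m23, map_zero]
  interval_cases a <;> interval_cases b <;>
    simp only [m01, m02, m03, m10, m11, m12, m13, m20, m21, m22, m23, m30, m31, m32, mon]
  · rw [r0, ← hu]
    simp
    ring
  all_goals first
    | (simp; done)
    | skip
  rw [r3, ← hv]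
  simp
  ring

end Pool.Agent.K9h78.S6
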