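import Pool.Agent.K9h78.S6.Stm

set_option autoImplicit false
open ComplexConjugate

namespace Pool.Agent.K9h78.S6

theorem k3_mon_herm {Φ : Fn →ₗ[ℂ] ℂ} (hH : Herm Φ) (a b : ℕ) :
    Φ (mon b a) = conj (Φ (mon a b)) := by
  rw [← hH]
  congr 1
  funext x y
  simp only [mon, map_mul, map_pow, Complex.conj_conj]
  ring

theorem k3_ev_scale (r : ℝ) (u v : ℂ) (a b : ℕ) (ha : a ≤ 3) (hb : b ≤ 3) :
    ev (r * u) (r * v) (mon a b) = (r : ℂ) ^ 6 * ev u v (mon a b) := by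
  simp only [ev, mon, LinearMap.coe_mk, AddHom.coe_mk, map_mul, map_pow, Complex.conj_ofReal]
  interval_cases a <;> interval_cases b <;> ring

theorem k3_root (w : ℝ) (hw : 0 ≤ w) : ∃ r : ℝ, (r : ℂ) ^ 6 = w := by
  refine ⟨w ^ (1 / 6 : ℝ), ?_⟩
  rw [← Complex.ofReal_pow, ← Real.rpow_natCast, ← Real.rpow_mul hw]
  norm_num

theorem k3 (h1 : S_KER) : S_K3 := by
  intro Φ hH hP h0
  have sqa : sq (hh ![0, 1, 1, 0, 0, 0]) = sq (fun x y => x * y * (x + y)) := by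
    funext x y
    simp [sq, hh]
    ring
  have sqc : sq (hh ![0, 1, 0, 0, 1, 0]) = sq (fun x y => x * y * (x + y)) := by
    funext x y
    simp [sq, hh]
    ring
  have ka := h1 Φ hH hP ![0, 1, 1, 0, 0, 0] (by rw [sqa]; exact h0)
  have kc := h1 Φ hH hP ![0, 1, 0, 0, 1, 0] (by rw [sqc]; exact h0)
  have A00 : Φ (mon 1 0) + Φ (mon 2 0) = 0 := by
    rw [← map_add, ← ka ![1, 0, 0, 0, 0, 0]]
    congr 1; funext x y; simp [mon, hh]; ring
  have A01 : Φ (mon 1 1) + Φ (mon 2 1) = 0 := by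
    rw [← map_add, ← ka ![0, 1, 0, 0, 0, 0]]
    congr 1; funext x y; simp [mon, hh]; ring
  have A02 : Φ (mon 1 2) + Φ (mon 2 2) = 0 := by
    rw [← map_add, ← ka ![0, 0, 1, 0, 0, 0]]
    congr 1; funext x y; simp [mon, hh]; ring
  have A10 : Φ (mon 2 0) + Φ (mon 3 0) = 0 := by
    rw [← map_add, ← ka ![0, 0, 0, 1, 0, 0]]
    congr 1; funext x y; simp [mon, hh]; ring
  have A11 : Φ (mon 2 1) + Φ (mon 3 1) = 0 := by
    rw [← map_add, ← ka ![0, 0, 0, 0, 1, 0]]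
    congr 1; funext x y; simp [mon, hh]; ring
  have A12 : Φ (mon 2 2) + Φ (mon 3 2) = 0 := by
    rw [← map_add, ← ka ![0, 0, 0, 0, 0, 1]]
    congr 1; funext x y; simp [mon, hh]; ring
  have C00 : Φ (mon 1 0) + Φ (mon 1 1) = 0 := by
    rw [← map_add, ← kc ![1, 0, 0, 0, 0, 0]]
    congr 1; funext x y; simp [mon, hh]; ring
  have C01 : Φ (mon 1 1) + Φ (mon 1 2) = 0 := by
    rw [← map_add, ← kc ![0, 1, 0, 0, 0, 0]]
    congr 1; funext x y; simp [mon, hh]; ring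
  obtain ⟨w, hw⟩ : ∃ w : ℝ, Φ (mon 1 1) = w :=
    ⟨(Φ (mon 1 1)).re, (Complex.conj_eq_iff_re.1 (k3_mon_herm hH 1 1).symm).symm⟩
  obtain ⟨p, hp⟩ : ∃ w : ℝ, Φ (mon 0 0) = w :=
    ⟨(Φ (mon 0 0)).re, (Complex.conj_eq_iff_re.1 (k3_mon_herm hH 0 0).symm).symm⟩
  obtain ⟨q, hq⟩ : ∃ w : ℝ, Φ (mon 3 3) = w :=
    ⟨(Φ (mon 3 3)).re, (Complex.conj_eq_iff_re.1 (k3_mon_herm hH 3 3).symm).symm⟩
  have m10 : Φ (mon 1 0) = -w := by rw [hw] at C00; linear_combination C00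
  have m20 : Φ (mon 2 0) = w := by linear_combination A00 - m10
  have m30 : Φ (mon 3 0) = -w := by linear_combination A10 - m20
  have m21 : Φ (mon 2 1) = -w := by rw [hw] at A01; linear_combination A01
  have m31 : Φ (mon 3 1) = w := by linear_combination A11 - m21
  have m12 : Φ (mon 1 2) = -w := by rw [hw] at C01; linear_combination C01
  have m22 : Φ (mon 2 2) = w := by linear_combination A02 - m12
  have m32 : Φ (mon 3 2) = -w := by linear_combination A12 - m22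
  have m01 : Φ (mon 0 1) = -w := by rw [k3_mon_herm hH 1 0, m10]; simp
  have m02 : Φ (mon 0 2) = w := by rw [k3_mon_herm hH 2 0, m20]; simp
  have m03 : Φ (mon 0 3) = -w := by rw [k3_mon_herm hH 3 0, m30]; simp
  have m13 : Φ (mon 1 3) = w := by rw [k3_mon_herm hH 3 1, m31]; simp
  have m23 : Φ (mon 2 3) = -w := by rw [k3_mon_herm hH 3 2, m32]; simp
  have w0 : 0 ≤ w := by
    have h := hP ![0, 0, 0, 1, 0, 0]
    have e : sq (hh ![0, 0, 0, 1, 0, 0]) = mon 1 1 := by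
      funext x y; simp [sq, hh, mon]; ring
    rw [e, hw] at h
    simpa using h
  have p0 : 0 ≤ p - w := by
    have h := hP ![1, 1, 0, 0, 0, 0]
    have e : sq (hh ![1, 1, 0, 0, 0, 0]) = mon 0 0 + mon 0 1 + mon 1 0 + mon 1 1 := by
      funext x y; simp [sq, hh, mon]; ring
    rw [e, map_add, map_add, map_add, hp, hw, m01, m10] at h
    simp at h
    linarith
  have q0 : 0 ≤ q - w := by
    have h := hP ![0, 0, 0, 0, 1, 1]
    have e : sq (hh ![0, 0, 0, 0, 1, 1]) = mon 2 2 + mon 2 3 + mon 3 2 + mon 3 3 := by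
      funext x y; simp [sq, hh, mon]; ring
    rw [e, map_add, map_add, map_add, hq, m22, m23, m32] at h
    simp at h
    linarith
  obtain ⟨r1, hr1⟩ := k3_root w w0
  obtain ⟨r2, hr2⟩ := k3_root (p - w) p0
  obtain ⟨r3, hr3⟩ := k3_root (q - w) q0
  refine ⟨3, ![r1 * 1, r2 * 1, r3 * 0], ![r1 * (-1), r2 * 0, r3 * 1], ?_⟩
  intro a b ha hb
  rw [Fin.sum_univ_three]
  simp only [LinearMap.add_apply, Matrix.cons_val_zero, Matrix.cons_val_one, Matrix.cons_val]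
  rw [k3_ev_scale r1 1 (-1) a b ha hb, k3_ev_scale r2 1 0 a b ha hb,
    k3_ev_scale r3 0 1 a b ha hb, hr1, hr2, hr3]
  interval_cases a <;> interval_cases b <;>
    simp only [hp, m01, m02, m03, m10, hw, m12, m13, m20, m21, m22, m23, m30, m31, m32, hq] <;>
    simp [ev, mon] <;> ring

end Pool.Agent.K9h78.S6
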