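import Pool.Agent.K9h78.S6.Stm

set_option autoImplicit false
open ComplexConjugate Matrix

namespace Pool.Agent.K9h78.S6

/-- the convex hull of a compact set in a finite-dimensional space is compact -/
theorem km_compact {E : Type} [NormedAddCommGroup E] [NormedSpace ℝ E] [FiniteDimensional ℝ E]
    {S : Set E} (hS : IsCompact S) : IsCompact (convexHull ℝ S) := by
  let f : (k : ℕ) → (Fin k → ℝ) × (Fin k → E) → E := fun k p => ∑ i, p.1 i • p.2 i
  have hf : ∀ k, Continuous (f k) := by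
    intro k
    refine continuous_finsetSum _ fun i _ => ?_
    exact ((continuous_apply i).comp continuous_fst).smul ((continuous_apply i).comp continuous_snd)
  have hK : ∀ k, IsCompact (f k '' (stdSimplex ℝ (Fin k) ×ˢ Set.pi Set.univ (fun _ => S))) := by
    intro k
    refine ((isCompact_stdSimplex ℝ (Fin k)).prod (isCompact_univ_pi fun _ => hS)).image (hf k)
  have heq : convexHull ℝ S = ⋃ k ∈ Finset.range (Module.finrank ℝ E + 2),
      f k '' (stdSimplex ℝ (Fin k) ×ˢ Set.pi Set.univ (fun _ => S)) := by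
    apply Set.Subset.antisymm
    · intro x hx
      obtain ⟨ι, hι, z, w, hz, hai, hw, hw1, hx'⟩ := eq_pos_convex_span_of_mem_convexHull hx
      have hcard : Fintype.card ι ≤ Module.finrank ℝ E + 1 := by
        have h := hai.card_le_finrank_succ
        have h2 := Submodule.finrank_le (vectorSpan ℝ (Set.range z))
        omega
      let e := (Fintype.equivFin ι).symm
      simp only [Set.mem_iUnion]
      refine ⟨Fintype.card ι, by simp; omega, (w ∘ e, z ∘ e), ⟨?_, ?_⟩, ?_⟩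
      · refine ⟨fun i => (hw _).le, ?_⟩
        rw [← hw1]
        exact e.sum_comp w
      · intro i _
        exact hz ⟨e i, rfl⟩
      · rw [← hx']
        exact e.sum_comp (fun i => w i • z i)
    · intro x hx
      simp only [Set.mem_iUnion] at hx
      obtain ⟨k, -, ⟨w, z⟩, ⟨hw, hz⟩, rfl⟩ := hx
      refine (convex_convexHull ℝ S).sum_mem (fun i _ => hw.1 i) hw.2 fun i _ => ?_
      exact subset_convexHull ℝ S (hz i (Set.mem_univ i))
  rw [heq]
  exact Finset.isCompact_biUnion _ fun k _ => hK k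

/-- the space of `4 × 4` matrices -/
abbrev KMV := Fin 4 → Fin 4 → ℂ

/-- the matrix of a functional -/
noncomputable def kmL (Φ : Fn →ₗ[ℂ] ℂ) : KMV := fun a b => Φ (mon a b)

/-- value on `|h|²` -/
noncomputable def kmQ (h : Fin 6 → ℂ) (m : KMV) : ℂ :=
  h 0 * conj (h 0) * m 0 0 + h 0 * conj (h 1) * m 0 1 + h 0 * conj (h 2) * m 0 2 +
  h 1 * conj (h 0) * m 1 0 + h 1 * conj (h 1) * m 1 1 + h 1 * conj (h 2) * m 1 2 +
  h 2 * conj (h 0) * m 2 0 + h 2 * conj (h 1) * m 2 1 + h 2 * conj (h 2) * m 2 2 +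
  (h 3 * conj (h 3) * m 1 1 + h 3 * conj (h 4) * m 1 2 + h 3 * conj (h 5) * m 1 3 +
  h 4 * conj (h 3) * m 2 1 + h 4 * conj (h 4) * m 2 2 + h 4 * conj (h 5) * m 2 3 +
  h 5 * conj (h 3) * m 3 1 + h 5 * conj (h 4) * m 3 2 + h 5 * conj (h 5) * m 3 3) +
  (h 0 * conj (h 3) * m 1 0 + h 0 * conj (h 4) * m 1 1 + h 0 * conj (h 5) * m 1 2 +
  h 1 * conj (h 3) * m 2 0 + h 1 * conj (h 4) * m 2 1 + h 1 * conj (h 5) * m 2 2 +
  h 2 * conj (h 3) * m 3 0 + h 2 * conj (h 4) * m 3 1 + h 2 * conj (h 5) * m 3 2) +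
  (h 3 * conj (h 0) * m 0 1 + h 3 * conj (h 1) * m 0 2 + h 3 * conj (h 2) * m 0 3 +
  h 4 * conj (h 0) * m 1 1 + h 4 * conj (h 1) * m 1 2 + h 4 * conj (h 2) * m 1 3 +
  h 5 * conj (h 0) * m 2 1 + h 5 * conj (h 1) * m 2 2 + h 5 * conj (h 2) * m 2 3)

/-- value on `|c|²` -/
noncomputable def kmC (c : Fin 4 → ℂ) (m : KMV) : ℂ := ∑ a, ∑ b, c a * conj (c b) * m a b

theorem kmQ_eq (Φ : Fn →ₗ[ℂ] ℂ) (h : Fin 6 → ℂ) : Φ (sq (hh h)) = kmQ h (kmL Φ) := by
  have h1 : sq (hh h) =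
    (h 0 * conj (h 0)) • mon 0 0 + (h 0 * conj (h 1)) • mon 0 1 + (h 0 * conj (h 2)) • mon 0 2 +
    (h 1 * conj (h 0)) • mon 1 0 + (h 1 * conj (h 1)) • mon 1 1 + (h 1 * conj (h 2)) • mon 1 2 +
    (h 2 * conj (h 0)) • mon 2 0 + (h 2 * conj (h 1)) • mon 2 1 + (h 2 * conj (h 2)) • mon 2 2 +
    ((h 3 * conj (h 3)) • mon 1 1 + (h 3 * conj (h 4)) • mon 1 2 + (h 3 * conj (h 5)) • mon 1 3 +
    (h 4 * conj (h 3)) • mon 2 1 + (h 4 * conj (h 4)) • mon 2 2 + (h 4 * conj (h 5)) • mon 2 3 +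
    (h 5 * conj (h 3)) • mon 3 1 + (h 5 * conj (h 4)) • mon 3 2 + (h 5 * conj (h 5)) • mon 3 3) +
    ((h 0 * conj (h 3)) • mon 1 0 + (h 0 * conj (h 4)) • mon 1 1 + (h 0 * conj (h 5)) • mon 1 2 +
    (h 1 * conj (h 3)) • mon 2 0 + (h 1 * conj (h 4)) • mon 2 1 + (h 1 * conj (h 5)) • mon 2 2 +
    (h 2 * conj (h 3)) • mon 3 0 + (h 2 * conj (h 4)) • mon 3 1 + (h 2 * conj (h 5)) • mon 3 2) +
    ((h 3 * conj (h 0)) • mon 0 1 + (h 3 * conj (h 1)) • mon 0 2 + (h 3 * conj (h 2)) • mon 0 3 +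
    (h 4 * conj (h 0)) • mon 1 1 + (h 4 * conj (h 1)) • mon 1 2 + (h 4 * conj (h 2)) • mon 1 3 +
    (h 5 * conj (h 0)) • mon 2 1 + (h 5 * conj (h 1)) • mon 2 2 + (h 5 * conj (h 2)) • mon 2 3) := by
    funext x y
    simp only [sq, hh, mon, Pi.add_apply, Pi.smul_apply, smul_eq_mul, map_add, map_mul, map_pow,
      Complex.conj_conj]
    norm_num
    ring
  rw [h1]
  simp only [map_add, map_smul, smul_eq_mul, kmQ, kmL]
  rfl

theorem kmC_eq (Φ : Fn →ₗ[ℂ] ℂ) (c : Fin 4 → ℂ) : Φ (sq (cub c)) = kmC c (kmL Φ) := by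
  have h1 : sq (cub c) = ∑ a : Fin 4, ∑ b : Fin 4, (c a * conj (c b)) • mon a b := by
    funext x y
    simp [sq, cub, mon, Fin.sum_univ_succ]
    ring
  rw [h1]
  simp only [map_sum, map_smul, smul_eq_mul, kmC, kmL]

/-- the normalisation -/
noncomputable def kmN (m : KMV) : ℝ := (m 0 0).re + 3 * (m 1 1).re + 3 * (m 2 2).re + (m 3 3).re

/-- the point evaluation -/
noncomputable def kmP (x y : ℂ) : KMV := fun a b => mon a b x y

theorem kmN_add (m m' : KMV) : kmN (m + m') = kmN m + kmN m' := by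
  simp [kmN]; ring

theorem kmN_smul (t : ℝ) (m : KMV) : kmN (t • m) = t * kmN m := by
  simp [kmN]; ring

theorem kmN_sub (m m' : KMV) : kmN (m - m') = kmN m - kmN m' := by
  simp [kmN]; ring

theorem kmQ_add (h : Fin 6 → ℂ) (m m' : KMV) : kmQ h (m + m') = kmQ h m + kmQ h m' := by
  simp only [kmQ, Pi.add_apply]; ring

theorem kmQ_smul (h : Fin 6 → ℂ) (t : ℝ) (m : KMV) : kmQ h (t • m) = t * kmQ h m := by
  simp only [kmQ, Pi.smul_apply, Complex.real_smul]; ring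

theorem kmC_two (m : KMV) (a b : Fin 4) (t : ℂ) :
    kmC (Pi.single a 1 + Pi.single b t) m =
      m a a + conj t * m a b + t * m b a + t * conj t * m b b := by
  have h1 : ∀ (a' b' : Fin 4), (Pi.single a 1 + Pi.single b t : Fin 4 → ℂ) a' *
      conj ((Pi.single a 1 + Pi.single b t : Fin 4 → ℂ) b') * m a' b' =
      (if a' = a then (if b' = a then m a' b' else 0) else 0) +
      (if a' = a then (if b' = b then conj t * m a' b' else 0) else 0) +
      (if a' = b then (if b' = a then t * m a' b' else 0) else 0) +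
      (if a' = b then (if b' = b then t * conj t * m a' b' else 0) else 0) := by
    intro a' b'
    simp only [Pi.add_apply, Pi.single_apply, map_add]
    split_ifs <;> simp <;> ring
  simp only [kmC, h1, Finset.sum_add_distrib]
  simp

theorem km_bound (m : KMV) (hm : ∀ a b, m b a = conj (m a b)) (hC : ∀ c, 0 ≤ (kmC c m).re)
    (a b : Fin 4) : 0 ≤ (m a a).re ∧ ‖m a b‖ ≤ (m a a).re + (m b b).re := by
  have h1 : ∀ t : ℂ, 0 ≤ (m a a + conj t * m a b + t * conj (m a b) + t * conj t * m b b).re := by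
    intro t
    have h := hC (Pi.single a 1 + Pi.single b t)
    rwa [kmC_two, hm a b] at h
  have e0 := h1 0
  have e1 := h1 1
  have e2 := h1 (-1)
  have e3 := h1 Complex.I
  have e4 := h1 (-Complex.I)
  simp at e0 e1 e2 e3 e4
  refine ⟨e0, ?_⟩
  have h2 := Complex.norm_le_abs_re_add_abs_im (m a b)
  have h3 : |(m a b).re| ≤ ((m a a).re + (m b b).re) / 2 := by
    rw [abs_le]; constructor <;> linarith
  have h4 : |(m a b).im| ≤ ((m a a).re + (m b b).re) / 2 := by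
    rw [abs_le]; constructor <;> linarith
  linarith

theorem kmP_diag (x y : ℂ) (a : Fin 4) : (kmP x y a a).re = (‖x‖ ^ (3 - (a : ℕ)) * ‖y‖ ^ (a : ℕ)) ^ 2 := by
  unfold kmP mon
  rw [Complex.mul_conj, Complex.ofReal_re, Complex.normSq_eq_norm_sq, norm_mul, norm_pow, norm_pow]

theorem kmN_P (x y : ℂ) : kmN (kmP x y) =
    ‖x‖ ^ 6 + 3 * (‖x‖ ^ 4 * ‖y‖ ^ 2) + 3 * (‖x‖ ^ 2 * ‖y‖ ^ 4) + ‖y‖ ^ 6 := by
  unfold kmN
  rw [kmP_diag, kmP_diag, kmP_diag, kmP_diag]
  norm_num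
  ring

theorem kmP_smul (r : ℝ) (x y : ℂ) : kmP (r * x) (r * y) = (r ^ 6) • kmP x y := by
  funext a b
  simp only [kmP, mon, Pi.smul_apply, Complex.real_smul, map_mul, map_pow, mul_pow,
    Complex.conj_ofReal, Complex.ofReal_pow]
  have ha : (r : ℂ) ^ (3 - (a : ℕ)) * (r : ℂ) ^ (a : ℕ) = r ^ 3 := by
    rw [← pow_add]; congr 1; omega
  have hb : (r : ℂ) ^ (3 - (b : ℕ)) * (r : ℂ) ^ (b : ℕ) = r ^ 3 := by
    rw [← pow_add]; congr 1; omega
  calc _ = ((r : ℂ) ^ (3 - (a : ℕ)) * (r : ℂ) ^ (a : ℕ)) * ((r : ℂ) ^ (3 - (b : ℕ)) * (r : ℂ) ^ (b : ℕ)) *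
        (x ^ (3 - (a : ℕ)) * y ^ (a : ℕ) * (conj x ^ (3 - (b : ℕ)) * conj y ^ (b : ℕ))) := by ring
    _ = _ := by rw [ha, hb]; ring

/-- sums of point evaluations -/
def KMS (m : KMV) : Prop := ∃ (n : ℕ) (x y : Fin n → ℂ), m = ∑ k, kmP (x k) (y k)

theorem km_root (w : ℝ) (hw : 0 ≤ w) : ∃ r : ℝ, 0 ≤ r ∧ r ^ 6 = w :=
  ⟨w ^ ((6 : ℕ) : ℝ)⁻¹, Real.rpow_nonneg hw _, Real.rpow_inv_natCast_pow hw (by norm_num)⟩

theorem KMS.add {m m' : KMV} (h : KMS m) (h' : KMS m') : KMS (m + m') := by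
  obtain ⟨n, x, y, rfl⟩ := h
  obtain ⟨n', x', y', rfl⟩ := h'
  refine ⟨n + n', Fin.append x x', Fin.append y y', ?_⟩
  rw [Fin.sum_univ_add]
  simp [Fin.append_left, Fin.append_right]

theorem KMS.smul {m : KMV} (h : KMS m) (t : ℝ) (ht : 0 ≤ t) : KMS (t • m) := by
  obtain ⟨n, x, y, rfl⟩ := h
  obtain ⟨r, -, hr⟩ := km_root t ht
  refine ⟨n, fun k => r * x k, fun k => r * y k, ?_⟩
  simp only [kmP_smul, hr, Finset.smul_sum]

/-- normalised point evaluations -/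
def KME : Set KMV := (fun p : ℂ × ℂ => kmP p.1 p.2) '' {p | kmN (kmP p.1 p.2) = 1}

theorem kmP_cont : Continuous (fun p : ℂ × ℂ => kmP p.1 p.2) := by
  refine continuous_pi fun a => continuous_pi fun b => ?_
  simp only [kmP, mon]
  fun_prop

theorem kmN_cont : Continuous kmN := by
  unfold kmN
  fun_prop

theorem kmQ_cont (h : Fin 6 → ℂ) : Continuous (kmQ h) := by
  unfold kmQ
  fun_prop

theorem KME_compact : IsCompact KME := by
  refine IsCompact.image ?_ kmP_cont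
  refine Metric.isCompact_of_isClosed_isBounded ?_ ?_
  · exact isClosed_eq (kmN_cont.comp kmP_cont) continuous_const
  · rw [isBounded_iff_forall_norm_le]
    refine ⟨1, ?_⟩
    rintro ⟨x, y⟩ hp
    simp only [Set.mem_ofPred_eq, kmN_P] at hp
    have hx : 0 ≤ ‖x‖ := norm_nonneg x
    have hy : 0 ≤ ‖y‖ := norm_nonneg y
    have h1 : 0 ≤ ‖x‖ ^ 4 * ‖y‖ ^ 2 := by positivity
    have h2 : 0 ≤ ‖x‖ ^ 2 * ‖y‖ ^ 4 := by positivity
    have h3 : 0 ≤ ‖x‖ ^ 6 := by positivity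
    have h4 : 0 ≤ ‖y‖ ^ 6 := by positivity
    rw [Prod.norm_def, max_le_iff]
    constructor
    · by_contra h
      have := one_lt_pow₀ (not_le.mp h) (n := 6) (by norm_num)
      simp only at this
      linarith
    · by_contra h
      have := one_lt_pow₀ (not_le.mp h) (n := 6) (by norm_num)
      simp only at this
      linarith

theorem km_ex (hex : S_EX) (m : KMV) (hm : ∀ a b, m b a = conj (m a b)) :
    ∃ Φ, Herm Φ ∧ kmL Φ = m := by
  obtain ⟨Φ, h1, h2⟩ := hex (fun a b => m (Fin.ofNat 4 a) (Fin.ofNat 4 b)) (fun a b => hm _ _)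
  refine ⟨Φ, h1, ?_⟩
  funext a b
  have := h2 a b (by omega) (by omega)
  simpa [kmL] using this

theorem kmL_herm {Φ : Fn →ₗ[ℂ] ℂ} (h : Herm Φ) (a b : Fin 4) :
    kmL Φ b a = conj (kmL Φ a b) := by
  unfold kmL
  rw [← h]
  congr 1
  funext x y
  simp only [mon, map_mul, map_pow, Complex.conj_conj]
  ring

/-- the compact convex base -/
def KMK : Set KMV := {m | (∀ a b, m b a = conj (m a b)) ∧ (∀ h, 0 ≤ (kmQ h m).re) ∧ kmN m = 1}

theorem KMK_closed : IsClosed KMK := by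
  have h1 : IsClosed {m : KMV | ∀ a b, m b a = conj (m a b)} := by
    simp only [Set.ofPred_forall]
    refine isClosed_iInter fun a => isClosed_iInter fun b => isClosed_eq (by fun_prop) ?_
    exact Complex.continuous_conj.comp (by fun_prop)
  have h2 : IsClosed {m : KMV | ∀ h, 0 ≤ (kmQ h m).re} := by
    simp only [Set.ofPred_forall]
    exact isClosed_iInter fun h =>
      isClosed_le continuous_const (Complex.continuous_re.comp (kmQ_cont h))
  have h3 : IsClosed {m : KMV | kmN m = 1} := isClosed_eq kmN_cont continuous_const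
  exact h1.inter (h2.inter h3)

theorem KMK_convex : Convex ℝ KMK := by
  intro m hm m' hm' s t hs ht hst
  refine ⟨fun a b => ?_, fun h => ?_, ?_⟩
  · simp only [Pi.add_apply, Pi.smul_apply, Complex.real_smul, map_add, map_mul,
      Complex.conj_ofReal]
    rw [hm.1 a b, hm'.1 a b]
  · rw [kmQ_add, kmQ_smul, kmQ_smul, Complex.add_re, Complex.re_ofReal_mul, Complex.re_ofReal_mul]
    have h1 := mul_nonneg hs (hm.2.1 h)
    have h2 := mul_nonneg ht (hm'.2.1 h)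
    linarith
  · rw [kmN_add, kmN_smul, kmN_smul, hm.2.2, hm'.2.2]
    linarith

theorem km_le (m : KMV) (hm : ∀ a b, m b a = conj (m a b)) (hC : ∀ c, 0 ≤ (kmC c m).re) :
    0 ≤ kmN m ∧ ∀ a b, ‖m a b‖ ≤ 2 * kmN m := by
  have h0 := (km_bound m hm hC 0 0).1
  have h1 := (km_bound m hm hC 1 1).1
  have h2 := (km_bound m hm hC 2 2).1
  have h3 := (km_bound m hm hC 3 3).1
  have h4 : ∀ a, (m a a).re ≤ kmN m := by
    intro a
    unfold kmN
    fin_cases a
    · change (m 0 0).re ≤ _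
      linarith
    · change (m 1 1).re ≤ _
      linarith
    · change (m 2 2).re ≤ _
      linarith
    · change (m 3 3).re ≤ _
      linarith
  refine ⟨h0.trans (h4 0), fun a b => ?_⟩
  have h5 := (km_bound m hm hC a b).2
  have h6 := h4 a
  have h7 := h4 b
  linarith

theorem km_zero (m : KMV) (hm : ∀ a b, m b a = conj (m a b)) (hC : ∀ c, 0 ≤ (kmC c m).re)
    (h0 : kmN m = 0) : m = 0 := by
  funext a b
  have h := (km_le m hm hC).2 a b
  rw [h0, mul_zero] at h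
  exact norm_le_zero_iff.mp h

theorem km_p2 {Φ : Fn →ₗ[ℂ] ℂ} {m : KMV} (hL : kmL Φ = m) (hQ : ∀ h, 0 ≤ (kmQ h m).re) : P2 Φ := by
  intro h
  rw [kmQ_eq, hL]
  exact hQ h

theorem km_pos (hex : S_EX)
    (hP1 : ∀ Φ, Herm Φ → P2 Φ → ∀ c : Fin 4 → ℂ, 0 ≤ (Φ (sq (cub c))).re)
    (m : KMV) (hm : ∀ a b, m b a = conj (m a b)) (hQ : ∀ h, 0 ≤ (kmQ h m).re) :
    ∀ c, 0 ≤ (kmC c m).re := by
  intro c
  obtain ⟨Φ, hH, hL⟩ := km_ex hex m hm
  have h := hP1 Φ hH (km_p2 hL hQ) c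
  rwa [kmC_eq, hL] at h

theorem KMK_compact (hex : S_EX)
    (hP1 : ∀ Φ, Herm Φ → P2 Φ → ∀ c : Fin 4 → ℂ, 0 ≤ (Φ (sq (cub c))).re) : IsCompact KMK := by
  refine Metric.isCompact_of_isClosed_isBounded KMK_closed ?_
  rw [isBounded_iff_forall_norm_le]
  refine ⟨2, fun m hm => ?_⟩
  have h := (km_le m hm.1 (km_pos hex hP1 m hm.1 hm.2.1)).2
  rw [hm.2.2, mul_one] at h
  rw [pi_norm_le_iff_of_nonneg (by norm_num)]
  intro a
  rw [pi_norm_le_iff_of_nonneg (by norm_num)]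
  intro b
  exact h a b

theorem kmN_sum {n : ℕ} (f : Fin n → KMV) : kmN (∑ k, f k) = ∑ k, kmN (f k) := by
  simp [kmN, Finset.sum_apply, Complex.re_sum, Finset.mul_sum, Finset.sum_add_distrib]

theorem kmN_P_nonneg (x y : ℂ) : 0 ≤ kmN (kmP x y) := by
  rw [kmN_P]; positivity

theorem kmP_zero : kmP 0 0 = 0 := by
  have h := kmP_smul 0 0 0
  simpa using h

theorem km_hull {m : KMV} (hm : KMS m) (h1 : kmN m = 1) : m ∈ convexHull ℝ KME := by
  obtain ⟨n, x, y, rfl⟩ := hm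
  have h2 : ∀ k, ∃ z ∈ KME, kmP (x k) (y k) = kmN (kmP (x k) (y k)) • z := by
    intro k
    rcases (kmN_P_nonneg (x k) (y k)).eq_or_lt with h0 | h0
    · refine ⟨kmP 1 0, ⟨(1, 0), ?_, rfl⟩, ?_⟩
      · change kmN (kmP 1 0) = 1
        rw [kmN_P]
        norm_num
      · rw [← h0, zero_smul]
        rw [kmN_P] at h0
        have hx : 0 ≤ ‖x k‖ := norm_nonneg _
        have hy : 0 ≤ ‖y k‖ := norm_nonneg _
        have e1 : 0 ≤ ‖x k‖ ^ 4 * ‖y k‖ ^ 2 := by positivity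
        have e2 : 0 ≤ ‖x k‖ ^ 2 * ‖y k‖ ^ 4 := by positivity
        have e3 : 0 ≤ ‖x k‖ ^ 6 := by positivity
        have e4 : 0 ≤ ‖y k‖ ^ 6 := by positivity
        have hx0 : x k = 0 := by
          have : ‖x k‖ ^ 6 = 0 := by linarith
          exact norm_eq_zero.mp (pow_eq_zero_iff (by norm_num) |>.mp this)
        have hy0 : y k = 0 := by
          have : ‖y k‖ ^ 6 = 0 := by linarith
          exact norm_eq_zero.mp (pow_eq_zero_iff (by norm_num) |>.mp this)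
        rw [hx0, hy0, kmP_zero]
    · obtain ⟨r, hr, hr6⟩ := km_root _ h0.le
      have hr0 : r ≠ 0 := by
        rintro rfl
        rw [← hr6] at h0
        norm_num at h0
      have h3 : kmP ((r⁻¹ : ℝ) * x k) ((r⁻¹ : ℝ) * y k) = ((r⁻¹) ^ 6) • kmP (x k) (y k) :=
        kmP_smul _ _ _
      refine ⟨kmP ((r⁻¹ : ℝ) * x k) ((r⁻¹ : ℝ) * y k), ⟨(_, _), ?_, rfl⟩, ?_⟩
      · change kmN _ = 1
        rw [h3, kmN_smul, ← hr6]
        field_simp
      · rw [h3, ← hr6, smul_smul]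
        rw [← mul_pow, mul_inv_cancel₀ hr0, one_pow, one_smul]
  choose z hz hz2 using h2
  have h3 : ∑ k, kmP (x k) (y k) = ∑ k, kmN (kmP (x k) (y k)) • z k :=
    Finset.sum_congr rfl fun k _ => hz2 k
  rw [h3]
  refine (convex_convexHull ℝ KME).sum_mem (fun k _ => kmN_P_nonneg _ _) ?_
    fun k _ => subset_convexHull ℝ KME (hz k)
  rw [← kmN_sum, h1]

theorem km_sep_iff (Φ : Fn →ₗ[ℂ] ℂ) : Sep Φ ↔ KMS (kmL Φ) := by
  constructor
  · rintro ⟨n, x, y, h⟩
    refine ⟨n, x, y, ?_⟩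
    funext a b
    have := h a b (by omega) (by omega)
    simpa [kmL, kmP, Finset.sum_apply, LinearMap.sum_apply, ev] using this
  · rintro ⟨n, x, y, h⟩
    refine ⟨n, x, y, fun a b ha hb => ?_⟩
    have := congrFun (congrFun h ⟨a, by omega⟩) ⟨b, by omega⟩
    simpa [kmL, kmP, Finset.sum_apply, LinearMap.sum_apply, ev] using this

theorem km_extreme (hex : S_EX)
    (hP1 : ∀ Φ, Herm Φ → P2 Φ → ∀ c : Fin 4 → ℂ, 0 ≤ (Φ (sq (cub c))).re)
    (hE : ∀ Φ, Herm Φ → P2 Φ → Ext Φ → Sep Φ) {m : KMV} (hm : m ∈ KMK.extremePoints ℝ) :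
    KMS m := by
  obtain ⟨hmK, hme⟩ := mem_extremePoints.mp hm
  obtain ⟨Φ, hH, hL⟩ := km_ex hex m hmK.1
  have hP : P2 Φ := km_p2 hL hmK.2.1
  have hExt : Ext Φ := by
    intro Ψ hΨ hPΨ hPd
    have hd : Herm (Φ - Ψ) := by
      intro f
      rw [LinearMap.sub_apply, LinearMap.sub_apply, hH f, hΨ f, map_sub]
    have hv : kmL (Φ - Ψ) = m - kmL Ψ := by
      rw [← hL]; rfl
    have hQu : ∀ h, 0 ≤ (kmQ h (kmL Ψ)).re := fun h => by
      rw [← kmQ_eq]; exact hPΨ h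
    have hQv : ∀ h, 0 ≤ (kmQ h (kmL (Φ - Ψ))).re := fun h => by
      rw [← kmQ_eq]; exact hPd h
    have hCu := km_pos hex hP1 _ (kmL_herm hΨ) hQu
    have hCv := km_pos hex hP1 _ (kmL_herm hd) hQv
    have hNu := (km_le _ (kmL_herm hΨ) hCu).1
    have hNv := (km_le _ (kmL_herm hd) hCv).1
    have hsum : kmN (kmL Ψ) + kmN (kmL (Φ - Ψ)) = 1 := by
      rw [hv, kmN_sub, hmK.2.2]; ring
    rcases hNu.eq_or_lt with h0 | hNu
    · have hz := km_zero _ (kmL_herm hΨ) hCu h0.symm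
      refine ⟨0, fun a b ha hb => ?_⟩
      have := congrFun (congrFun hz ⟨a, by omega⟩) ⟨b, by omega⟩
      simpa [kmL] using this
    rcases hNv.eq_or_lt with h0 | hNv
    · have hz := km_zero _ (kmL_herm hd) hCv h0.symm
      refine ⟨1, fun a b ha hb => ?_⟩
      have h := congrFun (congrFun hz ⟨a, by omega⟩) ⟨b, by omega⟩
      simp only [kmL, LinearMap.sub_apply, Pi.zero_apply] at h
      rw [Complex.ofReal_one, one_mul]
      exact (sub_eq_zero.mp h).symm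
    · have hu' : (kmN (kmL Ψ))⁻¹ • kmL Ψ ∈ KMK := by
        refine ⟨fun a b => ?_, fun h => ?_, ?_⟩
        · simp only [Pi.smul_apply, Complex.real_smul, map_mul, Complex.conj_ofReal]
          rw [kmL_herm hΨ a b]
        · rw [kmQ_smul, Complex.re_ofReal_mul]
          exact mul_nonneg (inv_nonneg.mpr hNu.le) (hQu h)
        · rw [kmN_smul, inv_mul_cancel₀ hNu.ne']
      have hv' : (kmN (kmL (Φ - Ψ)))⁻¹ • kmL (Φ - Ψ) ∈ KMK := by
        refine ⟨fun a b => ?_, fun h => ?_, ?_⟩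
        · simp only [Pi.smul_apply, Complex.real_smul, map_mul, Complex.conj_ofReal]
          rw [kmL_herm hd a b]
        · rw [kmQ_smul, Complex.re_ofReal_mul]
          exact mul_nonneg (inv_nonneg.mpr hNv.le) (hQv h)
        · rw [kmN_smul, inv_mul_cancel₀ hNv.ne']
      have hseg : m ∈ openSegment ℝ ((kmN (kmL Ψ))⁻¹ • kmL Ψ)
          ((kmN (kmL (Φ - Ψ)))⁻¹ • kmL (Φ - Ψ)) := by
        refine ⟨kmN (kmL Ψ), kmN (kmL (Φ - Ψ)), hNu, hNv, hsum, ?_⟩
        rw [smul_smul, smul_smul, mul_inv_cancel₀ hNu.ne', mul_inv_cancel₀ hNv.ne', one_smul,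
          one_smul, hv]
        abel
      have he := (hme _ hu' _ hv' hseg).1
      refine ⟨kmN (kmL Ψ), fun a b ha hb => ?_⟩
      have h := congrFun (congrFun he ⟨a, by omega⟩) ⟨b, by omega⟩
      rw [← hL] at h
      simp only [Pi.smul_apply, Complex.real_smul, kmL] at h
      change _ * Ψ (mon a b) = Φ (mon a b) at h
      rw [← h, ← mul_assoc, ← Complex.ofReal_mul]
      have h9 : kmN (kmL Ψ) * (kmN (kmL Ψ))⁻¹ = 1 := mul_inv_cancel₀ hNu.ne'
      erw [h9]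
      simp
  have h := hE Φ hH hP hExt
  rwa [km_sep_iff, hL] at h

theorem km (hex : S_EX) : S_KM := by
  intro hP1 hE Φ hΦ hPΦ
  have hKS : KMK ⊆ convexHull ℝ KME := by
    calc KMK = closure (convexHull ℝ (KMK.extremePoints ℝ)) :=
          (closure_convexHull_extremePoints (KMK_compact hex hP1) KMK_convex).symm
      _ ⊆ convexHull ℝ KME := by
          refine closure_minimal (convexHull_min ?_ (convex_convexHull ℝ _))
            (km_compact KME_compact).isClosed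
          intro m hm
          exact km_hull (km_extreme hex hP1 hE hm) hm.1.2.2
  have hS : convexHull ℝ KME ⊆ {m | KMS m} := by
    refine convexHull_min ?_ ?_
    · rintro m ⟨⟨x, y⟩, -, rfl⟩
      refine ⟨1, fun _ => x, fun _ => y, ?_⟩
      simp
    · intro m hm m' hm' s t hs ht _
      exact (KMS.smul hm s hs).add (KMS.smul hm' t ht)
  rw [km_sep_iff]
  have hQ : ∀ h, 0 ≤ (kmQ h (kmL Φ)).re := fun h => by
    rw [← kmQ_eq]; exact hPΦ h
  have hC := km_pos hex hP1 _ (kmL_herm hΦ) hQ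
  rcases (km_le _ (kmL_herm hΦ) hC).1.eq_or_lt with h0 | h0
  · rw [km_zero _ (kmL_herm hΦ) hC h0.symm]
    exact ⟨0, fun _ => 0, fun _ => 0, by simp⟩
  · have hmem : (kmN (kmL Φ))⁻¹ • kmL Φ ∈ KMK := by
      refine ⟨fun a b => ?_, fun h => ?_, ?_⟩
      · simp only [Pi.smul_apply, Complex.real_smul, map_mul, Complex.conj_ofReal]
        rw [kmL_herm hΦ a b]
      · rw [kmQ_smul, Complex.re_ofReal_mul]
        exact mul_nonneg (inv_nonneg.mpr h0.le) (hQ h)
      · rw [kmN_smul, inv_mul_cancel₀ h0.ne']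
    have h1 : KMS ((kmN (kmL Φ))⁻¹ • kmL Φ) := hS (hKS hmem)
    have h2 := h1.smul (kmN (kmL Φ)) h0.le
    rwa [smul_smul, mul_inv_cancel₀ h0.ne', one_smul] at h2

end Pool.Agent.K9h78.S6
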