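import Pool.Agent.K9h78.S6.Stm

/-! # Leaf KER (helper54) -/

set_option autoImplicit false
open ComplexConjugate Matrix

namespace Pool.Agent.K9h78.S6

theorem ker : S_KER := by
  intro Φ hH hP h h0 h'
  by_contra hne
  set w : ℂ := Φ (fun x y => hh h x y * conj (hh h' x y)) with hw
  have hconj : Φ (fun x y => hh h' x y * conj (hh h x y)) = conj w := by
    rw [hw, ← hH]
    congr 1
    funext x y
    simp only [map_mul, Complex.conj_conj]
    ring
  have hQ : ∀ z : ℂ, Φ (sq (hh (h' + z • h))) =
      Φ (sq (hh h')) + z * w + conj z * conj w + (z * conj z) * Φ (sq (hh h)) := by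
    intro z
    have e : sq (hh (h' + z • h)) = sq (hh h') + z • (fun x y => hh h x y * conj (hh h' x y)) +
        conj z • (fun x y => hh h' x y * conj (hh h x y)) + (z * conj z) • sq (hh h) := by
      funext x y
      simp only [sq, hh, Pi.add_apply, Pi.smul_apply, smul_eq_mul, map_add, map_mul, Complex.conj_conj]
      ring
    rw [e, map_add, map_add, map_add, map_smul, map_smul, map_smul, hconj]
    simp only [smul_eq_mul, ← hw]
  have hn : 0 < Complex.normSq w := Complex.normSq_pos.2 hne
  set a : ℝ := (Φ (sq (hh h'))).re with ha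
  set t : ℝ := -(a + 1) / (2 * Complex.normSq w) with ht
  have h1 := hP (h' + (((t : ℝ) : ℂ) * conj w) • h)
  rw [hQ] at h1
  have e1 : ((t : ℝ) : ℂ) * conj w * w = ((t * Complex.normSq w : ℝ) : ℂ) := by
    rw [mul_assoc, ← Complex.normSq_eq_conj_mul_self]
    push_cast
    rfl
  have e2 : conj (((t : ℝ) : ℂ) * conj w) * conj w = ((t * Complex.normSq w : ℝ) : ℂ) := by
    rw [← map_mul, e1, Complex.conj_ofReal]
  rw [e1, e2, Complex.mul_conj, Complex.add_re, Complex.add_re, Complex.add_re, Complex.re_ofReal_mul, h0,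
    mul_zero, Complex.ofReal_re] at h1
  have e3 : t * Complex.normSq w = -(a + 1) / 2 := by
    rw [ht]
    field_simp
  rw [e3] at h1
  have h2 : (Φ (sq (hh h'))).re = a := ha.symm
  rw [h2] at h1
  linarith

end Pool.Agent.K9h78.S6
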