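import Pool.Agent.K9h78.S6.EM

/-! Leaf MO: the moments of the functional of a pair of matrices. -/

set_option autoImplicit false
open ComplexConjugate Matrix

namespace Pool.Agent.K9h78.S6

theorem tw_rot {n : ℕ} (A B : Matrix (Fin n) (Fin n) ℂ) (i j k l m o : Bool) :
    tw A B i j k l m o = tw A B k l m o i j := by
  unfold tw
  simp only [Matrix.mul_assoc]
  rw [← Matrix.mul_assoc, Matrix.trace_mul_comm]
  simp only [Matrix.mul_assoc]

theorem emw_tw {n : ℕ} (A B : Matrix (Fin n) (Fin n) ℂ) (i j k l m o : Bool) :
    emw A B (i, j, k, l, m, o) = tw A B j k l m o i := by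
  unfold tw emw emM
  simp only
  rw [Matrix.trace_mul_comm]
  simp only [Matrix.mul_assoc]

theorem emm_11 {n : ℕ} (A B : Matrix (Fin n) (Fin n) ℂ) : emm A B 1 1 =
    (tw A B true true false false false false + tw A B true false false true false false + tw A B true false false false false true) / 3 := by
  unfold emm
  simp only [Fintype.sum_prod_type, Fintype.sum_bool, emN, emN', Bool.toNat_true,
    Bool.toNat_false, emw_tw]
  norm_num [Nat.choose]
  linear_combination (-2/9 : ℂ) * tw_rot A B true true false false false false +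
    (-1/9 : ℂ) * tw_rot A B false false false false true true +
    (-2/9 : ℂ) * tw_rot A B true false false true false false +
    (-1/9 : ℂ) * tw_rot A B false true false false true false +
    (-2/9 : ℂ) * tw_rot A B true false false false false true +
    (-1/9 : ℂ) * tw_rot A B false false false true true false

theorem emm_22 {n : ℕ} (A B : Matrix (Fin n) (Fin n) ℂ) : emm A B 2 2 =
    (tw A B false false true true true true + tw A B false true true false true true + tw A B false true true true true false) / 3 := by
  unfold emm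
  simp only [Fintype.sum_prod_type, Fintype.sum_bool, emN, emN', Bool.toNat_true,
    Bool.toNat_false, emw_tw]
  norm_num [Nat.choose]
  linear_combination (-2/9 : ℂ) * tw_rot A B false false true true true true +
    (-1/9 : ℂ) * tw_rot A B true true true true false false +
    (-2/9 : ℂ) * tw_rot A B false true true false true true +
    (-1/9 : ℂ) * tw_rot A B true false true true false true +
    (-2/9 : ℂ) * tw_rot A B false true true true true false +
    (-1/9 : ℂ) * tw_rot A B true true true false false true

theorem emm_12 {n : ℕ} (A B : Matrix (Fin n) (Fin n) ℂ) : emm A B 1 2 =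
    (tw A B true false false true false true + tw A B true true false false false true + tw A B true true false true false false) / 3 := by
  unfold emm
  simp only [Fintype.sum_prod_type, Fintype.sum_bool, emN, emN', Bool.toNat_true,
    Bool.toNat_false, emw_tw]
  norm_num [Nat.choose]
  linear_combination (-2/9 : ℂ) * tw_rot A B true false false true false true +
    (-1/9 : ℂ) * tw_rot A B false true false true true false +
    (-2/9 : ℂ) * tw_rot A B true true false false false true +
    (-1/9 : ℂ) * tw_rot A B false false false true true true +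
    (-2/9 : ℂ) * tw_rot A B true true false true false false +
    (-1/9 : ℂ) * tw_rot A B false true false false true true

theorem emm_21 {n : ℕ} (A B : Matrix (Fin n) (Fin n) ℂ) : emm A B 2 1 =
    (tw A B false true true false true false + tw A B false false true true true false + tw A B false false true false true true) / 3 := by
  unfold emm
  simp only [Fintype.sum_prod_type, Fintype.sum_bool, emN, emN', Bool.toNat_true,
    Bool.toNat_false, emw_tw]
  norm_num [Nat.choose]
  linear_combination (-2/9 : ℂ) * tw_rot A B false true true false true false +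
    (-1/9 : ℂ) * tw_rot A B true false true false false true +
    (-2/9 : ℂ) * tw_rot A B false false true true true false +
    (-1/9 : ℂ) * tw_rot A B true true true false false false +
    (-2/9 : ℂ) * tw_rot A B false false true false true true +
    (-1/9 : ℂ) * tw_rot A B true false true true false false

theorem emm_02 {n : ℕ} (A B : Matrix (Fin n) (Fin n) ℂ) : emm A B 0 2 =
    tw A B false false false true false true := by
  unfold emm
  simp only [Fintype.sum_prod_type, Fintype.sum_bool, emN, emN', Bool.toNat_true,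
    Bool.toNat_false, emw_tw]
  norm_num [Nat.choose]
  linear_combination (-2/3 : ℂ) * tw_rot A B false false false true false true +
    (-1/3 : ℂ) * tw_rot A B false true false true false false

theorem emm_20 {n : ℕ} (A B : Matrix (Fin n) (Fin n) ℂ) : emm A B 2 0 =
    tw A B true false true false false false := by
  unfold emm
  simp only [Fintype.sum_prod_type, Fintype.sum_bool, emN, emN', Bool.toNat_true,
    Bool.toNat_false, emw_tw]
  norm_num [Nat.choose]
  linear_combination (-2/3 : ℂ) * tw_rot A B true false true false false false +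
    (-1/3 : ℂ) * tw_rot A B true false false false true false

theorem emm_03 {n : ℕ} (A B : Matrix (Fin n) (Fin n) ℂ) : emm A B 0 3 =
    tw A B false true false true false true := by
  unfold emm
  simp only [Fintype.sum_prod_type, Fintype.sum_bool, emN, emN', Bool.toNat_true,
    Bool.toNat_false, emw_tw]
  norm_num [Nat.choose]

theorem emm_30 {n : ℕ} (A B : Matrix (Fin n) (Fin n) ℂ) : emm A B 3 0 =
    tw A B true false true false true false := by
  unfold emm
  simp only [Fintype.sum_prod_type, Fintype.sum_bool, emN, emN', Bool.toNat_true,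
    Bool.toNat_false, emw_tw]
  norm_num [Nat.choose]

theorem emm_13 {n : ℕ} (A B : Matrix (Fin n) (Fin n) ℂ) : emm A B 1 3 =
    tw A B true true false true false true := by
  unfold emm
  simp only [Fintype.sum_prod_type, Fintype.sum_bool, emN, emN', Bool.toNat_true,
    Bool.toNat_false, emw_tw]
  norm_num [Nat.choose]
  linear_combination (-2/3 : ℂ) * tw_rot A B true true false true false true +
    (-1/3 : ℂ) * tw_rot A B false true false true true true

theorem emm_31 {n : ℕ} (A B : Matrix (Fin n) (Fin n) ℂ) : emm A B 3 1 =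
    tw A B true true true false true false := by
  unfold emm
  simp only [Fintype.sum_prod_type, Fintype.sum_bool, emN, emN', Bool.toNat_true,
    Bool.toNat_false, emw_tw]
  norm_num [Nat.choose]
  linear_combination (-2/3 : ℂ) * tw_rot A B true true true false true false +
    (-1/3 : ℂ) * tw_rot A B true false true false true true

theorem em_coef {n : ℕ} (A B : Matrix (Fin n) (Fin n) ℂ) (α β : ℂ) :
    ∑ a ∈ Finset.range 4, ∑ b ∈ Finset.range 4,
      ((Nat.choose 3 a : ℂ) * (Nat.choose 3 b : ℂ) * ((α ^ (3 - a) * β ^ a) *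
        conj (α ^ (3 - b) * β ^ b))) * emm A B a b = ∑ x : EmW, emc α β x * emw A B x := by
  have h1 : ∀ a ∈ Finset.range 4, (∑ b ∈ Finset.range 4,
      ((Nat.choose 3 a : ℂ) * (Nat.choose 3 b : ℂ) * ((α ^ (3 - a) * β ^ a) *
        conj (α ^ (3 - b) * β ^ b))) * emm A B a b) = ∑ b ∈ Finset.range 4, ∑ x : EmW,
      ((if emN x = a then (1 : ℂ) else 0) * (α ^ (3 - a) * β ^ a)) *
      ((if emN' x = b then (1 : ℂ) else 0) * conj (α ^ (3 - b) * β ^ b)) * emw A B x := by
    intro a ha
    refine Finset.sum_congr rfl fun b hb => ?_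
    rw [Finset.mem_range] at ha hb
    rw [emm]
    have ha0 : (Nat.choose 3 a : ℂ) ≠ 0 := by
      have := Nat.choose_pos (n := 3) (k := a) (by omega)
      exact_mod_cast this.ne'
    have hb0 : (Nat.choose 3 b : ℂ) ≠ 0 := by
      have := Nat.choose_pos (n := 3) (k := b) (by omega)
      exact_mod_cast this.ne'
    have e : ∀ S : ℂ, (Nat.choose 3 a : ℂ) * (Nat.choose 3 b : ℂ) * ((α ^ (3 - a) * β ^ a) *
        conj (α ^ (3 - b) * β ^ b)) * (S / ((Nat.choose 3 a : ℂ) * (Nat.choose 3 b : ℂ))) =
        ((α ^ (3 - a) * β ^ a) * conj (α ^ (3 - b) * β ^ b)) * S := by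
      intro S
      field_simp
    rw [e, Finset.mul_sum]
    refine Finset.sum_congr rfl fun x _ => ?_
    ring
  rw [Finset.sum_congr rfl h1]
  have h2 : ∀ a ∈ Finset.range 4, (∑ b ∈ Finset.range 4, ∑ x : EmW,
      ((if emN x = a then (1 : ℂ) else 0) * (α ^ (3 - a) * β ^ a)) *
      ((if emN' x = b then (1 : ℂ) else 0) * conj (α ^ (3 - b) * β ^ b)) * emw A B x) =
      ∑ x : EmW, ((if emN x = a then (1 : ℂ) else 0) * (α ^ (3 - a) * β ^ a)) *
        (conj (α ^ (3 - emN' x) * β ^ emN' x) * emw A B x) := by
    intro a _
    rw [Finset.sum_comm]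
    refine Finset.sum_congr rfl fun x _ => ?_
    rw [← Finset.sum_mul, ← Finset.mul_sum]
    have : ∑ b ∈ Finset.range 4, (if emN' x = b then (1 : ℂ) else 0) *
        conj (α ^ (3 - b) * β ^ b) = conj (α ^ (3 - emN' x) * β ^ emN' x) := by
      simp only [ite_mul, one_mul, zero_mul]
      rw [Finset.sum_ite_eq, if_pos (Finset.mem_range.2 (emN'_lt x))]
    rw [this]
    ring
  rw [Finset.sum_congr rfl h2, Finset.sum_comm]
  refine Finset.sum_congr rfl fun x _ => ?_
  rw [← Finset.sum_mul]
  have : ∑ a ∈ Finset.range 4, (if emN x = a then (1 : ℂ) else 0) *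
      (α ^ (3 - a) * β ^ a) = α ^ (3 - emN x) * β ^ emN x := by
    simp only [ite_mul, one_mul, zero_mul]
    rw [Finset.sum_ite_eq, if_pos (Finset.mem_range.2 (emN_lt x))]
  rw [this, emc]
  ring

theorem mo_poly (q : Polynomial ℂ) (h : ∀ t : ℝ, q.eval (t : ℂ) = 0) : q = 0 := by
  refine Polynomial.eq_zero_of_infinite_isRoot q ?_
  refine Set.infinite_of_injective_forall_mem (f := fun t : ℝ => (t : ℂ)) Complex.ofReal_injective ?_
  intro t
  exact h t

/-- a polynomial of bidegree `(3,3)` in `z`, `conj z` which vanishes for all `z` is zero -/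
theorem mo_uniq (c : ℕ → ℕ → ℂ) (h : ∀ z : ℂ, ∑ a ∈ Finset.range 4, ∑ b ∈ Finset.range 4,
    z ^ a * conj z ^ b * c a b = 0) : ∀ a b : ℕ, a ≤ 3 → b ≤ 3 → c a b = 0 := by
  have h1 : ∀ (y : ℝ) (x : ℂ), ∑ a ∈ Finset.range 4, ∑ b ∈ Finset.range 4,
      (x + Complex.I * y) ^ a * (x - Complex.I * y) ^ b * c a b = 0 := by
    intro y x
    let q : Polynomial ℂ := ∑ a ∈ Finset.range 4, ∑ b ∈ Finset.range 4,
      (Polynomial.X + Polynomial.C (Complex.I * y)) ^ a *
        (Polynomial.X - Polynomial.C (Complex.I * y)) ^ b * Polynomial.C (c a b)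
    have hq : ∀ x : ℂ, q.eval x = ∑ a ∈ Finset.range 4, ∑ b ∈ Finset.range 4,
      (x + Complex.I * y) ^ a * (x - Complex.I * y) ^ b * c a b := by
      intro x
      simp [q, Polynomial.eval_finsetSum]
    have hq0 : q = 0 := by
      refine mo_poly q fun t => ?_
      rw [hq]
      have := h (t + Complex.I * y)
      simp only [map_add, map_mul, Complex.conj_ofReal, Complex.conj_I] at this
      rw [← this]
      refine Finset.sum_congr rfl fun a _ => Finset.sum_congr rfl fun b _ => ?_
      ring
    rw [← hq, hq0, Polynomial.eval_zero]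
  have h2 : ∀ (y x : ℂ), ∑ a ∈ Finset.range 4, ∑ b ∈ Finset.range 4,
      (x + Complex.I * y) ^ a * (x - Complex.I * y) ^ b * c a b = 0 := by
    intro y x
    let q : Polynomial ℂ := ∑ a ∈ Finset.range 4, ∑ b ∈ Finset.range 4,
      (Polynomial.C x + Polynomial.C Complex.I * Polynomial.X) ^ a *
        (Polynomial.C x - Polynomial.C Complex.I * Polynomial.X) ^ b * Polynomial.C (c a b)
    have hq : ∀ y : ℂ, q.eval y = ∑ a ∈ Finset.range 4, ∑ b ∈ Finset.range 4,
      (x + Complex.I * y) ^ a * (x - Complex.I * y) ^ b * c a b := by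
      intro y
      simp [q, Polynomial.eval_finsetSum]
    have hq0 : q = 0 := by
      refine mo_poly q fun t => ?_
      rw [hq]
      exact h1 t x
    rw [← hq, hq0, Polynomial.eval_zero]
  have h3 : ∀ (u v : ℂ), ∑ a ∈ Finset.range 4, ∑ b ∈ Finset.range 4,
      u ^ a * v ^ b * c a b = 0 := by
    intro u v
    have := h2 ((u - v) / (2 * Complex.I)) ((u + v) / 2)
    have e1 : (u + v) / 2 + Complex.I * ((u - v) / (2 * Complex.I)) = u := by
      field_simp
      ring
    have e2 : (u + v) / 2 - Complex.I * ((u - v) / (2 * Complex.I)) = v := by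
      field_simp
      ring
    rw [e1, e2] at this
    exact this
  have h4 : ∀ v : ℂ, ∀ a ∈ Finset.range 4, ∑ b ∈ Finset.range 4, v ^ b * c a b = 0 := by
    intro v a ha
    let q : Polynomial ℂ := ∑ a ∈ Finset.range 4, Polynomial.monomial a
      (∑ b ∈ Finset.range 4, v ^ b * c a b)
    have hq0 : q = 0 := by
      refine mo_poly q fun t => ?_
      simp only [q, Polynomial.eval_finsetSum, Polynomial.eval_monomial]
      rw [← h3 t v]
      refine Finset.sum_congr rfl fun a _ => ?_
      rw [Finset.sum_mul]
      refine Finset.sum_congr rfl fun b _ => ?_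
      ring
    have := congrArg (fun p => Polynomial.coeff p a) hq0
    simp only [q, Polynomial.finsetSum_coeff, Polynomial.coeff_monomial,
      Polynomial.coeff_zero] at this
    rwa [Finset.sum_ite_eq', if_pos ha] at this
  intro a b ha hb
  let q : Polynomial ℂ := ∑ b ∈ Finset.range 4, Polynomial.monomial b (c a b)
  have hq0 : q = 0 := by
    refine mo_poly q fun t => ?_
    simp only [q, Polynomial.eval_finsetSum, Polynomial.eval_monomial]
    rw [← h4 t a (Finset.mem_range.2 (by omega))]
    refine Finset.sum_congr rfl fun b _ => ?_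
    ring
  have := congrArg (fun p => Polynomial.coeff p b) hq0
  simp only [q, Polynomial.finsetSum_coeff, Polynomial.coeff_monomial,
    Polynomial.coeff_zero] at this
  rwa [Finset.sum_ite_eq', if_pos (Finset.mem_range.2 (by omega))] at this

/-- all moments -/
theorem mo_all (n : ℕ) (A B : Matrix (Fin n) (Fin n) ℂ) (Φ : Fn →ₗ[ℂ] ℂ) (h : Rep6 Φ A B)
    (a b : ℕ) (ha : a ≤ 3) (hb : b ≤ 3) : Φ (mon a b) = emm A B a b := by
  have key := mo_uniq (fun a b => (Nat.choose 3 a : ℂ) * (Nat.choose 3 b : ℂ) *
    (Φ (mon a b) - emm A B a b)) (by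
    intro z
    have h1 := h 1 z
    rw [em_trace, em_sq, map_sum, ← em_coef] at h1
    simp only [map_sum, map_smul, smul_eq_mul] at h1
    rw [← sub_eq_zero, ← Finset.sum_sub_distrib] at h1
    rw [← h1]
    refine Finset.sum_congr rfl fun a _ => ?_
    rw [← Finset.sum_sub_distrib]
    refine Finset.sum_congr rfl fun b _ => ?_
    simp only [one_pow, one_mul, map_pow]
    ring) a b ha hb
  have ha0 : (Nat.choose 3 a : ℂ) ≠ 0 := by
    have := Nat.choose_pos (n := 3) (k := a) (by omega)
    exact_mod_cast this.ne'
  have hb0 : (Nat.choose 3 b : ℂ) ≠ 0 := by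
    have := Nat.choose_pos (n := 3) (k := b) (by omega)
    exact_mod_cast this.ne'
  have := (mul_eq_zero.1 key).resolve_left (mul_ne_zero ha0 hb0)
  exact sub_eq_zero.1 this

theorem mo : S_MO := by
  intro n A B Φ h
  have k := mo_all n A B Φ h
  refine ⟨?_, ?_, ?_, ?_, ?_, ?_, ?_, ?_, ?_, ?_⟩
  · rw [k 1 1 (by norm_num) (by norm_num), emm_11]
  · rw [k 2 2 (by norm_num) (by norm_num), emm_22]
  · rw [k 1 2 (by norm_num) (by norm_num), emm_12]
  · rw [k 2 1 (by norm_num) (by norm_num), emm_21]
  · rw [k 0 2 (by norm_num) (by norm_num), emm_02]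
  · rw [k 2 0 (by norm_num) (by norm_num), emm_20]
  · rw [k 0 3 (by norm_num) (by norm_num), emm_03]
  · rw [k 3 0 (by norm_num) (by norm_num), emm_30]
  · rw [k 1 3 (by norm_num) (by norm_num), emm_13]
  · rw [k 3 1 (by norm_num) (by norm_num), emm_31]

end Pool.Agent.K9h78.S6
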