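import Pool.Agent.K9h78.S6.Stm

set_option autoImplicit false
open ComplexConjugate Matrix Polynomial

namespace Pool.Agent.K9h78.S6

/-- a quartic form has a nontrivial zero -/
lemma quartic (c0 c1 c2 c3 c4 : ℂ) : ∃ u v : ℂ, (u ≠ 0 ∨ v ≠ 0) ∧
    c0 * u ^ 4 + c1 * (u ^ 3 * v) + c2 * (u ^ 2 * v ^ 2) + c3 * (u * v ^ 3) + c4 * v ^ 4 = 0 := by
  by_cases h4 : c4 = 0
  · refine ⟨0, 1, Or.inr one_ne_zero, ?_⟩
    rw [h4]
    ring
  · obtain ⟨P, hP⟩ : ∃ P : ℂ[X], P = C c4 * X ^ 4 + C c3 * X ^ 3 + C c2 * X ^ 2 + C c1 * X + C c0 := ⟨_, rfl⟩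
    have hd : P.natDegree = 4 := by
      rw [hP]
      compute_degree!
    have hdeg : P.degree ≠ 0 := by
      intro h
      have h0 := natDegree_eq_zero_iff_degree_le_zero.2 h.le
      omega
    obtain ⟨z, hz⟩ := IsAlgClosed.exists_root P hdeg
    refine ⟨1, z, Or.inl one_ne_zero, ?_⟩
    rw [IsRoot, hP] at hz
    simp only [eval_add, eval_mul, eval_C, eval_pow, eval_X] at hz
    linear_combination hz

theorem pen : S_PEN := by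
  intro h h'
  obtain ⟨u, v, huv, hq⟩ := quartic (h 0 * h' 3 - h' 0 * h 3)
    (h 0 * h' 4 + h 1 * h' 3 - h' 0 * h 4 - h' 1 * h 3)
    (h 0 * h' 5 + h 1 * h' 4 + h 2 * h' 3 - h' 0 * h 5 - h' 1 * h 4 - h' 2 * h 3)
    (h 1 * h' 5 + h 2 * h' 4 - h' 1 * h 5 - h' 2 * h 4)
    (h 2 * h' 5 - h' 2 * h 5)
  obtain ⟨a, ha⟩ : ∃ a, a = h 0 * u ^ 2 + h 1 * (u * v) + h 2 * v ^ 2 := ⟨_, rfl⟩
  obtain ⟨a', ha'⟩ : ∃ a', a' = h' 0 * u ^ 2 + h' 1 * (u * v) + h' 2 * v ^ 2 := ⟨_, rfl⟩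
  obtain ⟨b, hb⟩ : ∃ b, b = h 3 * u ^ 2 + h 4 * (u * v) + h 5 * v ^ 2 := ⟨_, rfl⟩
  obtain ⟨b', hb'⟩ : ∃ b', b' = h' 3 * u ^ 2 + h' 4 * (u * v) + h' 5 * v ^ 2 := ⟨_, rfl⟩
  have hdet : a * b' - a' * b = 0 := by
    rw [ha, ha', hb, hb']
    linear_combination hq
  have hker : ∃ s t : ℂ, (s ≠ 0 ∨ t ≠ 0) ∧ s * a + t * a' = 0 ∧ s * b + t * b' = 0 := by
    by_cases h1 : a ≠ 0 ∨ a' ≠ 0
    · refine ⟨a', -a, ?_, by ring, by linear_combination -hdet⟩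
      rcases h1 with h1 | h1
      · exact Or.inr (neg_ne_zero.2 h1)
      · exact Or.inl h1
    · push Not at h1
      by_cases h2 : b ≠ 0 ∨ b' ≠ 0
      · refine ⟨b', -b, ?_, ?_, by ring⟩
        · rcases h2 with h2 | h2
          · exact Or.inr (neg_ne_zero.2 h2)
          · exact Or.inl h2
        · rw [h1.1, h1.2]
          ring
      · push Not at h2
        exact ⟨1, 0, Or.inl one_ne_zero, by rw [h1.1, h1.2]; ring, by rw [h2.1, h2.2]; ring⟩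
  obtain ⟨s, t, hst, k1, k2⟩ := hker
  refine ⟨s, t, u, v, hst, huv, ?_, ?_⟩
  · rw [ha, ha'] at k1
    linear_combination k1
  · rw [hb, hb'] at k2
    linear_combination k2

end Pool.Agent.K9h78.S6
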