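import Pool.Agent.K9h78.S6.Stm

/-! # Change of coordinates (leaf PUH) -/

set_option autoImplicit false
open ComplexConjugate Matrix

namespace Pool.Agent.K9h78.S6

namespace PU17

/-- composition with a linear map -/
def cmpF (p q r s : ℂ) (f : Fn) : Fn := fun x y => f (p * x + q * y) (r * x + s * y)

theorem pull_apply (p q r s : ℂ) (Φ : Fn →ₗ[ℂ] ℂ) (f : Fn) :
    pull p q r s Φ f = Φ (cmpF p q r s f) := rfl

theorem herm_pull (p q r s : ℂ) {Φ : Fn →ₗ[ℂ] ℂ} (h : Herm Φ) : Herm (pull p q r s Φ) := by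
  intro f
  exact h (cmpF p q r s f)

theorem hh_cmp (p q r s : ℂ) (h : Fin 6 → ℂ) : ∃ h', cmpF p q r s (hh h) = hh h' := by
  refine ⟨![conj p * (h 0 * p ^ 2 + h 1 * (p * r) + h 2 * r ^ 2) +
        conj r * (h 3 * p ^ 2 + h 4 * (p * r) + h 5 * r ^ 2),
      conj p * (h 0 * (2 * p * q) + h 1 * (p * s + q * r) + h 2 * (2 * r * s)) +
        conj r * (h 3 * (2 * p * q) + h 4 * (p * s + q * r) + h 5 * (2 * r * s)),
      conj p * (h 0 * q ^ 2 + h 1 * (q * s) + h 2 * s ^ 2) +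
        conj r * (h 3 * q ^ 2 + h 4 * (q * s) + h 5 * s ^ 2),
      conj q * (h 0 * p ^ 2 + h 1 * (p * r) + h 2 * r ^ 2) +
        conj s * (h 3 * p ^ 2 + h 4 * (p * r) + h 5 * r ^ 2),
      conj q * (h 0 * (2 * p * q) + h 1 * (p * s + q * r) + h 2 * (2 * r * s)) +
        conj s * (h 3 * (2 * p * q) + h 4 * (p * s + q * r) + h 5 * (2 * r * s)),
      conj q * (h 0 * q ^ 2 + h 1 * (q * s) + h 2 * s ^ 2) +
        conj s * (h 3 * q ^ 2 + h 4 * (q * s) + h 5 * s ^ 2)], ?_⟩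
  funext x y
  simp only [cmpF, hh, map_add, map_mul]
  simp
  ring

theorem p2_pull (p q r s : ℂ) {Φ : Fn →ₗ[ℂ] ℂ} (h : P2 Φ) : P2 (pull p q r s Φ) := by
  intro k
  obtain ⟨h', hh'⟩ := hh_cmp p q r s k
  have h1 : pull p q r s Φ (sq (hh k)) = Φ (sq (hh h')) := by
    rw [pull_apply]
    congr 1
    funext x y
    have := congrFun (congrFun hh' x) y
    simp only [cmpF] at this
    simp only [cmpF, sq]
    rw [this]
  rw [h1]
  exact h h'

/-- the cubic in the coordinates -/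
theorem cub_cmp (p q r s : ℂ) (c : Fin 4 → ℂ) : ∃ c', cmpF p q r s (cub c) = cub c' := by
  refine ⟨![c 0 * p ^ 3 + c 1 * (p ^ 2 * r) + c 2 * (p * r ^ 2) + c 3 * r ^ 3,
    c 0 * (3 * p ^ 2 * q) + c 1 * (p ^ 2 * s + 2 * p * q * r) +
      c 2 * (2 * p * r * s + q * r ^ 2) + c 3 * (3 * r ^ 2 * s),
    c 0 * (3 * p * q ^ 2) + c 1 * (2 * p * q * s + q ^ 2 * r) +
      c 2 * (p * s ^ 2 + 2 * q * r * s) + c 3 * (3 * r * s ^ 2),
    c 0 * q ^ 3 + c 1 * (q ^ 2 * s) + c 2 * (q * s ^ 2) + c 3 * s ^ 3], ?_⟩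
  funext x y
  simp only [cmpF, cub]
  simp
  ring

theorem cub_inj {c : Fin 4 → ℂ} (h : ∀ x y, cub c x y = 0) : c = 0 := by
  have h0 := h 1 0
  have h3 := h 0 1
  have h1 := h 1 1
  have h2 := h 1 (-1)
  simp only [cub] at h0 h1 h2 h3
  have e0 : c 0 = 0 := by linear_combination h0
  have e3 : c 3 = 0 := by linear_combination h3
  have e1 : c 1 = 0 := by linear_combination (1 / 2) * h1 - (1 / 2) * h2 - h3
  have e2 : c 2 = 0 := by linear_combination (1 / 2) * h1 + (1 / 2) * h2 - h0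
  funext i
  fin_cases i
  · exact e0
  · exact e1
  · exact e2
  · exact e3

section inverse

variable {p q r s : ℂ}

/-- the inverse change of coordinates -/
noncomputable def invF (p q r s : ℂ) (Φ : Fn →ₗ[ℂ] ℂ) : Fn →ₗ[ℂ] ℂ :=
  pull (s / (p * s - q * r)) (-q / (p * s - q * r)) (-r / (p * s - q * r)) (p / (p * s - q * r)) Φ

theorem e1 (hD : p * s - q * r ≠ 0) (x y : ℂ) : s / (p * s - q * r) * (p * x + q * y) +
    -q / (p * s - q * r) * (r * x + s * y) = x := by
  have h := mul_inv_cancel₀ hD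
  simp only [div_eq_mul_inv]
  linear_combination x * h

theorem e2 (hD : p * s - q * r ≠ 0) (x y : ℂ) : -r / (p * s - q * r) * (p * x + q * y) +
    p / (p * s - q * r) * (r * x + s * y) = y := by
  have h := mul_inv_cancel₀ hD
  simp only [div_eq_mul_inv]
  linear_combination y * h

theorem f1 (hD : p * s - q * r ≠ 0) (x y : ℂ) :
    p * (s / (p * s - q * r) * x + -q / (p * s - q * r) * y) +
      q * (-r / (p * s - q * r) * x + p / (p * s - q * r) * y) = x := by
  have h := mul_inv_cancel₀ hD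
  simp only [div_eq_mul_inv]
  linear_combination x * h

theorem f2 (hD : p * s - q * r ≠ 0) (x y : ℂ) :
    r * (s / (p * s - q * r) * x + -q / (p * s - q * r) * y) +
      s * (-r / (p * s - q * r) * x + p / (p * s - q * r) * y) = y := by
  have h := mul_inv_cancel₀ hD
  simp only [div_eq_mul_inv]
  linear_combination y * h

theorem inv_pull (hD : p * s - q * r ≠ 0) (Φ : Fn →ₗ[ℂ] ℂ) : invF p q r s (pull p q r s Φ) = Φ := by
  refine LinearMap.ext fun f => ?_
  show Φ (fun x y => f (s / (p * s - q * r) * (p * x + q * y) +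
    -q / (p * s - q * r) * (r * x + s * y)) (-r / (p * s - q * r) * (p * x + q * y) +
    p / (p * s - q * r) * (r * x + s * y))) = Φ f
  congr 1
  funext x y
  rw [e1 hD, e2 hD]

theorem pull_inv (hD : p * s - q * r ≠ 0) (Φ : Fn →ₗ[ℂ] ℂ) : pull p q r s (invF p q r s Φ) = Φ := by
  refine LinearMap.ext fun f => ?_
  show Φ (fun x y => f (p * (s / (p * s - q * r) * x + -q / (p * s - q * r) * y) +
      q * (-r / (p * s - q * r) * x + p / (p * s - q * r) * y))
    (r * (s / (p * s - q * r) * x + -q / (p * s - q * r) * y) +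
      s * (-r / (p * s - q * r) * x + p / (p * s - q * r) * y))) = Φ f
  congr 1
  funext x y
  rw [f1 hD, f2 hD]

end inverse

theorem pow_cmp (p q r s : ℂ) {a : ℕ} (ha : a ≤ 3) : ∃ c : Fin 4 → ℂ, ∀ x y,
    (p * x + q * y) ^ (3 - a) * (r * x + s * y) ^ a = cub c x y := by
  have h : a = 0 ∨ a = 1 ∨ a = 2 ∨ a = 3 := by omega
  rcases h with rfl | rfl | rfl | rfl
  · obtain ⟨c, hc⟩ := cub_cmp p q r s ![1, 0, 0, 0]
    refine ⟨c, fun x y => ?_⟩
    rw [← hc]
    simp [cmpF, cub]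
  · obtain ⟨c, hc⟩ := cub_cmp p q r s ![0, 1, 0, 0]
    refine ⟨c, fun x y => ?_⟩
    rw [← hc]
    simp [cmpF, cub]
  · obtain ⟨c, hc⟩ := cub_cmp p q r s ![0, 0, 1, 0]
    refine ⟨c, fun x y => ?_⟩
    rw [← hc]
    simp [cmpF, cub]
  · obtain ⟨c, hc⟩ := cub_cmp p q r s ![0, 0, 0, 1]
    refine ⟨c, fun x y => ?_⟩
    rw [← hc]
    simp [cmpF, cub]

theorem mon_cmp (p q r s : ℂ) {a b : ℕ} (ha : a ≤ 3) (hb : b ≤ 3) : ∃ C : Fin 4 → Fin 4 → ℂ,
    cmpF p q r s (mon a b) = ∑ i : Fin 4, ∑ j : Fin 4, C i j • mon i j := by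
  obtain ⟨c, hc⟩ := pow_cmp p q r s ha
  obtain ⟨d, hd⟩ := pow_cmp p q r s hb
  refine ⟨fun i j => c i * conj (d j), ?_⟩
  funext x y
  show (p * x + q * y) ^ (3 - a) * (r * x + s * y) ^ a *
    conj ((p * x + q * y) ^ (3 - b) * (r * x + s * y) ^ b) = _
  rw [hc, hd]
  simp only [Fin.sum_univ_four, cub, mon, Pi.add_apply, Pi.smul_apply, smul_eq_mul, map_add,
    map_mul, map_pow]
  simp
  ring

theorem eq_of_mon {Φ Ψ : Fn →ₗ[ℂ] ℂ} {t : ℂ} (p q r s : ℂ)
    (h : ∀ a b : ℕ, a ≤ 3 → b ≤ 3 → Ψ (mon a b) = t * Φ (mon a b)) {a b : ℕ} (ha : a ≤ 3)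
    (hb : b ≤ 3) : pull p q r s Ψ (mon a b) = t * pull p q r s Φ (mon a b) := by
  obtain ⟨C, hC⟩ := mon_cmp p q r s ha hb
  rw [pull_apply, pull_apply, hC]
  simp only [map_sum, map_smul, smul_eq_mul, Finset.mul_sum]
  refine Finset.sum_congr rfl fun i _ => Finset.sum_congr rfl fun j _ => ?_
  rw [h i j (by omega) (by omega)]
  ring

theorem pull_sub (p q r s : ℂ) (Φ Ψ : Fn →ₗ[ℂ] ℂ) :
    pull p q r s (Φ - Ψ) = pull p q r s Φ - pull p q r s Ψ := rfl

end PU17

open PU17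

theorem puh : S_PU := by
  intro p q r s hD Φ
  refine ⟨herm_pull p q r s, p2_pull p q r s, ?_, ?_, ?_⟩
  · intro h c hc
    obtain ⟨c', hc'⟩ := cub_cmp p q r s c
    have h1 : pull p q r s Φ (sq (cub c)) = Φ (sq (cub c')) := by
      rw [pull_apply]
      congr 1
      funext x y
      have := congrFun (congrFun hc' x) y
      simp only [cmpF] at this
      simp only [cmpF, sq]
      rw [this]
    rw [h1]
    refine h c' ?_
    rintro rfl
    apply hc
    apply cub_inj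
    intro x y
    have h2 := congrFun (congrFun hc' (s / (p * s - q * r) * x + -q / (p * s - q * r) * y))
      (-r / (p * s - q * r) * x + p / (p * s - q * r) * y)
    simp only [cmpF] at h2
    rw [f1 hD, f2 hD] at h2
    rw [h2]
    simp [cub]
  · intro h Ψ hΨ h2 h3
    have h4 : P2 (Φ - invF p q r s Ψ) := by
      have h5 := p2_pull (s / (p * s - q * r)) (-q / (p * s - q * r)) (-r / (p * s - q * r))
        (p / (p * s - q * r)) h3
      rw [pull_sub] at h5
      have h6 := inv_pull hD Φ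
      unfold invF at h6
      rw [h6] at h5
      exact h5
    obtain ⟨t, ht⟩ := h (invF p q r s Ψ) (herm_pull _ _ _ _ hΨ) (p2_pull _ _ _ _ h2) h4
    refine ⟨t, fun a b ha hb => ?_⟩
    have h5 := eq_of_mon p q r s ht ha hb
    rw [pull_inv hD] at h5
    exact h5
  · rintro ⟨n, x, y, h⟩
    refine ⟨n, fun k => s / (p * s - q * r) * x k + -q / (p * s - q * r) * y k,
      fun k => -r / (p * s - q * r) * x k + p / (p * s - q * r) * y k, fun a b ha hb => ?_⟩
    have h5 := eq_of_mon (Φ := ∑ k, ev (x k) (y k)) (Ψ := pull p q r s Φ) (t := 1)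
      (s / (p * s - q * r)) (-q / (p * s - q * r)) (-r / (p * s - q * r)) (p / (p * s - q * r))
      (fun a b ha hb => by rw [one_mul]; exact h a b ha hb) ha hb
    have h6 := inv_pull hD Φ
    unfold invF at h6
    rw [h6, one_mul] at h5
    rw [h5, pull_apply, LinearMap.sum_apply, LinearMap.sum_apply]
    rfl

end Pool.Agent.K9h78.S6
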