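import Pool.Agent.K9h78.S6.Stm

/-!
# QI: the quadratic inequality for words
-/

set_option autoImplicit false
open ComplexConjugate Matrix

namespace Pool.Agent.K9h78.S6

section

variable {n : ℕ} (A B : Matrix (Fin n) (Fin n) ℂ)

/-- a triple product -/
noncomputable def qiT (i j k : Bool) : Matrix (Fin n) (Fin n) ℂ :=
  (if i then B else A) * (if j then B else A)ᴴ * (if k then B else A)

theorem qi_TT (i j k i' j' k' : Bool) :
    (qiT A B i j k * (qiT A B i' j' k')ᴴ).trace = tw A B i j k k' j' i' := by
  unfold qiT tw
  simp only [Matrix.conjTranspose_mul, Matrix.conjTranspose_conjTranspose, Matrix.mul_assoc]

theorem qi_rot (i j k l m o : Bool) : tw A B i j k l m o = tw A B k l m o i j := by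
  unfold tw
  simp only [Matrix.mul_assoc]
  rw [← Matrix.mul_assoc (if i then B else A), Matrix.trace_mul_comm]
  simp only [Matrix.mul_assoc]

theorem qi_r0 : tw A B false false false true false false = tw A B false false false false false true :=
  (qi_rot A B false false false true false false).trans (qi_rot A B false true false false false false)

theorem qi_r1 : tw A B false false true false false false = tw A B false false false false true false :=
  (qi_rot A B false false true false false false).trans (qi_rot A B true false false false false false)

theorem qi_r2 : tw A B false false true true false false = tw A B false false false false true true :=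
  (qi_rot A B false false true true false false).trans (qi_rot A B true true false false false false)

theorem qi_r3 : tw A B false true false false false false = tw A B false false false false false true :=
  qi_rot A B false true false false false false

theorem qi_r4 : tw A B false true false false false true = tw A B false false false true false true :=
  qi_rot A B false true false false false true

theorem qi_r5 : tw A B false true false false true false = tw A B false false true false false true :=
  qi_rot A B false true false false true false

theorem qi_r6 : tw A B false true false false true true = tw A B false false true true false true :=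
  qi_rot A B false true false false true true

theorem qi_r7 : tw A B false true false true false false = tw A B false false false true false true :=
  (qi_rot A B false true false true false false).trans (qi_rot A B false true false false false true)

theorem qi_r8 : tw A B false true true false false false = tw A B false false false true true false :=
  (qi_rot A B false true true false false false).trans (qi_rot A B true false false false false true)

theorem qi_r9 : tw A B false true true false false true = tw A B false true false true true false :=
  (qi_rot A B false true true false false true).trans (qi_rot A B true false false true false true)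

theorem qi_r10 : tw A B false true true true false false = tw A B false false false true true true :=
  (qi_rot A B false true true true false false).trans (qi_rot A B true true false false false true)

theorem qi_r11 : tw A B false true true true false true = tw A B false true false true true true :=
  (qi_rot A B false true true true false true).trans (qi_rot A B true true false true false true)

theorem qi_r12 : tw A B true false false false false false = tw A B false false false false true false :=
  qi_rot A B true false false false false false

theorem qi_r13 : tw A B true false false false false true = tw A B false false false true true false :=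
  qi_rot A B true false false false false true

theorem qi_r14 : tw A B true false false false true false = tw A B false false true false true false :=
  qi_rot A B true false false false true false

theorem qi_r15 : tw A B true false false false true true = tw A B false false true true true false :=
  qi_rot A B true false false false true true

theorem qi_r16 : tw A B true false false true false false = tw A B false false true false false true :=
  (qi_rot A B true false false true false false).trans (qi_rot A B false true false false true false)

theorem qi_r17 : tw A B true false false true false true = tw A B false true false true true false :=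
  qi_rot A B true false false true false true

theorem qi_r18 : tw A B true false false true true false = tw A B false true true false true false :=
  qi_rot A B true false false true true false

theorem qi_r19 : tw A B true false false true true true = tw A B false true true true true false :=
  qi_rot A B true false false true true true

theorem qi_r20 : tw A B true false true false false false = tw A B false false true false true false :=
  (qi_rot A B true false true false false false).trans (qi_rot A B true false false false true false)

theorem qi_r21 : tw A B true false true false false true = tw A B false true true false true false :=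
  (qi_rot A B true false true false false true).trans (qi_rot A B true false false true true false)

theorem qi_r22 : tw A B true false true true false false = tw A B false false true false true true :=
  (qi_rot A B true false true true false false).trans (qi_rot A B true true false false true false)

theorem qi_r23 : tw A B true false true true false true = tw A B false true true false true true :=
  (qi_rot A B true false true true false true).trans (qi_rot A B true true false true true false)

theorem qi_r24 : tw A B true false true true true false = tw A B true false true false true true :=
  (qi_rot A B true false true true true false).trans (qi_rot A B true true true false true false)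

theorem qi_r25 : tw A B true true false false false false = tw A B false false false false true true :=
  qi_rot A B true true false false false false

theorem qi_r26 : tw A B true true false false false true = tw A B false false false true true true :=
  qi_rot A B true true false false false true

theorem qi_r27 : tw A B true true false false true false = tw A B false false true false true true :=
  qi_rot A B true true false false true false

theorem qi_r28 : tw A B true true false false true true = tw A B false false true true true true :=
  qi_rot A B true true false false true true

theorem qi_r29 : tw A B true true false true false false = tw A B false false true true false true :=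
  (qi_rot A B true true false true false false).trans (qi_rot A B false true false false true true)

theorem qi_r30 : tw A B true true false true false true = tw A B false true false true true true :=
  qi_rot A B true true false true false true

theorem qi_r31 : tw A B true true false true true false = tw A B false true true false true true :=
  qi_rot A B true true false true true false

theorem qi_r32 : tw A B true true false true true true = tw A B false true true true true true :=
  qi_rot A B true true false true true true

theorem qi_r33 : tw A B true true true false false false = tw A B false false true true true false :=
  (qi_rot A B true true true false false false).trans (qi_rot A B true false false false true true)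

theorem qi_r34 : tw A B true true true false false true = tw A B false true true true true false :=
  (qi_rot A B true true true false false true).trans (qi_rot A B true false false true true true)

theorem qi_r35 : tw A B true true true false true false = tw A B true false true false true true :=
  qi_rot A B true true true false true false

theorem qi_r36 : tw A B true true true false true true = tw A B true false true true true true :=
  qi_rot A B true true true false true true

theorem qi_r37 : tw A B true true true true false false = tw A B false false true true true true :=
  (qi_rot A B true true true true false false).trans (qi_rot A B true true false false true true)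

theorem qi_r38 : tw A B true true true true false true = tw A B false true true true true true :=
  (qi_rot A B true true true true false true).trans (qi_rot A B true true false true true true)

theorem qi_r39 : tw A B true true true true true false = tw A B true false true true true true :=
  (qi_rot A B true true true true true false).trans (qi_rot A B true true true false true true)

end

theorem qi_pos {n : ℕ} (Y : Matrix (Fin n) (Fin n) ℂ) : 0 ≤ ((Y * Yᴴ).trace).re := by
  rw [Matrix.trace, Complex.re_sum]
  refine Finset.sum_nonneg fun i _ => ?_
  rw [Matrix.diag_apply, Matrix.mul_apply, Complex.re_sum]
  refine Finset.sum_nonneg fun j _ => ?_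
  rw [Matrix.conjTranspose_apply, Complex.star_def, Complex.mul_conj, Complex.ofReal_re]
  exact Complex.normSq_nonneg _

theorem qi_exp (a b c d : ℂ) : sq (hh ![0, 2 * b, c, a, 2 * d, 0]) =
    (a * conj a + 4 * b * conj b) • mon 1 1 + (c * conj c + 4 * d * conj d) • mon 2 2 +
    (2 * a * conj b) • mon 0 2 + (2 * b * conj a) • mon 2 0 + (a * conj c) • mon 0 3 +
    (c * conj a) • mon 3 0 + (2 * a * conj d + 2 * b * conj c + 4 * d * conj b) • mon 1 2 +
    (2 * d * conj a + 2 * c * conj b + 4 * b * conj d) • mon 2 1 + (2 * c * conj d) • mon 3 1 +
    (2 * d * conj c) • mon 1 3 := by
  funext x y
  simp only [sq, hh, mon, Pi.add_apply, Pi.smul_apply, smul_eq_mul, Matrix.cons_val_zero,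
    Matrix.cons_val_one, Matrix.cons_val, map_add, map_mul, map_pow, map_zero, map_ofNat,
    Complex.conj_conj]
  ring

set_option linter.unusedSimpArgs false in
theorem qi_id {n : ℕ} (A B : Matrix (Fin n) (Fin n) ℂ) {Φ : Fn →ₗ[ℂ] ℂ} (hmo : S_MO)
    (hr : Rep6 Φ A B) (a b c d : ℂ) :
    Φ (sq (hh ![0, 2 * b, c, a, 2 * d, 0])) =
      ((a • qiT A B false true false + b • (qiT A B false false true + qiT A B true false false) +
          c • qiT A B true false true + d • (qiT A B false true true + qiT A B true true false)) *
        (a • qiT A B false true false + b • (qiT A B false false true + qiT A B true false false) +
          c • qiT A B true false true +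
          d • (qiT A B false true true + qiT A B true true false))ᴴ).trace +
      (1 / 3) * ((a * conj a + b * conj b) *
          ((qiT A B false false true - qiT A B true false false) *
            (qiT A B false false true - qiT A B true false false)ᴴ).trace +
        (c * conj c + d * conj d) * ((qiT A B false true true - qiT A B true true false) *
            (qiT A B false true true - qiT A B true true false)ᴴ).trace +
        (a * conj d + b * conj c - conj b * d) *
          ((qiT A B false true true - qiT A B true true false) *
            (qiT A B false false true - qiT A B true false false)ᴴ).trace +
        (conj a * d + conj b * c - b * conj d) *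
          ((qiT A B false false true - qiT A B true false false) *
            (qiT A B false true true - qiT A B true true false)ᴴ).trace) := by
  obtain ⟨m11, m22, m12, m21, m02, m20, m03, m30, m13, m31⟩ := hmo n A B Φ hr
  rw [qi_exp]
  simp only [map_add, map_smul, smul_eq_mul, m11, m22, m12, m21, m02, m03, m31, m20, m30, m13]
  simp only [Matrix.conjTranspose_add, Matrix.conjTranspose_sub, Matrix.conjTranspose_smul,
    Matrix.add_mul, Matrix.mul_add, Matrix.sub_mul, Matrix.mul_sub, Matrix.smul_mul,
    Matrix.mul_smul, Matrix.trace_add, Matrix.trace_sub, Matrix.trace_smul, smul_add, smul_smul,
    smul_eq_mul, qi_TT, Complex.star_def]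
  simp only [qi_r0 A B, qi_r1 A B, qi_r2 A B, qi_r3 A B, qi_r4 A B, qi_r5 A B, qi_r6 A B, qi_r7 A B, qi_r8 A B, qi_r9 A B, qi_r10 A B, qi_r11 A B, qi_r12 A B, qi_r13 A B, qi_r14 A B, qi_r15 A B, qi_r16 A B, qi_r17 A B, qi_r18 A B, qi_r19 A B, qi_r20 A B, qi_r21 A B, qi_r22 A B, qi_r23 A B, qi_r24 A B, qi_r25 A B, qi_r26 A B, qi_r27 A B, qi_r28 A B, qi_r29 A B, qi_r30 A B, qi_r31 A B, qi_r32 A B, qi_r33 A B, qi_r34 A B, qi_r35 A B, qi_r36 A B, qi_r37 A B, qi_r38 A B, qi_r39 A B]
  ring

theorem qi (hmo : S_MO) : S_QI := by
  intro n A B Φ _ hr a b c d hE
  rw [qi_id A B hmo hr a b c d]
  set D0 := qiT A B false false true - qiT A B true false false with hD0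
  set D1 := qiT A B false true true - qiT A B true true false with hD1
  set X := a • qiT A B false true false + b • (qiT A B false false true + qiT A B true false false) +
          c • qiT A B true false true + d • (qiT A B false true true + qiT A B true true false)
    with hX
  set e : ℂ := a * conj d + b * conj c - conj b * d with he
  have he' : conj a * d + conj b * c - b * conj d = conj e := by
    rw [he]
    simp only [map_add, map_sub, map_mul, Complex.conj_conj]
  rw [he'] at hE ⊢
  rw [RCLike.norm_conj] at hE
  set P : ℝ := ‖a‖ ^ 2 + ‖b‖ ^ 2 with hP
  set Q : ℝ := ‖c‖ ^ 2 + ‖d‖ ^ 2 with hQ
  have eP : a * conj a + b * conj b = (P : ℂ) := by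
    rw [Complex.mul_conj', Complex.mul_conj', hP]
    push_cast
    ring
  have eQ : c * conj c + d * conj d = (Q : ℂ) := by
    rw [Complex.mul_conj', Complex.mul_conj', hQ]
    push_cast
    ring
  rw [eP, eQ]
  have h0 := qi_pos X
  have h1 := qi_pos D0
  have h2 := qi_pos D1
  have hP0 : 0 ≤ P := by positivity
  have hQ0 : 0 ≤ Q := by positivity
  have h3 := qi_pos ((P : ℂ) • D0 + e • D1)
  have h4 : (((P : ℂ) • D0 + e • D1) * ((P : ℂ) • D0 + e • D1)ᴴ).trace =
      (P : ℂ) * ((P : ℂ) * (D0 * D0ᴴ).trace + e * (D1 * D0ᴴ).trace +
        conj e * (D0 * D1ᴴ).trace) + (e * conj e) * (D1 * D1ᴴ).trace := by
    simp only [Matrix.conjTranspose_add, Matrix.conjTranspose_smul, Matrix.add_mul, Matrix.mul_add,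
      Matrix.smul_mul, Matrix.mul_smul, Matrix.trace_add, Matrix.trace_smul, smul_add, smul_smul,
      smul_eq_mul, Complex.star_def, Complex.conj_ofReal]
    ring
  have e5 : ∀ z : ℂ, ((P : ℂ) * z).re = P * z.re := fun z => Complex.re_ofReal_mul P z
  have e6 : ∀ z : ℂ, ((Q : ℂ) * z).re = Q * z.re := fun z => Complex.re_ofReal_mul Q z
  have e7 : ∀ z : ℂ, ((e * conj e) * z).re = ‖e‖ ^ 2 * z.re := by
    intro z
    rw [Complex.mul_conj']
    have := Complex.re_ofReal_mul (‖e‖ ^ 2) z
    push_cast at this
    exact this
  rw [h4, Complex.add_re, e5, Complex.add_re, Complex.add_re, e5, e7] at h3
  have e8 : ((1 / 3 : ℂ) * ((P : ℂ) * (D0 * D0ᴴ).trace + (Q : ℂ) * (D1 * D1ᴴ).trace +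
      e * (D1 * D0ᴴ).trace + conj e * (D0 * D1ᴴ).trace)).re =
      (1 / 3) * (P * (D0 * D0ᴴ).trace.re + Q * (D1 * D1ᴴ).trace.re +
        (e * (D1 * D0ᴴ).trace).re + (conj e * (D0 * D1ᴴ).trace).re) := by
    have := Complex.re_ofReal_mul (1 / 3) ((P : ℂ) * (D0 * D0ᴴ).trace +
      (Q : ℂ) * (D1 * D1ᴴ).trace + e * (D1 * D0ᴴ).trace + conj e * (D0 * D1ᴴ).trace)
    push_cast at this
    rw [this]
    simp only [Complex.add_re, e5, e6]
  rw [Complex.add_re, e8]
  set p := (D0 * D0ᴴ).trace.re
  set q := (D1 * D1ᴴ).trace.re
  set s := (e * (D1 * D0ᴴ).trace).re
  set s' := (conj e * (D0 * D1ᴴ).trace).re
  have key : 0 ≤ P * p + Q * q + s + s' := by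
    rcases hP0.eq_or_lt with hz | hz
    · have he0 : ‖e‖ ^ 2 ≤ 0 := by
        rw [← hz] at hE
        linarith
      have he1 : e = 0 := by
        have : ‖e‖ ^ 2 = 0 := le_antisymm he0 (by positivity)
        exact norm_eq_zero.1 (pow_eq_zero_iff two_ne_zero |>.1 this)
      have s0 : s = 0 := by
        show (e * (D1 * D0ᴴ).trace).re = 0
        rw [he1]
        simp
      have s0' : s' = 0 := by
        show (conj e * (D0 * D1ᴴ).trace).re = 0
        rw [he1]
        simp
      rw [s0, s0', ← hz]
      have := mul_nonneg hQ0 h2
      linarith
    · have h6 : 0 ≤ P * (P * p + Q * q + s + s') := by
        have h7 : ‖e‖ ^ 2 * q ≤ P * Q * q := mul_le_mul_of_nonneg_right hE h2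
        nlinarith [h3, h7]
      exact nonneg_of_mul_nonneg_right h6 hz
  exact add_nonneg h0 (mul_nonneg (by norm_num) key)

end Pool.Agent.K9h78.S6
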