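import Pool.Agent.K9h78.S6.Stm

/-!
# The leaf RED: a reducible kernel vector
-/

set_option autoImplicit false
open ComplexConjugate Matrix

namespace Pool.Agent.K9h78.S6

/-- forms of bidegree `(1,1)` -/
noncomputable def rdG (A B C D : ℂ) : Fn := fun x y =>
  A * (x * conj x) + B * (conj x * y) + C * (x * conj y) + D * (y * conj y)

/-- the products `X g` are forms of bidegree `(2,1)` -/
lemma rd_mul (u v A B C D : ℂ) : ∃ h : Fin 6 → ℂ, ∀ x y : ℂ, hh h x y =
    (v * x - u * y) * rdG A B C D (v * x - u * y) (conj u * x + conj v * y) := by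
  refine ⟨![conj v * v * (A * v + B * conj u) + u * v * (C * v + D * conj u),
    conj v * (v * (-A * u + B * conj v) - u * (A * v + B * conj u)) +
      u * (v * (-C * u + D * conj v) - u * (C * v + D * conj u)),
    -conj v * u * (-A * u + B * conj v) - u * u * (-C * u + D * conj v),
    -conj u * v * (A * v + B * conj u) + v * v * (C * v + D * conj u),
    -conj u * (v * (-A * u + B * conj v) - u * (A * v + B * conj u)) +
      v * (v * (-C * u + D * conj v) - u * (C * v + D * conj u)),
    conj u * u * (-A * u + B * conj v) - v * u * (-C * u + D * conj v)], fun x y => ?_⟩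
  have e0 : ∀ a b c d e f : ℂ, hh ![a, b, c, d, e, f] x y =
    conj x * (a * x ^ 2 + b * (x * y) + c * y ^ 2) +
      conj y * (d * x ^ 2 + e * (x * y) + f * y ^ 2) := fun a b c d e f => rfl
  rw [e0]
  unfold rdG
  simp only [map_sub, map_add, map_mul, Complex.conj_conj]
  ring

/-- a quadratic form which vanishes at `(u, v)` -/
lemma rd_quad {u v : ℂ} (hN : v * conj v + u * conj u ≠ 0) {a b c : ℂ}
    (hq : a * u ^ 2 + b * (u * v) + c * v ^ 2 = 0) : ∃ P R : ℂ, ∀ x y : ℂ,
    a * x ^ 2 + b * (x * y) + c * y ^ 2 =
      (v * x - u * y) * (P * (v * x - u * y) + R * (conj u * x + conj v * y)) := by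
  refine ⟨(a * conj v ^ 2 - b * (conj v * conj u) + c * conj u ^ 2) /
    (v * conj v + u * conj u) ^ 2, (2 * a * conj v * u + b * (v * conj v - u * conj u) -
    2 * c * conj u * v) / (v * conj v + u * conj u) ^ 2, fun x y => ?_⟩
  field_simp
  linear_combination (conj u * x + conj v * y) ^ 2 * hq

lemma rd_fac {u v : ℂ} (hN : v * conj v + u * conj u ≠ 0) {h : Fin 6 → ℂ}
    (h1 : h 0 * u ^ 2 + h 1 * (u * v) + h 2 * v ^ 2 = 0)
    (h2 : h 3 * u ^ 2 + h 4 * (u * v) + h 5 * v ^ 2 = 0) : ∃ A B C D : ℂ, ∀ x y : ℂ,
    hh h x y =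
      (v * x - u * y) * rdG A B C D (v * x - u * y) (conj u * x + conj v * y) := by
  obtain ⟨P0, R0, e0⟩ := rd_quad hN h1
  obtain ⟨P1, R1, e1⟩ := rd_quad hN h2
  refine ⟨(v * P0 - u * P1) / (v * conj v + u * conj u), (v * R0 - u * R1) /
    (v * conj v + u * conj u), (conj u * P0 + conj v * P1) / (v * conj v + u * conj u),
    (conj u * R0 + conj v * R1) / (v * conj v + u * conj u), fun x y => ?_⟩
  unfold hh
  rw [e0, e1]
  unfold rdG
  simp only [map_sub, map_add, map_mul, Complex.conj_conj]
  field_simp
  ring

lemma rd_conj (A B C D x y : ℂ) :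
    conj (rdG A B C D x y) = rdG (conj A) (conj C) (conj B) (conj D) x y := by
  unfold rdG
  simp only [map_add, map_mul, Complex.conj_conj]
  ring

/-- linear combinations of kernel vectors -/
lemma rd_comb {Φ : Fn →ₗ[ℂ] ℂ} {h h₂ : Fin 6 → ℂ}
    (k1 : ∀ h' : Fin 6 → ℂ, Φ (fun x y => hh h x y * conj (hh h' x y)) = 0)
    (k2 : ∀ h' : Fin 6 → ℂ, Φ (fun x y => hh h₂ x y * conj (hh h' x y)) = 0)
    (c1 c2 : ℂ) (hr : Fin 6 → ℂ) (w : Fn) (hw : ∀ x y, w x y = c1 * hh h x y + c2 * hh h₂ x y)
    (hw' : ∀ x y, hh hr x y = w x y) : Φ (sq w) = 0 := by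
  have e : sq w = c1 • (fun x y => hh h x y * conj (hh hr x y)) +
      c2 • (fun x y => hh h₂ x y * conj (hh hr x y)) := by
    funext x y
    show w x y * conj (w x y) = c1 * (hh h x y * conj (hh hr x y)) +
      c2 * (hh h₂ x y * conj (hh hr x y))
    rw [hw' x y]
    nth_rewrite 1 [hw x y]
    ring
  rw [e, map_add, map_smul, map_smul, k1, k2]
  simp

/-- the coefficients of the zero form -/
lemma rd_zero {h : Fin 6 → ℂ} (hz : ∀ x y, hh h x y = 0) : h = 0 := by
  have a1 := hz 1 0
  have a2 := hz 0 1
  have a3 := hz 1 1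
  have a4 := hz 1 (-1)
  have a5 := hz 1 Complex.I
  have a6 := hz 1 (-Complex.I)
  unfold hh at a1 a2 a3 a4 a5 a6
  simp only [map_one, map_zero, map_neg, Complex.conj_I] at a1 a2 a3 a4 a5 a6
  have hI : Complex.I ^ 2 = -1 := Complex.I_sq
  have hI0 : Complex.I ≠ 0 := Complex.I_ne_zero
  have h0 : h 0 = 0 := by linear_combination a1
  have h5 : h 5 = 0 := by linear_combination a2
  have b1 : h 1 + h 3 = 0 := by
    linear_combination (1 / 2) * a3 - (1 / 2) * a4 - h5
  have b2 : h 2 + h 4 = 0 := by
    linear_combination (1 / 2) * a3 + (1 / 2) * a4 - h0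
  have b3 : h 4 - h 2 = 0 := by
    linear_combination (1 / 2) * a5 + (1 / 2) * a6 - h0 - (h 2 - h 4) * hI
  have b4 : h 1 - h 3 = 0 := by
    have : Complex.I * (h 1 - h 3) = 0 := by
      linear_combination (1 / 2) * a5 - (1 / 2) * a6 + Complex.I * hI * h 5 - Complex.I * h5
    exact (mul_eq_zero.1 this).resolve_left hI0
  funext i
  fin_cases i
  · exact h0
  · show h 1 = 0
    linear_combination (1 / 2) * b1 + (1 / 2) * b4
  · show h 2 = 0
    linear_combination (1 / 2) * b2 - (1 / 2) * b3
  · show h 3 = 0
    linear_combination (1 / 2) * b1 - (1 / 2) * b4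
  · show h 4 = 0
    linear_combination (1 / 2) * b2 + (1 / 2) * b3
  · exact h5

theorem red (hK : S_KER) : S_RED := by
  intro Φ hH hP h hne h0 u v huv h1 h2
  have hN : v * conj v + u * conj u ≠ 0 := by
    rw [Complex.mul_conj, Complex.mul_conj, ← Complex.ofReal_add]
    have hu := Complex.normSq_nonneg u
    have hv := Complex.normSq_nonneg v
    have : 0 < Complex.normSq v + Complex.normSq u := by
      rcases huv with h | h
      · have := Complex.normSq_pos.2 h
        linarith
      · have := Complex.normSq_pos.2 h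
        linarith
    exact_mod_cast this.ne'
  obtain ⟨A, B, C, D, hG⟩ := rd_fac hN h1 h2
  obtain ⟨h', hG'⟩ := rd_mul u v (conj A) (conj C) (conj B) (conj D)
  have hsq : sq (hh h') = sq (hh h) := by
    funext x y
    show hh h' x y * conj (hh h' x y) = hh h x y * conj (hh h x y)
    rw [hG, hG', ← rd_conj, map_mul, map_mul, Complex.conj_conj]
    ring
  have k1 := hK Φ hH hP h h0
  have k2 := hK Φ hH hP h' (by rw [hsq]; exact h0)
  have hdet : v * conj v - -u * conj u ≠ 0 := by
    intro h3
    apply hN
    linear_combination h3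
  by_cases hc : A.re ≠ 0 ∨ D.re ≠ 0 ∨ (B + conj C) / 2 ≠ 0
  · refine ⟨v, -u, conj u, conj v, A.re, D.re, (B + conj C) / 2, hdet, hc, ?_⟩
    obtain ⟨hr, hw'⟩ := rd_mul u v (A.re : ℂ) ((B + conj C) / 2) (conj ((B + conj C) / 2))
      (D.re : ℂ)
    have key := rd_comb k1 k2 (1 / 2) (1 / 2) hr (fun x y => (v * x - u * y) *
      rdG (A.re : ℂ) ((B + conj C) / 2) (conj ((B + conj C) / 2)) (D.re : ℂ)
        (v * x - u * y) (conj u * x + conj v * y)) (fun x y => ?_) hw'
    · have e : pull v (-u) (conj u) (conj v) Φ (sq fun x y => x *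
          gf A.re D.re ((B + conj C) / 2) x y) = 0 := by
        rw [← key]
        show Φ _ = Φ _
        congr 1
        funext x y
        show (v * x + -u * y) * gf A.re D.re ((B + conj C) / 2) (v * x + -u * y)
          (conj u * x + conj v * y) * conj ((v * x + -u * y) *
          gf A.re D.re ((B + conj C) / 2) (v * x + -u * y) (conj u * x + conj v * y)) = _
        have e1 : v * x + -u * y = v * x - u * y := by ring
        rw [e1]
        rfl
      rw [e]
      simp
    · rw [hG, hG']
      unfold rdG
      have hA : (A.re : ℂ) = (A + conj A) / 2 := by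
        rw [Complex.add_conj]; push_cast; ring
      have hD : (D.re : ℂ) = (D + conj D) / 2 := by
        rw [Complex.add_conj]; push_cast; ring
      rw [hA, hD]
      simp only [map_div₀, map_add, map_ofNat, Complex.conj_conj]
      ring
  · push Not at hc
    obtain ⟨c1, c2, c3⟩ := hc
    refine ⟨v, -u, conj u, conj v, A.im, D.im, (B - conj C) / (2 * Complex.I), hdet, ?_, ?_⟩
    · by_contra hcon
      push Not at hcon
      obtain ⟨d1, d2, d3⟩ := hcon
      have hA : A = 0 := Complex.ext c1 d1
      have hD : D = 0 := Complex.ext c2 d2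
      have d3' : B - conj C = 0 := by
        rcases div_eq_zero_iff.1 d3 with h | h
        · exact h
        · exact absurd h (mul_ne_zero two_ne_zero Complex.I_ne_zero)
      have hB : B = 0 := by linear_combination c3 + (1 / 2) * d3'
      have hC' : conj C = 0 := by linear_combination c3 - (1 / 2) * d3'
      have hC : C = 0 := by
        have := congrArg conj hC'
        rwa [Complex.conj_conj, map_zero] at this
      apply hne
      apply rd_zero
      intro x y
      rw [hG, hA, hB, hC, hD]
      unfold rdG
      ring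
    · obtain ⟨hr, hw'⟩ := rd_mul u v (A.im : ℂ) ((B - conj C) / (2 * Complex.I))
        (conj ((B - conj C) / (2 * Complex.I))) (D.im : ℂ)
      have key := rd_comb k1 k2 (1 / (2 * Complex.I)) (-(1 / (2 * Complex.I))) hr
        (fun x y => (v * x - u * y) *
        rdG (A.im : ℂ) ((B - conj C) / (2 * Complex.I)) (conj ((B - conj C) / (2 * Complex.I)))
        (D.im : ℂ) (v * x - u * y) (conj u * x + conj v * y)) (fun x y => ?_) hw'
      · have e : pull v (-u) (conj u) (conj v) Φ (sq fun x y => x *
            gf A.im D.im ((B - conj C) / (2 * Complex.I)) x y) = 0 := by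
          rw [← key]
          show Φ _ = Φ _
          congr 1
          funext x y
          show (v * x + -u * y) * gf A.im D.im ((B - conj C) / (2 * Complex.I)) (v * x + -u * y)
            (conj u * x + conj v * y) * conj ((v * x + -u * y) *
            gf A.im D.im ((B - conj C) / (2 * Complex.I)) (v * x + -u * y)
              (conj u * x + conj v * y)) = _
          have e1 : v * x + -u * y = v * x - u * y := by ring
          rw [e1]
          rfl
        rw [e]
        simp
      · rw [hG, hG']
        unfold rdG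
        have hA : (A.im : ℂ) = (A - conj A) / (2 * Complex.I) := by
          rw [Complex.sub_conj]
          field_simp
          push_cast
          ring
        have hD : (D.im : ℂ) = (D - conj D) / (2 * Complex.I) := by
          rw [Complex.sub_conj]
          field_simp
          push_cast
          ring
        rw [hA, hD]
        simp only [map_div₀, map_sub, map_mul, map_ofNat, Complex.conj_conj, Complex.conj_I]
        field_simp
        ring

end Pool.Agent.K9h78.S6
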