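import Pool.Agent.K9h78.S6.Stm

set_option autoImplicit false
open ComplexConjugate Matrix

namespace Pool.Agent.K9h78.S6.TZ89

/-- the real form times a monomial of bidegree `(2,2)` -/
noncomputable def N (α δ : ℝ) (β : ℂ) (s t : ℕ) : Fn := fun x y =>
  gf α δ β x y * (x ^ (2 - s) * y ^ s * conj (x ^ (2 - t) * y ^ t))

theorem gf_conj (α δ : ℝ) (β : ℂ) (x y : ℂ) : conj (gf α δ β x y) = gf α δ β x y := by
  simp only [gf, map_add, map_mul, Complex.conj_ofReal, Complex.conj_conj]
  ring

theorem herm_N {Φ : Fn →ₗ[ℂ] ℂ} (hH : Herm Φ) (α δ : ℝ) (β : ℂ) (s t : ℕ) :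
    Φ (N α δ β t s) = conj (Φ (N α δ β s t)) := by
  rw [← hH]
  congr 1
  funext x y
  simp only [N, map_mul, gf_conj, map_pow, Complex.conj_conj]
  ring

/-- `x g` -/
def hx (α δ : ℝ) (β : ℂ) : Fin 6 → ℂ := ![α, β, 0, conj β, δ, 0]

/-- `y g` -/
def hy (α δ : ℝ) (β : ℂ) : Fin 6 → ℂ := ![0, α, β, 0, conj β, δ]

theorem hh_hx (α δ : ℝ) (β : ℂ) (x y : ℂ) : hh (hx α δ β) x y = x * gf α δ β x y := by
  simp only [hh, hx, gf, Matrix.cons_val]
  ring

theorem hh_hy (α δ : ℝ) (β : ℂ) (x y : ℂ) : hh (hy α δ β) x y = y * gf α δ β x y := by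
  simp only [hh, hy, gf, Matrix.cons_val]
  ring

theorem rows (hKER : S_KER) {Φ : Fn →ₗ[ℂ] ℂ} (hH : Herm Φ) (hP : P2 Φ) (α δ : ℝ) (β : ℂ)
    (h0 : (Φ (sq (fun x y => x * gf α δ β x y))).re = 0) :
    ∀ s t : ℕ, s ≤ 1 → t ≤ 2 → Φ (N α δ β s t) = 0 := by
  have hk := hKER Φ hH hP (hx α δ β) (by
    have : hh (hx α δ β) = fun x y => x * gf α δ β x y := by
      funext x y; exact hh_hx α δ β x y
    rw [this]; exact h0)
  have aux : ∀ (s t : ℕ) (h' : Fin 6 → ℂ),
      (∀ x y : ℂ, x * gf α δ β x y * conj (hh h' x y) = N α δ β s t x y) →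
      Φ (N α δ β s t) = 0 := by
    intro s t h' h
    rw [← hk h']
    congr 1
    funext x y
    rw [hh_hx, h]
  intro s t hs ht
  interval_cases s <;> interval_cases t
  · refine aux 0 0 ![1, 0, 0, 0, 0, 0] fun x y => ?_
    simp only [hh, N, Matrix.cons_val, map_add, map_mul, map_pow, Complex.conj_conj, map_one,
      map_zero]
    ring
  · refine aux 0 1 ![0, 1, 0, 0, 0, 0] fun x y => ?_
    simp only [hh, N, Matrix.cons_val, map_add, map_mul, map_pow, Complex.conj_conj, map_one,
      map_zero]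
    ring
  · refine aux 0 2 ![0, 0, 1, 0, 0, 0] fun x y => ?_
    simp only [hh, N, Matrix.cons_val, map_add, map_mul, map_pow, Complex.conj_conj, map_one,
      map_zero]
    ring
  · refine aux 1 0 ![0, 0, 0, 1, 0, 0] fun x y => ?_
    simp only [hh, N, Matrix.cons_val, map_add, map_mul, map_pow, Complex.conj_conj, map_one,
      map_zero]
    ring
  · refine aux 1 1 ![0, 0, 0, 0, 1, 0] fun x y => ?_
    simp only [hh, N, Matrix.cons_val, map_add, map_mul, map_pow, Complex.conj_conj, map_one,
      map_zero]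
    ring
  · refine aux 1 2 ![0, 0, 0, 0, 0, 1] fun x y => ?_
    simp only [hh, N, Matrix.cons_val, map_add, map_mul, map_pow, Complex.conj_conj, map_one,
      map_zero]
    ring

theorem sq_yg (α δ : ℝ) (β : ℂ) : sq (hh (hy α δ β)) =
    (α : ℂ) • N α δ β 1 1 + β • N α δ β 2 1 + conj β • N α δ β 1 2 + (δ : ℂ) • N α δ β 2 2 := by
  funext x y
  simp only [sq, hh_hy, map_mul, gf_conj, Pi.add_apply, Pi.smul_apply, smul_eq_mul, N, map_pow]
  have : gf α δ β x y = α * (x * conj x) + β * (conj x * y) + conj β * (x * conj y) +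
    δ * (y * conj y) := rfl
  simp only [Nat.reduceSub, pow_one, pow_zero, one_mul]
  generalize hG : gf α δ β x y = G at *
  calc y * G * (conj y * G) = (y * conj y) * G * G := by ring
    _ = (y * conj y) * G * (α * (x * conj x) + β * (conj x * y) + conj β * (x * conj y) +
      δ * (y * conj y)) := by rw [← this]
    _ = _ := by ring

theorem leaf : S_KER → S_TZ := by
  intro hKER Φ hH hP hPos hExt α δ β h0
  have hrow := rows hKER hH hP α δ β h0
  have hcol : ∀ s t : ℕ, s ≤ 2 → t ≤ 1 → Φ (N α δ β s t) = 0 := by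
    intro s t hs ht
    rw [herm_N hH α δ β t s, hrow t s ht hs, map_zero]
  -- it is enough to treat the last entry
  suffices hm : Φ (N α δ β 2 2) = 0 by
    intro s t hs ht
    show Φ (N α δ β s t) = 0
    by_cases h1 : s ≤ 1
    · exact hrow s t h1 ht
    · by_cases h2 : t ≤ 1
      · exact hcol s t hs h2
      · have e1 : s = 2 := by omega
        have e2 : t = 2 := by omega
        rw [e1, e2]; exact hm
  have hval : Φ (sq (hh (hy α δ β))) = δ * Φ (N α δ β 2 2) := by
    rw [sq_yg]
    simp only [map_add, map_smul, smul_eq_mul]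
    rw [hrow 1 1 (by omega) (by omega), hrow 1 2 (by omega) (by omega),
      hcol 2 1 (by omega) (by omega)]
    ring
  obtain ⟨m₀, hm₀⟩ : ∃ m₀ : ℝ, Φ (N α δ β 2 2) = m₀ := by
    have h := herm_N hH α δ β 2 2
    exact ⟨(Φ (N α δ β 2 2)).re, (Complex.conj_eq_iff_re.1 h.symm).symm⟩
  have hge : 0 ≤ δ * m₀ := by
    have h := hP (hy α δ β)
    rw [hval, hm₀] at h
    have : ((δ : ℂ) * (m₀ : ℂ)).re = δ * m₀ := by
      rw [← Complex.ofReal_mul, Complex.ofReal_re]
    rwa [this] at h
  by_cases hδ : δ = 0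
  · have h1 : (Φ (sq (hh (hy α δ β)))).re = 0 := by
      rw [hval, hδ]; simp
    have hk := hKER Φ hH hP (hy α δ β) h1 ![0, 0, 0, 0, 0, 1]
    rw [← hk]
    congr 1
    funext x y
    rw [hh_hy]
    simp only [hh, N, Matrix.cons_val, map_add, map_mul, map_pow, Complex.conj_conj, map_one,
      map_zero]
    ring
  · have hδ' : (δ : ℂ) ≠ 0 := by exact_mod_cast hδ
    set t : ℝ := m₀ / δ with ht
    have ht0 : 0 ≤ t := by
      have : t = δ * m₀ / δ ^ 2 := by rw [ht]; field_simp
      rw [this]; positivity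
    -- the new functional
    set Ψ : Fn →ₗ[ℂ] ℂ := (t : ℂ) • ev 0 1 with hΨ
    have hΨap : ∀ f : Fn, Ψ f = t * f 0 1 := fun f => rfl
    have hΨH : Herm Ψ := by
      intro f
      rw [hΨap, hΨap, map_mul, Complex.conj_ofReal]
    have hΨP : P2 Ψ := by
      intro h
      rw [hΨap]
      simp only [sq, Complex.mul_conj]
      rw [← Complex.ofReal_mul, Complex.ofReal_re]
      exact mul_nonneg ht0 (Complex.normSq_nonneg _)
    have hD : ∀ s t : ℕ, s ≤ 2 → t ≤ 2 → (Φ - Ψ) (N α δ β s t) = 0 := by
      intro s t' hs ht'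
      rw [LinearMap.sub_apply, hΨap]
      by_cases h1 : s ≤ 1
      · rw [hrow s t' h1 ht']
        have : (0 : ℂ) ^ (2 - s) = 0 := zero_pow (by omega)
        simp [N, this]
      · by_cases h2 : t' ≤ 1
        · rw [hcol s t' hs h2]
          have : (0 : ℂ) ^ (2 - t') = 0 := zero_pow (by omega)
          simp [N, this]
        · have e1 : s = 2 := by omega
          have e2 : t' = 2 := by omega
          rw [e1, e2, hm₀]
          simp only [N, gf]
          simp only [ht]
          push_cast
          simp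
          field_simp
          ring
    have hDP : P2 (Φ - Ψ) := by
      intro h
      set c : ℂ := h 5 / δ with hc
      set h₁ : Fin 6 → ℂ := h - c • hy α δ β with hh₁
      have hh1 : ∀ x y, hh h x y = hh h₁ x y + c * (y * gf α δ β x y) := by
        intro x y
        rw [← hh_hy]
        simp only [hh, hh₁, Pi.sub_apply, Pi.smul_apply, smul_eq_mul]
        ring
      have h15 : h₁ 5 = 0 := by
        simp only [hh₁, Pi.sub_apply, Pi.smul_apply, smul_eq_mul, hy, Matrix.cons_val, hc]
        field_simp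
        ring
      have hex : sq (hh h) = sq (hh h₁) +
          ((c * conj (h₁ 0)) • N α δ β 1 0 + (c * conj (h₁ 1)) • N α δ β 1 1 +
           (c * conj (h₁ 2)) • N α δ β 1 2 + (c * conj (h₁ 3)) • N α δ β 2 0 +
           (c * conj (h₁ 4)) • N α δ β 2 1 + (c * conj (h₁ 5)) • N α δ β 2 2 +
           (conj c * h₁ 0) • N α δ β 0 1 + (conj c * h₁ 1) • N α δ β 1 1 +
           (conj c * h₁ 2) • N α δ β 2 1 + (conj c * h₁ 3) • N α δ β 0 2 +
           (conj c * h₁ 4) • N α δ β 1 2 + (conj c * h₁ 5) • N α δ β 2 2 +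
           (c * conj c) • sq (hh (hy α δ β))) := by
        funext x y
        simp only [sq, hh1, hh_hy, Pi.add_apply, Pi.smul_apply, smul_eq_mul, N]
        simp only [map_add, map_mul, gf_conj, map_pow, hh, Complex.conj_conj, Nat.sub_zero,
          Nat.reduceSub, Nat.sub_self, pow_zero, one_mul, mul_one, pow_one]
        generalize gf α δ β x y = G
        ring
      have hz : (Φ - Ψ) (sq (hh (hy α δ β))) = 0 := by
        rw [sq_yg]
        simp only [map_add, map_smul, smul_eq_mul]
        rw [hD 1 1 (by omega) (by omega), hD 2 1 (by omega) (by omega),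
          hD 1 2 (by omega) (by omega), hD 2 2 (by omega) (by omega)]
        ring
      have h2 : (Φ - Ψ) (sq (hh h)) = (Φ - Ψ) (sq (hh h₁)) := by
        rw [hex]
        simp only [map_add, map_smul, smul_eq_mul]
        rw [hz, hD 1 0 (by omega) (by omega), hD 1 1 (by omega) (by omega),
          hD 1 2 (by omega) (by omega), hD 2 0 (by omega) (by omega),
          hD 2 1 (by omega) (by omega), hD 2 2 (by omega) (by omega),
          hD 0 1 (by omega) (by omega), hD 0 2 (by omega) (by omega)]
        ring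
      rw [h2, LinearMap.sub_apply, hΨap]
      have h3 : sq (hh h₁) 0 1 = 0 := by
        simp [sq, hh, h15]
      rw [h3, mul_zero, sub_zero]
      exact hP h₁
    obtain ⟨τ, hτ⟩ := hExt Ψ hΨH hΨP hDP
    have h00 : 0 < (Φ (mon 0 0)).re := by
      have h := hPos ![1, 0, 0, 0] (by
        intro h
        have := congrFun h 0
        simp at this)
      have e : sq (cub ![1, 0, 0, 0]) = mon 0 0 := by
        funext x y
        simp only [sq, cub, mon, Matrix.cons_val, map_add, map_mul, map_pow, map_one, map_zero]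
        ring
      rwa [e] at h
    have hτ0 : τ = 0 := by
      have h := hτ 0 0 (by omega) (by omega)
      rw [hΨap] at h
      have e : mon 0 0 0 1 = 0 := by simp [mon]
      rw [e, mul_zero] at h
      have h' : Φ (mon 0 0) ≠ 0 := by
        intro h'
        rw [h'] at h00
        simp at h00
      have := (mul_eq_zero.1 h.symm).resolve_right h'
      exact_mod_cast this
    have ht1 : t = 0 := by
      have h := hτ 3 3 (by omega) (by omega)
      rw [hΨap, hτ0] at h
      have e : mon 3 3 0 1 = 1 := by simp [mon]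
      rw [e] at h
      simpa using h
    have hm0 : m₀ = 0 := by
      have : m₀ = t * δ := by rw [ht]; field_simp
      rw [this, ht1, zero_mul]
    rw [hm₀, hm0]
    simp

end Pool.Agent.K9h78.S6.TZ89

namespace Pool.Agent.K9h78.S6

theorem tz (hker : S_KER) : S_TZ := TZ89.leaf hker

end Pool.Agent.K9h78.S6
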