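import Pool.Agent.K9h78.S6.Stm

set_option autoImplicit false
open ComplexConjugate

namespace Pool.Agent.K9h78.S6

theorem zr_core {κ m : ℂ} (hκ : ‖κ‖ = 1) {e0 : ℝ} (h0 : 0 ≤ e0) (h1 : e0 ≤ 1) :
    0 ≤ ‖κ * (m ^ 2 + 2 * m) + 2 * conj m + 2 * (e0 : ℂ)‖ + (1 - κ.re) + 2 * e0 * (1 + m.re) +
      ‖m‖ ^ 2 - (κ * m).re := by
  rcases lt_or_ge (1 + m.re) (1 / 4) with hM | hM
  · have hn := norm_nonneg (κ * (m ^ 2 + 2 * m) + 2 * conj m + 2 * (e0 : ℂ))
    have hk : κ.re ^ 2 + κ.im ^ 2 = 1 := by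
      have := Complex.sq_norm κ
      rw [hκ, Complex.normSq_apply] at this
      nlinarith
    have hm : ‖m‖ ^ 2 = m.re ^ 2 + m.im ^ 2 := by
      rw [Complex.sq_norm, Complex.normSq_apply]; ring
    rw [hm, Complex.mul_re]
    have h3 : 0 ≤ (1 - e0) * (1 / 4 - (1 + m.re)) := mul_nonneg (by linarith) (by linarith)
    nlinarith [sq_nonneg (κ.re - (1 + m.re)), sq_nonneg (κ.im + m.im)]
  · obtain ⟨k, hk⟩ := IsAlgClosed.exists_pow_nat_eq κ (n := 2) (by norm_num)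
    have hkn : ‖k‖ = 1 := by
      have : ‖k‖ ^ 2 = 1 := by rw [← norm_pow, hk, hκ]
      have h2 := norm_nonneg k
      nlinarith
    have hkk : k * conj k = 1 := by
      rw [Complex.mul_conj, ← Complex.sq_norm, hkn]; norm_num
    obtain ⟨y, hy⟩ : ∃ y, y = k * m := ⟨_, rfl⟩
    have hmy : m = conj k * y := by
      rw [hy, ← mul_assoc, mul_comm (conj k) k, hkk, one_mul]
    have hyn : ‖m‖ = ‖y‖ := by rw [hy, norm_mul, hkn, one_mul]
    have e1 : κ * (m ^ 2 + 2 * m) + 2 * conj m + 2 * (e0 : ℂ) =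
        y ^ 2 + 4 * k * (y.re : ℂ) + 2 * (e0 : ℂ) := by
      have h3 : (2 : ℂ) * (y.re : ℂ) = y + conj y := (Complex.add_conj y).symm ▸ by push_cast; ring
      have h4 : conj m = k * conj y := by rw [hmy, map_mul, Complex.conj_conj]
      have h5 : κ * m = k * y := by
        rw [← hk, hmy]
        linear_combination (k * y) * hkk
      have h6 : κ * m ^ 2 = y ^ 2 := by
        rw [pow_two m, ← mul_assoc, h5, hmy]
        linear_combination (y ^ 2) * hkk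
      rw [mul_add, h6, h4]
      linear_combination 2 * h5 - 2 * k * h3
    have h2 : 4 * |y.re| ≤ ‖κ * (m ^ 2 + 2 * m) + 2 * conj m + 2 * (e0 : ℂ)‖ + ‖y‖ ^ 2 + 2 * e0 := by
      rw [e1]
      have h3 : ‖4 * k * (y.re : ℂ)‖ = 4 * |y.re| := by
        rw [norm_mul, norm_mul, hkn, Complex.norm_real, Real.norm_eq_abs]; norm_num
      rw [← h3]
      have h4 : 4 * k * (y.re : ℂ) = (y ^ 2 + 4 * k * (y.re : ℂ) + 2 * (e0 : ℂ)) - y ^ 2 -
        2 * (e0 : ℂ) := by ring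
      have h5 : ‖2 * (e0 : ℂ)‖ = 2 * e0 := by
        rw [norm_mul, Complex.norm_real, Real.norm_of_nonneg h0]; norm_num
      calc ‖4 * k * (y.re : ℂ)‖ = ‖(y ^ 2 + 4 * k * (y.re : ℂ) + 2 * (e0 : ℂ)) - y ^ 2 -
            2 * (e0 : ℂ)‖ := by rw [← h4]
        _ ≤ ‖(y ^ 2 + 4 * k * (y.re : ℂ) + 2 * (e0 : ℂ)) - y ^ 2‖ + ‖2 * (e0 : ℂ)‖ :=
          norm_sub_le _ _
        _ ≤ ‖y ^ 2 + 4 * k * (y.re : ℂ) + 2 * (e0 : ℂ)‖ + ‖y ^ 2‖ + ‖2 * (e0 : ℂ)‖ := by
          gcongr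
          exact norm_sub_le _ _
        _ = _ := by rw [norm_pow, h5]
    have hn := norm_nonneg (κ * (m ^ 2 + 2 * m) + 2 * conj m + 2 * (e0 : ℂ))
    generalize ‖κ * (m ^ 2 + 2 * m) + 2 * conj m + 2 * (e0 : ℂ)‖ = N at *
    have hk1 : k.re ^ 2 + k.im ^ 2 = 1 := by
      have := Complex.sq_norm k
      rw [hkn, Complex.normSq_apply] at this
      nlinarith
    have h7 : κ.re = k.re ^ 2 - k.im ^ 2 := by
      rw [← hk, pow_two, Complex.mul_re]; ring
    have h8 : (κ * m).re = k.re * y.re - k.im * y.im := by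
      have h5 : κ * m = k * y := by
        rw [← hk, hmy]
        linear_combination (k * y) * hkk
      rw [h5, Complex.mul_re]
    have h9 : ‖y‖ ^ 2 = y.re ^ 2 + y.im ^ 2 := by
      rw [Complex.sq_norm, Complex.normSq_apply]; ring
    have h10 : k.re * y.re ≤ |y.re| := by
      have ha : |k.re| ≤ 1 := abs_le_of_sq_le_sq' (by nlinarith) (by norm_num) |> abs_le.2
      calc k.re * y.re ≤ |k.re * y.re| := le_abs_self _
        _ = |k.re| * |y.re| := abs_mul _ _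
        _ ≤ 1 * |y.re| := by gcongr
        _ = _ := one_mul _
    rw [hyn, h8, h7]
    have h11 : 0 ≤ e0 * (1 + m.re - 1 / 4) := mul_nonneg h0 (by linarith)
    rw [h9] at h2 ⊢
    nlinarith [sq_nonneg (k.im * 2 + y.im), sq_nonneg (y.re), sq_nonneg (y.im), sq_nonneg k.im,
      sq_nonneg (2 * k.im + y.im / 2), abs_nonneg y.re]

theorem zr_one {α s : ℂ} (hα : ‖α‖ = 1) {c0 : ℝ} (h0 : 0 ≤ c0) (h1 : c0 ≤ 1) :
    0 ≤ 2 + 4 * ‖s‖ ^ 2 - ‖α + 2 * (c0 : ℂ)‖ ^ 2 / 4 +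
      ‖(2 * s - (α + 2 * (c0 : ℂ)) / 2) ^ 2 - 4 * α * conj s‖ := by
  have hκ : ‖conj α‖ = 1 := by rw [Complex.norm_conj]; exact hα
  have h := zr_core (κ := conj α) (m := (α + 2 * (c0 : ℂ)) / 2 - 2 * s - 1) hκ
    (e0 := 1 - c0) (by linarith) (by linarith)
  have hkk : conj α * α = 1 := by
    rw [mul_comm, Complex.mul_conj, ← Complex.sq_norm, hα]; norm_num
  have e1 : conj α * (((α + 2 * (c0 : ℂ)) / 2 - 2 * s - 1) ^ 2 +
      2 * ((α + 2 * (c0 : ℂ)) / 2 - 2 * s - 1)) +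
      2 * conj ((α + 2 * (c0 : ℂ)) / 2 - 2 * s - 1) + 2 * ((1 - c0 : ℝ) : ℂ) =
      conj α * ((2 * s - (α + 2 * (c0 : ℂ)) / 2) ^ 2 - 4 * α * conj s) := by
    simp only [map_sub, map_add, map_mul, map_div₀, map_ofNat, map_one, Complex.conj_ofReal]
    push_cast
    linear_combination (4 * conj s) * hkk
  rw [e1, norm_mul, hκ, one_mul] at h
  generalize ‖(2 * s - (α + 2 * (c0 : ℂ)) / 2) ^ 2 - 4 * α * conj s‖ = N at *
  refine h.trans (le_of_eq ?_)
  have hk : α.re ^ 2 + α.im ^ 2 = 1 := by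
    have := Complex.sq_norm α
    rw [hα, Complex.normSq_apply] at this
    nlinarith
  have hre : ∀ z : ℂ, (z / 2).re = z.re / 2 := fun z => by
    rw [show z / 2 = ((1 / 2 : ℝ) : ℂ) * z by push_cast; ring, Complex.re_ofReal_mul]; ring
  have him : ∀ z : ℂ, (z / 2).im = z.im / 2 := fun z => by
    rw [show z / 2 = ((1 / 2 : ℝ) : ℂ) * z by push_cast; ring, Complex.im_ofReal_mul]; ring
  simp only [Complex.sq_norm, Complex.normSq_apply, Complex.mul_re, Complex.mul_im, Complex.sub_re,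
    Complex.sub_im, Complex.add_re, Complex.add_im, Complex.conj_re, Complex.conj_im,
    Complex.one_re, Complex.one_im, Complex.ofReal_re, Complex.ofReal_im, hre, him,
    Complex.re_ofNat, Complex.im_ofNat]
  ring

theorem zr_scale {α s : ℂ} {ρ : ℝ} (hα : α ≠ 0) (h : |ρ| ≤ 2 * ‖α‖) (hρ : ρ ≤ 0) :
    0 ≤ 2 * ‖α‖ ^ 2 + 4 * ‖s‖ ^ 2 - ‖(ρ : ℂ) - α‖ ^ 2 / 4 +
      ‖(((ρ : ℂ) - α) / 2 + 2 * s) ^ 2 - 4 * α * conj s‖ := by
  obtain ⟨r, hr⟩ : ∃ r, r = ‖α‖ := ⟨_, rfl⟩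
  have hr0 : 0 < r := by rw [hr]; exact norm_pos_iff.2 hα
  have hrC : (r : ℂ) ≠ 0 := Complex.ofReal_ne_zero.2 hr0.ne'
  rw [← hr] at h
  have h1 := zr_one (α := α / r) (s := s / r) (by
    rw [norm_div, Complex.norm_real, Real.norm_of_nonneg hr0.le, ← hr, div_self hr0.ne'])
    (c0 := -ρ / (2 * r)) (by
      apply div_nonneg <;> linarith) (by
      rw [div_le_one (by linarith)]
      rw [abs_of_nonpos hρ] at h
      exact h)
  have e1 : α / (r : ℂ) + 2 * ((-ρ / (2 * r) : ℝ) : ℂ) = (α - (ρ : ℂ)) / r := by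
    push_cast
    field_simp
    ring
  have e2 : (2 * (s / (r : ℂ)) - (α - (ρ : ℂ)) / r / 2) ^ 2 - 4 * (α / r) * conj (s / (r : ℂ)) =
      ((((ρ : ℂ) - α) / 2 + 2 * s) ^ 2 - 4 * α * conj s) / (r : ℂ) ^ 2 := by
    rw [map_div₀, Complex.conj_ofReal]
    field_simp
    ring
  rw [e1, e2, norm_div, norm_div, norm_div, norm_pow, Complex.norm_real,
    Real.norm_of_nonneg hr0.le, norm_sub_rev α] at h1
  have h2 := mul_nonneg (sq_nonneg r) h1
  rw [← hr]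
  have e3 : r ^ 2 * (2 + 4 * (‖s‖ / r) ^ 2 - (‖(ρ : ℂ) - α‖ / r) ^ 2 / 4 +
      ‖(((ρ : ℂ) - α) / 2 + 2 * s) ^ 2 - 4 * α * conj s‖ / r ^ 2) =
      2 * r ^ 2 + 4 * ‖s‖ ^ 2 - ‖(ρ : ℂ) - α‖ ^ 2 / 4 +
      ‖(((ρ : ℂ) - α) / 2 + 2 * s) ^ 2 - 4 * α * conj s‖ := by
    field_simp
  rw [← e3]
  exact h2

theorem zr_gen {α s : ℂ} {ρ : ℝ} (h : |ρ| ≤ 2 * ‖α‖) :
    0 ≤ 2 * ‖α‖ ^ 2 + 4 * ‖s‖ ^ 2 - ‖(ρ : ℂ) - α‖ ^ 2 / 4 +
      ‖(((ρ : ℂ) - α) / 2 + 2 * s) ^ 2 - 4 * α * conj s‖ := by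
  by_cases hα : α = 0
  · subst hα
    rw [norm_zero, mul_zero] at h
    have : ρ = 0 := abs_eq_zero.1 (le_antisymm h (abs_nonneg _))
    subst this
    have hn := norm_nonneg (((((0 : ℝ) : ℂ) - 0) / 2 + 2 * s) ^ 2 - 4 * 0 * conj s)
    have hs := sq_nonneg ‖s‖
    have e : ‖((0 : ℝ) : ℂ) - 0‖ = 0 := by simp
    rw [e, norm_zero]
    linarith
  rcases le_total ρ 0 with hρ | hρ
  · exact zr_scale hα h hρ
  · have h1 := zr_scale (α := -α) (s := -s) (ρ := -ρ) (neg_ne_zero.2 hα)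
      (by rw [abs_neg, norm_neg]; exact h) (by linarith)
    rw [norm_neg, norm_neg] at h1
    have e1 : ((-ρ : ℝ) : ℂ) - -α = -((ρ : ℂ) - α) := by push_cast; ring
    have e2 : (-((ρ : ℂ) - α) / 2 + 2 * -s) ^ 2 - 4 * -α * conj (-s) =
        (((ρ : ℂ) - α) / 2 + 2 * s) ^ 2 - 4 * α * conj s := by
      rw [map_neg]; ring
    rw [e1, e2, norm_neg] at h1
    exact h1

theorem zr_rot {α s β e : ℂ} {ρ : ℝ} (he : ‖e‖ = 1) (h : |ρ| ≤ 2 * ‖α‖)
    (hβ : β * e = (ρ : ℂ) - α * e ^ 3) :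
    0 ≤ 2 * ‖α‖ ^ 2 + 4 * ‖s‖ ^ 2 - ‖β‖ ^ 2 / 4 + ‖(β / 2 + 2 * s) ^ 2 - 4 * α * conj s‖ := by
  have hee : e * conj e = 1 := by
    rw [Complex.mul_conj, ← Complex.sq_norm, he]; norm_num
  have h1 := zr_gen (α := α * e ^ 3) (s := s * e) (ρ := ρ) (by
    rw [norm_mul, norm_pow, he, one_pow, mul_one]; exact h)
  rw [← hβ] at h1
  have e2 : (β * e / 2 + 2 * (s * e)) ^ 2 - 4 * (α * e ^ 3) * conj (s * e) =
      e ^ 2 * ((β / 2 + 2 * s) ^ 2 - 4 * α * conj s) := by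
    rw [map_mul]
    linear_combination (-(4 * α * conj s * e ^ 2)) * hee
  rw [e2] at h1
  simpa only [norm_mul, norm_pow, he, one_pow, mul_one, one_mul] using h1

theorem zr_two {α β e e' : ℂ} (he : ‖e‖ = 1) (he' : ‖e'‖ = 1) (hne : e' ^ 2 ≠ e ^ 2)
    (h1 : (α * e ^ 3 + β * e).im = 0) (h2 : (α * e' ^ 3 + β * e').im = 0) :
    ∃ ρ : ℝ, |ρ| ≤ 2 * ‖α‖ ∧ β * e = (ρ : ℂ) - α * e ^ 3 := by
  have hee : e * conj e = 1 := by
    rw [Complex.mul_conj, ← Complex.sq_norm, he]; norm_num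
  obtain ⟨w, hw⟩ : ∃ w, w = e' * conj e := ⟨_, rfl⟩
  have hw1 : e' = e * w := by rw [hw]; linear_combination (-e') * hee
  have hwn : ‖w‖ = 1 := by rw [hw, norm_mul, he', Complex.norm_conj, he, one_mul]
  have hww : w.re ^ 2 + w.im ^ 2 = 1 := by
    have := Complex.sq_norm w
    rw [hwn, Complex.normSq_apply] at this
    nlinarith
  have hwi : w.im ≠ 0 := by
    intro h0
    apply hne
    have : w ^ 2 = 1 := by
      apply Complex.ext
      · rw [pow_two, Complex.mul_re, h0, Complex.one_re]; nlinarith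
      · rw [pow_two, Complex.mul_im, h0, Complex.one_im]; ring
    rw [hw1, mul_pow, this, mul_one]
  obtain ⟨A, hA⟩ : ∃ A, A = α * e ^ 3 := ⟨_, rfl⟩
  obtain ⟨ρ, hρ⟩ : ∃ ρ : ℝ, ρ = (α * e ^ 3 + β * e).re := ⟨_, rfl⟩
  have hβ : β * e = (ρ : ℂ) - A := by
    have : α * e ^ 3 + β * e = (ρ : ℂ) := by
      apply Complex.ext
      · rw [hρ, Complex.ofReal_re]
      · rw [h1, Complex.ofReal_im]
    rw [hA]
    linear_combination this
  have h3 : α * e' ^ 3 + β * e' = A * w ^ 3 + ((ρ : ℂ) - A) * w := by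
    rw [← hβ, hA, hw1]; ring
  rw [h3] at h2
  have h4 : w.im * (2 * (A * w ^ 2).re + ρ) = 0 := by
    rw [← h2]
    simp only [pow_succ, pow_zero, one_mul, Complex.add_im, Complex.mul_im, Complex.mul_re,
      Complex.sub_re, Complex.sub_im, Complex.ofReal_re, Complex.ofReal_im]
    have : w.re ^ 2 = 1 - w.im ^ 2 := by linarith
    generalize w.re = x at *
    generalize w.im = y at *
    generalize A.re = a at *
    generalize A.im = b at *
    linear_combination (-(a * y + b * x)) * hww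
  have h5 : ρ = -(2 * (A * w ^ 2).re) := by
    rcases mul_eq_zero.1 h4 with h | h
    · exact absurd h hwi
    · linarith
  refine ⟨ρ, ?_, by rw [hβ, hA]⟩
  rw [h5, abs_neg, abs_mul, abs_of_pos (by norm_num : (0 : ℝ) < 2)]
  have h6 := Complex.abs_re_le_norm (A * w ^ 2)
  rw [norm_mul, norm_pow, hwn, one_pow, mul_one, hA, norm_mul, norm_pow, he, one_pow, mul_one] at h6
  rw [hA]
  linarith

theorem zr_identity (a b c d : ℂ) :
    2 * ((‖a‖ ^ 2 + ‖b‖ ^ 2) * (‖c‖ ^ 2 + ‖d‖ ^ 2) -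
      ‖conj a * d + conj b * c - b * conj d‖ ^ 2) =
    2 * ‖conj a * c‖ ^ 2 + 4 * ‖b * conj d‖ ^ 2 -
      ‖2 * (conj a * d + conj b * c) - 4 * (b * conj d)‖ ^ 2 / 4 +
      ‖((2 * (conj a * d + conj b * c) - 4 * (b * conj d)) / 2 + 2 * (b * conj d)) ^ 2 -
        4 * (conj a * c) * conj (b * conj d)‖ := by
  have e : ((2 * (conj a * d + conj b * c) - 4 * (b * conj d)) / 2 + 2 * (b * conj d)) ^ 2 -
        4 * (conj a * c) * conj (b * conj d) = (conj a * d - conj b * c) ^ 2 := by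
    rw [map_mul, Complex.conj_conj]; ring
  rw [e, norm_pow]
  simp only [Complex.sq_norm, Complex.normSq_apply, Complex.mul_re, Complex.mul_im, Complex.sub_re,
    Complex.sub_im, Complex.add_re, Complex.add_im, Complex.conj_re, Complex.conj_im,
    Complex.re_ofNat, Complex.im_ofNat]
  ring

theorem zr_dir {a b c d z : ℂ} (hz : z ≠ 0)
    (h : a * conj z + 2 * b * z + c * z ^ 2 + 2 * d * (z * conj z) = 0) :
    ∃ e : ℂ, ‖e‖ = 1 ∧ z = (‖z‖ : ℂ) * e ∧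
      ((conj a * c) * e ^ 3 + (2 * (conj a * d + conj b * c) - 4 * (b * conj d)) * e).im = 0 := by
  obtain ⟨r, hr⟩ : ∃ r, r = ‖z‖ := ⟨_, rfl⟩
  have hr0 : 0 < r := by rw [hr]; exact norm_pos_iff.2 hz
  have hrC : (r : ℂ) ≠ 0 := Complex.ofReal_ne_zero.2 hr0.ne'
  obtain ⟨e, he⟩ : ∃ e, e = z / r := ⟨_, rfl⟩
  have hze : z = r * e := by rw [he]; field_simp
  have hen : ‖e‖ = 1 := by
    rw [he, norm_div, Complex.norm_real, Real.norm_of_nonneg hr0.le, ← hr, div_self hr0.ne']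
  have hee : e * conj e = 1 := by
    rw [Complex.mul_conj, ← Complex.sq_norm, hen]; norm_num
  refine ⟨e, hen, by rw [← hr]; exact hze, ?_⟩
  obtain ⟨Q, hQ⟩ : ∃ Q, Q = c * e ^ 2 + 2 * d := ⟨_, rfl⟩
  have h1 : a * conj e + 2 * b * e = -(r : ℂ) * Q := by
    have h2 : (r : ℂ) * (a * conj e + 2 * b * e + r * Q) = 0 := by
      rw [← h, hze, map_mul, Complex.conj_ofReal, hQ]
      linear_combination (-(2 * d * r ^ 2)) * hee
    have h3 := (mul_eq_zero.1 h2).resolve_left hrC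
    linear_combination h3
  have h4 : (a * conj e + 2 * b * e) * conj Q = -(r : ℂ) * (‖Q‖ ^ 2 : ℝ) := by
    rw [h1, mul_assoc, Complex.mul_conj, ← Complex.sq_norm]
  have h5 : ((a * conj e + 2 * b * e) * conj Q).im = 0 := by
    rw [h4, ← Complex.ofReal_neg, ← Complex.ofReal_mul, Complex.ofReal_im]
  have h6 : ((conj a * c) * e ^ 3 + (2 * (conj a * d + conj b * c) - 4 * (b * conj d)) * e).im =
      -((a * conj e + 2 * b * e) * conj Q).im := by
    have h7 : conj ((a * conj e + 2 * b * e) * conj Q) =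
        (conj a * c) * e ^ 3 + 2 * (conj a * d + conj b * c) * e + 4 * conj (b * conj d * e) := by
      rw [hQ]
      simp only [map_mul, map_add, Complex.conj_conj, map_ofNat, map_pow]
      linear_combination (2 * conj b * c * e) * hee
    have h8 : ((a * conj e + 2 * b * e) * conj Q).im =
        -(conj ((a * conj e + 2 * b * e) * conj Q)).im := by rw [Complex.conj_im, neg_neg]
    rw [h8, neg_neg, h7]
    have h9 : (2 * (conj a * d + conj b * c) - 4 * (b * conj d)) * e =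
      2 * (conj a * d + conj b * c) * e - 4 * (b * conj d * e) := by ring
    rw [h9]
    simp only [Complex.add_im, Complex.sub_im, Complex.conj_im, Complex.mul_im (4 : ℂ),
      Complex.re_ofNat, Complex.im_ofNat, Complex.conj_re]
    ring
  rw [h6, h5, neg_zero]

theorem zr : S_ZR := by
  intro a b c d z z' hz hz' hne h h'
  obtain ⟨e, he, hze, h1⟩ := zr_dir hz h
  obtain ⟨e', he', hze', h1'⟩ := zr_dir hz' h'
  by_cases hee : e' ^ 2 = e ^ 2
  · -- the two zeros are on one real line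
    have hr : (‖z‖ : ℂ) ≠ 0 := Complex.ofReal_ne_zero.2 (norm_ne_zero_iff.2 hz)
    obtain ⟨l, hl⟩ : ∃ l : ℝ, z' = (l : ℂ) * z := by
      have hez : e = z / (‖z‖ : ℂ) := by
        rw [eq_div_iff hr, mul_comm]
        exact hze.symm
      rcases sq_eq_sq_iff_eq_or_eq_neg.1 hee with h2 | h2
      · refine ⟨‖z'‖ / ‖z‖, ?_⟩
        calc z' = (‖z'‖ : ℂ) * (z / (‖z‖ : ℂ)) := by rw [← hez, ← h2]; exact hze'
          _ = _ := by push_cast; ring
      · refine ⟨-(‖z'‖ / ‖z‖), ?_⟩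
        calc z' = (‖z'‖ : ℂ) * -(z / (‖z‖ : ℂ)) := by rw [← hez, ← h2]; exact hze'
          _ = _ := by push_cast; ring
    have hl0 : (l : ℂ) ≠ 0 := by
      rintro h0
      rw [h0, zero_mul] at hl
      exact hz' hl
    have hl1 : (l : ℂ) - 1 ≠ 0 := by
      intro h0
      apply hne
      rw [hl, sub_eq_zero.1 h0, one_mul]
    have h2 : ((l : ℂ) - 1) * (c * z ^ 2 + 2 * d * (z * conj z)) = 0 := by
      have h3 : (l : ℂ) * (((l : ℂ) - 1) * (c * z ^ 2 + 2 * d * (z * conj z))) = 0 := by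
        rw [hl, map_mul, Complex.conj_ofReal] at h'
        linear_combination h' - (l : ℂ) * h
      exact (mul_eq_zero.1 h3).resolve_left hl0
    have h3 := (mul_eq_zero.1 h2).resolve_left hl1
    have h4 : a * conj z + 2 * b * z = 0 := by linear_combination h - h3
    have hzn : 0 < ‖z‖ := norm_pos_iff.2 hz
    have hc : ‖c‖ = 2 * ‖d‖ := by
      have h5 : ‖c * z ^ 2‖ = ‖2 * d * (z * conj z)‖ := by
        rw [eq_neg_of_add_eq_zero_left h3, norm_neg]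
      rw [norm_mul, norm_mul, norm_mul, norm_mul, norm_pow, Complex.norm_conj] at h5
      have h6 : ‖(2 : ℂ)‖ = 2 := by norm_num
      rw [h6] at h5
      have h7 : (‖c‖ - 2 * ‖d‖) * (‖z‖ * ‖z‖) = 0 := by linear_combination h5
      have := (mul_eq_zero.1 h7).resolve_right (mul_pos hzn hzn).ne'
      linarith
    have ha : ‖a‖ = 2 * ‖b‖ := by
      have h5 : ‖a * conj z‖ = ‖2 * b * z‖ := by
        rw [eq_neg_of_add_eq_zero_left h4, norm_neg]
      rw [norm_mul, norm_mul, norm_mul, Complex.norm_conj] at h5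
      have h6 : ‖(2 : ℂ)‖ = 2 := by norm_num
      rw [h6] at h5
      exact mul_right_cancel₀ hzn.ne' h5
    have h5 : ‖conj a * d + conj b * c - b * conj d‖ ≤ 5 * (‖b‖ * ‖d‖) := by
      calc ‖conj a * d + conj b * c - b * conj d‖ ≤ ‖conj a * d + conj b * c‖ + ‖b * conj d‖ :=
            norm_sub_le _ _
        _ ≤ ‖conj a * d‖ + ‖conj b * c‖ + ‖b * conj d‖ := by
            gcongr
            exact norm_add_le _ _
        _ = 5 * (‖b‖ * ‖d‖) := by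
            rw [norm_mul, norm_mul, norm_mul, Complex.norm_conj, Complex.norm_conj,
              Complex.norm_conj, ha, hc]
            ring
    calc ‖conj a * d + conj b * c - b * conj d‖ ^ 2 ≤ (5 * (‖b‖ * ‖d‖)) ^ 2 :=
          pow_le_pow_left₀ (norm_nonneg _) h5 2
      _ = (‖a‖ ^ 2 + ‖b‖ ^ 2) * (‖c‖ ^ 2 + ‖d‖ ^ 2) := by rw [ha, hc]; ring
  · obtain ⟨ρ, hρ, hβ⟩ := zr_two he he' hee h1 h1'
    have h2 := zr_rot (s := b * conj d) he hρ hβ
    rw [← zr_identity] at h2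
    linarith

end Pool.Agent.K9h78.S6
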