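import Pool.Agent.K9h78.S6.Asm5
import Pool.Agent.K9h78.S6.Ker
import Pool.Agent.K9h78.S6.CF
import Pool.Agent.K9h78.S6.PUH
import Pool.Agent.K9h78.S6.K1
import Pool.Agent.K9h78.S6.K2
import Pool.Agent.K9h78.S6.K3
import Pool.Agent.K9h78.S6.DIM
import Pool.Agent.K9h78.S6.PEN
import Pool.Agent.K9h78.S6.Red
import Pool.Agent.K9h78.S6.TZ
import Pool.Agent.K9h78.S6.DEF
import Pool.Agent.K9h78.S6.HN
import Pool.Agent.K9h78.S6.HK
import Pool.Agent.K9h78.S6.KM
import Pool.Agent.K9h78.S6.EX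
import Pool.Agent.K9h78.S6.MO
import Pool.Agent.K9h78.S6.QI
import Pool.Agent.K9h78.S6.EM
import Pool.Agent.K9h78.S6.ZR

/-! `p = 6` for all pairs of matrices. -/

set_option autoImplicit false
open ComplexConjugate Matrix

namespace Pool.Agent.K9h78.S6

/-- every Hermitian functional which is positive on squares of forms of bidegree `(2,1)` is a sum
of point evaluations -/
theorem sep_all : ∀ Φ, Herm Φ → P2 Φ → Sep Φ :=
  km ex (p1_of cf puh) (extr_of ker cf puh (k3 ker) (k2 ker) (k1 ker) (dim ker ex) pen (red ker)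
    (tz ker) defi hn hk)

theorem fin6 (n : ℕ) (A B : Matrix (Fin n) (Fin n) ℂ) : ∃ (m : ℕ) (x y : Fin m → ℂ),
    ∀ α β : ℂ, (((α • A + β • B)ᴴ * (α • A + β • B)) ^ 3).trace =
      ((∑ k, ‖α * x k + β * y k‖ ^ 6 : ℝ) : ℂ) := by
  obtain ⟨Φ, hH, hR⟩ := em ex n A B
  obtain ⟨m, x, y, hag⟩ := sep_all Φ hH (p2_pair cf puh (qi mo) zr sep_all hH hR)
  refine ⟨m, x, y, fun α β => ?_⟩
  rw [← hR α β]
  have e : (fun x y : ℂ => (α * x + β * y) ^ 3) =
      cub ![α ^ 3, 3 * α ^ 2 * β, 3 * α * β ^ 2, β ^ 3] := by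
    funext x y
    simp only [cub, Matrix.cons_val_zero, Matrix.cons_val_one, Matrix.cons_val]
    ring
  rw [e, agree_cub hag, sum_ev_sq]
  congr 1
  refine Finset.sum_congr rfl fun k _ => ?_
  have e2 : cub ![α ^ 3, 3 * α ^ 2 * β, 3 * α * β ^ 2, β ^ 3] (x k) (y k) =
      (α * x k + β * y k) ^ 3 := (congrFun (congrFun e (x k)) (y k)).symm
  rw [e2, norm_pow]
  ring

end Pool.Agent.K9h78.S6
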