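import Mathlib

/-!
# `tr |M| ^ p` for operators on a Hilbert space and real `p`; the bridge for even `p` and the
operators of finite rank (by helper90)
-/

set_option autoImplicit false
open ContinuousLinearMap

namespace Pool.Agent.K9h78.S6

variable {H : Type*} [NormedAddCommGroup H] [InnerProductSpace ℂ H] [CompleteSpace H]

/-- `tr |M|^p` exists and equals `t`: in the orthonormal basis `b` the series of the numbers
`⟨b_i, (M* M)^(p/2) b_i⟩` (`≥ 0`) converges and has the sum `t`. -/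
def HasTr (b : HilbertBasis ℕ ℂ H) (p : ℝ) (M : H →L[ℂ] H) (t : ℝ) : Prop :=
  HasSum (fun i => (inner ℂ (b i) (cfc (fun x : ℝ => x ^ (p / 2)) (adjoint M * M) (b i))).re) t

theorem cfc_even (k : ℕ) (T : H →L[ℂ] H) (hT : IsSelfAdjoint T) :
    cfc (fun x : ℝ => x ^ ((2 * k : ℝ) / 2)) T = T ^ k := by
  have h1 : (fun x : ℝ => x ^ ((2 * k : ℝ) / 2)) = fun x : ℝ => x ^ k := by
    ext x
    have : (2 * k : ℝ) / 2 = (k : ℝ) := by ring
    rw [this, Real.rpow_natCast]
  rw [h1, cfc_pow_id T k hT]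

theorem isSelfAdjoint_adj_mul (M : H →L[ℂ] H) : IsSelfAdjoint (adjoint M * M) := by
  rw [← ContinuousLinearMap.star_eq_adjoint]
  exact IsSelfAdjoint.star_mul_self M

theorem hasTr_two (b : HilbertBasis ℕ ℂ H) (M : H →L[ℂ] H) (t : ℝ) :
    HasTr b 2 M t ↔ HasSum (fun i => ‖M (b i)‖ ^ 2) t := by
  have h := cfc_even 1 (adjoint M * M) (isSelfAdjoint_adj_mul M)
  have e : ((2 * (1 : ℕ) : ℝ)) = 2 := by norm_num
  rw [e, pow_one] at h
  unfold HasTr
  rw [h]
  have : (fun i => (inner ℂ (b i) ((adjoint M * M) (b i))).re) = fun i => ‖M (b i)‖ ^ 2 := by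
    ext i
    rw [mul_apply_eq_comp, ContinuousLinearMap.adjoint_inner_right,
      inner_self_eq_norm_sq_to_K]
    norm_cast
  rw [this]

theorem hasTr_four (b : HilbertBasis ℕ ℂ H) (M : H →L[ℂ] H) (t : ℝ) :
    HasTr b 4 M t ↔ HasSum (fun i => (inner ℂ (b i)
      (adjoint M (M (adjoint M (M (b i)))))).re) t := by
  have h := cfc_even 2 (adjoint M * M) (isSelfAdjoint_adj_mul M)
  have e : ((2 * (2 : ℕ) : ℝ)) = 4 := by norm_num
  rw [e] at h
  unfold HasTr
  rw [h]
  have : (fun i => (inner ℂ (b i) (((adjoint M * M) ^ 2) (b i))).re) = fun i => (inner ℂ (b i)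
      (adjoint M (M (adjoint M (M (b i)))))).re := by
    ext i
    rw [pow_two]
    rfl
  rw [this]

theorem hasTr_six (b : HilbertBasis ℕ ℂ H) (M : H →L[ℂ] H) (t : ℝ) :
    HasTr b 6 M t ↔ HasSum (fun i => (inner ℂ (b i)
      (adjoint M (M (adjoint M (M (adjoint M (M (b i)))))))).re) t := by
  have h := cfc_even 3 (adjoint M * M) (isSelfAdjoint_adj_mul M)
  have e : ((2 * (3 : ℕ) : ℝ)) = 6 := by norm_num
  rw [e] at h
  unfold HasTr
  rw [h]
  have : (fun i => (inner ℂ (b i) (((adjoint M * M) ^ 3) (b i))).re) = fun i => (inner ℂ (b i)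
      (adjoint M (M (adjoint M (M (adjoint M (M (b i)))))))).re := by
    ext i
    rw [pow_succ, pow_two]
    rfl
  rw [this]

end Pool.Agent.K9h78.S6
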