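import Pool.Agent.K9h78.S6.Stm

set_option autoImplicit false
open ComplexConjugate Matrix

namespace Pool.Agent.K9h78.S6

theorem map_scal (Φ : Fn →ₗ[ℂ] ℂ) (t : ℂ) (f : Fn) :
    Φ (fun x y => t * f x y) = t * Φ f := by
  have : (fun x y => t * f x y) = t • f := rfl
  rw [this, map_smul, smul_eq_mul]

theorem map_add' (Φ : Fn →ₗ[ℂ] ℂ) (f g : Fn) :
    Φ (fun x y => f x y + g x y) = Φ f + Φ g := by
  have : (fun x y => f x y + g x y) = f + g := rfl
  rw [this, map_add]

/-- values on `|f|²` are real -/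
theorem sq_real {Φ : Fn →ₗ[ℂ] ℂ} (hΦ : Herm Φ) (f : Fn) : Φ (sq f) = ((Φ (sq f)).re : ℂ) := by
  have h := hΦ (sq f)
  have e : (fun x y => conj (sq f x y)) = sq f := by
    funext x y
    simp only [sq, map_mul, Complex.conj_conj]
    ring
  rw [e] at h
  exact (Complex.conj_eq_iff_real.1 h.symm).elim fun r hr => by rw [hr]; simp

/-- `P2` gives positivity on `|c|²` for cubics -/
theorem p1_of (hcf : S_CF) (hpu : S_PU) : ∀ Φ, Herm Φ → P2 Φ →
    ∀ c : Fin 4 → ℂ, 0 ≤ (Φ (sq (cub c))).re := by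
  intro Φ hH hP c
  by_cases hc : c = 0
  · have : sq (cub c) = 0 := by
      funext x y
      simp [sq, cub, hc]
    rw [this, map_zero]
    simp
  obtain ⟨p, q, r, s, κ, hdet, -, h⟩ := hcf c hc
  have hP' := (hpu p q r s hdet Φ).2.1 hP
  have key : ∀ (e : Fin 6 → ℂ) (g : ℂ → ℂ → ℂ),
      (∀ X Y, g X Y * conj (g X Y) = hh e X Y * conj (hh e X Y)) →
      (∀ x y, cub c x y = κ * g (p * x + q * y) (r * x + s * y)) →
      0 ≤ (Φ (sq (cub c))).re := by
    intro e g hg hcub
    have h1 := hP' e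
    have h2 : pull p q r s Φ (sq (hh e)) = Φ (sq (fun x y => g (p * x + q * y) (r * x + s * y))) := by
      show Φ _ = Φ _
      congr 1
      funext x y
      simp only [sq]
      rw [hg]
    have h3 : sq (cub c) = fun x y => ((‖κ‖ ^ 2 : ℝ) : ℂ) *
        sq (fun x y => g (p * x + q * y) (r * x + s * y)) x y := by
      funext x y
      simp only [sq, hcub, map_mul]
      have : ((‖κ‖ ^ 2 : ℝ) : ℂ) = κ * conj κ := by
        rw [Complex.mul_conj, Complex.normSq_eq_norm_sq]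
      rw [this]
      ring
    rw [h3, map_scal, Complex.re_ofReal_mul]
    rw [h2] at h1
    positivity
  rcases h with h | h | h
  · refine key ![0, 1, 1, 0, 0, 0] (fun X Y => X * Y * (X + Y)) ?_ h
    intro X Y
    simp [hh]
    ring
  · refine key ![0, 1, 0, 0, 0, 0] (fun X Y => X ^ 2 * Y) ?_ h
    intro X Y
    simp [hh]
    ring
  · refine key ![1, 0, 0, 0, 0, 0] (fun X Y => X ^ 3) ?_ h
    intro X Y
    simp [hh]
    ring

/-- a degenerate form on cubics -/
theorem sing_of (hcf : S_CF) (hpu : S_PU) (k3 : S_K3) (k2 : S_K2) (k1 : S_K1) :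
    ∀ Φ, Herm Φ → P2 Φ → ∀ c : Fin 4 → ℂ, c ≠ 0 → (Φ (sq (cub c))).re = 0 → Sep Φ := by
  intro Φ hH hP c hc h0
  obtain ⟨p, q, r, s, κ, hdet, hκ, h⟩ := hcf c hc
  obtain ⟨i1, i2, -, -, i5⟩ := hpu p q r s hdet Φ
  have key : ∀ (g : ℂ → ℂ → ℂ),
      (∀ x y, cub c x y = κ * g (p * x + q * y) (r * x + s * y)) →
      (pull p q r s Φ (sq g)).re = 0 := by
    intro g hcub
    have h2 : pull p q r s Φ (sq g) = Φ (sq (fun x y => g (p * x + q * y) (r * x + s * y))) := rfl
    have h3 : sq (cub c) = fun x y => ((‖κ‖ ^ 2 : ℝ) : ℂ) *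
        sq (fun x y => g (p * x + q * y) (r * x + s * y)) x y := by
      funext x y
      simp only [sq, hcub, map_mul]
      have : ((‖κ‖ ^ 2 : ℝ) : ℂ) = κ * conj κ := by
        rw [Complex.mul_conj, Complex.normSq_eq_norm_sq]
      rw [this]
      ring
    rw [h3, map_scal, Complex.re_ofReal_mul] at h0
    rw [h2]
    have : ‖κ‖ ^ 2 ≠ 0 := by positivity
    exact (mul_eq_zero.1 h0).resolve_left this
  rcases h with h | h | h
  · exact i5 (k3 _ (i1 hH) (i2 hP) (key (fun x y => x * y * (x + y)) h))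
  · exact i5 (k2 _ (i1 hH) (i2 hP) (key (fun x y => x ^ 2 * y) h))
  · exact i5 (k1 _ (i1 hH) (i2 hP) (key (fun x y => x ^ 3) h))

/-- the kernel is linear -/
theorem ker_lin (hker : S_KER) {Φ : Fn →ₗ[ℂ] ℂ} (hH : Herm Φ) (hP : P2 Φ) {h h' : Fin 6 → ℂ}
    (h0 : (Φ (sq (hh h))).re = 0) (h0' : (Φ (sq (hh h'))).re = 0) (s t : ℂ) :
    (Φ (sq (hh (s • h + t • h')))).re = 0 := by
  have e1 := hker Φ hH hP h h0 (s • h + t • h')
  have e2 := hker Φ hH hP h' h0' (s • h + t • h')
  have e3 : sq (hh (s • h + t • h')) = fun x y =>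
      (fun x y => s * (hh h x y * conj (hh (s • h + t • h') x y))) x y +
      (fun x y => t * (hh h' x y * conj (hh (s • h + t • h') x y))) x y := by
    funext x y
    simp only [sq]
    have : hh (s • h + t • h') x y = s * hh h x y + t * hh h' x y := by
      simp only [hh, Pi.add_apply, Pi.smul_apply, smul_eq_mul]
      ring
    rw [this]
    ring
  rw [e3, map_add', map_scal, map_scal, e1, e2]
  simp

/-- extremal functionals are sums of evaluations -/
theorem extr_of (hker : S_KER) (hcf : S_CF) (hpu : S_PU) (k3 : S_K3) (k2 : S_K2) (k1 : S_K1)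
    (dim : S_DIM) (pen : S_PEN) (red : S_RED) (tz : S_TZ) (df : S_DEF) (hn : S_HN) (hk : S_HK) :
    ∀ Φ, Herm Φ → P2 Φ → Ext Φ → Sep Φ := by
  intro Φ hH hP hE
  by_cases hpos : Pos Φ
  · exfalso
    obtain ⟨h, h', hli, h0, h0'⟩ := dim Φ hH hP hE (by
      refine ⟨0, 0, by norm_num, by norm_num, ?_⟩
      intro h
      have := hpos ![1, 0, 0, 0] (by
        intro h
        have := congrFun h 0
        simp at this)
      have e : sq (cub ![1, 0, 0, 0]) = mon 0 0 := by
        funext x y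
        simp [sq, cub, mon]
      rw [e, h] at this
      simp at this)
    obtain ⟨s, t, u, v, hst, huv, e1, e2⟩ := pen h h'
    have hne : s • h + t • h' ≠ 0 := by
      intro hz
      obtain ⟨hs, ht⟩ := hli s t hz
      rcases hst with hst | hst
      · exact hst hs
      · exact hst ht
    obtain ⟨p, q, r, w, α, δ, β, hdet, hnz, hg⟩ := red Φ hH hP (s • h + t • h') hne
      (ker_lin hker hH hP h0 h0' s t) u v huv
      (by simpa only [Pi.add_apply, Pi.smul_apply, smul_eq_mul] using e1)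
      (by simpa only [Pi.add_apply, Pi.smul_apply, smul_eq_mul] using e2)
    obtain ⟨i1, i2, i3, i4, -⟩ := hpu p q r w hdet Φ
    have z := tz _ (i1 hH) (i2 hP) (i3 hpos) (i4 hE) α δ β hg
    have ind := df _ (i1 hH) (i3 hpos) α δ β hnz z
    obtain ⟨p', q', r', w', hdet', hank⟩ := hn _ (i1 hH) α δ β ind z
    obtain ⟨j1, j2, j3, j4, -⟩ := hpu p' q' r' w' hdet' (pull p q r w Φ)
    exact hk _ (j1 (i1 hH)) (j2 (i2 hP)) (j3 (i3 hpos)) (j4 (i4 hE)) hank
  · unfold Pos at hpos
    push Not at hpos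
    obtain ⟨c, hc, hle⟩ := hpos
    exact sing_of hcf hpu k3 k2 k1 Φ hH hP c hc (le_antisymm hle (p1_of hcf hpu Φ hH hP c))

end Pool.Agent.K9h78.S6
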