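import Pool.Agent.K9h78.S6.Asm1

set_option autoImplicit false
open ComplexConjugate Matrix
open scoped ComplexOrder

namespace Pool.Agent.K9h78.S6

theorem rep6_pull {n : ℕ} {Φ : Fn →ₗ[ℂ] ℂ} {A B : Matrix (Fin n) (Fin n) ℂ} (h : Rep6 Φ A B)
    (p q r s : ℂ) : Rep6 (pull p q r s Φ) (p • A + q • B) (r • A + s • B) := by
  intro α β
  have h1 := h (α * p + β * r) (α * q + β * s)
  have e1 : pull p q r s Φ (sq (fun x y => (α * x + β * y) ^ 3)) =
      Φ (sq (fun x y => ((α * p + β * r) * x + (α * q + β * s) * y) ^ 3)) := by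
    show Φ _ = Φ _
    congr 1
    funext x y
    simp only [sq]
    have : α * (p * x + q * y) + β * (r * x + s * y) =
        (α * p + β * r) * x + (α * q + β * s) * y := by ring
    rw [this]
  have e2 : α • (p • A + q • B) + β • (r • A + s • B) =
      (α * p + β * r) • A + (α * q + β * s) • B := by
    simp only [smul_add, smul_smul, add_smul]
    abel
  rw [e1, h1, e2]

theorem hh_comp (p q r s : ℂ) (h : Fin 6 → ℂ) : ∃ h' : Fin 6 → ℂ, ∀ x y,
    hh h (p * x + q * y) (r * x + s * y) = hh h' x y := by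
  refine ⟨![conj p * (h 0 * p ^ 2 + h 1 * (p * r) + h 2 * r ^ 2) +
        conj r * (h 3 * p ^ 2 + h 4 * (p * r) + h 5 * r ^ 2),
      conj p * (2 * h 0 * p * q + h 1 * (p * s + q * r) + 2 * h 2 * r * s) +
        conj r * (2 * h 3 * p * q + h 4 * (p * s + q * r) + 2 * h 5 * r * s),
      conj p * (h 0 * q ^ 2 + h 1 * (q * s) + h 2 * s ^ 2) +
        conj r * (h 3 * q ^ 2 + h 4 * (q * s) + h 5 * s ^ 2),
      conj q * (h 0 * p ^ 2 + h 1 * (p * r) + h 2 * r ^ 2) +
        conj s * (h 3 * p ^ 2 + h 4 * (p * r) + h 5 * r ^ 2),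
      conj q * (2 * h 0 * p * q + h 1 * (p * s + q * r) + 2 * h 2 * r * s) +
        conj s * (2 * h 3 * p * q + h 4 * (p * s + q * r) + 2 * h 5 * r * s),
      conj q * (h 0 * q ^ 2 + h 1 * (q * s) + h 2 * s ^ 2) +
        conj s * (h 3 * q ^ 2 + h 4 * (q * s) + h 5 * s ^ 2)], fun x y => ?_⟩
  simp only [hh, map_add, map_mul, Matrix.cons_val_zero, Matrix.cons_val_one, Matrix.cons_val]
  ring

/-- positivity of the functional of a pair on squares of cubics -/
theorem p1_pair (hcf : S_CF) (qi : S_QI) {n : ℕ} {Φ : Fn →ₗ[ℂ] ℂ}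
    {A B : Matrix (Fin n) (Fin n) ℂ} (hH : Herm Φ) (hR : Rep6 Φ A B)
    (hHp : ∀ p q r s : ℂ, p * s - q * r ≠ 0 → Herm (pull p q r s Φ)) (c : Fin 4 → ℂ) :
    0 ≤ (Φ (sq (cub c))).re := by
  by_cases hc : c = 0
  · have : sq (cub c) = 0 := by
      funext x y
      simp [sq, cub, hc]
    rw [this, map_zero]
    simp
  obtain ⟨p, q, r, s, κ, hdet, -, h⟩ := hcf c hc
  have hR' := rep6_pull hR p q r s
  have hH' := hHp p q r s hdet
  have key : ∀ (g : ℂ → ℂ → ℂ), 0 ≤ (pull p q r s Φ (sq g)).re →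
      (∀ x y, cub c x y = κ * g (p * x + q * y) (r * x + s * y)) →
      0 ≤ (Φ (sq (cub c))).re := by
    intro g hg hcub
    have h2 : pull p q r s Φ (sq g) = Φ (sq (fun x y => g (p * x + q * y) (r * x + s * y))) := rfl
    have h3 : sq (cub c) = fun x y => ((‖κ‖ ^ 2 : ℝ) : ℂ) *
        sq (fun x y => g (p * x + q * y) (r * x + s * y)) x y := by
      funext x y
      simp only [sq, hcub, map_mul]
      have : ((‖κ‖ ^ 2 : ℝ) : ℂ) = κ * conj κ := by
        rw [Complex.mul_conj, Complex.normSq_eq_norm_sq]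
      rw [this]
      ring
    rw [h3, map_scal, Complex.re_ofReal_mul]
    rw [h2] at hg
    positivity
  have key2 : ∀ (g : ℂ → ℂ → ℂ) (a b c' d : ℂ),
      (∀ X Y, g X Y * conj (g X Y) =
        hh ![0, 2 * b, c', a, 2 * d, 0] X Y * conj (hh ![0, 2 * b, c', a, 2 * d, 0] X Y)) →
      ‖conj a * d + conj b * c' - b * conj d‖ ^ 2 ≤
        (‖a‖ ^ 2 + ‖b‖ ^ 2) * (‖c'‖ ^ 2 + ‖d‖ ^ 2) → 0 ≤ (pull p q r s Φ (sq g)).re := by
    intro g a b c' d hg hE
    have := qi n _ _ _ hH' hR' a b c' d hE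
    have e : sq g = sq (hh ![0, 2 * b, c', a, 2 * d, 0]) := by
      funext x y
      exact hg x y
    rw [e]
    exact this
  rcases h with h | h | h
  · refine key (fun X Y => X * Y * (X + Y)) (key2 _ 0 (1 / 2) 0 (1 / 2) ?_ ?_) h
    · intro X Y
      simp [hh]
      ring
    · norm_num
  · refine key (fun X Y => X ^ 2 * Y) (key2 _ 0 (1 / 2) 0 0 ?_ ?_) h
    · intro X Y
      simp [hh]
      ring
    · norm_num
  · refine key (fun X Y => X ^ 3) ?_ h
    have h1 := hR' 1 0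
    have e : sq (fun x y : ℂ => (1 * x + 0 * y) ^ 3) = sq (fun X _ : ℂ => X ^ 3) := by
      funext x y
      simp [sq]
    rw [e] at h1
    rw [h1]
    set M := (1 : ℂ) • (p • A + q • B) + (0 : ℂ) • (r • A + s • B)
    have hps : ((Mᴴ * M) ^ 3).PosSemidef := (Matrix.posSemidef_conjTranspose_mul_self M).pow 3
    have := hps.trace_nonneg
    exact (Complex.le_def.1 this).1

end Pool.Agent.K9h78.S6
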