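import Pool.Agent.K9h78.S6.Asm2

set_option autoImplicit false
open ComplexConjugate Matrix

namespace Pool.Agent.K9h78.S6

/-- six points -/
noncomputable def Φ₁ : Fn →ₗ[ℂ] ℂ :=
  ev 1 0 + ev 0 1 + ev 1 1 + ev 1 (-1) + ev 1 Complex.I + ev 1 (-Complex.I)

theorem sq_ev (f : Fn) (u v : ℂ) : ev u v (sq f) = ((‖f u v‖ ^ 2 : ℝ) : ℂ) := by
  show f u v * conj (f u v) = _
  rw [Complex.mul_conj, Complex.normSq_eq_norm_sq]

theorem Φ₁_sq (f : Fn) : (Φ₁ (sq f)).re = ‖f 1 0‖ ^ 2 + ‖f 0 1‖ ^ 2 + ‖f 1 1‖ ^ 2 +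
    ‖f 1 (-1)‖ ^ 2 + ‖f 1 Complex.I‖ ^ 2 + ‖f 1 (-Complex.I)‖ ^ 2 := by
  simp only [Φ₁, LinearMap.add_apply, sq_ev]
  simp only [← Complex.ofReal_add, Complex.ofReal_re]

theorem Φ₁_herm : Herm Φ₁ := by
  intro f
  simp only [Φ₁, LinearMap.add_apply, map_add]
  rfl

theorem Φ₁_hh {h : Fin 6 → ℂ} (hne : h ≠ 0) : 0 < (Φ₁ (sq (hh h))).re := by
  rw [Φ₁_sq]
  by_contra hle
  push Not at hle
  have n1 := sq_nonneg ‖hh h 1 0‖
  have n2 := sq_nonneg ‖hh h 0 1‖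
  have n3 := sq_nonneg ‖hh h 1 1‖
  have n4 := sq_nonneg ‖hh h 1 (-1)‖
  have n5 := sq_nonneg ‖hh h 1 Complex.I‖
  have n6 := sq_nonneg ‖hh h 1 (-Complex.I)‖
  have z : ∀ {t : ℂ}, ‖t‖ ^ 2 = 0 → t = 0 := fun ht => by simpa using ht
  have e1 := z (show ‖hh h 1 0‖ ^ 2 = 0 by linarith)
  have e2 := z (show ‖hh h 0 1‖ ^ 2 = 0 by linarith)
  have e3 := z (show ‖hh h 1 1‖ ^ 2 = 0 by linarith)
  have e4 := z (show ‖hh h 1 (-1)‖ ^ 2 = 0 by linarith)
  have e5 := z (show ‖hh h 1 Complex.I‖ ^ 2 = 0 by linarith)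
  have e6 := z (show ‖hh h 1 (-Complex.I)‖ ^ 2 = 0 by linarith)
  have hI : Complex.I ^ 2 = -1 := Complex.I_sq
  simp only [hh, map_one, map_zero, map_neg, Complex.conj_I] at e1 e2 e3 e4 e5 e6
  have h0 : h 0 = 0 := by linear_combination e1
  have h5 : h 5 = 0 := by linear_combination e2
  have a24 : h 2 + h 4 = 0 := by linear_combination (e3 + e4) / 2 - h0
  have a13 : h 1 + h 3 = 0 := by linear_combination (e3 - e4) / 2 - h5
  have b : h 4 - h 2 = 0 := by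
    linear_combination (e5 + e6) / 2 - h0 + (-h 2 + h 4) * hI
  have c : h 1 - h 3 = 0 := by
    have : Complex.I * (h 1 - h 3) = 0 := by
      linear_combination (e5 - e6) / 2 + (Complex.I * h 5) * hI - Complex.I * h5
    exact (mul_eq_zero.1 this).resolve_left Complex.I_ne_zero
  apply hne
  funext i
  fin_cases i
  · exact h0
  · show h 1 = 0
    linear_combination (a13 + c) / 2
  · show h 2 = 0
    linear_combination (a24 - b) / 2
  · show h 3 = 0
    linear_combination (a13 - c) / 2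
  · show h 4 = 0
    linear_combination (a24 + b) / 2
  · exact h5

theorem Φ₁_cub {c : Fin 4 → ℂ} (hne : c ≠ 0) : 0 < (Φ₁ (sq (cub c))).re := by
  rw [Φ₁_sq]
  by_contra hle
  push Not at hle
  have n1 := sq_nonneg ‖cub c 1 0‖
  have n2 := sq_nonneg ‖cub c 0 1‖
  have n3 := sq_nonneg ‖cub c 1 1‖
  have n4 := sq_nonneg ‖cub c 1 (-1)‖
  have n5 := sq_nonneg ‖cub c 1 Complex.I‖
  have n6 := sq_nonneg ‖cub c 1 (-Complex.I)‖
  have z : ∀ {t : ℂ}, ‖t‖ ^ 2 = 0 → t = 0 := fun ht => by simpa using ht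
  have e1 := z (show ‖cub c 1 0‖ ^ 2 = 0 by linarith)
  have e2 := z (show ‖cub c 0 1‖ ^ 2 = 0 by linarith)
  have e3 := z (show ‖cub c 1 1‖ ^ 2 = 0 by linarith)
  have e4 := z (show ‖cub c 1 (-1)‖ ^ 2 = 0 by linarith)
  simp only [cub] at e1 e2 e3 e4
  have h0 : c 0 = 0 := by linear_combination e1
  have h3 : c 3 = 0 := by linear_combination e2
  have a : c 1 + c 2 = 0 := by linear_combination e3 - h0 - h3
  have b : c 2 - c 1 = 0 := by linear_combination e4 - h0 + h3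
  apply hne
  funext i
  fin_cases i
  · exact h0
  · show c 1 = 0
    linear_combination (a - b) / 2
  · show c 2 = 0
    linear_combination (a + b) / 2
  · exact h3

/-- the Gram matrix -/
theorem sq_hh_expand (Φ : Fn →ₗ[ℂ] ℂ) (h : Fin 6 → ℂ) : Φ (sq (hh h)) =
    ∑ i, ∑ j, h i * conj (h j) *
      Φ (fun x y => hh (Pi.single i 1) x y * conj (hh (Pi.single j 1) x y)) := by
  have e1 : ∀ x y, hh h x y = ∑ i, h i * hh (Pi.single i 1) x y := by
    intro x y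
    simp only [Fin.sum_univ_succ, hh, Fin.sum_univ_zero]
    simp [Pi.single_apply]
    ring
  have e2 : sq (hh h) = ∑ i, ∑ j, (h i * conj (h j)) •
      (fun x y => hh (Pi.single i 1) x y * conj (hh (Pi.single j 1) x y) : Fn) := by
    funext x y
    simp only [sq, Finset.sum_apply, Pi.smul_apply, smul_eq_mul]
    rw [e1 x y, map_sum, Finset.sum_mul_sum]
    refine Finset.sum_congr rfl fun i _ => Finset.sum_congr rfl fun j _ => ?_
    rw [map_mul]
    ring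
  rw [e2, map_sum]
  refine Finset.sum_congr rfl fun i _ => ?_
  rw [map_sum]
  refine Finset.sum_congr rfl fun j _ => ?_
  rw [map_smul, smul_eq_mul]

theorem sq_hh_cont (Φ : Fn →ₗ[ℂ] ℂ) : Continuous fun h : Fin 6 → ℂ => (Φ (sq (hh h))).re := by
  simp only [sq_hh_expand]
  fun_prop

theorem sq_hh_smul (Φ : Fn →ₗ[ℂ] ℂ) (t : ℝ) (h : Fin 6 → ℂ) :
    (Φ (sq (hh (t • h)))).re = t ^ 2 * (Φ (sq (hh h))).re := by
  have : sq (hh (t • h)) = fun x y => ((t ^ 2 : ℝ) : ℂ) * sq (hh h) x y := by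
    funext x y
    simp only [sq, hh, Pi.smul_apply, Complex.real_smul, map_mul, map_add, Complex.conj_ofReal]
    push_cast
    ring
  rw [this, map_scal, Complex.re_ofReal_mul]

/-- the first singular functional on the segment to `Φ₁` -/
theorem first_sing (Φ : Fn →ₗ[ℂ] ℂ) (hn : ¬ P2 Φ) : ∃ (l : ℝ) (h₀ : Fin 6 → ℂ), 0 < l ∧ h₀ ≠ 0 ∧
    (Φ (sq (hh h₀))).re + l * (Φ₁ (sq (hh h₀))).re = 0 ∧
    ∀ h, 0 ≤ (Φ (sq (hh h))).re + l * (Φ₁ (sq (hh h))).re := by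
  have hcomp : IsCompact (Metric.sphere (0 : Fin 6 → ℂ) 1) := isCompact_sphere 0 1
  have hne : (Metric.sphere (0 : Fin 6 → ℂ) 1).Nonempty := by
    refine ⟨fun _ => 1, ?_⟩
    simp
  have hpos : ∀ h ∈ Metric.sphere (0 : Fin 6 → ℂ) 1, 0 < (Φ₁ (sq (hh h))).re := by
    intro h hh'
    apply Φ₁_hh
    rintro rfl
    simp at hh'
  have hcont : ContinuousOn (fun h : Fin 6 → ℂ => (Φ (sq (hh h))).re / (Φ₁ (sq (hh h))).re)
      (Metric.sphere (0 : Fin 6 → ℂ) 1) :=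
    (sq_hh_cont Φ).continuousOn.div (sq_hh_cont Φ₁).continuousOn fun h hh' => (hpos h hh').ne'
  obtain ⟨h₀, hh₀, hmin⟩ := hcomp.exists_isMinOn hne hcont
  have hp0 := hpos h₀ hh₀
  have hall : ∀ h : Fin 6 → ℂ, (Φ (sq (hh h₀))).re / (Φ₁ (sq (hh h₀))).re *
      (Φ₁ (sq (hh h))).re ≤ (Φ (sq (hh h))).re := by
    intro h
    by_cases hz : h = 0
    · subst hz
      have : sq (hh 0) = 0 := by
        funext x y
        simp [sq, hh]
      rw [this, map_zero, map_zero]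
      simp
    · have hn0 : ‖h‖ ≠ 0 := by simpa using hz
      have hmem : (‖h‖⁻¹ : ℝ) • h ∈ Metric.sphere (0 : Fin 6 → ℂ) 1 := by
        simp [norm_smul, hn0]
      have h1 := hmin hmem
      simp only [Set.mem_setOf_eq] at h1
      rw [sq_hh_smul, sq_hh_smul, mul_div_mul_left _ _ (by positivity)] at h1
      have hp := Φ₁_hh hz
      rwa [le_div_iff₀ hp] at h1
  refine ⟨-((Φ (sq (hh h₀))).re / (Φ₁ (sq (hh h₀))).re), h₀, ?_, ?_, ?_, ?_⟩
  · by_contra hle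
    apply hn
    intro h
    have := hall h
    have h2 : 0 ≤ (Φ₁ (sq (hh h))).re := by
      rw [Φ₁_sq]
      positivity
    push Not at hle
    have h3 : 0 ≤ (Φ (sq (hh h₀))).re / (Φ₁ (sq (hh h₀))).re := by linarith
    exact le_trans (mul_nonneg h3 h2) this
  · rintro rfl
    simp at hh₀
  · field_simp
    ring
  · intro h
    have := hall h
    linarith

end Pool.Agent.K9h78.S6
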