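import Pool.Agent.K9h78.S6.Asm3

set_option autoImplicit false
open ComplexConjugate Matrix

namespace Pool.Agent.K9h78.S6

/-- agreement on monomials gives agreement on `|h|²` -/
theorem agree_hh {Φ Ψ : Fn →ₗ[ℂ] ℂ} (h : Agree Φ Ψ) (e : Fin 6 → ℂ) :
    Φ (sq (hh e)) = Ψ (sq (hh e)) := by
  rw [sq_hh_expand, sq_hh_expand]
  refine Finset.sum_congr rfl fun i _ => Finset.sum_congr rfl fun j _ => ?_
  congr 1
  have key : ∃ a b : ℕ, a ≤ 3 ∧ b ≤ 3 ∧
      (fun x y => hh (Pi.single i 1) x y * conj (hh (Pi.single j 1) x y)) = mon a b := by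
    fin_cases i <;> fin_cases j
    all_goals first
      | (refine ⟨0, 0, by norm_num, by norm_num, ?_⟩; funext x y; simp [hh, mon]; ring1)
      | (refine ⟨0, 1, by norm_num, by norm_num, ?_⟩; funext x y; simp [hh, mon]; ring1)
      | (refine ⟨0, 2, by norm_num, by norm_num, ?_⟩; funext x y; simp [hh, mon]; ring1)
      | (refine ⟨0, 3, by norm_num, by norm_num, ?_⟩; funext x y; simp [hh, mon]; ring1)
      | (refine ⟨1, 0, by norm_num, by norm_num, ?_⟩; funext x y; simp [hh, mon]; ring1)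
      | (refine ⟨1, 1, by norm_num, by norm_num, ?_⟩; funext x y; simp [hh, mon]; ring1)
      | (refine ⟨1, 2, by norm_num, by norm_num, ?_⟩; funext x y; simp [hh, mon]; ring1)
      | (refine ⟨1, 3, by norm_num, by norm_num, ?_⟩; funext x y; simp [hh, mon]; ring1)
      | (refine ⟨2, 0, by norm_num, by norm_num, ?_⟩; funext x y; simp [hh, mon]; ring1)
      | (refine ⟨2, 1, by norm_num, by norm_num, ?_⟩; funext x y; simp [hh, mon]; ring1)
      | (refine ⟨2, 2, by norm_num, by norm_num, ?_⟩; funext x y; simp [hh, mon]; ring1)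
      | (refine ⟨2, 3, by norm_num, by norm_num, ?_⟩; funext x y; simp [hh, mon]; ring1)
      | (refine ⟨3, 0, by norm_num, by norm_num, ?_⟩; funext x y; simp [hh, mon]; ring1)
      | (refine ⟨3, 1, by norm_num, by norm_num, ?_⟩; funext x y; simp [hh, mon]; ring1)
      | (refine ⟨3, 2, by norm_num, by norm_num, ?_⟩; funext x y; simp [hh, mon]; ring1)
      | (refine ⟨3, 3, by norm_num, by norm_num, ?_⟩; funext x y; simp [hh, mon]; ring1)
  obtain ⟨a, b, ha, hb, e⟩ := key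
  rw [e]
  exact h a b ha hb

theorem sq_cub_expand (Φ : Fn →ₗ[ℂ] ℂ) (c : Fin 4 → ℂ) : Φ (sq (cub c)) =
    ∑ i : Fin 4, ∑ j : Fin 4, c i * conj (c j) * Φ (mon i j) := by
  have e2 : sq (cub c) = ∑ i : Fin 4, ∑ j : Fin 4, (c i * conj (c j)) • mon i j := by
    funext x y
    simp only [sq, Finset.sum_apply, Pi.smul_apply, smul_eq_mul]
    simp only [Fin.sum_univ_four, cub, mon, map_add, map_mul, map_pow]
    simp
    ring
  rw [e2, map_sum]
  refine Finset.sum_congr rfl fun i _ => ?_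
  rw [map_sum]
  refine Finset.sum_congr rfl fun j _ => ?_
  rw [map_smul, smul_eq_mul]

theorem agree_cub {Φ Ψ : Fn →ₗ[ℂ] ℂ} (h : Agree Φ Ψ) (c : Fin 4 → ℂ) :
    Φ (sq (cub c)) = Ψ (sq (cub c)) := by
  rw [sq_cub_expand, sq_cub_expand]
  refine Finset.sum_congr rfl fun i _ => Finset.sum_congr rfl fun j _ => ?_
  rw [h i j (by omega) (by omega)]

theorem sum_ev_sq {n : ℕ} (x y : Fin n → ℂ) (f : Fn) :
    (∑ k, ev (x k) (y k)) (sq f) = ((∑ k, ‖f (x k) (y k)‖ ^ 2 : ℝ) : ℂ) := by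
  rw [LinearMap.sum_apply]
  push_cast
  refine Finset.sum_congr rfl fun k _ => ?_
  rw [sq_ev]
  push_cast
  rfl

/-- products of three linear forms are cubics -/
theorem cub_prod (a b a' b' a'' b'' : ℂ) : ∃ c : Fin 4 → ℂ, ∀ x y,
    cub c x y = (a * x + b * y) * (a' * x + b' * y) * (a'' * x + b'' * y) := by
  refine ⟨![a * a' * a'', a * a' * b'' + a * b' * a'' + b * a' * a'',
    a * b' * b'' + b * a' * b'' + b * b' * a'', b * b' * b''], fun x y => ?_⟩
  simp only [cub, Matrix.cons_val_zero, Matrix.cons_val_one, Matrix.cons_val]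
  ring

/-- four pairwise independent points in the support -/
theorem four_pts {n : ℕ} (x y : Fin n → ℂ)
    (h : ∀ c : Fin 4 → ℂ, c ≠ 0 → ∃ k, cub c (x k) (y k) ≠ 0) :
    ∃ k₁ k₂ k₃ k₄ : Fin n,
      y k₁ * x k₂ - x k₁ * y k₂ ≠ 0 ∧ y k₁ * x k₃ - x k₁ * y k₃ ≠ 0 ∧
      y k₂ * x k₃ - x k₂ * y k₃ ≠ 0 ∧ y k₁ * x k₄ - x k₁ * y k₄ ≠ 0 ∧
      y k₂ * x k₄ - x k₂ * y k₄ ≠ 0 ∧ y k₃ * x k₄ - x k₃ * y k₄ ≠ 0 := by
  have ne_of : ∀ (c : Fin 4 → ℂ) (u v : ℂ), cub c u v ≠ 0 → c ≠ 0 := by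
    rintro c u v h0 rfl
    apply h0
    simp [cub]
  -- first point
  obtain ⟨k₁, h1⟩ := h ![1, 0, 0, 0] (ne_of _ 1 0 (by simp [cub]))
  have hx1 : x k₁ ≠ 0 := by
    intro h0
    apply h1
    simp [cub, h0]
  -- a point where the linear form of k₁ does not vanish: (y k₁, -x k₁)-direction
  obtain ⟨c2, hc2⟩ := cub_prod (y k₁) (-x k₁) (y k₁) (-x k₁) (y k₁) (-x k₁)
  obtain ⟨k₂, h2⟩ := h c2 (ne_of _ 0 1 (by rw [hc2]; simp [hx1]))
  have h12 : y k₁ * x k₂ - x k₁ * y k₂ ≠ 0 := by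
    intro h0
    apply h2
    rw [hc2]
    have : y k₁ * x k₂ + -x k₁ * y k₂ = 0 := by linear_combination h0
    rw [this]
    ring
  -- linear forms are nonzero
  have lin_ne : ∀ k l : Fin n, y k * x l - x k * y l ≠ 0 → (x k ≠ 0 ∨ y k ≠ 0) := by
    intro k l hkl
    by_contra hcon
    push Not at hcon
    apply hkl
    rw [hcon.1, hcon.2]
    ring
  -- a product of nonzero linear forms is nonzero somewhere
  have prod_ne : ∀ a b a' b' a'' b'' : ℂ, (a ≠ 0 ∨ b ≠ 0) → (a' ≠ 0 ∨ b' ≠ 0) →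
      (a'' ≠ 0 ∨ b'' ≠ 0) → ∃ u v : ℂ,
      (a * u + b * v) * (a' * u + b' * v) * (a'' * u + b'' * v) ≠ 0 := by
    intro a b a' b' a'' b'' h1 h2 h3
    by_contra hcon
    push Not at hcon
    -- the polynomial in t
    have hp : ∀ (a b : ℂ), (a ≠ 0 ∨ b ≠ 0) → (Polynomial.C a + Polynomial.C b * Polynomial.X) ≠ 0 := by
      intro a b hab h0
      have c0 := congrArg (fun p => Polynomial.coeff p 0) h0
      have c1 := congrArg (fun p => Polynomial.coeff p 1) h0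
      simp at c0 c1
      rcases hab with h | h
      · exact h c0
      · exact h c1
    have hz : (Polynomial.C a + Polynomial.C b * Polynomial.X) *
        (Polynomial.C a' + Polynomial.C b' * Polynomial.X) *
        (Polynomial.C a'' + Polynomial.C b'' * Polynomial.X) = (0 : Polynomial ℂ) := by
      apply Polynomial.funext
      intro t
      have := hcon 1 t
      simp only [Polynomial.eval_mul, Polynomial.eval_add, Polynomial.eval_C, Polynomial.eval_X,
        Polynomial.eval_zero]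
      linear_combination this
    exact mul_ne_zero (mul_ne_zero (hp _ _ h1) (hp _ _ h2)) (hp _ _ h3) hz
  have n1 : (y k₁ ≠ 0 ∨ -x k₁ ≠ 0) := Or.inr (neg_ne_zero.2 hx1)
  have hne2 : x k₂ ≠ 0 ∨ y k₂ ≠ 0 := by
    by_contra hcon
    push Not at hcon
    apply h12
    rw [hcon.1, hcon.2]
    ring
  have n2 : (y k₂ ≠ 0 ∨ -x k₂ ≠ 0) := by
    rcases hne2 with h | h
    · exact Or.inr (neg_ne_zero.2 h)
    · exact Or.inl h
  obtain ⟨c3, hc3⟩ := cub_prod (y k₁) (-x k₁) (y k₂) (-x k₂) (y k₂) (-x k₂)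
  obtain ⟨u3, v3, huv3⟩ := prod_ne _ _ _ _ _ _ n1 n2 n2
  obtain ⟨k₃, h3⟩ := h c3 (ne_of _ u3 v3 (by rw [hc3]; exact huv3))
  rw [hc3] at h3
  have h13 : y k₁ * x k₃ - x k₁ * y k₃ ≠ 0 := by
    intro h0
    apply h3
    have : y k₁ * x k₃ + -x k₁ * y k₃ = 0 := by linear_combination h0
    rw [this]
    ring
  have h23 : y k₂ * x k₃ - x k₂ * y k₃ ≠ 0 := by
    intro h0
    apply h3
    have : y k₂ * x k₃ + -x k₂ * y k₃ = 0 := by linear_combination h0
    rw [this]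
    ring
  have hne3 : x k₃ ≠ 0 ∨ y k₃ ≠ 0 := by
    by_contra hcon
    push Not at hcon
    apply h13
    rw [hcon.1, hcon.2]
    ring
  have n3 : (y k₃ ≠ 0 ∨ -x k₃ ≠ 0) := by
    rcases hne3 with h | h
    · exact Or.inr (neg_ne_zero.2 h)
    · exact Or.inl h
  obtain ⟨c4, hc4⟩ := cub_prod (y k₁) (-x k₁) (y k₂) (-x k₂) (y k₃) (-x k₃)
  obtain ⟨u4, v4, huv4⟩ := prod_ne _ _ _ _ _ _ n1 n2 n3
  obtain ⟨k₄, h4⟩ := h c4 (ne_of _ u4 v4 (by rw [hc4]; exact huv4))
  rw [hc4] at h4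
  refine ⟨k₁, k₂, k₃, k₄, h12, h13, h23, ?_, ?_, ?_⟩
  · intro h0
    apply h4
    have : y k₁ * x k₄ + -x k₁ * y k₄ = 0 := by linear_combination h0
    rw [this]
    ring
  · intro h0
    apply h4
    have : y k₂ * x k₄ + -x k₂ * y k₄ = 0 := by linear_combination h0
    rw [this]
    ring
  · intro h0
    apply h4
    have : y k₃ * x k₄ + -x k₃ * y k₄ = 0 := by linear_combination h0
    rw [this]
    ring

end Pool.Agent.K9h78.S6
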