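import Pool.Agent.K9h78.S6.Asm4

set_option autoImplicit false
open ComplexConjugate Matrix

namespace Pool.Agent.K9h78.S6

/-- The functional of a pair of matrices is positive on forms of bidegree `(2,1)`. -/
theorem p2_pair (hcf : S_CF) (hpu : S_PU) (qi : S_QI) (zr : S_ZR)
    (hsep : ∀ Φ, Herm Φ → P2 Φ → Sep Φ) {n : ℕ} {Φ : Fn →ₗ[ℂ] ℂ}
    {A B : Matrix (Fin n) (Fin n) ℂ} (hH : Herm Φ) (hR : Rep6 Φ A B) : P2 Φ := by
  by_contra hn
  obtain ⟨l, h₀, hl, hne, hzero, hall⟩ := first_sing Φ hn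
  set Ψ : Fn →ₗ[ℂ] ℂ := Φ + (l : ℂ) • Φ₁ with hΨ
  have hval : ∀ f : Fn, (Ψ f).re = (Φ f).re + l * (Φ₁ f).re := by
    intro f
    rw [hΨ, LinearMap.add_apply, LinearMap.smul_apply, smul_eq_mul, Complex.add_re,
      Complex.re_ofReal_mul]
  have hHΨ : Herm Ψ := by
    intro f
    rw [hΨ]
    simp only [LinearMap.add_apply, LinearMap.smul_apply, smul_eq_mul, map_add, map_mul,
      Complex.conj_ofReal]
    rw [hH f, Φ₁_herm f]
  have hPΨ : P2 Ψ := fun h => by rw [hval]; exact hall h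
  obtain ⟨m, x, y, hag⟩ := hsep Ψ hHΨ hPΨ
  -- zeros
  have hz : ∀ k, hh h₀ (x k) (y k) = 0 := by
    have h1 := agree_hh hag h₀
    rw [sum_ev_sq] at h1
    have h2 : (∑ k, ‖hh h₀ (x k) (y k)‖ ^ 2 : ℝ) = 0 := by
      have h3 : (Ψ (sq (hh h₀))).re = 0 := by rw [hval]; exact hzero
      rw [h1, Complex.ofReal_re] at h3
      exact h3
    intro k
    have h4 := (Finset.sum_eq_zero_iff_of_nonneg (fun k _ => sq_nonneg _)).1 h2 k
      (Finset.mem_univ k)
    simpa using h4
  -- strict positivity on cubics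
  have hpos : ∀ c : Fin 4 → ℂ, c ≠ 0 → ∃ k, cub c (x k) (y k) ≠ 0 := by
    intro c hc
    by_contra hcon
    push Not at hcon
    have h1 := agree_cub hag c
    rw [sum_ev_sq] at h1
    have h2 : (∑ k, ‖cub c (x k) (y k)‖ ^ 2 : ℝ) = 0 :=
      Finset.sum_eq_zero fun k _ => by rw [hcon k]; simp
    have h3 : (Ψ (sq (cub c))).re = 0 := by rw [h1, h2]; simp
    rw [hval] at h3
    have h4 := p1_pair hcf qi hH hR (fun p q r s hd => (hpu p q r s hd Φ).1 hH) c
    have h5 := Φ₁_cub hc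
    have h6 := mul_pos hl h5
    linarith
  obtain ⟨k₁, k₂, k₃, k₄, h12, h13, h23, h14, h24, h34⟩ := four_pts x y hpos
  -- new coordinates X = y₂ x - x₂ y, Y = y₁ x - x₁ y
  set p : ℂ := y k₂ with hp
  set q : ℂ := -x k₂ with hq
  set r : ℂ := y k₁ with hr
  set s : ℂ := -x k₁ with hs
  have hdet : p * s - q * r ≠ 0 := by
    intro h0
    apply h12
    rw [hp, hq, hr, hs] at h0
    linear_combination h0
  obtain ⟨h', hh'⟩ := hh_comp (s / (p * s - q * r)) (-q / (p * s - q * r)) (-r / (p * s - q * r))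
    (p / (p * s - q * r)) h₀
  have hcomp : ∀ u v : ℂ, hh h' (p * u + q * v) (r * u + s * v) = hh h₀ u v := by
    intro u v
    rw [← hh']
    congr 1
    · rw [div_mul_eq_mul_div, div_mul_eq_mul_div, ← add_div, div_eq_iff hdet]
      ring
    · rw [div_mul_eq_mul_div, div_mul_eq_mul_div, ← add_div, div_eq_iff hdet]
      ring
  -- homogeneity
  have hhom : ∀ (t u v : ℂ), hh h' (t * u) (t * v) = t ^ 2 * conj t * hh h' u v := by
    intro t u v
    simp only [hh, map_mul]
    ring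
  have hzk : ∀ k, hh h' (p * x k + q * y k) (r * x k + s * y k) = 0 := fun k => by
    rw [hcomp]
    exact hz k
  have h0' : h' 0 = 0 := by
    have e1 := hzk k₁
    have e2 : r * x k₁ + s * y k₁ = 0 := by rw [hr, hs]; ring
    have e3 : p * x k₁ + q * y k₁ ≠ 0 := by
      intro h0
      apply h12
      rw [hp, hq] at h0
      linear_combination -h0
    rw [e2] at e1
    have e4 : hh h' (p * x k₁ + q * y k₁) 0 =
        conj (p * x k₁ + q * y k₁) * (p * x k₁ + q * y k₁) ^ 2 * h' 0 := by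
      simp only [hh, map_zero]
      ring
    rw [e4] at e1
    exact (mul_eq_zero.1 e1).resolve_left
      (mul_ne_zero ((map_ne_zero _).2 e3) (pow_ne_zero 2 e3))
  have h5' : h' 5 = 0 := by
    have e1 := hzk k₂
    have e2 : p * x k₂ + q * y k₂ = 0 := by rw [hp, hq]; ring
    have e3 : r * x k₂ + s * y k₂ ≠ 0 := by
      intro h0
      apply h12
      rw [hr, hs] at h0
      linear_combination h0
    rw [e2] at e1
    have e4 : hh h' 0 (r * x k₂ + s * y k₂) =
        conj (r * x k₂ + s * y k₂) * (r * x k₂ + s * y k₂) ^ 2 * h' 5 := by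
      simp only [hh, map_zero]
      ring
    rw [e4] at e1
    exact (mul_eq_zero.1 e1).resolve_left
      (mul_ne_zero ((map_ne_zero _).2 e3) (pow_ne_zero 2 e3))
  have hX : ∀ k, y k₂ * x k - x k₂ * y k ≠ 0 → p * x k + q * y k ≠ 0 := by
    intro k hk h0
    apply hk
    rw [hp, hq] at h0
    linear_combination h0
  have hY : ∀ k, y k₁ * x k - x k₁ * y k ≠ 0 → r * x k + s * y k ≠ 0 := by
    intro k hk h0
    apply hk
    rw [hr, hs] at h0
    linear_combination h0
  have X3 := hX k₃ h23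
  have Y3 := hY k₃ h13
  have X4 := hX k₄ h24
  have Y4 := hY k₄ h14
  have hone : ∀ k, p * x k + q * y k ≠ 0 →
      hh h' 1 ((r * x k + s * y k) / (p * x k + q * y k)) = 0 := by
    intro k hk
    have e1 := hhom (p * x k + q * y k) 1 ((r * x k + s * y k) / (p * x k + q * y k))
    rw [mul_one, mul_div_cancel₀ _ hk, hzk k] at e1
    exact (mul_eq_zero.1 e1.symm).resolve_left
      (mul_ne_zero (pow_ne_zero 2 hk) ((map_ne_zero _).2 hk))
  have hform : ∀ z : ℂ, hh h' 1 z = h' 3 * conj z + 2 * (h' 1 / 2) * z + h' 2 * z ^ 2 +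
      2 * (h' 4 / 2) * (z * conj z) := by
    intro z
    simp only [hh, map_one, h0', h5']
    ring
  have hzz : (r * x k₃ + s * y k₃) / (p * x k₃ + q * y k₃) ≠
      (r * x k₄ + s * y k₄) / (p * x k₄ + q * y k₄) := by
    intro h0
    rw [div_eq_div_iff X3 X4] at h0
    apply h34
    have : (p * s - q * r) * (y k₃ * x k₄ - x k₃ * y k₄) = 0 := by linear_combination h0
    exact (mul_eq_zero.1 this).resolve_left hdet
  have hE := zr (h' 3) (h' 1 / 2) (h' 2) (h' 4 / 2) _ _ (div_ne_zero Y3 X3) (div_ne_zero Y4 X4) hzz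
    (by rw [← hform]; exact hone k₃ X3) (by rw [← hform]; exact hone k₄ X4)
  have hfin := qi n _ _ _ ((hpu p q r s hdet Φ).1 hH) (rep6_pull hR p q r s) _ _ _ _ hE
  have e1 : pull p q r s Φ (sq (hh ![0, 2 * (h' 1 / 2), h' 2, h' 3, 2 * (h' 4 / 2), 0])) =
      Φ (sq (hh h₀)) := by
    show Φ _ = Φ _
    congr 1
    funext u v
    simp only [sq]
    have : hh ![0, 2 * (h' 1 / 2), h' 2, h' 3, 2 * (h' 4 / 2), 0] (p * u + q * v) (r * u + s * v) =
        hh h₀ u v := by
      rw [← hcomp]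
      simp only [hh, Matrix.cons_val_zero, Matrix.cons_val_one, Matrix.cons_val, h0', h5']
      ring
    rw [this]
  rw [e1] at hfin
  have h6 := mul_pos hl (Φ₁_hh hne)
  linarith

end Pool.Agent.K9h78.S6
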