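import Pool.Agent.K9h78.S6.Stm

/-! Leaf EX (helper3): extension of functionals. -/

set_option autoImplicit false
open ComplexConjugate Matrix

namespace Pool.Agent.K9h78.S6

/-- `y ↦ y ^ a * conj y ^ b` as a homomorphism of monoids -/
noncomputable def exHom (i : Fin 4 × Fin 4) : ℂ →* ℂ where
  toFun y := y ^ (i.1 : ℕ) * conj y ^ (i.2 : ℕ)
  map_one' := by simp
  map_mul' x y := by simp only [map_mul, mul_pow]; ring

theorem exHom_apply (i : Fin 4 × Fin 4) (y : ℂ) :
    exHom i y = y ^ (i.1 : ℕ) * conj y ^ (i.2 : ℕ) := rfl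

theorem ex_aux (a b a' b' : ℕ) (ha : a < 4) (hb : b < 4) (ha' : a' < 4) (hb' : b' < 4)
    (h1 : (2 : ℂ) ^ a * 2 ^ b = 2 ^ a' * 2 ^ b')
    (h2 : (2 + Complex.I) ^ a * (2 - Complex.I) ^ b = (2 + Complex.I) ^ a' * (2 - Complex.I) ^ b') :
    a = a' ∧ b = b' := by
  have h3 : a + b = a' + b' := by
    rw [← pow_add, ← pow_add] at h1
    have h4 : (2 : ℕ) ^ (a + b) = 2 ^ (a' + b') := by exact_mod_cast h1
    exact Nat.pow_right_injective (le_refl 2) h4
  have hI2 : Complex.I ^ 2 = -1 := Complex.I_sq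
  have key : ∀ d : ℕ, 1 ≤ d → d ≤ 3 → (2 + Complex.I) ^ d ≠ (2 - Complex.I) ^ d := by
    intro d hd1 hd3 h
    have h5 := congrArg Complex.im h
    interval_cases d
    · norm_num at h5
    · norm_num [pow_succ] at h5
    · norm_num [pow_succ] at h5
  have hp : (2 + Complex.I) ≠ 0 := by
    intro h
    have := congrArg Complex.im h
    norm_num at this
  have hm : (2 - Complex.I) ≠ 0 := by
    intro h
    have := congrArg Complex.im h
    norm_num at this
  rcases lt_trichotomy a a' with h | h | h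
  · exfalso
    obtain ⟨d, rfl⟩ := Nat.exists_eq_add_of_lt h
    have hb2 : b = b' + (d + 1) := by omega
    subst hb2
    apply key (d + 1) (by omega) (by omega)
    have e1 : (2 + Complex.I) ^ a * (2 - Complex.I) ^ b' * (2 + Complex.I) ^ (d + 1) =
        (2 + Complex.I) ^ a * (2 - Complex.I) ^ b' * (2 - Complex.I) ^ (d + 1) := by
      have e2 : (2 + Complex.I) ^ (a + d + 1) = (2 + Complex.I) ^ a * (2 + Complex.I) ^ (d + 1) := by
        rw [← pow_add, add_assoc]
      have e3 : (2 - Complex.I) ^ (b' + (d + 1)) = (2 - Complex.I) ^ b' * (2 - Complex.I) ^ (d + 1) := by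
        rw [← pow_add]
      rw [e2, e3] at h2
      linear_combination -h2
    exact mul_left_cancel₀ (mul_ne_zero (pow_ne_zero _ hp) (pow_ne_zero _ hm)) e1
  · exact ⟨h, by omega⟩
  · exfalso
    obtain ⟨d, rfl⟩ := Nat.exists_eq_add_of_lt h
    have hb2 : b' = b + (d + 1) := by omega
    subst hb2
    apply key (d + 1) (by omega) (by omega)
    have e1 : (2 + Complex.I) ^ a' * (2 - Complex.I) ^ b * (2 + Complex.I) ^ (d + 1) =
        (2 + Complex.I) ^ a' * (2 - Complex.I) ^ b * (2 - Complex.I) ^ (d + 1) := by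
      have e2 : (2 + Complex.I) ^ (a' + d + 1) = (2 + Complex.I) ^ a' * (2 + Complex.I) ^ (d + 1) := by
        rw [← pow_add, add_assoc]
      have e3 : (2 - Complex.I) ^ (b + (d + 1)) = (2 - Complex.I) ^ b * (2 - Complex.I) ^ (d + 1) := by
        rw [← pow_add]
      rw [e2, e3] at h2
      linear_combination h2
    exact mul_left_cancel₀ (mul_ne_zero (pow_ne_zero _ hp) (pow_ne_zero _ hm)) e1

theorem exHom_injective : Function.Injective exHom := by
  intro i j h
  have h1 : exHom i 2 = exHom j 2 := by rw [h]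
  have h2 : exHom i (2 + Complex.I) = exHom j (2 + Complex.I) := by rw [h]
  rw [exHom_apply, exHom_apply] at h1 h2
  have c1 : conj (2 : ℂ) = 2 := by
    rw [show (2 : ℂ) = ((2 : ℝ) : ℂ) by norm_num, Complex.conj_ofReal]
  have c2 : conj (2 + Complex.I) = 2 - Complex.I := by
    rw [map_add, c1, Complex.conj_I]; ring
  rw [c1] at h1
  rw [c2] at h2
  obtain ⟨e1, e2⟩ := ex_aux i.1 i.2 j.1 j.2 i.1.2 i.2.2 j.1.2 j.2.2 h1 h2
  exact Prod.ext (Fin.ext e1) (Fin.ext e2)

theorem ex : S_EX := by
  intro m hm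
  have hli : LinearIndependent ℂ (fun i : Fin 4 × Fin 4 => (exHom i : ℂ → ℂ)) :=
    (linearIndependent_monoidHom ℂ ℂ).comp exHom exHom_injective
  obtain ⟨ψ, hψ⟩ : ∃ ψ : (ℂ → ℂ) →ₗ[ℂ] ℂ, ∀ i : Fin 4 × Fin 4, ψ (exHom i) = m i.1 i.2 := by
    obtain ⟨g, hg⟩ := LinearMap.exists_extend
      ((Module.Basis.span hli).constr ℂ (fun i : Fin 4 × Fin 4 => m i.1 i.2))
    refine ⟨g, fun i => ?_⟩
    have h1 := LinearMap.congr_fun hg (Module.Basis.span hli i)
    rw [LinearMap.comp_apply, Module.Basis.constr_basis] at h1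
    rw [← h1]
    congr 1
    exact (congrArg Subtype.val (Module.Basis.span_apply hli i)).symm
  let Φ0 : Fn →ₗ[ℂ] ℂ := {
    toFun := fun f => ψ (f 1)
    map_add' := fun f g => by rw [← map_add]; rfl
    map_smul' := fun t f => by rw [← map_smul]; rfl }
  have hΦ0 : ∀ a b, a ≤ 3 → b ≤ 3 → Φ0 (mon a b) = m a b := by
    intro a b ha hb
    have h1 := hψ (⟨a, by omega⟩, ⟨b, by omega⟩)
    show ψ (mon a b 1) = m a b
    rw [← h1]
    congr 1
    funext y
    simp [mon, exHom_apply]
  refine ⟨{ toFun := fun f => (Φ0 f + conj (Φ0 (fun x y => conj (f x y)))) / 2,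
            map_add' := ?_, map_smul' := ?_ }, ?_, ?_⟩
  · intro f g
    have e : (fun x y => conj ((f + g) x y)) =
        ((fun x y => conj (f x y)) + (fun x y => conj (g x y)) : Fn) := by
      funext x y; simp
    rw [e, map_add, map_add, map_add]
    ring
  · intro t f
    have e : (fun x y => conj ((t • f) x y)) = (conj t • (fun x y => conj (f x y)) : Fn) := by
      funext x y; simp
    rw [e, map_smul, map_smul]
    simp only [smul_eq_mul, map_mul, Complex.conj_conj, RingHom.id_apply]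
    ring
  · intro f
    show (Φ0 (fun x y => conj (f x y)) + conj (Φ0 (fun x y => conj (conj (f x y))))) / 2 =
      conj ((Φ0 f + conj (Φ0 (fun x y => conj (f x y)))) / 2)
    have e : (fun x y => conj (conj (f x y))) = f := by
      funext x y; simp
    rw [e, map_div₀, map_add, Complex.conj_conj]
    have c2 : conj (2 : ℂ) = 2 := by
      rw [show (2 : ℂ) = ((2 : ℝ) : ℂ) by norm_num, Complex.conj_ofReal]
    rw [c2]
    ring
  · intro a b ha hb
    show (Φ0 (mon a b) + conj (Φ0 (fun x y => conj (mon a b x y)))) / 2 = m a b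
    have e : (fun x y => conj (mon a b x y)) = mon b a := by
      funext x y
      simp only [mon, map_mul, map_pow, Complex.conj_conj]
      ring
    rw [e, hΦ0 a b ha hb, hΦ0 b a hb ha, hm a b, Complex.conj_conj]
    ring

end Pool.Agent.K9h78.S6
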