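import Pool.Agent.K9h78.S6.PadStm
import Pool.Agent.R260.SC.GR
import Pool.Agent.R260.SC.SZ
import Pool.Agent.R260.SC.NUSF

/-! `p = 4` for all pairs of matrices, as a sum of fourth powers of linear forms. -/

set_option autoImplicit false
open Matrix

namespace Pool.Agent.K9h78.S6

open Pool.Agent.K9h78.LP (trPow Rep)

theorem fin4 : S_FIN4 := by
  intro n A B
  obtain ⟨m, v, hv, h⟩ := Pool.Agent.R260.SC.gr n A B
  obtain ⟨m', u, hu, hsum⟩ := Pool.Agent.R260.SC.sz m v hv
  choose f g hfg using fun i => Pool.Agent.R260.SC.NUSF.nu (u i) (hu i)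
  refine ⟨m', f, g, fun α β => ?_⟩
  have h1 := trPow_nat 2 (α • A + β • B)
  rw [h α β] at h1
  have h2 : (2 * ((2 : ℕ) : ℝ)) = 4 := by norm_num
  rw [h2] at h1
  have h3 : trPow 4 (α • A + β • B) =
      ∑ i, (∑ j, Pool.Agent.R260.SC.nv α β j * v i j) ^ 2 := by exact_mod_cast h1
  show trPow 4 (α • A + β • B) = _
  rw [h3, ← hsum]
  refine Finset.sum_congr rfl fun i _ => ?_
  rw [hfg i α β]
  exact_mod_cast (Real.rpow_natCast ‖α * f i + β * g i‖ 4).symm

end Pool.Agent.K9h78.S6
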