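import Pool.Agent.K9h78.S6.Fin
import Pool.Agent.K9h78.LP.P8
import Pool.Agent.R260.SC.TR

/-! `p = 2, 6` for all pairs of matrices, as sums of powers of linear forms. -/

set_option autoImplicit false
open ComplexConjugate Matrix

namespace Pool.Agent.K9h78.S6

open Pool.Agent.K9h78.LP (trPow Emb Rep)

theorem trPow_nat {n : ℕ} (k : ℕ) (M : Matrix (Fin n) (Fin n) ℂ) :
    ((trPow (2 * k) M : ℝ) : ℂ) = ((Mᴴ * M) ^ k).trace := Pool.Agent.R260.SC.tr n k M

theorem repM6 {n : ℕ} (A B : Matrix (Fin n) (Fin n) ℂ) :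
    Rep 6 (fun α β => trPow 6 (α • A + β • B)) := by
  obtain ⟨m, x, y, h⟩ := fin6 n A B
  refine ⟨m, x, y, fun α β => ?_⟩
  have h1 := trPow_nat 3 (α • A + β • B)
  rw [h α β] at h1
  have h2 : (2 * ((3 : ℕ) : ℝ)) = 6 := by norm_num
  rw [h2] at h1
  have h3 : trPow 6 (α • A + β • B) = ∑ k, ‖α * x k + β * y k‖ ^ 6 := by exact_mod_cast h1
  show trPow 6 (α • A + β • B) = _
  rw [h3]
  refine Finset.sum_congr rfl fun k _ => ?_
  exact_mod_cast (Real.rpow_natCast ‖α * x k + β * y k‖ 6).symm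

theorem repM2 {n : ℕ} (A B : Matrix (Fin n) (Fin n) ℂ) :
    Rep 2 (fun α β => trPow 2 (α • A + β • B)) := by
  refine ⟨n * n, fun k => A (finProdFinEquiv.symm k).1 (finProdFinEquiv.symm k).2,
    fun k => B (finProdFinEquiv.symm k).1 (finProdFinEquiv.symm k).2, fun α β => ?_⟩
  have h1 := trPow_nat 1 (α • A + β • B)
  have h2 : (2 * ((1 : ℕ) : ℝ)) = 2 := by norm_num
  rw [h2, pow_one] at h1
  rw [← Equiv.sum_comp finProdFinEquiv, Fintype.sum_prod_type]
  simp only [Equiv.symm_apply_apply]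
  have h3 : (((α • A + β • B)ᴴ * (α • A + β • B)).trace : ℂ) =
      ((∑ i, ∑ j, ‖α * A i j + β * B i j‖ ^ 2 : ℝ) : ℂ) := by
    simp only [Matrix.trace, Matrix.diag, Matrix.mul_apply, Matrix.conjTranspose_apply,
      Matrix.add_apply, Matrix.smul_apply, smul_eq_mul]
    rw [Finset.sum_comm]
    push_cast
    refine Finset.sum_congr rfl fun i _ => Finset.sum_congr rfl fun j _ => ?_
    rw [← Complex.ofReal_pow, ← Complex.normSq_eq_norm_sq, Complex.normSq_eq_conj_mul_self]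
    rfl
  rw [h3] at h1
  have h4 : trPow 2 (α • A + β • B) = ∑ i, ∑ j, ‖α * A i j + β * B i j‖ ^ 2 := by
    exact_mod_cast h1
  show trPow 2 (α • A + β • B) = _
  rw [h4]
  refine Finset.sum_congr rfl fun i _ => Finset.sum_congr rfl fun j _ => ?_
  exact_mod_cast (Real.rpow_natCast ‖α * A i j + β * B i j‖ 2).symm

end Pool.Agent.K9h78.S6
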