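import Pool.Agent.K9h78.S6.OpD
import Pool.Agent.K9h78.S6.Fin
import Pool.Agent.K9h27.S6.Yes
import Pool.Agent.R260.SC.FinalF

/-!
# The exponents `p` for which the complex span of any two operators of `S_p` embeds in `L_p`:
`p = 2, 4, 6` (assembly by helper90)
-/

set_option autoImplicit false
open ContinuousLinearMap Matrix MeasureTheory Pool.Agent.K9h78.LP

namespace Pool.Agent.K9h78.S6

variable {H : Type*} [NormedAddCommGroup H] [InnerProductSpace ℂ H] [CompleteSpace H]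

theorem four_op (b : HilbertBasis ℕ ℂ H) (A B : H →L[ℂ] H)
    (hA : ∃ t, HasTr b 4 A t) (hB : ∃ t, HasTr b 4 B t) : OpEmb b 4 A B := by
  have key : ∀ (M : H →L[ℂ] H) (t : ℝ), HasTr b 4 M t ↔
      HasSum (fun i => ‖(adjoint M) (M (b i))‖ ^ 2) t := by
    intro M t
    rw [hasTr_four]
    have : (fun i => (inner ℂ (b i) (adjoint M (M (adjoint M (M (b i)))))).re) =
        fun i => ‖(adjoint M) (M (b i))‖ ^ 2 := by
      ext i
      rw [adjoint_inner_right, ← adjoint_inner_left, inner_self_eq_norm_sq_to_K]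
      norm_cast
    rw [this]
  obtain ⟨t, hA⟩ := hA
  obtain ⟨s, hB⟩ := hB
  rw [key] at hA hB
  obtain ⟨f, g, hf, hg, h⟩ := Pool.Agent.R260.SC.four_yes b A B hA.summable hB.summable
  have e : ENNReal.ofReal 4 = 4 := by norm_num
  unfold OpEmb
  rw [e]
  exact ⟨f, g, hf, hg, fun α β => (key _ _).mpr (h α β)⟩

theorem six_op (b : HilbertBasis ℕ ℂ H) (A B : H →L[ℂ] H)
    (hA : ∃ t, HasTr b 6 A t) (hB : ∃ t, HasTr b 6 B t) : OpEmb b 6 A B := by
  have key : ∀ (M : H →L[ℂ] H) (t : ℝ), HasTr b 6 M t ↔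
      HasSum (fun i => ‖M (adjoint M (M (b i)))‖ ^ 2) t := by
    intro M t
    rw [hasTr_six]
    exact Pool.Agent.K9h27.S6.hasTrSix_iff b M t
  obtain ⟨t, hA⟩ := hA
  obtain ⟨s, hB⟩ := hB
  rw [key] at hA hB
  obtain ⟨f, g, hf, hg, h⟩ := Pool.Agent.K9h27.S6.six_yes fin6 b A B hA.summable hB.summable
  have e : ENNReal.ofReal 6 = 6 := by norm_num
  unfold OpEmb
  rw [e]
  exact ⟨f, g, hf, hg, fun α β => (key _ _).mpr (h α β)⟩

/-- **Theorem.** For `p ≥ 1` the complex span of any two operators of the Schatten class `S_p` of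
the separable Hilbert space `H` is isometric to a subspace of complex `L_p(0,1)` if and only if
`p` is `2`, `4` or `6`. -/
theorem full_tr (b : HilbertBasis ℕ ℂ H) (p : ℝ) (hp : 1 ≤ p) :
    (∀ A B : H →L[ℂ] H, (∃ t, HasTr b p A t) → (∃ t, HasTr b p B t) →
      ∃ f g : ℝ → ℂ, MemLp f (ENNReal.ofReal p) (volume.restrict (Set.Ioo (0:ℝ) 1)) ∧
        MemLp g (ENNReal.ofReal p) (volume.restrict (Set.Ioo (0:ℝ) 1)) ∧
        ∀ α β : ℂ, HasTr b p (α • A + β • B)
          (∫ t in Set.Ioo (0:ℝ) 1, ‖α * f t + β * g t‖ ^ p)) ↔ p = 2 ∨ p = 4 ∨ p = 6 := by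
  constructor
  · exact fun h => op_only b hp h
  · rintro (rfl | rfl | rfl) A B hA hB
    · exact two_yes b A B hA hB
    · exact four_op b A B hA hB
    · exact six_op b A B hA hB

end Pool.Agent.K9h78.S6
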