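import Mathlib

/-! # Limits of sums of `|α x + β y|^(2k)` (leaf OPC, part 1) -/

set_option autoImplicit false
open ComplexConjugate Filter Topology

namespace Pool.Agent.K9h78.S6.Opc

/-- convex hulls of compact sets (copy from the starting file H212AN/P_st) -/
theorem compact_hull {E : Type*} [NormedAddCommGroup E] [NormedSpace ℝ E]
    [FiniteDimensional ℝ E] {s : Set E} (hs : IsCompact s) : IsCompact (convexHull ℝ s) := by
  classical
  rcases s.eq_empty_or_nonempty with rfl | ⟨x0, hx0⟩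
  · rw [convexHull_empty]
    exact isCompact_empty
  obtain ⟨n, hn⟩ : ∃ n, n = Module.finrank ℝ E + 1 := ⟨_, rfl⟩
  have hK : IsCompact ((stdSimplex ℝ (Fin n)) ×ˢ (Set.pi Set.univ (fun _ : Fin n => s))) :=
    (isCompact_stdSimplex ℝ (Fin n)).prod (isCompact_univ_pi fun _ => hs)
  have hcont : Continuous (fun p : (Fin n → ℝ) × (Fin n → E) => ∑ i, p.1 i • p.2 i) := by
    refine continuous_finsetSum _ fun i _ => ?_
    exact ((continuous_apply i).comp continuous_fst).smul ((continuous_apply i).comp continuous_snd)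
  have heq : convexHull ℝ s = (fun p : (Fin n → ℝ) × (Fin n → E) => ∑ i, p.1 i • p.2 i) ''
      ((stdSimplex ℝ (Fin n)) ×ˢ (Set.pi Set.univ (fun _ : Fin n => s))) := by
    apply Set.Subset.antisymm
    · intro x hx
      obtain ⟨ι, hι, z, w, hz, hai, hw0, hw1, hwz⟩ := eq_pos_convex_span_of_mem_convexHull hx
      have hcard : Fintype.card ι ≤ Fintype.card (Fin n) := by
        have h1 := hai.card_le_finrank_succ
        have h2 := Submodule.finrank_le (vectorSpan ℝ (Set.range z))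
        rw [Fintype.card_fin, hn]
        omega
      obtain ⟨e⟩ := Function.Embedding.nonempty_of_card_le hcard
      refine ⟨(Function.extend e w 0, Function.extend e z (fun _ => x0)), ⟨⟨?_, ?_⟩, ?_⟩, ?_⟩
      · intro j
        show (0 : ℝ) ≤ Function.extend e w 0 j
        by_cases hj : ∃ i, e i = j
        · obtain ⟨i, rfl⟩ := hj
          rw [e.injective.extend_apply]
          exact (hw0 i).le
        · rw [Function.extend_apply' _ _ _ hj]
          exact le_rfl
      · rw [← hw1]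
        symm
        refine Fintype.sum_of_injective e e.injective _ _ ?_ ?_
        · intro j hj
          show Function.extend e w 0 j = 0
          rw [Function.extend_apply' _ _ _ hj]
          rfl
        · intro i
          show w i = Function.extend e w 0 (e i)
          rw [e.injective.extend_apply]
      · intro j _
        by_cases hj : ∃ i, e i = j
        · obtain ⟨i, rfl⟩ := hj
          show Function.extend e z (fun _ => x0) (e i) ∈ s
          rw [e.injective.extend_apply]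
          exact hz ⟨i, rfl⟩
        · show Function.extend e z (fun _ => x0) j ∈ s
          rw [Function.extend_apply' _ _ _ hj]
          exact hx0
      · rw [← hwz]
        symm
        refine Fintype.sum_of_injective e e.injective _ _ ?_ ?_
        · intro j hj
          show Function.extend e w 0 j • Function.extend e z (fun _ => x0) j = 0
          rw [Function.extend_apply' w _ _ hj]
          simp
        · intro i
          show w i • z i = Function.extend e w 0 (e i) • Function.extend e z (fun _ => x0) (e i)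
          rw [e.injective.extend_apply, e.injective.extend_apply]
    · rintro _ ⟨⟨w, z⟩, ⟨⟨hw0, hw1⟩, hz⟩, rfl⟩
      refine (convex_convexHull ℝ s).sum_mem (fun i _ => hw0 i) hw1 (fun i _ => ?_)
      exact subset_convexHull ℝ s (hz i (Set.mem_univ i))
  rw [heq]
  exact hK.image hcont

/-- the space of the moments -/
abbrev W (k : ℕ) : Type := Fin (k + 1) → Fin (k + 1) → ℂ

/-- the moments of a point -/
noncomputable def vv (k : ℕ) (x y : ℂ) : W k := fun a b =>
  (y ^ (a : ℕ) * x ^ (k - a : ℕ)) * conj (y ^ (b : ℕ) * x ^ (k - b : ℕ))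

/-- evaluation -/
noncomputable def el (k : ℕ) (α β : ℂ) : W k →ₗ[ℝ] ℝ where
  toFun m := (∑ a : Fin (k + 1), ∑ b : Fin (k + 1),
    (β ^ (a : ℕ) * α ^ (k - a : ℕ) * (k.choose a : ℂ)) *
      conj (β ^ (b : ℕ) * α ^ (k - b : ℕ) * (k.choose b : ℂ)) * m a b).re
  map_add' m m' := by
    rw [← Complex.add_re, ← Finset.sum_add_distrib]
    congr 1
    refine Finset.sum_congr rfl fun a _ => ?_
    rw [← Finset.sum_add_distrib]
    refine Finset.sum_congr rfl fun b _ => ?_
    rw [Pi.add_apply, Pi.add_apply]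
    ring
  map_smul' t m := by
    rw [RingHom.id_apply, smul_eq_mul, ← Complex.re_ofReal_mul, Finset.mul_sum]
    congr 1
    refine Finset.sum_congr rfl fun a _ => ?_
    rw [Finset.mul_sum]
    refine Finset.sum_congr rfl fun b _ => ?_
    rw [Pi.smul_apply, Pi.smul_apply, Complex.real_smul]
    ring

theorem el_vv (k : ℕ) (α β x y : ℂ) : el k α β (vv k x y) = ‖α * x + β * y‖ ^ (2 * k) := by
  have h1 : (α * x + β * y) ^ k = ∑ a : Fin (k + 1),
      (β ^ (a : ℕ) * α ^ (k - a : ℕ) * (k.choose a : ℂ)) * (y ^ (a : ℕ) * x ^ (k - a : ℕ)) := by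
    rw [add_comm, add_pow, Finset.sum_range]
    refine Finset.sum_congr rfl fun a _ => ?_
    rw [mul_pow, mul_pow]
    ring
  have h2 : ‖α * x + β * y‖ ^ (2 * k) =
      ((α * x + β * y) ^ k * conj ((α * x + β * y) ^ k)).re := by
    rw [Complex.mul_conj, Complex.ofReal_re, Complex.normSq_eq_norm_sq, norm_pow, ← pow_mul,
      mul_comm 2 k]
  rw [h2, h1, map_sum, Finset.sum_mul_sum]
  show (∑ a : Fin (k + 1), ∑ b : Fin (k + 1), (_ : ℂ)).re = _
  congr 1
  refine Finset.sum_congr rfl fun a _ => Finset.sum_congr rfl fun b _ => ?_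
  simp only [vv, map_mul]
  ring

theorem el_cont (k : ℕ) (α β : ℂ) : Continuous (el k α β) :=
  LinearMap.continuous_of_finiteDimensional _

/-- the normalised points -/
def TT (k : ℕ) : Set (W k) :=
  {m | ∃ x y : ℂ, ‖x‖ ^ (2 * k) + ‖y‖ ^ (2 * k) = 1 ∧ vv k x y = m}

theorem TT_compact {k : ℕ} (hk : 1 ≤ k) : IsCompact (TT k) := by
  have h1 : IsCompact {z : ℂ × ℂ | ‖z.1‖ ^ (2 * k) + ‖z.2‖ ^ (2 * k) = 1} := by
    refine Metric.isCompact_of_isClosed_isBounded ?_ ?_
    · exact isClosed_eq (by fun_prop) continuous_const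
    · refine (Metric.isBounded_closedBall (x := (0 : ℂ × ℂ)) (r := 1)).subset ?_
      rintro ⟨x, y⟩ hz
      rw [Set.mem_setOf_eq] at hz
      rw [mem_closedBall_zero_iff, Prod.norm_def]
      refine max_le ?_ ?_
      · by_contra hc
        push Not at hc
        have h2 : 1 < ‖x‖ ^ (2 * k) := one_lt_pow₀ hc (by omega)
        have h3 : 0 ≤ ‖y‖ ^ (2 * k) := by positivity
        simp only at hz
        linarith
      · by_contra hc
        push Not at hc
        have h2 : 1 < ‖y‖ ^ (2 * k) := one_lt_pow₀ hc (by omega)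
        have h3 : 0 ≤ ‖x‖ ^ (2 * k) := by positivity
        simp only at hz
        linarith
  have h2 : TT k = (fun z : ℂ × ℂ => vv k z.1 z.2) ''
      {z : ℂ × ℂ | ‖z.1‖ ^ (2 * k) + ‖z.2‖ ^ (2 * k) = 1} := by
    ext m
    constructor
    · rintro ⟨x, y, h, rfl⟩
      exact ⟨(x, y), h, rfl⟩
    · rintro ⟨⟨x, y⟩, h, rfl⟩
      exact ⟨x, y, h, rfl⟩
  rw [h2]
  refine h1.image ?_
  refine continuous_pi fun a => continuous_pi fun b => ?_
  show Continuous fun z : ℂ × ℂ => (z.2 ^ (a : ℕ) * z.1 ^ (k - a : ℕ)) *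
    conj (z.2 ^ (b : ℕ) * z.1 ^ (k - b : ℕ))
  refine Continuous.mul (by fun_prop) (Complex.continuous_conj.comp (by fun_prop))

/-- real roots -/
theorem root {k : ℕ} (hk : 1 ≤ k) {c : ℝ} (hc : 0 ≤ c) : ∃ s : ℝ, 0 ≤ s ∧ s ^ (2 * k) = c :=
  ⟨c ^ ((1 : ℝ) / (2 * k : ℕ)), Real.rpow_nonneg hc _, by
    rw [one_div]
    exact Real.rpow_inv_natCast_pow hc (by omega)⟩

theorem atom {k : ℕ} (hk : 1 ≤ k) (f g : ℂ) : ∃ u ∈ TT k, ∀ α β : ℂ,
    ‖α * f + β * g‖ ^ (2 * k) = (‖f‖ ^ (2 * k) + ‖g‖ ^ (2 * k)) * el k α β u := by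
  have hk0 : 2 * k ≠ 0 := by omega
  have hf : 0 ≤ ‖f‖ ^ (2 * k) := by positivity
  have hg : 0 ≤ ‖g‖ ^ (2 * k) := by positivity
  rcases (add_nonneg hf hg).eq_or_lt' with h0 | h0
  · have hf0 : f = 0 := by
      have : ‖f‖ ^ (2 * k) = 0 := by linarith
      exact norm_eq_zero.1 ((pow_eq_zero_iff hk0).1 this)
    have hg0 : g = 0 := by
      have : ‖g‖ ^ (2 * k) = 0 := by linarith
      exact norm_eq_zero.1 ((pow_eq_zero_iff hk0).1 this)
    refine ⟨vv k 1 0, ⟨1, 0, by simp [hk0], rfl⟩, fun α β => ?_⟩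
    rw [h0, hf0, hg0]
    simp [hk0]
  · obtain ⟨s, hs0, hs⟩ := root hk h0.le
    have hspos : 0 < s := by
      rcases hs0.eq_or_lt' with h | h
      · rw [h, zero_pow hk0] at hs
        linarith
      · exact h
    have hsC : (s : ℂ) ≠ 0 := by exact_mod_cast hspos.ne'
    have hn : ∀ z : ℂ, ‖z / s‖ ^ (2 * k) = ‖z‖ ^ (2 * k) / s ^ (2 * k) := by
      intro z
      rw [norm_div, Complex.norm_real, Real.norm_of_nonneg hs0, div_pow]
    refine ⟨vv k (f / s) (g / s), ⟨f / s, g / s, ?_, rfl⟩, fun α β => ?_⟩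
    · rw [hn, hn, ← add_div, hs, div_self h0.ne']
    · rw [el_vv, show α * (f / s) + β * (g / s) = (α * f + β * g) / s by ring, hn, hs]
      field_simp

/-- finite sums -/
theorem sum_eq {k : ℕ} (hk : 1 ≤ k) (m : ℕ) (f g : Fin m → ℂ) : ∃ κ ∈ convexHull ℝ (TT k),
    ∀ α β : ℂ, ∑ i, ‖α * f i + β * g i‖ ^ (2 * k) =
      (∑ i, (‖f i‖ ^ (2 * k) + ‖g i‖ ^ (2 * k))) * el k α β κ := by
  choose u hu1 hu2 using fun i => atom hk (f i) (g i)
  obtain ⟨c, hc⟩ : ∃ c : Fin m → ℝ, c = fun i => ‖f i‖ ^ (2 * k) + ‖g i‖ ^ (2 * k) := ⟨_, rfl⟩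
  have hc0 : ∀ i, 0 ≤ c i := fun i => by rw [hc]; positivity
  have hcs : ∑ i, (‖f i‖ ^ (2 * k) + ‖g i‖ ^ (2 * k)) = ∑ i, c i := by rw [hc]
  rw [hcs]
  rcases (Finset.sum_nonneg fun i _ => hc0 i : 0 ≤ ∑ i, c i).eq_or_lt' with h0 | h0
  · refine ⟨vv k 1 0, subset_convexHull ℝ _ ⟨1, 0, by simp [show 2 * k ≠ 0 by omega], rfl⟩,
      fun α β => ?_⟩
    rw [h0, zero_mul]
    refine Finset.sum_eq_zero fun i hi => ?_
    have h1 := (Finset.sum_eq_zero_iff_of_nonneg (fun i _ => hc0 i)).1 h0 i hi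
    rw [hu2 i, show ‖f i‖ ^ (2 * k) + ‖g i‖ ^ (2 * k) = c i by rw [hc], h1, zero_mul]
  · refine ⟨∑ i, (c i / ∑ j, c j) • u i, ?_, fun α β => ?_⟩
    · refine (convex_convexHull ℝ (TT k)).sum_mem (fun i _ => div_nonneg (hc0 i) h0.le) ?_
        (fun i _ => subset_convexHull ℝ _ (hu1 i))
      rw [← Finset.sum_div, div_self h0.ne']
    · rw [map_sum, Finset.mul_sum]
      refine Finset.sum_congr rfl fun i _ => ?_
      rw [map_smul, smul_eq_mul, hu2 i, show ‖f i‖ ^ (2 * k) + ‖g i‖ ^ (2 * k) = c i by rw [hc]]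
      field_simp

/-- **limits** -/
theorem limit {k : ℕ} (hk : 1 ≤ k) (P : ℕ → ℂ → ℂ → ℝ) (Q : ℂ → ℂ → ℝ)
    (hP : ∀ n, ∃ (m : ℕ) (f g : Fin m → ℂ), ∀ α β : ℂ,
      P n α β = ∑ i, ‖α * f i + β * g i‖ ^ (2 * k))
    (hQ : ∀ α β, Tendsto (fun n => P n α β) atTop (𝓝 (Q α β))) :
    ∃ (m : ℕ) (f g : Fin m → ℂ), ∀ α β : ℂ, Q α β = ∑ i, ‖α * f i + β * g i‖ ^ (2 * k) := by
  have h1 : ∀ n, ∃ κ ∈ convexHull ℝ (TT k), ∀ α β : ℂ,
      P n α β = (P n 1 0 + P n 0 1) * el k α β κ := by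
    intro n
    obtain ⟨m, f, g, h⟩ := hP n
    obtain ⟨κ, hκ, h2⟩ := sum_eq hk m f g
    refine ⟨κ, hκ, fun α β => ?_⟩
    rw [h, h2, h, h, ← Finset.sum_add_distrib]
    simp
  choose κ hκ hκ2 using h1
  have hT0 : ∀ n, 0 ≤ P n 1 0 + P n 0 1 := by
    intro n
    obtain ⟨m, f, g, h⟩ := hP n
    rw [h, h]
    positivity
  obtain ⟨κ', hκ', φ, hφ, hlim⟩ := (compact_hull (TT_compact hk)).tendsto_subseq hκ
  have hQ' : ∀ α β, Q α β = (Q 1 0 + Q 0 1) * el k α β κ' := by
    intro α β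
    have h2 : Tendsto (fun n => P (φ n) α β) atTop (𝓝 (Q α β)) :=
      (hQ α β).comp hφ.tendsto_atTop
    have h3 : Tendsto (fun n => P (φ n) α β) atTop (𝓝 ((Q 1 0 + Q 0 1) * el k α β κ')) := by
      have h4 : (fun n => P (φ n) α β) =
          fun n => (P (φ n) 1 0 + P (φ n) 0 1) * el k α β (κ (φ n)) := by
        funext n
        exact hκ2 (φ n) α β
      rw [h4]
      refine Tendsto.mul (((hQ 1 0).comp hφ.tendsto_atTop).add ((hQ 0 1).comp hφ.tendsto_atTop)) ?_
      exact ((el_cont k α β).tendsto κ').comp hlim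
    exact tendsto_nhds_unique h2 h3
  have hQ0 : 0 ≤ Q 1 0 + Q 0 1 := ge_of_tendsto' ((hQ 1 0).add (hQ 0 1)) hT0
  obtain ⟨ι, hι, z, w, hz, -, hw0, hw1, hwz⟩ := eq_pos_convex_span_of_mem_convexHull hκ'
  have h5 : ∀ i, ∃ x y : ℂ, vv k x y = z i := fun i => by
    obtain ⟨x, y, -, h⟩ := hz ⟨i, rfl⟩
    exact ⟨x, y, h⟩
  choose x y hxy using h5
  choose s hs0 hs using fun i => root hk (mul_nonneg hQ0 (hw0 i).le)
  let e := Fintype.equivFin ι
  refine ⟨Fintype.card ι, fun j => s (e.symm j) * x (e.symm j), fun j => s (e.symm j) * y (e.symm j),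
    fun α β => ?_⟩
  rw [Equiv.sum_comp e.symm (fun i => ‖α * (s i * x i) + β * (s i * y i)‖ ^ (2 * k)), hQ' α β,
    ← hwz, map_sum, Finset.mul_sum]
  refine Finset.sum_congr rfl fun i _ => ?_
  rw [map_smul, smul_eq_mul, ← hxy, el_vv,
    show α * (s i * x i) + β * (s i * y i) = s i * (α * x i + β * y i) by ring, norm_mul, mul_pow,
    Complex.norm_real, Real.norm_of_nonneg (hs0 i), hs i]
  ring

end Pool.Agent.K9h78.S6.Opc
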