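import Pool.Agent.K9h78.S6.OpStm
import Pool.Agent.K9h78.S6.OpcAux

/-! # Pointwise limits of finite sums of `|α x + β y|^p`, `p = 2, 4, 6` (leaf OPC) -/

set_option autoImplicit false
open MeasureTheory Matrix Filter Topology

namespace Pool.Agent.K9h78.S6

open Pool.Agent.K9h78.LP (Rep)

theorem opc : S_OPC := by
  intro p hp P Q hP hQ
  obtain ⟨k, hk, rfl⟩ : ∃ k : ℕ, 1 ≤ k ∧ p = ((2 * k : ℕ) : ℝ) := by
    rcases hp with rfl | rfl | rfl
    · exact ⟨1, le_rfl, by norm_num⟩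
    · exact ⟨2, by norm_num, by norm_num⟩
    · exact ⟨3, by norm_num, by norm_num⟩
  obtain ⟨m, f, g, h⟩ := Opc.limit hk P Q (fun n => by
    obtain ⟨m, f, g, h⟩ := hP n
    refine ⟨m, f, g, fun α β => ?_⟩
    rw [h]
    exact Finset.sum_congr rfl fun i _ => Real.rpow_natCast _ _) hQ
  refine ⟨m, f, g, fun α β => ?_⟩
  rw [h]
  exact Finset.sum_congr rfl fun i _ => (Real.rpow_natCast _ _).symm

end Pool.Agent.K9h78.S6
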