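import Pool.Agent.K9h78.S6.OpStm

/-!
# OPE (Eckart-Young): `apn k (opm b M)` are the singular values of `M`, in decreasing order
(helper98)
-/

set_option autoImplicit false
set_option linter.unusedSectionVars false
open MeasureTheory Matrix Filter Topology
open scoped ComplexOrder

namespace Pool.Agent.K9h78.S6.OPE98

variable {H : Type*} [NormedAddCommGroup H] [InnerProductSpace ℂ H] [CompleteSpace H]

/-- the truncation -/
noncomputable def trunc {n : ℕ} (T : H →L[ℂ] H) (v : Fin n → H) (k : ℕ) : H →L[ℂ] H :=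
  ∑ l ∈ Finset.univ.filter (fun l : Fin n => (l : ℕ) < k), (innerSL ℂ (v l)).smulRight (T (v l))

theorem trunc_apply {n : ℕ} (T : H →L[ℂ] H) (v : Fin n → H) (k : ℕ) (x : H) :
    trunc T v k x = T (∑ l ∈ Finset.univ.filter (fun l : Fin n => (l : ℕ) < k),
      inner ℂ (v l) x • v l) := by
  unfold trunc
  simp [map_sum]

theorem trunc_range {n : ℕ} (T : H →L[ℂ] H) (v : Fin n → H) (k : ℕ) :
    FiniteDimensional ℂ (trunc T v k).range ∧ Module.finrank ℂ (trunc T v k).range ≤ k := by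
  classical
  set s := (Finset.univ.filter (fun l : Fin n => (l : ℕ) < k)).image (fun l => T (v l)) with hs
  have hle : (trunc T v k).range ≤ Submodule.span ℂ (s : Set H) := by
    rintro y ⟨x, rfl⟩
    have : (trunc T v k) x = ∑ l ∈ Finset.univ.filter (fun l : Fin n => (l : ℕ) < k),
      inner ℂ (v l) x • T (v l) := by
      unfold trunc
      simp
    change (trunc T v k) x ∈ _
    rw [this]
    refine Submodule.sum_mem _ fun l hl => Submodule.smul_mem _ _ (Submodule.subset_span ?_)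
    simp only [hs, Finset.coe_image, Set.mem_image]
    exact ⟨l, hl, rfl⟩
  have hfin : FiniteDimensional ℂ (Submodule.span ℂ (s : Set H)) :=
    FiniteDimensional.span_finset ℂ s
  have h1 : Module.finrank ℂ (Submodule.span ℂ (s : Set H)) ≤ s.card :=
    finrank_span_finset_le_card s
  have h2 : s.card ≤ k := by
    refine (Finset.card_image_le).trans ?_
    have : (Finset.univ.filter (fun l : Fin n => (l : ℕ) < k)).card ≤ (Finset.range k).card := by
      refine Finset.card_le_card_of_injOn (fun l : Fin n => (l : ℕ)) ?_ ?_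
      · intro l hl
        simp only [Finset.coe_filter, Finset.mem_univ, true_and, Set.mem_ofPred_eq] at hl
        simpa using hl
      · intro a _ c _ h
        exact Fin.ext h
    simpa using this
  exact ⟨Submodule.finiteDimensional_of_le hle,
    (Submodule.finrank_mono hle).trans (h1.trans h2)⟩

theorem apn_le {k : ℕ} {T F : H →L[ℂ] H} (h1 : FiniteDimensional ℂ F.range)
    (h2 : Module.finrank ℂ F.range ≤ k) : apn k T ≤ ‖T - F‖ := by
  unfold apn
  refine csInf_le ⟨0, ?_⟩ ⟨F, h1, h2, rfl⟩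
  rintro r ⟨G, -, -, rfl⟩
  exact norm_nonneg _

theorem apn_nonneg (k : ℕ) (T : H →L[ℂ] H) : 0 ≤ apn k T := by
  unfold apn
  refine Real.sInf_nonneg ?_
  rintro r ⟨G, -, -, rfl⟩
  exact norm_nonneg _

theorem le_apn {k : ℕ} {T : H →L[ℂ] H} {c : ℝ}
    (h : ∀ F : H →L[ℂ] H, FiniteDimensional ℂ F.range → Module.finrank ℂ F.range ≤ k →
      c ≤ ‖T - F‖) : c ≤ apn k T := by
  unfold apn
  refine le_csInf ⟨‖T - 0‖, 0, ?_, ?_, rfl⟩ ?_
  · have : (0 : H →L[ℂ] H).range = ⊥ := by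
      rw [Submodule.eq_bot_iff]
      rintro y ⟨x, rfl⟩
      simp
    rw [this]
    infer_instance
  · have : (0 : H →L[ℂ] H).range = ⊥ := by
      rw [Submodule.eq_bot_iff]
      rintro y ⟨x, rfl⟩
      simp
    rw [this]
    simp
  · rintro r ⟨G, h1, h2, rfl⟩
    exact h G h1 h2

section key

variable {n : ℕ} {T : H →L[ℂ] H} {v : Fin n → H} {μ : Fin n → ℝ}

theorem inner_tail (hv : Orthonormal ℂ v) (k : ℕ) (x : H) (m : Fin n) :
    inner ℂ (v m) (x - ∑ l ∈ Finset.univ.filter (fun l : Fin n => (l : ℕ) < k),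
      inner ℂ (v l) x • v l) = if (m : ℕ) < k then 0 else inner ℂ (v m) x := by
  rw [inner_sub_right, inner_sum]
  simp only [inner_smul_right, orthonormal_iff_ite.mp hv]
  by_cases hm : (m : ℕ) < k
  · rw [if_pos hm, Finset.sum_eq_single m]
    · simp
    · intro l _ hl
      rw [if_neg (Ne.symm hl)]
      simp
    · intro h
      exact absurd (by simpa using hm) h
  · rw [if_neg hm, Finset.sum_eq_zero]
    · simp
    · intro l hl
      rw [if_neg]
      · simp
      · rintro rfl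
        simp at hl
        omega

theorem upper (hv : Orthonormal ℂ v) (hμ0 : ∀ i, 0 ≤ μ i) (hμ : Antitone μ)
    (key : ∀ x, ‖T x‖ ^ 2 = ∑ l, μ l * ‖inner ℂ (v l) x‖ ^ 2) (k : ℕ) (hk : k < n) :
    apn k T ≤ √(μ ⟨k, hk⟩) := by
  obtain ⟨h1, h2⟩ := trunc_range T v k
  refine (apn_le h1 h2).trans ?_
  refine ContinuousLinearMap.opNorm_le_bound _ (Real.sqrt_nonneg _) fun x => ?_
  have h3 : (T - trunc T v k) x = T (x - ∑ l ∈ Finset.univ.filter (fun l : Fin n => (l : ℕ) < k),
      inner ℂ (v l) x • v l) := by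
    rw [_root_.sub_apply, trunc_apply, map_sub]
  rw [h3]
  have h4 : ‖T (x - ∑ l ∈ Finset.univ.filter (fun l : Fin n => (l : ℕ) < k),
      inner ℂ (v l) x • v l)‖ ^ 2 ≤ (√(μ ⟨k, hk⟩) * ‖x‖) ^ 2 := by
    rw [key, mul_pow, Real.sq_sqrt (hμ0 _)]
    simp only [inner_tail hv]
    calc ∑ l, μ l * ‖if (l : ℕ) < k then (0 : ℂ) else inner ℂ (v l) x‖ ^ 2
        ≤ ∑ l, μ ⟨k, hk⟩ * ‖inner ℂ (v l) x‖ ^ 2 := by
          refine Finset.sum_le_sum fun l _ => ?_
          by_cases hl : (l : ℕ) < k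
          · rw [if_pos hl]
            have := hμ0 ⟨k, hk⟩
            simp
            positivity
          · rw [if_neg hl]
            have : μ l ≤ μ ⟨k, hk⟩ := hμ (by
              rw [Fin.le_def]
              simpa using hl)
            gcongr
      _ = μ ⟨k, hk⟩ * ∑ l, ‖inner ℂ (v l) x‖ ^ 2 := by rw [Finset.mul_sum]
      _ ≤ μ ⟨k, hk⟩ * ‖x‖ ^ 2 := by
          refine mul_le_mul_of_nonneg_left ?_ (hμ0 _)
          exact hv.sum_inner_products_le x
  exact le_of_sq_le_sq h4 (by positivity)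

theorem upper' (hv : Orthonormal ℂ v)
    (key : ∀ x, ‖T x‖ ^ 2 = ∑ l, μ l * ‖inner ℂ (v l) x‖ ^ 2) (k : ℕ) (hk : n ≤ k) :
    apn k T = 0 := by
  refine le_antisymm ?_ (apn_nonneg _ _)
  obtain ⟨h1, h2⟩ := trunc_range T v k
  refine (apn_le h1 h2).trans ?_
  refine ContinuousLinearMap.opNorm_le_bound _ le_rfl fun x => ?_
  have h3 : (T - trunc T v k) x = T (x - ∑ l ∈ Finset.univ.filter (fun l : Fin n => (l : ℕ) < k),
      inner ℂ (v l) x • v l) := by
    rw [_root_.sub_apply, trunc_apply, map_sub]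
  rw [h3]
  have h4 : ‖T (x - ∑ l ∈ Finset.univ.filter (fun l : Fin n => (l : ℕ) < k),
      inner ℂ (v l) x • v l)‖ ^ 2 = 0 := by
    rw [key]
    simp only [inner_tail hv]
    refine Finset.sum_eq_zero fun l _ => ?_
    rw [if_pos (lt_of_lt_of_le l.2 hk)]
    simp
  have h5 := pow_eq_zero_iff (two_ne_zero) |>.mp h4
  rw [h5]
  simp

theorem lower (hv : Orthonormal ℂ v) (hμ0 : ∀ i, 0 ≤ μ i) (hμ : Antitone μ)
    (key : ∀ x, ‖T x‖ ^ 2 = ∑ l, μ l * ‖inner ℂ (v l) x‖ ^ 2) (k : ℕ) (hk : k < n) :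
    √(μ ⟨k, hk⟩) ≤ apn k T := by
  refine le_apn fun F hF1 hF2 => ?_
  -- the embedding of `Fin (k+1) → ℂ`
  let e : Fin (k + 1) → Fin n := fun i => ⟨i, lt_of_lt_of_le i.2 hk⟩
  have he : Function.Injective e := fun a c h => by
    have := congrArg Fin.val h
    exact Fin.ext this
  let w : Fin (k + 1) → H := fun i => v (e i)
  have hw : Orthonormal ℂ w := hv.comp e he
  let L : (Fin (k + 1) → ℂ) →ₗ[ℂ] H := Fintype.linearCombination ℂ w
  have hL : ∀ c, L c = ∑ i, c i • w i := fun c => Fintype.linearCombination_apply ℂ w c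
  let G : (Fin (k + 1) → ℂ) →ₗ[ℂ] F.range :=
    { toFun := fun c => ⟨F (L c), ⟨L c, rfl⟩⟩
      map_add' := fun a c => by ext; simp
      map_smul' := fun a c => by ext; simp }
  have hker : LinearMap.ker G ≠ ⊥ := by
    refine LinearMap.ker_ne_bot_of_finrank_lt ?_
    rw [Module.finrank_fin_fun]
    omega
  obtain ⟨c, hc, hc0⟩ := Submodule.exists_mem_ne_zero_of_ne_bot hker
  have hFc : F (L c) = 0 := by
    have := LinearMap.mem_ker.mp hc
    exact congrArg Subtype.val this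
  have hin : ∀ m : Fin n, inner ℂ (v m) (L c) =
      if h : (m : ℕ) < k + 1 then c ⟨m, h⟩ else 0 := by
    intro m
    rw [hL, inner_sum]
    simp only [inner_smul_right, w, orthonormal_iff_ite.mp hv]
    by_cases hm : (m : ℕ) < k + 1
    · rw [dif_pos hm, Finset.sum_eq_single ⟨m, hm⟩]
      · simp [e]
      · intro l _ hl
        rw [if_neg]
        · simp
        · intro h
          apply hl
          apply Fin.ext
          have h9 := congrArg Fin.val h
          exact h9.symm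
      · intro h
        exact absurd (Finset.mem_univ _) h
    · rw [dif_neg hm, Finset.sum_eq_zero]
      intro l _
      rw [if_neg]
      · simp
      · intro h
        apply hm
        rw [h]
        exact l.2
  have hnorm : ‖L c‖ ^ 2 = ∑ i, ‖c i‖ ^ 2 := by
    have h := hw.inner_sum c c Finset.univ
    rw [← hL] at h
    rw [inner_self_eq_norm_sq_to_K] at h
    have h' : ((‖L c‖ ^ 2 : ℝ) : ℂ) = ((∑ i, ‖c i‖ ^ 2 : ℝ) : ℂ) := by
      push_cast
      rw [← Complex.coe_algebraMap] at *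
      simpa [Complex.conj_mul'] using h
    exact_mod_cast h'
  have hpos : 0 < ‖L c‖ := by
    have h1 : ∃ i, c i ≠ 0 := Function.ne_iff.mp hc0
    obtain ⟨i, hi⟩ := h1
    have h2 : 0 < ‖L c‖ ^ 2 := by
      rw [hnorm]
      refine Finset.sum_pos' (fun j _ => by positivity) ⟨i, Finset.mem_univ _, ?_⟩
      have := norm_pos_iff.mpr hi
      positivity
    by_contra hcon
    have h3 : ‖L c‖ = 0 := le_antisymm (not_lt.mp hcon) (norm_nonneg _)
    rw [h3] at h2
    simp at h2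
  have hT : (√(μ ⟨k, hk⟩) * ‖L c‖) ^ 2 ≤ ‖T (L c)‖ ^ 2 := by
    rw [mul_pow, Real.sq_sqrt (hμ0 _), key, hnorm, Finset.mul_sum]
    have h1 : ∑ i : Fin (k + 1), μ ⟨k, hk⟩ * ‖c i‖ ^ 2 ≤
        ∑ i : Fin (k + 1), μ (e i) * ‖inner ℂ (v (e i)) (L c)‖ ^ 2 := by
      refine Finset.sum_le_sum fun i _ => ?_
      rw [hin, dif_pos (show ((e i : Fin n) : ℕ) < k + 1 from i.2)]
      have h2 : μ ⟨k, hk⟩ ≤ μ (e i) := hμ (by
        rw [Fin.le_def]
        exact Nat.lt_succ_iff.mp i.2)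
      have h3 : c ⟨(e i : ℕ), i.2⟩ = c i := rfl
      rw [h3]
      gcongr
    refine h1.trans ?_
    have h4 : ∑ i : Fin (k + 1), μ (e i) * ‖inner ℂ (v (e i)) (L c)‖ ^ 2 =
        ∑ m ∈ Finset.univ.map ⟨e, he⟩, μ m * ‖inner ℂ (v m) (L c)‖ ^ 2 := by
      rw [Finset.sum_map]
      rfl
    rw [h4]
    refine Finset.sum_le_sum_of_subset_of_nonneg (Finset.subset_univ _) ?_
    intro m _ _
    have := hμ0 m
    positivity
  have h5 : √(μ ⟨k, hk⟩) * ‖L c‖ ≤ ‖T (L c)‖ :=
    le_of_sq_le_sq hT (norm_nonneg _)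
  have h6 : ‖T (L c)‖ ≤ ‖T - F‖ * ‖L c‖ := by
    have : T (L c) = (T - F) (L c) := by
      rw [_root_.sub_apply, hFc, sub_zero]
    rw [this]
    exact ContinuousLinearMap.le_opNorm _ _
  exact le_of_mul_le_mul_right (h5.trans h6) hpos

end key

section mat

variable {n : ℕ}

/-- the vector of `H` with the coordinates `c` in the basis `b` -/
noncomputable def vec (b : HilbertBasis ℕ ℂ H) (c : Fin n → ℂ) : H := ∑ i : Fin n, c i • b i

theorem vec_inner (b : HilbertBasis ℕ ℂ H) (c d : Fin n → ℂ) :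
    inner ℂ (vec b c) (vec b d) = ∑ i, (starRingEnd ℂ) (c i) * d i := by
  have hb : Orthonormal ℂ (fun i : Fin n => b i) :=
    b.orthonormal.comp (fun i : Fin n => (i : ℕ)) Fin.val_injective
  exact hb.inner_sum c d Finset.univ

theorem opm_apply (b : HilbertBasis ℕ ℂ H) (M : Matrix (Fin n) (Fin n) ℂ) (x : H) :
    opm b M x =
      vec b (M *ᵥ fun j : Fin n => inner ℂ (b j) x) := by
  unfold opm vec
  simp only [_root_.sum_apply, Matrix.mulVec, dotProduct, Finset.sum_smul]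
  refine Finset.sum_congr rfl fun i _ => Finset.sum_congr rfl fun j _ => ?_
  simp [smul_smul]

theorem vec_norm_sq (b : HilbertBasis ℕ ℂ H) (c : Fin n → ℂ) :
    ((‖vec b c‖ ^ 2 : ℝ) : ℂ) = star c ⬝ᵥ c := by
  have h := vec_inner b c c
  rw [inner_self_eq_norm_sq_to_K] at h
  simp only [dotProduct, Pi.star_apply]
  push_cast
  simpa using h

theorem key_id (b : HilbertBasis ℕ ℂ H) (M : Matrix (Fin n) (Fin n) ℂ) (x : H) :
    ‖vec b (M *ᵥ fun j : Fin n => inner ℂ (b j) x)‖ ^ 2 =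
      ∑ l, (isHermitian_conjTranspose_mul_self M).eigenvalues l *
        ‖inner ℂ (vec b ((isHermitian_conjTranspose_mul_self M).eigenvectorBasis l)) x‖ ^ 2 := by
  set hA := isHermitian_conjTranspose_mul_self M with hAdef
  set c : EuclideanSpace ℂ (Fin n) := WithLp.toLp 2 (fun j : Fin n => inner ℂ (b j) x) with hc
  have hcc : (fun j : Fin n => inner ℂ (b j) x) = (c : Fin n → ℂ) := rfl
  have h1 : ∀ l, inner ℂ (vec b (hA.eigenvectorBasis l)) x = inner ℂ (hA.eigenvectorBasis l) c := by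
    intro l
    rw [vec, sum_inner, PiLp.inner_apply]
    refine Finset.sum_congr rfl fun i _ => ?_
    rw [inner_smul_left, hc]
    simp [mul_comm]
  simp only [h1]
  have h2 : ((‖vec b (M *ᵥ (c : Fin n → ℂ))‖ ^ 2 : ℝ) : ℂ) =
      star (c : Fin n → ℂ) ⬝ᵥ ((Mᴴ * M) *ᵥ (c : Fin n → ℂ)) := by
    rw [vec_norm_sq, Matrix.star_mulVec, ← Matrix.mulVec_mulVec, Matrix.dotProduct_mulVec,
      Matrix.dotProduct_mulVec, Matrix.dotProduct_mulVec]
  have h3 : (c : Fin n → ℂ) = ∑ l, inner ℂ (hA.eigenvectorBasis l) c •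
      ((hA.eigenvectorBasis l : EuclideanSpace ℂ (Fin n)) : Fin n → ℂ) := by
    conv_lhs => rw [← hA.eigenvectorBasis.sum_repr' c]
    simp
  have h4 : (Mᴴ * M) *ᵥ (c : Fin n → ℂ) = ∑ l, inner ℂ (hA.eigenvectorBasis l) c •
      ((hA.eigenvalues l) • ((hA.eigenvectorBasis l : EuclideanSpace ℂ (Fin n)) : Fin n → ℂ)) := by
    conv_lhs => rw [h3]
    rw [Matrix.mulVec_sum]
    refine Finset.sum_congr rfl fun l _ => ?_
    rw [Matrix.mulVec_smul, hA.mulVec_eigenvectorBasis]
  have h5 : ∀ l, star (c : Fin n → ℂ) ⬝ᵥ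
      ((hA.eigenvectorBasis l : EuclideanSpace ℂ (Fin n)) : Fin n → ℂ) =
      (starRingEnd ℂ) (inner ℂ (hA.eigenvectorBasis l) c) := by
    intro l
    rw [inner_conj_symm, PiLp.inner_apply]
    simp [dotProduct, mul_comm]
  have h6 : ((‖vec b (M *ᵥ (c : Fin n → ℂ))‖ ^ 2 : ℝ) : ℂ) =
      ((∑ l, hA.eigenvalues l * ‖inner ℂ (hA.eigenvectorBasis l) c‖ ^ 2 : ℝ) : ℂ) := by
    rw [h2, h4, dotProduct_sum]
    push_cast
    refine Finset.sum_congr rfl fun l _ => ?_
    rw [dotProduct_smul, dotProduct_smul, h5]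
    have := Complex.mul_conj' (inner ℂ (hA.eigenvectorBasis l) c)
    rw [← this]
    simp
    ring
  have h7 := Complex.ofReal_injective h6
  exact h7


theorem vec_orth (b : HilbertBasis ℕ ℂ H)
    (e : OrthonormalBasis (Fin n) ℂ (EuclideanSpace ℂ (Fin n))) :
    Orthonormal ℂ (fun l => vec b (e l : Fin n → ℂ)) := by
  rw [orthonormal_iff_ite]
  intro i j
  rw [vec_inner]
  have h := orthonormal_iff_ite.mp e.orthonormal i j
  rw [PiLp.inner_apply] at h
  rw [← h]
  refine Finset.sum_congr rfl fun l _ => ?_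
  simp [mul_comm]

/-- transport of sums from `Fin (card (Fin n))` to `Fin n` -/
theorem trPow_eq (p : ℝ) (M : Matrix (Fin n) (Fin n) ℂ) :
    ∑ i, (isHermitian_conjTranspose_mul_self M).eigenvalues i ^ (p / 2) =
      ∑ j, (isHermitian_conjTranspose_mul_self M).eigenvalues₀ j ^ (p / 2) := by
  rw [← Equiv.sum_comp (Fintype.equivOfCardEq (Fintype.card_fin (Fintype.card (Fin n))))
    (fun i : Fin n => (isHermitian_conjTranspose_mul_self M).eigenvalues i ^ (p / 2))]
  refine Finset.sum_congr rfl fun j _ => ?_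
  unfold Matrix.IsHermitian.eigenvalues
  rw [Equiv.symm_apply_apply]

theorem ope_aux (b : HilbertBasis ℕ ℂ H) (M : Matrix (Fin n) (Fin n) ℂ) (T : H →L[ℂ] H)
    (hT : ∀ x, T x = vec b (M *ᵥ fun j : Fin n => inner ℂ (b j) x)) (p : ℝ) (hp : 0 < p) :
    HasSum (fun k => apn k T ^ p)
      (∑ i, (isHermitian_conjTranspose_mul_self M).eigenvalues i ^ (p / 2)) := by
  set hA := isHermitian_conjTranspose_mul_self M with hAdef
  set N := Fintype.card (Fin n) with hN
  let e := Fintype.equivOfCardEq (Fintype.card_fin (Fintype.card (Fin n)))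
  let v : Fin N → H := fun l => vec b (hA.eigenvectorBasis (e l) : Fin n → ℂ)
  have hv : Orthonormal ℂ v := (vec_orth b hA.eigenvectorBasis).comp e e.injective
  have hμ : ∀ l : Fin N, hA.eigenvalues (e l) = hA.eigenvalues₀ l := by
    intro l
    unfold Matrix.IsHermitian.eigenvalues
    rw [Equiv.symm_apply_apply]
  have hμ0 : ∀ l : Fin N, 0 ≤ hA.eigenvalues₀ l := by
    intro l
    rw [← hμ]
    exact (Matrix.posSemidef_conjTranspose_mul_self M).eigenvalues_nonneg _
  have key : ∀ x, ‖T x‖ ^ 2 = ∑ l, hA.eigenvalues₀ l * ‖inner ℂ (v l) x‖ ^ 2 := by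
    intro x
    rw [hT, key_id, ← Equiv.sum_comp e]
    refine Finset.sum_congr rfl fun l _ => ?_
    rw [hμ]
  have hval : ∀ k (hk : k < N), apn k T = √(hA.eigenvalues₀ ⟨k, hk⟩) := fun k hk =>
    le_antisymm (upper hv hμ0 hA.eigenvalues₀_antitone key k hk)
      (lower hv hμ0 hA.eigenvalues₀_antitone key k hk)
  have hval' : ∀ k, N ≤ k → apn k T = 0 := fun k hk => upper' hv key k hk
  rw [trPow_eq]
  have h1 : ∑ j, hA.eigenvalues₀ j ^ (p / 2) = ∑ k ∈ Finset.range N, apn k T ^ p := by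
    rw [Finset.sum_range]
    refine Finset.sum_congr rfl fun l _ => ?_
    rw [hval l l.2, Real.sqrt_eq_rpow, ← Real.rpow_mul (hμ0 _)]
    congr 1
    ring
  rw [h1]
  refine hasSum_sum_of_ne_finset_zero fun k hk => ?_
  rw [hval' k (by simpa using hk), Real.zero_rpow hp.ne']

end mat
end Pool.Agent.K9h78.S6.OPE98

namespace Pool.Agent.K9h78.S6

theorem ope : S_OPE := by
  intro H _ _ _ b n M p hp
  exact OPE98.ope_aux b M (opm b M) (OPE98.opm_apply b M) p hp

end Pool.Agent.K9h78.S6
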