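import Pool.Agent.K9h78.S6.OpStm

set_option autoImplicit false
open MeasureTheory Matrix Filter Topology

namespace Pool.Agent.K9h78.S6

section ops

variable {H : Type*} [NormedAddCommGroup H] [InnerProductSpace ℂ H]

theorem ops_nonempty (k : ℕ) (T : H →L[ℂ] H) :
    {r : ℝ | ∃ F : H →L[ℂ] H, FiniteDimensional ℂ F.range ∧ Module.finrank ℂ F.range ≤ k ∧
    r = ‖T - F‖}.Nonempty := by
  refine ⟨‖T - 0‖, 0, ?_, ?_, rfl⟩
  · have : (0 : H →L[ℂ] H).range = ⊥ := by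
      ext x; simp
    rw [this]; infer_instance
  · have : (0 : H →L[ℂ] H).range = ⊥ := by
      ext x; simp
    rw [this, finrank_bot]; exact Nat.zero_le _

theorem ops_bdd (k : ℕ) (T : H →L[ℂ] H) :
    BddBelow {r : ℝ | ∃ F : H →L[ℂ] H, FiniteDimensional ℂ F.range ∧
      Module.finrank ℂ F.range ≤ k ∧ r = ‖T - F‖} := by
  refine ⟨0, ?_⟩
  rintro r ⟨F, -, -, rfl⟩
  exact norm_nonneg _

theorem ops_apn_nonneg (k : ℕ) (T : H →L[ℂ] H) : 0 ≤ apn k T := by
  refine Real.sInf_nonneg ?_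
  rintro r ⟨F, -, -, rfl⟩
  exact norm_nonneg _

theorem ops_apn_le {k : ℕ} (T F : H →L[ℂ] H) (h1 : FiniteDimensional ℂ F.range)
    (h2 : Module.finrank ℂ F.range ≤ k) : apn k T ≤ ‖T - F‖ :=
  csInf_le (ops_bdd k T) ⟨F, h1, h2, rfl⟩

theorem ops_apn_near (k : ℕ) (T : H →L[ℂ] H) {ε : ℝ} (hε : 0 < ε) :
    ∃ F : H →L[ℂ] H, FiniteDimensional ℂ F.range ∧ Module.finrank ℂ F.range ≤ k ∧
      ‖T - F‖ < apn k T + ε := by
  obtain ⟨r, ⟨F, h1, h2, rfl⟩, h3⟩ := exists_lt_of_csInf_lt (ops_nonempty k T)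
    (show sInf _ < apn k T + ε by
      have : apn k T < apn k T + ε := by linarith
      exact this)
  exact ⟨F, h1, h2, h3⟩

theorem ops_apn_succ_le (k : ℕ) (T : H →L[ℂ] H) : apn (k + 1) T ≤ apn k T := by
  refine le_csInf (ops_nonempty k T) ?_
  rintro r ⟨F, h1, h2, rfl⟩
  exact ops_apn_le T F h1 (h2.trans (Nat.le_succ k))

theorem ops_apn_comb (k : ℕ) (A B : H →L[ℂ] H) (α β : ℂ) :
    apn (2 * k) (α • A + β • B) ≤ ‖α‖ * apn k A + ‖β‖ * apn k B := by
  refine le_of_forall_pos_le_add fun δ hδ => ?_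
  have hc : 0 < ‖α‖ + ‖β‖ + 1 := by positivity
  have hε : 0 < δ / (‖α‖ + ‖β‖ + 1) := by positivity
  obtain ⟨F, f1, f2, f3⟩ := ops_apn_near k A hε
  obtain ⟨G, g1, g2, g3⟩ := ops_apn_near k B hε
  have hsub : (α • F + β • G : H →L[ℂ] H).range ≤ F.range ⊔ G.range := by
    rintro y ⟨x, rfl⟩
    refine Submodule.add_mem_sup ?_ ?_
    · exact F.range.smul_mem α ⟨x, rfl⟩
    · exact G.range.smul_mem β ⟨x, rfl⟩
  have := f1
  have := g1
  haveI : FiniteDimensional ℂ (F.range ⊔ G.range : Submodule ℂ H) := inferInstance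
  have h1 : FiniteDimensional ℂ (α • F + β • G : H →L[ℂ] H).range :=
    Submodule.finiteDimensional_of_le hsub
  have h2 : Module.finrank ℂ (α • F + β • G : H →L[ℂ] H).range ≤ 2 * k := by
    have a1 := Submodule.finrank_mono hsub
    have a2 := Submodule.finrank_add_le_finrank_add_finrank F.range G.range
    omega
  have h3 := ops_apn_le (α • A + β • B) (α • F + β • G) h1 h2
  have h4 : α • A + β • B - (α • F + β • G) = α • (A - F) + β • (B - G) := by
    rw [smul_sub, smul_sub]; abel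
  have h5 : ‖α • (A - F) + β • (B - G)‖ ≤ ‖α‖ * ‖A - F‖ + ‖β‖ * ‖B - G‖ := by
    refine (norm_add_le _ _).trans ?_
    rw [norm_smul, norm_smul]
  have h6 : ‖α‖ * ‖A - F‖ ≤ ‖α‖ * (apn k A + δ / (‖α‖ + ‖β‖ + 1)) :=
    mul_le_mul_of_nonneg_left f3.le (norm_nonneg _)
  have h7 : ‖β‖ * ‖B - G‖ ≤ ‖β‖ * (apn k B + δ / (‖α‖ + ‖β‖ + 1)) :=
    mul_le_mul_of_nonneg_left g3.le (norm_nonneg _)
  have h8 : (‖α‖ + ‖β‖) * (δ / (‖α‖ + ‖β‖ + 1)) ≤ δ := by
    rw [← mul_div_assoc, div_le_iff₀ hc]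
    nlinarith [norm_nonneg α, norm_nonneg β]
  rw [h4] at h3
  nlinarith

theorem ops_pow {x y p : ℝ} (hx : 0 ≤ x) (hy : 0 ≤ y) (hp : 0 ≤ p) :
    (x + y) ^ p ≤ 2 ^ p * (x ^ p + y ^ p) := by
  have h1 : x + y ≤ 2 * max x y := by
    have := le_max_left x y
    have := le_max_right x y
    linarith
  have h2 : (x + y) ^ p ≤ (2 * max x y) ^ p := Real.rpow_le_rpow (by positivity) h1 hp
  rw [Real.mul_rpow (by norm_num) (le_max_of_le_left hx)] at h2
  refine h2.trans (mul_le_mul_of_nonneg_left ?_ (by positivity))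
  rcases le_total x y with h | h
  · rw [max_eq_right h]
    have := Real.rpow_nonneg hx p
    linarith
  · rw [max_eq_left h]
    have := Real.rpow_nonneg hy p
    linarith

end ops

theorem ops : S_OPS := by
  intro H _ _ _ A B p hp hA hB α β
  have hp0 : 0 ≤ p := by linarith
  have key : ∀ k, apn (2 * k) (α • A + β • B) ^ p ≤
      2 ^ p * (‖α‖ ^ p * apn k A ^ p + ‖β‖ ^ p * apn k B ^ p) := by
    intro k
    have h1 := Real.rpow_le_rpow (ops_apn_nonneg _ _) (ops_apn_comb k A B α β) hp0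
    refine h1.trans ((ops_pow (mul_nonneg (norm_nonneg _) (ops_apn_nonneg _ _))
      (mul_nonneg (norm_nonneg _) (ops_apn_nonneg _ _)) hp0).trans (le_of_eq ?_))
    rw [Real.mul_rpow (norm_nonneg _) (ops_apn_nonneg _ _),
      Real.mul_rpow (norm_nonneg _) (ops_apn_nonneg _ _)]
  have hs : Summable fun k => 2 ^ p * (‖α‖ ^ p * apn k A ^ p + ‖β‖ ^ p * apn k B ^ p) :=
    ((hA.mul_left _).add (hB.mul_left _)).mul_left _
  have h1 : Summable fun k => apn (2 * k) (α • A + β • B) ^ p :=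
    Summable.of_nonneg_of_le (fun k => Real.rpow_nonneg (ops_apn_nonneg _ _) p) key hs
  have h2 : Summable fun k => apn (2 * k + 1) (α • A + β • B) ^ p :=
    Summable.of_nonneg_of_le (fun k => Real.rpow_nonneg (ops_apn_nonneg _ _) p)
      (fun k => Real.rpow_le_rpow (ops_apn_nonneg _ _) (ops_apn_succ_le _ _) hp0) h1
  exact (h1.hasSum.even_add_odd h2.hasSum).summable

end Pool.Agent.K9h78.S6
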