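import Pool.Agent.K9h78.S6.OpStm
import Pool.Agent.K9h78.S6.FinM
import Pool.Agent.K9h78.LP.TK

/-! Passage from matrices to operators of `S_p` (assembly). -/

set_option autoImplicit false
open MeasureTheory Matrix Filter Topology

namespace Pool.Agent.K9h78.S6

open Pool.Agent.K9h78.LP (trPow Emb Rep)

variable {H : Type} [NormedAddCommGroup H] [InnerProductSpace ℂ H] [CompleteSpace H]

/-- the complex span of `A, B` in `S_p` is isometric to a subspace of complex `L_p(0,1)` -/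
def OpEmb (p : ℝ) (A B : H →L[ℂ] H) : Prop :=
  ∃ f g : ℝ → ℂ, MemLp f (ENNReal.ofReal p) (volume.restrict (Set.Ioo (0:ℝ) 1)) ∧
    MemLp g (ENNReal.ofReal p) (volume.restrict (Set.Ioo (0:ℝ) 1)) ∧
    ∀ α β : ℂ, HasSum (fun k => apn k (α • A + β • B) ^ p)
      (∫ t in Set.Ioo (0:ℝ) 1, ‖α * f t + β * g t‖ ^ p)

theorem cor_lin (b : HilbertBasis ℕ ℂ H) (A B : H →L[ℂ] H) (n : ℕ) (α β : ℂ) :
    cor b (α • A + β • B) n = α • cor b A n + β • cor b B n := by
  ext i j
  simp [cor, inner_add_right, inner_smul_right]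

theorem opm_lin (b : HilbertBasis ℕ ℂ H) {n : ℕ} (A B : Matrix (Fin n) (Fin n) ℂ) (α β : ℂ) :
    opm b (α • A + β • B) = α • opm b A + β • opm b B := by
  simp only [opm, Matrix.add_apply, Matrix.smul_apply, smul_eq_mul, Finset.smul_sum, smul_smul,
    add_smul, Finset.sum_add_distrib]

theorem op_yes (ope : S_OPE) (opl : S_OPL) (ops : S_OPS) (opc : S_OPC) {p : ℝ}
    (hp : p = 2 ∨ p = 4 ∨ p = 6)
    (hfin : ∀ (n : ℕ) (A B : Matrix (Fin n) (Fin n) ℂ),
      Rep p (fun α β => trPow p (α • A + β • B)))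
    (b : HilbertBasis ℕ ℂ H) (A B : H →L[ℂ] H) (hA : Summable fun k => apn k A ^ p)
    (hB : Summable fun k => apn k B ^ p) : OpEmb p A B := by
  have hp0 : 0 < p := by rcases hp with rfl | rfl | rfl <;> norm_num
  have hp1 : 1 ≤ p := by rcases hp with rfl | rfl | rfl <;> norm_num
  have hsum := fun α β => ops H A B p hp1 hA hB α β
  have hrep : Rep p (fun α β => ∑' k, apn k (α • A + β • B) ^ p) := by
    refine opc p hp (fun n α β => trPow p (cor b (α • A + β • B) n)) _ (fun n => ?_)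
      (fun α β => ?_)
    · have := hfin n (cor b A n) (cor b B n)
      simp only [cor_lin]
      exact this
    · have h1 := opl H b (α • A + β • B) p hp1 (hsum α β)
      refine h1.congr fun n => ?_
      exact (ope H b n (cor b (α • A + β • B) n) p hp0).tsum_eq
  obtain ⟨f, g, hf, hg, h⟩ := Pool.Agent.K9h78.LP.embed_of_rep hp0 hrep
  refine ⟨f, g, hf, hg, fun α β => ?_⟩
  rw [← h α β]
  exact (hsum α β).hasSum

theorem op_no (ope : S_OPE) {p : ℝ} (hp : 1 ≤ p) (b : HilbertBasis ℕ ℂ H)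
    (hall : ∀ A B : H →L[ℂ] H, (Summable fun k => apn k A ^ p) →
      (Summable fun k => apn k B ^ p) → OpEmb p A B) : p = 2 ∨ p = 4 ∨ p = 6 := by
  have hp0 : 0 < p := by linarith
  rw [← Pool.Agent.K9h78.LP.class_two Pool.Agent.K9h78.LP.tk p hp]
  intro A B
  obtain ⟨f, g, hf, hg, h⟩ := hall (opm b A) (opm b B) (ope H b 2 A p hp0).summable
    (ope H b 2 B p hp0).summable
  refine ⟨f, g, hf, hg, fun α β => ?_⟩
  have h1 := h α β
  rw [← opm_lin] at h1
  exact (ope H b 2 (α • A + β • B) p hp0).unique h1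

end Pool.Agent.K9h78.S6
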