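import Pool.Agent.K9h78.S6.OpA
import Pool.Agent.K9h78.LP.EX

/-!
# `tr |M| ^ p` for operators of finite rank (by helper90)
-/

set_option autoImplicit false
open ContinuousLinearMap Matrix Polynomial

namespace Pool.Agent.K9h78.S6

variable {H : Type*} [NormedAddCommGroup H] [InnerProductSpace ℂ H] [CompleteSpace H]

section Spec

variable {n : ℕ} (v : Fin n → H) (hv : Orthonormal ℂ v) (l : Fin n → ℝ) (T : H →L[ℂ] H)
  (hT : ∀ w, T w = ∑ j, (l j : ℂ) • (inner ℂ (v j) w) • v j)

include hv hT

theorem pow_apply (k : ℕ) (w : H) :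
    (T ^ (k + 1)) w = ∑ j, ((l j ^ (k + 1) : ℝ) : ℂ) • (inner ℂ (v j) w) • v j := by
  induction k with
  | zero => rw [zero_add, pow_one, hT]; simp
  | succ k ih =>
    rw [pow_succ', mul_apply_eq_comp, ih, hT]
    refine Finset.sum_congr rfl fun j _ => ?_
    have e : inner ℂ (v j) (∑ i, ((l i ^ (k + 1) : ℝ) : ℂ) • (inner ℂ (v i) w) • v i) =
        ((l j ^ (k + 1) : ℝ) : ℂ) * inner ℂ (v j) w := by
      rw [inner_sum]
      simp only [inner_smul_right]
      rw [Finset.sum_eq_single j]
      · rw [inner_self_eq_norm_sq_to_K, hv.1 j]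
        simp
      · intro i _ hij
        rw [hv.2 hij.symm]
        simp
      · intro h
        exact absurd (Finset.mem_univ j) h
    rw [e, smul_smul, smul_smul]
    congr 1
    push_cast
    ring

theorem aeval_apply (q : ℝ[X]) (w : H) :
    (aeval T (X * q)) w = ∑ j, ((l j * q.eval (l j) : ℝ) : ℂ) • (inner ℂ (v j) w) • v j := by
  induction q using Polynomial.induction_on' with
  | add p q hp hq =>
    rw [mul_add, map_add, ContinuousLinearMap.add_apply, hp, hq, ← Finset.sum_add_distrib]
    refine Finset.sum_congr rfl fun j _ => ?_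
    rw [← add_smul]
    congr 1
    rw [eval_add]
    push_cast
    ring
  | monomial k a =>
    have e : (X * monomial k a : ℝ[X]) = C a * X ^ (k + 1) := by
      rw [← C_mul_X_pow_eq_monomial]
      ring
    rw [e, map_mul, aeval_C, map_pow, aeval_X, ← Algebra.smul_def,
      ContinuousLinearMap.smul_apply, pow_apply v hv l T hT, Finset.smul_sum]
    refine Finset.sum_congr rfl fun j _ => ?_
    rw [← Complex.coe_smul, smul_smul]
    congr 1
    rw [eval_monomial]
    push_cast
    ring

theorem spec_sub [Nontrivial H] (x : ℝ) (hx : x ∈ spectrum ℝ T) : x = 0 ∨ ∃ j, x = l j := by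
  have h1 := spectrum.subset_polynomial_aeval T (X * ∏ j, (X - C (l j)) : ℝ[X])
  have h2 : aeval T (X * ∏ j, (X - C (l j)) : ℝ[X]) = 0 := by
    ext w
    rw [aeval_apply v hv l T hT]
    rw [ContinuousLinearMap.zero_apply]
    refine Finset.sum_eq_zero fun j _ => ?_
    have : (∏ i, (X - C (l i)) : ℝ[X]).eval (l j) = 0 := by
      rw [eval_prod]
      exact Finset.prod_eq_zero (Finset.mem_univ j) (by simp)
    rw [this]
    simp
  rw [h2, spectrum.zero_eq] at h1
  have h3 := h1 ⟨x, hx, rfl⟩
  rw [Set.mem_singleton_iff] at h3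
  simp only [eval_mul, eval_X, eval_prod, eval_sub, eval_C, mul_eq_zero,
    Finset.prod_eq_zero_iff, Finset.mem_univ, true_and] at h3
  rcases h3 with h | ⟨j, hj⟩
  · exact Or.inl h
  · exact Or.inr ⟨j, by linarith⟩

theorem cfc_apply_fin [Nontrivial H] (hs : IsSelfAdjoint T) {r : ℝ} (hr : 0 < r) (w : H) :
    (cfc (fun x : ℝ => x ^ r) T) w =
      ∑ j, ((l j ^ r : ℝ) : ℂ) • (inner ℂ (v j) w) • v j := by
  classical
  set q : ℝ[X] := Lagrange.interpolate (Finset.univ.image l) id (fun x => x ^ r / x) with hq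
  have hqe : ∀ j, q.eval (l j) = l j ^ r / l j := by
    intro j
    have := Lagrange.eval_interpolate_at_node (s := Finset.univ.image l) (v := id)
      (r := fun x : ℝ => x ^ r / x) (i := l j) (Set.injOn_id _)
      (Finset.mem_image_of_mem _ (Finset.mem_univ j))
    exact this
  have hql : ∀ j, l j * q.eval (l j) = l j ^ r := by
    intro j
    rw [hqe]
    rcases eq_or_ne (l j) 0 with h | h
    · rw [h, Real.zero_rpow hr.ne']
      simp
    · field_simp
  have h1 : cfc (fun x : ℝ => x ^ r) T = cfc (fun x => (X * q : ℝ[X]).eval x) T := by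
    refine cfc_congr ?_
    intro x hx
    simp only [eval_mul, eval_X]
    rcases spec_sub v hv l T hT x hx with h | ⟨j, hj⟩
    · rw [h, Real.zero_rpow hr.ne']
      simp
    · rw [hj]
      exact (hql j).symm
  rw [h1, cfc_polynomial _ T hs, aeval_apply v hv l T hT]
  refine Finset.sum_congr rfl fun j _ => ?_
  rw [hql]

theorem trace_fin [Nontrivial H] (hs : IsSelfAdjoint T) {r : ℝ} (hr : 0 < r)
    (b : HilbertBasis ℕ ℂ H) :
    HasSum (fun i => (inner ℂ (b i) ((cfc (fun x : ℝ => x ^ r) T) (b i))).re)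
      (∑ j, l j ^ r) := by
  have h1 : ∀ i, (inner ℂ (b i) ((cfc (fun x : ℝ => x ^ r) T) (b i))).re =
      ∑ j, l j ^ r * (inner ℂ (v j) (b i) * inner ℂ (b i) (v j)).re := by
    intro i
    rw [cfc_apply_fin v hv l T hT hs hr, inner_sum, Complex.re_sum]
    refine Finset.sum_congr rfl fun j _ => ?_
    rw [inner_smul_right, inner_smul_right, Complex.re_ofReal_mul]
  simp only [h1]
  refine hasSum_sum fun j _ => ?_
  have h2 := (b.hasSum_inner_mul_inner (v j) (v j)).mapL Complex.reCLM
  have h3 : Complex.reCLM (inner ℂ (v j) (v j)) = 1 := by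
    rw [inner_self_eq_norm_sq_to_K, hv.1 j]
    simp
  rw [h3] at h2
  have h4 := h2.mul_left (l j ^ r)
  rw [mul_one] at h4
  exact h4

end Spec

end Pool.Agent.K9h78.S6
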