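import Pool.Agent.K9h78.S6.OpB
import Pool.Agent.K9h78.LP.P8
import Pool.Agent.K9h78.LP.TK

/-!
# Matrices as operators of finite rank; the exponents for which operators do not embed (by helper90)
-/

set_option autoImplicit false
open ContinuousLinearMap Matrix MeasureTheory Pool.Agent.K9h78.LP

namespace Pool.Agent.K9h78.S6

variable {H : Type*} [NormedAddCommGroup H] [InnerProductSpace ℂ H] [CompleteSpace H]

section Lift

variable {n : ℕ} (V : EuclideanSpace ℂ (Fin n) →ₗᵢ[ℂ] H)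

/-- the operator `V Z V*` -/
noncomputable def liftOp (Z : Matrix (Fin n) (Fin n) ℂ) : H →L[ℂ] H :=
  V.toContinuousLinearMap ∘L (Matrix.toEuclideanCLM (𝕜 := ℂ) Z) ∘L
    adjoint V.toContinuousLinearMap

theorem liftOp_apply (Z : Matrix (Fin n) (Fin n) ℂ) (w : H) :
    liftOp V Z w = V (Matrix.toEuclideanCLM (𝕜 := ℂ) Z (adjoint V.toContinuousLinearMap w)) := rfl

theorem liftOp_lin (X Y : Matrix (Fin n) (Fin n) ℂ) (α β : ℂ) :
    α • liftOp V X + β • liftOp V Y = liftOp V (α • X + β • Y) := by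
  ext w
  simp only [_root_.add_apply, _root_.smul_apply, liftOp_apply, map_add, map_smul]

theorem adj_V (x : EuclideanSpace ℂ (Fin n)) :
    adjoint V.toContinuousLinearMap (V x) = x := by
  refine ext_inner_left ℂ fun y => ?_
  rw [ContinuousLinearMap.adjoint_inner_right]
  exact V.inner_map_map y x

theorem adj_lift (Z : Matrix (Fin n) (Fin n) ℂ) (w : H) :
    (adjoint (liftOp V Z) * liftOp V Z) w =
      V (Matrix.toEuclideanCLM (𝕜 := ℂ) (Zᴴ * Z) (adjoint V.toContinuousLinearMap w)) := by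
  have h1 : adjoint (liftOp V Z) = liftOp V Zᴴ := by
    unfold liftOp
    rw [ContinuousLinearMap.adjoint_comp, ContinuousLinearMap.adjoint_comp,
      ContinuousLinearMap.adjoint_adjoint, ContinuousLinearMap.comp_assoc]
    congr 2
    rw [← ContinuousLinearMap.star_eq_adjoint, ← map_star, Matrix.star_eq_conjTranspose]
  rw [h1, mul_apply_eq_comp, liftOp_apply, liftOp_apply, adj_V, map_mul, mul_apply_eq_comp]

theorem hasTr_lift [Nontrivial H] (b : HilbertBasis ℕ ℂ H) {p : ℝ} (hp : 0 < p)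
    (Z : Matrix (Fin n) (Fin n) ℂ) : HasTr b p (liftOp V Z) (trPow p Z) := by
  set hA := isHermitian_conjTranspose_mul_self Z with hAdef
  have hv : Orthonormal ℂ fun j => V (hA.eigenvectorBasis j) :=
    hA.eigenvectorBasis.orthonormal.comp_linearIsometry V
  refine trace_fin (fun j => V (hA.eigenvectorBasis j)) hv hA.eigenvalues
    (adjoint (liftOp V Z) * liftOp V Z) ?_ (isSelfAdjoint_adj_mul _) (by positivity) b
  intro w
  rw [adj_lift]
  set x := adjoint V.toContinuousLinearMap w with hx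
  have h1 : x = ∑ j, (inner ℂ (hA.eigenvectorBasis j) x) • hA.eigenvectorBasis j :=
    (hA.eigenvectorBasis.sum_repr' x).symm
  have h2 : ∀ j, Matrix.toEuclideanCLM (𝕜 := ℂ) (Zᴴ * Z) (hA.eigenvectorBasis j) =
      (hA.eigenvalues j : ℂ) • hA.eigenvectorBasis j := by
    intro j
    have h3 := hA.mulVec_eigenvectorBasis j
    ext i
    have h4 := congrFun h3 i
    simpa using h4
  conv_lhs => rw [h1]
  simp only [map_sum, map_smul, h2]
  refine Finset.sum_congr rfl fun j _ => ?_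
  have h5 : inner ℂ (hA.eigenvectorBasis j) x = inner ℂ (V (hA.eigenvectorBasis j)) w := by
    rw [hx, ContinuousLinearMap.adjoint_inner_right]
    rfl
  rw [h5, smul_smul, smul_smul, mul_comm]

end Lift

/-- `H` contains an isometric copy of `ℂ^n` -/
theorem exists_iso (b : HilbertBasis ℕ ℂ H) (n : ℕ) :
    Nonempty (EuclideanSpace ℂ (Fin n) →ₗᵢ[ℂ] H) := by
  have hb : Orthonormal ℂ fun k : Fin n => b (k : ℕ) := b.orthonormal.comp _ Fin.val_injective
  set B := (EuclideanSpace.basisFun (Fin n) ℂ).toBasis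
  refine ⟨LinearMap.isometryOfOrthonormal (B.constr ℂ fun k : Fin n => b (k : ℕ)) (v := B) ?_ ?_⟩
  · rw [OrthonormalBasis.coe_toBasis]
    exact (EuclideanSpace.basisFun (Fin n) ℂ).orthonormal
  · have : (B.constr ℂ fun k : Fin n => b (k : ℕ)) ∘ B = fun k : Fin n => b (k : ℕ) := by
      ext k
      rw [Function.comp_apply, Module.Basis.constr_basis]
    rw [this]
    exact hb

theorem nontrivial_of (b : HilbertBasis ℕ ℂ H) : Nontrivial H := by
  refine ⟨b 0, 0, fun h => ?_⟩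
  have := b.orthonormal.1 0
  rw [h, norm_zero] at this
  exact zero_ne_one this

/-- the embedding of the complex span of two operators -/
def OpEmb (b : HilbertBasis ℕ ℂ H) (p : ℝ) (A B : H →L[ℂ] H) : Prop :=
  ∃ f g : ℝ → ℂ, MemLp f (ENNReal.ofReal p) (volume.restrict (Set.Ioo (0:ℝ) 1)) ∧
    MemLp g (ENNReal.ofReal p) (volume.restrict (Set.Ioo (0:ℝ) 1)) ∧
    ∀ α β : ℂ, HasTr b p (α • A + β • B) (∫ t in Set.Ioo (0:ℝ) 1, ‖α * f t + β * g t‖ ^ p)

theorem opEmb_lift (b : HilbertBasis ℕ ℂ H) {p : ℝ} (hp : 0 < p) {n : ℕ}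
    (V : EuclideanSpace ℂ (Fin n) →ₗᵢ[ℂ] H) (X Y : Matrix (Fin n) (Fin n) ℂ)
    (h : OpEmb b p (liftOp V X) (liftOp V Y)) : Emb p X Y := by
  have := nontrivial_of b
  obtain ⟨f, g, hf, hg, h⟩ := h
  refine ⟨f, g, hf, hg, fun α β => ?_⟩
  have h1 := h α β
  rw [liftOp_lin] at h1
  exact (hasTr_lift V b hp _).unique h1

/-- If all pairs of operators in `S_p` embed then `p` is `2`, `4` or `6`. -/
theorem op_only (b : HilbertBasis ℕ ℂ H) {p : ℝ} (hp : 1 ≤ p)
    (h : ∀ A B : H →L[ℂ] H, (∃ t, HasTr b p A t) → (∃ t, HasTr b p B t) → OpEmb b p A B) :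
    p = 2 ∨ p = 4 ∨ p = 6 := by
  have := nontrivial_of b
  have hp0 : 0 < p := by linarith
  obtain ⟨V⟩ := exists_iso b 2
  refine (class_two tk p hp).1 fun X Y => opEmb_lift b hp0 V X Y ?_
  exact h _ _ ⟨_, hasTr_lift V b hp0 X⟩ ⟨_, hasTr_lift V b hp0 Y⟩

end Pool.Agent.K9h78.S6
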