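import Pool.Agent.K9h78.S6.OpC

/-!
# Hilbert-Schmidt operators embed for `p = 2` (by helper90)
-/

set_option autoImplicit false
open ContinuousLinearMap Matrix MeasureTheory Pool.Agent.K9h78.LP

namespace Pool.Agent.K9h78.S6

variable {H : Type*} [NormedAddCommGroup H] [InnerProductSpace ℂ H] [CompleteSpace H]

theorem nsq_lin (x y : H) (α β : ℂ) : ‖α • x + β • y‖ ^ 2 =
    ‖α‖ ^ 2 * ‖x‖ ^ 2 + ‖β‖ ^ 2 * ‖y‖ ^ 2 +
      2 * (α * (starRingEnd ℂ) β * inner ℂ y x).re := by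
  have h := norm_add_sq (𝕜 := ℂ) (α • x) (β • y)
  rw [h, norm_smul, norm_smul]
  have e : RCLike.re (inner ℂ (α • x) (β • y)) = (α * (starRingEnd ℂ) β * inner ℂ y x).re := by
    rw [← inner_conj_symm, inner_smul_left, inner_smul_right]
    rw [RCLike.conj_re]
    show ((starRingEnd ℂ) β * (α * inner ℂ y x)).re = _
    congr 1
    ring
  rw [e]
  ring

theorem rep_two (a c : ℝ) (s : ℂ) (P : ℂ → ℂ → ℝ) (hP0 : ∀ α β, 0 ≤ P α β)
    (hP : ∀ α β, P α β = ‖α‖ ^ 2 * a + ‖β‖ ^ 2 * c + 2 * (α * (starRingEnd ℂ) β * s).re)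
    (ha : 0 ≤ a) (hc : 0 ≤ c) (h0 : a = 0 → s = 0) : Rep 2 P := by
  have e2 : ∀ z : ℂ, ‖z‖ ^ (2 : ℝ) = ‖z‖ ^ 2 := fun z => by
    rw [← Real.rpow_natCast]
    norm_num
  rcases ha.eq_or_lt with h | h
  · have hs := h0 h.symm
    have h1 := Rep.single (p := 2) (by norm_num) hc 0 1
    have e : P = fun α β => c * ‖α * 0 + β * 1‖ ^ (2 : ℝ) := by
      ext α β
      rw [hP, hs, ← h, e2]
      simp
      ring
    rw [e]
    exact h1
  · have hw : 0 ≤ c - ‖s‖ ^ 2 / a := by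
      have h1 := hP0 (-(starRingEnd ℂ) s) (a : ℂ)
      rw [hP] at h1
      have e1 : (-(starRingEnd ℂ) s * (starRingEnd ℂ) (a : ℂ) * s).re = -(a * ‖s‖ ^ 2) := by
        rw [Complex.conj_ofReal]
        have : -(starRingEnd ℂ) s * (a : ℂ) * s = ((-(a * ‖s‖ ^ 2) : ℝ) : ℂ) := by
          have h3 : (starRingEnd ℂ) s * s = ((‖s‖ ^ 2 : ℝ) : ℂ) := by
            rw [← Complex.normSq_eq_conj_mul_self, Complex.normSq_eq_norm_sq]
          push_cast at h3 ⊢
          linear_combination (-(a : ℂ)) * h3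
        rw [this, Complex.ofReal_re]
      rw [e1, norm_neg, Complex.norm_conj, Complex.norm_real, Real.norm_of_nonneg ha] at h1
      have h2 : 0 ≤ a * (a * c - ‖s‖ ^ 2) := by nlinarith
      have h3 : 0 ≤ a * c - ‖s‖ ^ 2 := nonneg_of_mul_nonneg_right h2 h
      have h4 : c - ‖s‖ ^ 2 / a = (a * c - ‖s‖ ^ 2) / a := by
        field_simp
      rw [h4]
      exact div_nonneg h3 h.le
    have hsa : 0 < Real.sqrt a := Real.sqrt_pos.2 h
    have h1 := (Rep.single (p := 2) (by norm_num) zero_le_one ((Real.sqrt a : ℝ) : ℂ)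
      ((starRingEnd ℂ) s / ((Real.sqrt a : ℝ) : ℂ))).add
      (Rep.single (p := 2) (by norm_num) hw 0 1)
    have e : P = fun α β => (1 * ‖α * ((Real.sqrt a : ℝ) : ℂ) +
        β * ((starRingEnd ℂ) s / ((Real.sqrt a : ℝ) : ℂ))‖ ^ (2 : ℝ) +
        (c - ‖s‖ ^ 2 / a) * ‖α * 0 + β * 1‖ ^ (2 : ℝ)) := by
      ext α β
      rw [hP, e2, e2]
      have h5 := nsq_lin (H := ℂ) ((Real.sqrt a : ℝ) : ℂ)
        ((starRingEnd ℂ) s / ((Real.sqrt a : ℝ) : ℂ)) α β
      simp only [smul_eq_mul] at h5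
      rw [h5]
      have h6 : inner ℂ ((starRingEnd ℂ) s / ((Real.sqrt a : ℝ) : ℂ)) ((Real.sqrt a : ℝ) : ℂ) =
          s := by
        rw [RCLike.inner_apply, map_div₀, Complex.conj_conj, Complex.conj_ofReal]
        have : ((Real.sqrt a : ℝ) : ℂ) ≠ 0 := by
          exact_mod_cast hsa.ne'
        field_simp
      rw [h6, norm_div, Complex.norm_conj, Complex.norm_real, Real.norm_of_nonneg hsa.le,
        div_pow, Real.sq_sqrt ha]
      simp
      ring
    rw [e]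
    exact h1

theorem two_yes (b : HilbertBasis ℕ ℂ H) (A B : H →L[ℂ] H)
    (hA : ∃ t, HasTr b 2 A t) (hB : ∃ t, HasTr b 2 B t) : OpEmb b 2 A B := by
  obtain ⟨a, hA⟩ := hA
  obtain ⟨c, hB⟩ := hB
  rw [hasTr_two] at hA hB
  have hS : Summable fun i => inner ℂ (B (b i)) (A (b i)) := by
    refine Summable.of_norm_bounded ((hA.summable.add hB.summable).div_const 2) fun i => ?_
    refine (norm_inner_le_norm _ _).trans ?_
    nlinarith [sq_nonneg (‖A (b i)‖ - ‖B (b i)‖)]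
  obtain ⟨s, hs⟩ := hS
  have hM : ∀ α β : ℂ, HasTr b 2 (α • A + β • B)
      (‖α‖ ^ 2 * a + ‖β‖ ^ 2 * c + 2 * (α * (starRingEnd ℂ) β * s).re) := by
    intro α β
    rw [hasTr_two]
    have e : (fun i => ‖(α • A + β • B) (b i)‖ ^ 2) = fun i => ‖α‖ ^ 2 * ‖A (b i)‖ ^ 2 +
        ‖β‖ ^ 2 * ‖B (b i)‖ ^ 2 +
        2 * (α * (starRingEnd ℂ) β * inner ℂ (B (b i)) (A (b i))).re := by
      ext i
      exact nsq_lin _ _ _ _
    rw [e]
    refine ((hA.mul_left _).add (hB.mul_left _)).add (HasSum.mul_left _ ?_)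
    exact (hs.mul_left (α * (starRingEnd ℂ) β)).mapL Complex.reCLM
  have hP0 : ∀ α β : ℂ, 0 ≤ ‖α‖ ^ 2 * a + ‖β‖ ^ 2 * c + 2 * (α * (starRingEnd ℂ) β * s).re := by
    intro α β
    have := hM α β
    rw [hasTr_two] at this
    exact this.nonneg fun i => sq_nonneg _
  have ha : 0 ≤ a := hA.nonneg fun i => sq_nonneg _
  have hc : 0 ≤ c := hB.nonneg fun i => sq_nonneg _
  have h0 : a = 0 → s = 0 := by
    intro h
    rw [h] at hA
    have h1 := (hasSum_zero_iff_of_nonneg fun i => sq_nonneg _).1 hA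
    have h2 : (fun i => inner ℂ (B (b i)) (A (b i))) = fun _ => (0 : ℂ) := by
      ext i
      have h3 := congrFun h1 i
      simp only [Pi.zero_apply, ne_eq, OfNat.ofNat_ne_zero, not_false_eq_true, pow_eq_zero_iff,
        norm_eq_zero] at h3
      rw [h3, inner_zero_right]
    rw [h2] at hs
    exact hs.unique hasSum_zero
  obtain ⟨f, g, hf, hg, h⟩ := embed_of_rep (p := 2) (by norm_num)
    (rep_two a c s (fun α β => ‖α‖ ^ 2 * a + ‖β‖ ^ 2 * c + 2 * (α * (starRingEnd ℂ) β * s).re)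
      hP0 (fun _ _ => rfl) ha hc h0)
  refine ⟨f, g, hf, hg, fun α β => ?_⟩
  rw [← h α β]
  exact hM α β

end Pool.Agent.K9h78.S6
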