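import Pool.Agent.K9h78.LP.P8

/-!
# Operators of the Schatten class `S_p` (leaves `S_OP*`)

`apn k T` = approximation numbers = singular values of `T`, `‖T‖_{S_p}^p = Σ_k (apn k T)^p`.
-/

set_option autoImplicit false
open MeasureTheory Matrix Filter Topology

namespace Pool.Agent.K9h78.S6

open Pool.Agent.K9h78.LP (trPow Emb Rep)

variable {H : Type*} [NormedAddCommGroup H] [InnerProductSpace ℂ H] [CompleteSpace H]

/-- the `k`-th approximation number: the distance of `T` to the operators of rank `≤ k` -/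
noncomputable def apn (k : ℕ) (T : H →L[ℂ] H) : ℝ :=
  sInf {r : ℝ | ∃ F : H →L[ℂ] H, FiniteDimensional ℂ F.range ∧ Module.finrank ℂ F.range ≤ k ∧
    r = ‖T - F‖}

/-- the operator with the matrix `M` in the first `n` vectors of the basis `b` -/
noncomputable def opm (b : HilbertBasis ℕ ℂ H) {n : ℕ} (M : Matrix (Fin n) (Fin n) ℂ) : H →L[ℂ] H :=
  ∑ i : Fin n, ∑ j : Fin n, M i j • (innerSL ℂ (b j)).smulRight (b i)

/-- the `n`-th corner -/
noncomputable def cor (b : HilbertBasis ℕ ℂ H) (T : H →L[ℂ] H) (n : ℕ) :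
    Matrix (Fin n) (Fin n) ℂ := fun i j => inner ℂ (b i) (T (b j))

/-- OPE (Eckart-Young): the approximation numbers of `opm b M` are the singular values of `M` in
decreasing order, followed by zeros. So `Σ_k apn k (opm b M)^p = trPow p M`. -/
def S_OPE : Prop := ∀ (H : Type) [NormedAddCommGroup H] [InnerProductSpace ℂ H] [CompleteSpace H]
  (b : HilbertBasis ℕ ℂ H) (n : ℕ) (M : Matrix (Fin n) (Fin n) ℂ) (p : ℝ), 0 < p →
  HasSum (fun k => apn k (opm b M) ^ p) (trPow p M)

/-- OPL (limit): if `Σ apn k T ^ p < ∞` then `apn k T → 0`, `T` is compact, `P_n T P_n → T` in norm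
(`P_n T P_n = opm b (cor b T n)`), `apn k (P_n T P_n) ≤ apn k T`, `apn k` is 1-Lipschitz; dominated
convergence. -/
def S_OPL : Prop := ∀ (H : Type) [NormedAddCommGroup H] [InnerProductSpace ℂ H] [CompleteSpace H]
  (b : HilbertBasis ℕ ℂ H) (T : H →L[ℂ] H) (p : ℝ), 1 ≤ p → Summable (fun k => apn k T ^ p) →
  Tendsto (fun n => ∑' k, apn k (opm b (cor b T n)) ^ p) atTop (𝓝 (∑' k, apn k T ^ p))

/-- OPS (sums): `S_p` is a vector space: `apn (2k) (S + T) ≤ apn k S + apn k T`. -/
def S_OPS : Prop := ∀ (H : Type) [NormedAddCommGroup H] [InnerProductSpace ℂ H] [CompleteSpace H]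
  (A B : H →L[ℂ] H) (p : ℝ), 1 ≤ p → Summable (fun k => apn k A ^ p) →
  Summable (fun k => apn k B ^ p) → ∀ α β : ℂ, Summable (fun k => apn k (α • A + β • B) ^ p)

/-- OPC (compactness): pointwise limits of sums of `|α x + β y|^(2k)` are of the same form:
Caratheodory in the real vector space of `(k+1) × (k+1)` Hermitian matrices (here `p = 2k`,
`k = 1, 2, 3`): at most `N = (k+1)² + 1` atoms are needed; they are bounded if the values at
`(1,0)` and `(0,1)` are bounded; take a convergent subsequence of atoms. -/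
def S_OPC : Prop := ∀ p : ℝ, (p = 2 ∨ p = 4 ∨ p = 6) → ∀ (P : ℕ → ℂ → ℂ → ℝ) (Q : ℂ → ℂ → ℝ),
  (∀ n, Rep p (P n)) → (∀ α β, Tendsto (fun n => P n α β) atTop (𝓝 (Q α β))) → Rep p Q

end Pool.Agent.K9h78.S6
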