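import Pool.Agent.K9h78.S6.OpStm

/-!
# Leaf OPE, upper half and reduction to the lower half
-/

set_option autoImplicit false
open MeasureTheory Matrix Filter Topology
open scoped ComplexOrder

namespace Pool.Agent.K9h78.S6

open Pool.Agent.K9h78.LP (trPow Emb Rep)

section Up

variable {H : Type} [NormedAddCommGroup H] [InnerProductSpace ℂ H] [CompleteSpace H]

/-- embedding of `ℂⁿ` -/
noncomputable def opeJ (b : HilbertBasis ℕ ℂ H) (n : ℕ) : EuclideanSpace ℂ (Fin n) →ₗ[ℂ] H where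
  toFun y := ∑ j : Fin n, y j • b (j : ℕ)
  map_add' y z := by
    rw [← Finset.sum_add_distrib]
    exact Finset.sum_congr rfl fun j _ => by rw [PiLp.add_apply, add_smul]
  map_smul' t y := by
    rw [RingHom.id_apply, Finset.smul_sum]
    exact Finset.sum_congr rfl fun j _ => by rw [PiLp.smul_apply, smul_eq_mul, mul_smul]

/-- the coordinates -/
noncomputable def opeK (b : HilbertBasis ℕ ℂ H) (n : ℕ) : H →ₗ[ℂ] EuclideanSpace ℂ (Fin n) where
  toFun x := WithLp.toLp 2 fun j : Fin n => inner ℂ (b (j : ℕ)) x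
  map_add' x y := by
    ext j
    simp [inner_add_right]
  map_smul' t x := by
    ext j
    simp [inner_smul_right]

theorem opeJ_apply (b : HilbertBasis ℕ ℂ H) (n : ℕ) (y : EuclideanSpace ℂ (Fin n)) :
    opeJ b n y = ∑ j : Fin n, y j • b (j : ℕ) := rfl

theorem opeK_apply (b : HilbertBasis ℕ ℂ H) (n : ℕ) (x : H) (j : Fin n) :
    opeK b n x j = inner ℂ (b (j : ℕ)) x := rfl

theorem ope_orth (b : HilbertBasis ℕ ℂ H) (n : ℕ) :
    Orthonormal ℂ (fun j : Fin n => b (j : ℕ)) :=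
  b.orthonormal.comp _ Fin.val_injective

theorem opeJ_inner (b : HilbertBasis ℕ ℂ H) (n : ℕ) (y z : EuclideanSpace ℂ (Fin n)) :
    inner ℂ (opeJ b n y) (opeJ b n z) = inner ℂ y z := by
  rw [opeJ_apply, opeJ_apply]
  have h := (ope_orth b n).inner_sum (fun j => y j) (fun j => z j) Finset.univ
  rw [h, PiLp.inner_apply]
  exact Finset.sum_congr rfl fun j _ => by
    rw [RCLike.inner_apply, mul_comm]

theorem opeK_inner (b : HilbertBasis ℕ ℂ H) (n : ℕ) (y : EuclideanSpace ℂ (Fin n)) (x : H) :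
    inner ℂ y (opeK b n x) = inner ℂ (opeJ b n y) x := by
  rw [opeJ_apply, sum_inner, PiLp.inner_apply]
  refine Finset.sum_congr rfl fun j _ => ?_
  rw [opeK_apply, inner_smul_left, RCLike.inner_apply, mul_comm]

theorem opeK_J (b : HilbertBasis ℕ ℂ H) (n : ℕ) (y : EuclideanSpace ℂ (Fin n)) :
    opeK b n (opeJ b n y) = y := by
  refine ext_inner_left ℂ fun z => ?_
  rw [opeK_inner, opeJ_inner]

theorem opeJ_norm (b : HilbertBasis ℕ ℂ H) (n : ℕ) (y : EuclideanSpace ℂ (Fin n)) :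
    ‖opeJ b n y‖ = ‖y‖ := by
  rw [@norm_eq_sqrt_re_inner ℂ, @norm_eq_sqrt_re_inner ℂ _ _ _ _ y, opeJ_inner]

theorem opeK_norm (b : HilbertBasis ℕ ℂ H) (n : ℕ) (x : H) : ‖opeK b n x‖ ≤ ‖x‖ := by
  have h1 : ‖opeK b n x‖ * ‖opeK b n x‖ ≤ ‖opeK b n x‖ * ‖x‖ := by
    have h2 : inner ℂ (opeK b n x) (opeK b n x) = inner ℂ (opeJ b n (opeK b n x)) x :=
      opeK_inner b n _ x
    have h3 : ‖inner ℂ (opeK b n x) (opeK b n x)‖ = ‖opeK b n x‖ * ‖opeK b n x‖ := by
      rw [inner_self_eq_norm_sq_to_K, norm_pow, sq]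
      simp
    rw [← h3, h2]
    refine (norm_inner_le_norm _ _).trans ?_
    rw [opeJ_norm]
  by_cases h0 : ‖opeK b n x‖ = 0
  · rw [h0]
    exact norm_nonneg _
  · exact le_of_mul_le_mul_left h1 (lt_of_le_of_ne (norm_nonneg _) (Ne.symm h0))

theorem opm_apply (b : HilbertBasis ℕ ℂ H) {n : ℕ} (M : Matrix (Fin n) (Fin n) ℂ) (x : H) :
    opm b M x = opeJ b n (WithLp.toLp 2 (M *ᵥ (opeK b n x))) := by
  unfold opm
  rw [opeJ_apply, ContinuousLinearMap.sum_apply]
  refine Finset.sum_congr rfl fun i _ => ?_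
  rw [ContinuousLinearMap.sum_apply]
  simp only [ContinuousLinearMap.smul_apply, ContinuousLinearMap.smulRight_apply,
    innerSL_apply_apply]
  rw [Matrix.mulVec, dotProduct, Finset.sum_smul]
  refine Finset.sum_congr rfl fun j _ => ?_
  rw [smul_smul]
  rfl

/-- Gram matrix of the images of the eigenvectors -/
theorem ope_gram {n : ℕ} (M : Matrix (Fin n) (Fin n) ℂ) (i j : Fin n) :
    inner ℂ (WithLp.toLp 2 (M *ᵥ ((isHermitian_conjTranspose_mul_self M).eigenvectorBasis i)) :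
        EuclideanSpace ℂ (Fin n))
      (WithLp.toLp 2 (M *ᵥ ((isHermitian_conjTranspose_mul_self M).eigenvectorBasis j))) =
      if i = j then ((isHermitian_conjTranspose_mul_self M).eigenvalues j : ℂ) else 0 := by
  set hG := isHermitian_conjTranspose_mul_self M
  have h1 := hG.mulVec_eigenvectorBasis j
  have h2 := hG.eigenvectorBasis.orthonormal
  rw [orthonormal_iff_ite] at h2
  have h3 := h2 i j
  rw [EuclideanSpace.inner_eq_star_dotProduct] at h3 ⊢
  simp only
  rw [star_mulVec, dotProduct_comm, ← dotProduct_mulVec, mulVec_mulVec, h1, dotProduct_smul,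
    dotProduct_comm, h3]
  split_ifs
  · simp
  · simp

/-- position of an index in the decreasing order of the eigenvalues -/
noncomputable def opePos (n : ℕ) (i : Fin n) : Fin (Fintype.card (Fin n)) :=
  (Fintype.equivOfCardEq (Fintype.card_fin _)).symm i

theorem ope_eig {n : ℕ} (M : Matrix (Fin n) (Fin n) ℂ) (i : Fin n) :
    (isHermitian_conjTranspose_mul_self M).eigenvalues i =
      (isHermitian_conjTranspose_mul_self M).eigenvalues₀ (opePos n i) := rfl

/-- the image of the part of a vector over a set of eigenvectors -/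
theorem ope_part (b : HilbertBasis ℕ ℂ H) {n : ℕ} (M : Matrix (Fin n) (Fin n) ℂ)
    (S : Finset (Fin n)) (τ : ℝ) (hτ : 0 ≤ τ)
    (hS : ∀ i ∈ S, (isHermitian_conjTranspose_mul_self M).eigenvalues i ≤ τ ^ 2) (x : H) :
    ‖∑ i ∈ S, inner ℂ ((isHermitian_conjTranspose_mul_self M).eigenvectorBasis i) (opeK b n x) •
      opeJ b n (WithLp.toLp 2
        (M *ᵥ ((isHermitian_conjTranspose_mul_self M).eigenvectorBasis i)))‖ ≤ τ * ‖x‖ := by
  set hG := isHermitian_conjTranspose_mul_self M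
  set c : Fin n → ℂ := fun i => inner ℂ (hG.eigenvectorBasis i) (opeK b n x) with hc
  set w : Fin n → H := fun i => opeJ b n (WithLp.toLp 2 (M *ᵥ (hG.eigenvectorBasis i))) with hw
  have hww : ∀ i j, inner ℂ (w i) (w j) = if i = j then (hG.eigenvalues j : ℂ) else 0 := by
    intro i j
    rw [hw]
    simp only
    rw [opeJ_inner]
    exact ope_gram M i j
  have h1 : inner ℂ (∑ i ∈ S, c i • w i) (∑ i ∈ S, c i • w i) =
      ((∑ i ∈ S, ‖c i‖ ^ 2 * hG.eigenvalues i : ℝ) : ℂ) := by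
    rw [sum_inner]
    push_cast
    refine Finset.sum_congr rfl fun i hi => ?_
    rw [inner_smul_left, inner_sum]
    have h2 : ∑ j ∈ S, inner ℂ (w i) (c j • w j) = c i * hG.eigenvalues i := by
      rw [Finset.sum_eq_single i]
      · rw [inner_smul_right, hww, if_pos rfl]
      · intro j _ hj
        rw [inner_smul_right, hww, if_neg (Ne.symm hj), mul_zero]
      · intro h
        exact absurd hi h
    rw [h2, ← mul_assoc, ← Complex.normSq_eq_conj_mul_self, Complex.normSq_eq_norm_sq]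
    push_cast
    rfl
  have h2 : ‖∑ i ∈ S, c i • w i‖ ^ 2 = ∑ i ∈ S, ‖c i‖ ^ 2 * hG.eigenvalues i := by
    apply Complex.ofReal_injective
    rw [← h1, inner_self_eq_norm_sq_to_K]
    push_cast
    rfl
  have h3 : ∑ i ∈ S, ‖c i‖ ^ 2 ≤ ‖x‖ ^ 2 := by
    calc ∑ i ∈ S, ‖c i‖ ^ 2 ≤ ∑ i, ‖c i‖ ^ 2 :=
          Finset.sum_le_sum_of_subset_of_nonneg (Finset.subset_univ _) fun i _ _ => by positivity
      _ = ‖opeK b n x‖ ^ 2 := hG.eigenvectorBasis.sum_sq_norm_inner_right (opeK b n x)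
      _ ≤ ‖x‖ ^ 2 := pow_le_pow_left₀ (norm_nonneg _) (opeK_norm b n x) 2
  have h4 : ‖∑ i ∈ S, c i • w i‖ ^ 2 ≤ (τ * ‖x‖) ^ 2 := by
    rw [h2]
    calc ∑ i ∈ S, ‖c i‖ ^ 2 * hG.eigenvalues i ≤ ∑ i ∈ S, ‖c i‖ ^ 2 * τ ^ 2 :=
          Finset.sum_le_sum fun i hi => mul_le_mul_of_nonneg_left (hS i hi) (by positivity)
      _ = (∑ i ∈ S, ‖c i‖ ^ 2) * τ ^ 2 := by rw [Finset.sum_mul]
      _ ≤ ‖x‖ ^ 2 * τ ^ 2 := mul_le_mul_of_nonneg_right h3 (by positivity)
      _ = (τ * ‖x‖) ^ 2 := by ring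
  exact le_of_sq_le_sq h4 (by positivity)

/-- expansion of `opm b M` in the eigenvectors -/
theorem ope_expand (b : HilbertBasis ℕ ℂ H) {n : ℕ} (M : Matrix (Fin n) (Fin n) ℂ) (x : H) :
    opm b M x = ∑ i, inner ℂ ((isHermitian_conjTranspose_mul_self M).eigenvectorBasis i)
      (opeK b n x) • opeJ b n (WithLp.toLp 2
        (M *ᵥ ((isHermitian_conjTranspose_mul_self M).eigenvectorBasis i))) := by
  set hG := isHermitian_conjTranspose_mul_self M
  let L : EuclideanSpace ℂ (Fin n) →ₗ[ℂ] H := (opeJ b n).comp (Matrix.toEuclideanLin M)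
  have hL : ∀ y : EuclideanSpace ℂ (Fin n), L y = opeJ b n (WithLp.toLp 2 (M *ᵥ y)) := fun y => rfl
  rw [opm_apply, ← hL]
  have h1 := hG.eigenvectorBasis.sum_repr' (opeK b n x)
  conv_lhs => rw [← h1]
  rw [map_sum]
  refine Finset.sum_congr rfl fun i _ => ?_
  rw [map_smul, hL]

theorem ope_up (b : HilbertBasis ℕ ℂ H) {n : ℕ} (M : Matrix (Fin n) (Fin n) ℂ) (k : ℕ) (τ : ℝ)
    (hτ : 0 ≤ τ) (hk : ∀ i : Fin n, k ≤ (opePos n i : ℕ) →
      (isHermitian_conjTranspose_mul_self M).eigenvalues i ≤ τ ^ 2) :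
    apn k (opm b M) ≤ τ := by
  classical
  set hG := isHermitian_conjTranspose_mul_self M
  set S : Finset (Fin n) := Finset.univ.filter fun i => (opePos n i : ℕ) < k with hS
  set w : Fin n → H := fun i => opeJ b n (WithLp.toLp 2 (M *ᵥ (hG.eigenvectorBasis i))) with hw
  set F : H →L[ℂ] H := ∑ i ∈ S, (innerSL ℂ (opeJ b n (hG.eigenvectorBasis i))).smulRight (w i)
    with hF
  have hFx : ∀ x, F x = ∑ i ∈ S, inner ℂ (hG.eigenvectorBasis i) (opeK b n x) • w i := by
    intro x
    rw [hF, ContinuousLinearMap.sum_apply]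
    refine Finset.sum_congr rfl fun i _ => ?_
    rw [ContinuousLinearMap.smulRight_apply, innerSL_apply_apply, opeK_inner]
  have hSc : S.card ≤ k := by
    have h1 : S.card ≤ (Finset.range k).card := by
      refine Finset.card_le_card_of_injOn (fun i => (opePos n i : ℕ)) ?_ ?_
      · intro i hi
        rw [Finset.mem_coe] at hi ⊢
        exact Finset.mem_range.2 (Finset.mem_filter.1 hi).2
      · intro i _ j _ hij
        exact (Equiv.injective _) (Fin.ext hij)
    rwa [Finset.card_range] at h1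
  have hrange : F.range ≤ Submodule.span ℂ ((S.image w : Finset H) : Set H) := by
    rintro _ ⟨x, rfl⟩
    change F x ∈ _
    rw [hFx]
    refine Submodule.sum_mem _ fun i hi => Submodule.smul_mem _ _ (Submodule.subset_span ?_)
    exact Finset.mem_coe.2 (Finset.mem_image_of_mem w hi)
  haveI hfs : FiniteDimensional ℂ (Submodule.span ℂ ((S.image w : Finset H) : Set H)) :=
    FiniteDimensional.span_finset ℂ _
  have hfd : FiniteDimensional ℂ F.range := Submodule.finiteDimensional_of_le hrange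
  have hrk : Module.finrank ℂ F.range ≤ k :=
    ((Submodule.finrank_mono hrange).trans (finrank_span_finset_le_card _)).trans
      (Finset.card_image_le.trans hSc)
  have hnorm : ‖opm b M - F‖ ≤ τ := by
    refine ContinuousLinearMap.opNorm_le_bound _ hτ fun x => ?_
    have h1 : (opm b M - F) x = ∑ i ∈ Sᶜ, inner ℂ (hG.eigenvectorBasis i) (opeK b n x) • w i := by
      rw [ContinuousLinearMap.sub_apply, hFx, ope_expand, ← Finset.sum_add_sum_compl S]
      exact add_sub_cancel_left _ _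
    rw [h1]
    refine ope_part b M Sᶜ τ hτ (fun i hi => hk i ?_) x
    by_contra hcon
    push Not at hcon
    exact (Finset.mem_compl.1 hi) (Finset.mem_filter.2 ⟨Finset.mem_univ _, hcon⟩)
  unfold apn
  refine (csInf_le ?_ ?_).trans hnorm
  · refine ⟨0, ?_⟩
    rintro r ⟨G, _, _, rfl⟩
    exact norm_nonneg _
  · exact ⟨F, hfd, hrk, rfl⟩

theorem apn_nonneg' (k : ℕ) (T : H →L[ℂ] H) : 0 ≤ apn k T := by
  refine Real.sInf_nonneg ?_
  rintro r ⟨G, _, _, rfl⟩
  exact norm_nonneg _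

end Up

/-- OPE from the lower half -/
theorem ope_of_low (hlow : ∀ (H : Type) [NormedAddCommGroup H] [InnerProductSpace ℂ H]
    [CompleteSpace H] (b : HilbertBasis ℕ ℂ H) (n : ℕ) (M : Matrix (Fin n) (Fin n) ℂ)
    (k : Fin (Fintype.card (Fin n))),
    Real.sqrt ((isHermitian_conjTranspose_mul_self M).eigenvalues₀ k) ≤ apn (k : ℕ) (opm b M)) :
    S_OPE := by
  intro H _ _ _ b n M p hp
  set hG := isHermitian_conjTranspose_mul_self M
  have hnn : ∀ i : Fin n, 0 ≤ hG.eigenvalues i := fun i =>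
    (posSemidef_conjTranspose_mul_self M).eigenvalues_nonneg i
  set e : Fin (Fintype.card (Fin n)) ≃ Fin n := Fintype.equivOfCardEq (Fintype.card_fin _) with he
  have hpos : ∀ k, opePos n (e k) = k := fun k => e.symm_apply_apply k
  have hval : ∀ k, hG.eigenvalues (e k) = hG.eigenvalues₀ k := fun k => by
    rw [ope_eig, hpos]
  have hnn0 : ∀ k, 0 ≤ hG.eigenvalues₀ k := fun k => by
    rw [← hval]
    exact hnn _
  have hk : ∀ k : Fin (Fintype.card (Fin n)), apn (k : ℕ) (opm b M) =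
      Real.sqrt (hG.eigenvalues₀ k) := by
    intro k
    refine le_antisymm ?_ (hlow H b n M k)
    refine ope_up b M k _ (Real.sqrt_nonneg _) fun i hi => ?_
    rw [Real.sq_sqrt (hnn0 k), ope_eig]
    exact hG.eigenvalues₀_antitone hi
  have hz : ∀ k ∉ Finset.range (Fintype.card (Fin n)), apn k (opm b M) ^ p = 0 := by
    intro k hk'
    rw [Finset.mem_range, not_lt] at hk'
    have h1 : apn k (opm b M) = 0 := by
      refine le_antisymm (ope_up b M k 0 le_rfl fun i hi => ?_) (apn_nonneg' _ _)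
      exfalso
      have := (opePos n i).2
      omega
    rw [h1, Real.zero_rpow hp.ne']
  have h2 : HasSum (fun k => apn k (opm b M) ^ p)
      (∑ k ∈ Finset.range (Fintype.card (Fin n)), apn k (opm b M) ^ p) :=
    hasSum_sum_of_ne_finset_zero hz
  have h3 : ∑ k ∈ Finset.range (Fintype.card (Fin n)), apn k (opm b M) ^ p = trPow p M := by
    rw [Finset.sum_range]
    unfold trPow
    rw [← Equiv.sum_comp e]
    refine Finset.sum_congr rfl fun k _ => ?_
    rw [hk, hval, Real.sqrt_eq_rpow, ← Real.rpow_mul (hnn0 k)]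
    congr 1
    ring
  rw [h3] at h2
  exact h2

end Pool.Agent.K9h78.S6
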