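import Pool.Agent.K9h78.S6.FinM

/-! Leaves for part (2) for all `n ≥ 2`. -/

set_option autoImplicit false
open Matrix

namespace Pool.Agent.K9h78.S6

open Pool.Agent.K9h78.LP (trPow Emb Rep)

/-- PAD: pad a `2 × 2` matrix by zeros (e.g. `fun M => Matrix.of fun i j => if h : i < 2 ∧ j < 2 then
M ⟨i, _⟩ ⟨j, _⟩ else 0`, or reindexed `fromBlocks M 0 0 0`): the spectrum of `Mᴴ M` only gets more zeros
and `0 ^ (p/2) = 0`. E.g. by `Matrix.IsHermitian.roots_charpoly_eq_eigenvalues`: `trPow` is the sum of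
`x ^ (p/2)` over the roots of the characteristic polynomial of `Mᴴ M`. -/
def S_PAD : Prop := ∀ (n : ℕ), 2 ≤ n → ∀ (p : ℝ), 0 < p →
  ∃ L : Matrix (Fin 2) (Fin 2) ℂ → Matrix (Fin n) (Fin n) ℂ,
    (∀ (α β : ℂ) (A B : Matrix (Fin 2) (Fin 2) ℂ), L (α • A + β • B) = α • L A + β • L B) ∧
    ∀ M, trPow p (L M) = trPow p M

/-- FIN4: from `Pool.Agent.R260.SC.gr`, `sz`, `NUSF.nu` as in `R260.SC.four_yes`, and
`trPow_nat 2`. -/
def S_FIN4 : Prop := ∀ (n : ℕ) (A B : Matrix (Fin n) (Fin n) ℂ),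
  Rep 4 (fun α β => trPow 4 (α • A + β • B))

end Pool.Agent.K9h78.S6
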