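import Pool.Agent.K9h78.S6.PadStm

/-! Padding by zeros. -/

set_option autoImplicit false
open Matrix

namespace Pool.Agent.K9h78.S6

open Pool.Agent.K9h78.LP (trPow Emb Rep)

theorem trPow_roots {n : ℕ} (p : ℝ) (M : Matrix (Fin n) (Fin n) ℂ) :
    trPow p M = (((Mᴴ * M).charpoly.roots).map (fun z : ℂ => z.re ^ (p / 2))).sum := by
  rw [(isHermitian_conjTranspose_mul_self M).roots_charpoly_eq_eigenvalues, Multiset.map_map]
  unfold trPow
  rfl

theorem padb : S_PAD := by
  intro n hn p hp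
  obtain ⟨k, rfl⟩ := Nat.exists_eq_add_of_le hn
  refine ⟨fun M => Matrix.reindex finSumFinEquiv finSumFinEquiv
    (fromBlocks M (0 : Matrix (Fin 2) (Fin k) ℂ) 0 (0 : Matrix (Fin k) (Fin k) ℂ)), ?_, ?_⟩
  · intro α β A B
    ext i j
    obtain ⟨i, rfl⟩ := finSumFinEquiv.surjective i
    obtain ⟨j, rfl⟩ := finSumFinEquiv.surjective j
    rcases i with i | i <;> rcases j with j | j <;> simp
  · intro M
    rw [trPow_roots, trPow_roots]
    have h1 : (Matrix.reindex finSumFinEquiv finSumFinEquiv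
        (fromBlocks M (0 : Matrix (Fin 2) (Fin k) ℂ) 0 (0 : Matrix (Fin k) (Fin k) ℂ)))ᴴ *
        Matrix.reindex finSumFinEquiv finSumFinEquiv
        (fromBlocks M (0 : Matrix (Fin 2) (Fin k) ℂ) 0 (0 : Matrix (Fin k) (Fin k) ℂ)) =
        Matrix.reindex finSumFinEquiv finSumFinEquiv
        (fromBlocks (Mᴴ * M) (0 : Matrix (Fin 2) (Fin k) ℂ) 0 (0 : Matrix (Fin k) (Fin k) ℂ)) := by
      simp only [Matrix.reindex_apply, Matrix.conjTranspose_submatrix, Matrix.submatrix_mul_equiv,
        Matrix.fromBlocks_conjTranspose, Matrix.fromBlocks_multiply]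
      simp
    rw [h1, Matrix.charpoly_reindex, Matrix.charpoly_fromBlocks_zero₂₁]
    have h2 : (0 : Matrix (Fin k) (Fin k) ℂ).charpoly = Polynomial.X ^ k := by
      simp
    rw [h2, Polynomial.roots_mul, Polynomial.roots_X_pow, Multiset.map_add, Multiset.sum_add]
    · have h3 : (Multiset.map (fun z : ℂ => z.re ^ (p / 2)) (k • {(0 : ℂ)})).sum = 0 := by
        rw [Multiset.map_nsmul, Multiset.sum_nsmul, Multiset.map_singleton, Multiset.sum_singleton,
          Complex.zero_re, Real.zero_rpow (by positivity : p / 2 ≠ 0), smul_zero]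
      rw [h3, add_zero]
    · exact mul_ne_zero (Matrix.charpoly_monic _).ne_zero (pow_ne_zero _ Polynomial.X_ne_zero)

end Pool.Agent.K9h78.S6
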