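import Mathlib

/-!
# Statements for `p = 6` (MP_41c25d_an): leaves `S_*`

`Fn` = functions of `(x, y) ∈ ℂ²`; a functional `Φ` on functions is only used on forms of bidegree
`(3,3)` (monomials `mon a b`). Goal: if `Φ(|αx+βy|⁶) = tr ((MᴴM)³)`, `M = αA+βB`, then `Φ` is a sum of
point evaluations on forms of bidegree `(3,3)`.
-/

set_option autoImplicit false
open ComplexConjugate Matrix

namespace Pool.Agent.K9h78.S6

abbrev Fn := ℂ → ℂ → ℂ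

/-- `Φ (conj f) = conj (Φ f)` -/
def Herm (Φ : Fn →ₗ[ℂ] ℂ) : Prop := ∀ f : Fn, Φ (fun x y => conj (f x y)) = conj (Φ f)

/-- `x^(3-a) y^a conj (x^(3-b) y^b)`, used for `a, b ≤ 3` -/
noncomputable def mon (a b : ℕ) : Fn := fun x y => x ^ (3 - a) * y ^ a * conj (x ^ (3 - b) * y ^ b)

/-- binary cubics -/
noncomputable def cub (c : Fin 4 → ℂ) : Fn := fun x y =>
  c 0 * x ^ 3 + c 1 * (x ^ 2 * y) + c 2 * (x * y ^ 2) + c 3 * y ^ 3

/-- forms of bidegree `(2,1)` -/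
noncomputable def hh (h : Fin 6 → ℂ) : Fn := fun x y =>
  conj x * (h 0 * x ^ 2 + h 1 * (x * y) + h 2 * y ^ 2) +
    conj y * (h 3 * x ^ 2 + h 4 * (x * y) + h 5 * y ^ 2)

/-- `|f|²` -/
noncomputable def sq (f : Fn) : Fn := fun x y => f x y * conj (f x y)

def P2 (Φ : Fn →ₗ[ℂ] ℂ) : Prop := ∀ h : Fin 6 → ℂ, 0 ≤ (Φ (sq (hh h))).re

/-- strict positivity on squares of cubics -/
def Pos (Φ : Fn →ₗ[ℂ] ℂ) : Prop := ∀ c : Fin 4 → ℂ, c ≠ 0 → 0 < (Φ (sq (cub c))).re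

/-- evaluation at the point `(u, v)` -/
noncomputable def ev (u v : ℂ) : Fn →ₗ[ℂ] ℂ where
  toFun f := f u v
  map_add' _ _ := rfl
  map_smul' _ _ := rfl

def Agree (Φ Ψ : Fn →ₗ[ℂ] ℂ) : Prop := ∀ a b : ℕ, a ≤ 3 → b ≤ 3 → Φ (mon a b) = Ψ (mon a b)

/-- `Φ` is a sum of point evaluations on forms of bidegree `(3,3)` -/
def Sep (Φ : Fn →ₗ[ℂ] ℂ) : Prop := ∃ (n : ℕ) (x y : Fin n → ℂ), Agree Φ (∑ k, ev (x k) (y k))

/-- change of coordinates -/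
noncomputable def pull (p q r s : ℂ) (Φ : Fn →ₗ[ℂ] ℂ) : Fn →ₗ[ℂ] ℂ where
  toFun f := Φ (fun x y => f (p * x + q * y) (r * x + s * y))
  map_add' f g := by rw [← map_add]; rfl
  map_smul' t f := by rw [← map_smul]; rfl

/-- extremal in the cone of Hermitian functionals with `P2` -/
def Ext (Φ : Fn →ₗ[ℂ] ℂ) : Prop := ∀ Ψ : Fn →ₗ[ℂ] ℂ, Herm Ψ → P2 Ψ → P2 (Φ - Ψ) →
  ∃ t : ℝ, ∀ a b : ℕ, a ≤ 3 → b ≤ 3 → Ψ (mon a b) = t * Φ (mon a b)

/-! ### General lemmas -/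

/-- KER (Cauchy-Schwarz): test `h + z h'` with complex `z`. -/
def S_KER : Prop := ∀ Φ, Herm Φ → P2 Φ → ∀ h : Fin 6 → ℂ, (Φ (sq (hh h))).re = 0 →
  ∀ h' : Fin 6 → ℂ, Φ (fun x y => hh h x y * conj (hh h' x y)) = 0

/-- CF: factorisation of binary cubics (fundamental theorem of algebra): three distinct roots,
a double root or a triple root. -/
def S_CF : Prop := ∀ c : Fin 4 → ℂ, c ≠ 0 → ∃ p q r s κ : ℂ, p * s - q * r ≠ 0 ∧ κ ≠ 0 ∧
  ((∀ x y, cub c x y = κ * ((p * x + q * y) * (r * x + s * y) *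
      ((p * x + q * y) + (r * x + s * y)))) ∨
   (∀ x y, cub c x y = κ * ((p * x + q * y) ^ 2 * (r * x + s * y))) ∨
   (∀ x y, cub c x y = κ * (p * x + q * y) ^ 3))

/-- PU: `pull` preserves everything (invertible change of coordinates). For `Ext` use the inverse
change; `mon a b` composed with a linear map is a linear combination of the `mon a' b'`,
`hh h` composed with a linear map is some `hh h'`. -/
def S_PU : Prop := ∀ (p q r s : ℂ), p * s - q * r ≠ 0 → ∀ Φ, (Herm Φ → Herm (pull p q r s Φ)) ∧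
  (P2 Φ → P2 (pull p q r s Φ)) ∧ (Pos Φ → Pos (pull p q r s Φ)) ∧ (Ext Φ → Ext (pull p q r s Φ)) ∧
  (Sep (pull p q r s Φ) → Sep Φ)

/-- K3: three distinct roots. With `m a b = Φ (mon a b)`: by KER and `|x y (x+y)|² = |x̄ y (x+y)|² =
|x ȳ (x+y)|² = |x y (x̄+ȳ)|²` all of `x̄y(x+y)`, `xȳ(x+y)`, `xy(x̄+ȳ)` are in the kernel; so
`m (1+s) t + m (2+s) t = 0`, `m s (1+t) + m (1+s) (1+t) = 0`, `m (1+s) t + m (1+s) (1+t) = 0` for
`s ≤ 1, t ≤ 2`; hence with `u = m 1 0 = - m 1 1` (real, `m 1 1 ≥ 0`):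
`Φ = (m 1 1) ev 1 (-1) + (m 0 0 - m 1 1) ev 1 0 + (m 3 3 - m 1 1) ev 0 1`, and the weights are
`≥ 0`: test `x ȳ x`-type forms (`|x²y|² = |x² ȳ|²`), `x̄ x (x+y)`, `ȳ y (x+y)`. A weight `w ≥ 0` is
absorbed: `w • ev u v` agrees with `ev (w^(1/6) u) (w^(1/6) v)`. -/
def S_K3 : Prop := ∀ Φ, Herm Φ → P2 Φ → (Φ (sq (fun x y => x * y * (x + y)))).re = 0 → Sep Φ

/-- K2: double root: `x̄xy, x²ȳ` are in the kernel, so `m 1 t = m 2 t = 0 (t ≤ 2)`,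
`m 0 b = m 1 b = 0 (b ≥ 1)`; `m 2 2 = Φ |x ȳ y|²-type = 0` puts `xyȳ, y²x̄` in the kernel, so
`m 2 3 = 0`; hence `Φ = m 0 0 • ev 1 0 + m 3 3 • ev 0 1`. -/
def S_K2 : Prop := ∀ Φ, Herm Φ → P2 Φ → (Φ (sq (fun x y => x ^ 2 * y))).re = 0 → Sep Φ

/-- K1: triple root: `x̄x²` is in the kernel: `m s t = 0` for `s ≤ 1, t ≤ 2`, in particular
`m 1 1 = 0`, so (`|x²ȳ|² = |xyx̄|² ` have value `m 1 1`) `x²ȳ, xyx̄` are in the kernel, which gives
`m 2 2 = 0`, then `xyȳ, y²x̄` are in the kernel; finally `Φ = m 3 3 • ev 0 1`. -/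
def S_K1 : Prop := ∀ Φ, Herm Φ → P2 Φ → (Φ (sq (fun x y => x ^ 3))).re = 0 → Sep Φ

/-! ### Extremal functionals which are positive definite on cubics do not exist -/

/-- DIM: otherwise the kernel of the form `(h, h') ↦ Φ (h conj h')` on `ℂ⁶` is `≤ 1`-dimensional,
spanned by `h₀`. The real linear space of Hermitian `Ψ` (mod agreement: Hermitian `4 × 4` matrices
`m`, dimension 16) with `Ψ (hh h₀ * conj (hh e_j)) = 0` for the 6 basis vectors `e_j` has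
dimension `≥ 16 - 12 = 4 ≥ 2`, so it has an element `Ψ` which is not a real multiple of `Φ`; for small `ε > 0`,
`Φ/2 ± ε Ψ` has `P2` (compactness on the orthogonal complement of the kernel). Then `Ext Φ` fails. -/
def S_DIM : Prop := ∀ Φ, Herm Φ → P2 Φ → Ext Φ → (∃ a b, a ≤ 3 ∧ b ≤ 3 ∧ Φ (mon a b) ≠ 0) →
  ∃ h h' : Fin 6 → ℂ, (∀ s t : ℂ, s • h + t • h' = 0 → s = 0 ∧ t = 0) ∧
    (Φ (sq (hh h))).re = 0 ∧ (Φ (sq (hh h'))).re = 0

/-- PEN: the determinant of the `2 × 2` matrix of quadratic forms is a quartic form in `(u, v)`,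
it has a nontrivial zero; then take `(s, t)` in the kernel of the singular matrix. -/
def S_PEN : Prop := ∀ h h' : Fin 6 → ℂ, ∃ s t u v : ℂ, (s ≠ 0 ∨ t ≠ 0) ∧ (u ≠ 0 ∨ v ≠ 0) ∧
  (s * h 0 + t * h' 0) * u ^ 2 + (s * h 1 + t * h' 1) * (u * v) + (s * h 2 + t * h' 2) * v ^ 2 = 0 ∧
  (s * h 3 + t * h' 3) * u ^ 2 + (s * h 4 + t * h' 4) * (u * v) + (s * h 5 + t * h' 5) * v ^ 2 = 0

/-- the real form `α|x|² + 2 Re (β x̄ y) + δ|y|²` -/
noncomputable def gf (α δ : ℝ) (β : ℂ) : Fn := fun x y =>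
  α * (x * conj x) + β * (conj x * y) + conj β * (x * conj y) + δ * (y * conj y)

/-- RED: both quadratic forms vanish at `(u,v)`, so `hh h = X g` with the linear form
`X = v x - u y` and a form `g` of bidegree `(1,1)`; take new coordinates `(X, Y)`. Since
`|X g|² = |X ḡ|²` both `X g` and `X ḡ` are in the kernel (KER), so `X (g + ḡ)/2` and
`X (g - ḡ)/(2i)` are; one of them is not zero. -/
def S_RED : Prop := ∀ Φ, Herm Φ → P2 Φ → ∀ h : Fin 6 → ℂ, h ≠ 0 → (Φ (sq (hh h))).re = 0 →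
  ∀ u v : ℂ, (u ≠ 0 ∨ v ≠ 0) → h 0 * u ^ 2 + h 1 * (u * v) + h 2 * v ^ 2 = 0 →
  h 3 * u ^ 2 + h 4 * (u * v) + h 5 * v ^ 2 = 0 →
  ∃ (p q r s : ℂ) (α δ : ℝ) (β : ℂ), p * s - q * r ≠ 0 ∧ (α ≠ 0 ∨ δ ≠ 0 ∨ β ≠ 0) ∧
    (pull p q r s Φ (sq (fun x y => x * gf α δ β x y))).re = 0

/-- TZ: let `M s t = Φ (g x^(2-s) y^s conj (x^(2-t) y^t))`, `s, t ≤ 2`, a Hermitian matrix; by KER
`M s t = 0` for `s ≤ 1`, hence `M s t = 0` unless `s = t = 2`; let `m₀ = M 2 2` (real). If `δ = 0`: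
`Φ |y g|² = m₀ δ = 0`, so `y g` is in the kernel and `m₀ = 0`. If `δ ≠ 0`: `t = m₀ / δ ≥ 0` because
`0 ≤ Φ |y g|² = m₀ δ`; `Φ' = Φ - t ev 0 1` kills `g · (forms of bidegree (2,2))`, so for
`h` and `l = - (h(0,1)/δ) y`: `Φ' |h|² = Φ' |h + l g|² = Φ |h + l g|² ≥ 0`, i.e. `P2 Φ'`; by `Ext`,
`t ev 0 1 = τ Φ`; if `t > 0` this contradicts `Pos` (value at `x³`); so `t = 0`, `m₀ = 0`. -/
def S_TZ : Prop := ∀ Φ, Herm Φ → P2 Φ → Pos Φ → Ext Φ → ∀ (α δ : ℝ) (β : ℂ),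
  (Φ (sq (fun x y => x * gf α δ β x y))).re = 0 →
  ∀ s t : ℕ, s ≤ 2 → t ≤ 2 →
    Φ (fun x y => gf α δ β x y * (x ^ (2 - s) * y ^ s * conj (x ^ (2 - t) * y ^ t))) = 0

/-- DEF: if `αδ ≥ |β|²`, `α > 0`: `α g = |αx+βy|² + (αδ-|β|²)|y|²`, so `0 = α Φ (g |x|⁴) ≥
Φ |(αx+βy) x²|² > 0`; similarly `α < 0`; if `α = 0` then `β = 0` and `g = δ|y|²`, use `|y|⁴`. -/
def S_DEF : Prop := ∀ Φ, Herm Φ → Pos Φ → ∀ (α δ : ℝ) (β : ℂ), (α ≠ 0 ∨ δ ≠ 0 ∨ β ≠ 0) →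
  (∀ s t : ℕ, s ≤ 2 → t ≤ 2 →
    Φ (fun x y => gf α δ β x y * (x ^ (2 - s) * y ^ s * conj (x ^ (2 - t) * y ^ t))) = 0) →
  α * δ < ‖β‖ ^ 2

/-- HN: an indefinite real form is `i (X̄ Y - X Ȳ)` up to sign in suitable coordinates (inverse
change below: `x = p' X + q' Y`, ...); then `Φ' (mon (a+1) b) = Φ' (mon a (b+1))` for the functional
`Φ'` in the new coordinates. -/
def S_HN : Prop := ∀ Φ, Herm Φ → ∀ (α δ : ℝ) (β : ℂ), α * δ < ‖β‖ ^ 2 →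
  (∀ s t : ℕ, s ≤ 2 → t ≤ 2 →
    Φ (fun x y => gf α δ β x y * (x ^ (2 - s) * y ^ s * conj (x ^ (2 - t) * y ^ t))) = 0) →
  ∃ p q r s : ℂ, p * s - q * r ≠ 0 ∧ ∀ a b : ℕ, a ≤ 2 → b ≤ 2 →
    pull p q r s Φ (mon (a + 1) b) = pull p q r s Φ (mon a (b + 1))

/-- HK: `Φ (mon a b)` depends only on `a + b` (real Hankel). `Φ |h|² = Φ |c|²` for
`h = x̄ q₀ + ȳ q₁`, `c = x q₀ + y q₁`, and `h(1,0) = c(1,0)` (`= h 0`). By `Pos` and compactness
`Φ |c|² ≥ ε |c(1,0)|²`, so `Φ - ε ev 1 0` has `P2`; by `Ext`, `ε ev 1 0 = τ Φ`, contradiction with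
`Pos` at `y³` and at `x³`. -/
def S_HK : Prop := ∀ Φ, Herm Φ → P2 Φ → Pos Φ → Ext Φ →
  (∀ a b : ℕ, a ≤ 2 → b ≤ 2 → Φ (mon (a + 1) b) = Φ (mon a (b + 1))) → False

/-! ### Convexity -/

/-- KM: Krein-Milman and Caratheodory in the real vector space of `4 × 4` Hermitian matrices
`m a b = Φ (mon a b)`. The set of Hermitian `m` with `P2` and
`m 0 0 + 3 m 1 1 + 3 m 2 2 + m 3 3 = 1` is convex and compact (`m a a ≥ 0`, and `|m a b|² ≤ m a a m b b`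
since the form is `≥ 0` on cubics, hypothesis `hP1`), its extreme points satisfy `Ext`, hence are
point evaluations; a limit of sums of point evaluations is again one (Caratheodory: at most 17
points, bounded since the trace is `Σ (|x|²+|y|²)³`). -/
def S_KM : Prop :=
  (∀ Φ, Herm Φ → P2 Φ → ∀ c : Fin 4 → ℂ, 0 ≤ (Φ (sq (cub c))).re) →
  (∀ Φ, Herm Φ → P2 Φ → Ext Φ → Sep Φ) → ∀ Φ, Herm Φ → P2 Φ → Sep Φ

/-- EX: every Hermitian matrix `m` is `Φ (mon a b)` for a Hermitian functional `Φ` (extension of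
linear functionals; the 16 monomials are linearly independent; then symmetrise). -/
def S_EX : Prop := ∀ m : ℕ → ℕ → ℂ, (∀ a b, m b a = conj (m a b)) →
  ∃ Φ, Herm Φ ∧ ∀ a b, a ≤ 3 → b ≤ 3 → Φ (mon a b) = m a b

/-! ### The functional of a pair of matrices -/

/-- `Φ (|αx+βy|⁶) = tr ((Mᴴ M)³)`, `M = αA+βB` -/
def Rep6 {n : ℕ} (Φ : Fn →ₗ[ℂ] ℂ) (A B : Matrix (Fin n) (Fin n) ℂ) : Prop :=
  ∀ α β : ℂ, Φ (sq (fun x y => (α * x + β * y) ^ 3)) =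
    (((α • A + β • B)ᴴ * (α • A + β • B)) ^ 3).trace

/-- TW: the words. `t i j k l m n = tr (M_i M_jᴴ M_k M_lᴴ M_m M_nᴴ)` -/
noncomputable def tw {n : ℕ} (A B : Matrix (Fin n) (Fin n) ℂ) (i j k l m o : Bool) : ℂ :=
  let M : Bool → Matrix (Fin n) (Fin n) ℂ := fun i => if i then B else A
  (M i * (M j)ᴴ * M k * (M l)ᴴ * M m * (M o)ᴴ).trace

/-- MO: the moments: compare coefficients of `α^(3-a) β^a conj (α^(3-b) β^b)`.
(`false` stands for `A`, `true` for `B`; the words are taken up to rotation, `tw` is invariant under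
rotation by two places.) -/
def S_MO : Prop := ∀ (n : ℕ) (A B : Matrix (Fin n) (Fin n) ℂ) (Φ : Fn →ₗ[ℂ] ℂ), Rep6 Φ A B →
  Φ (mon 1 1) = (tw A B true true false false false false +
    tw A B true false false true false false + tw A B true false false false false true) / 3 ∧
  Φ (mon 2 2) = (tw A B false false true true true true +
    tw A B false true true false true true + tw A B false true true true true false) / 3 ∧
  Φ (mon 1 2) = (tw A B true false false true false true +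
    tw A B true true false false false true + tw A B true true false true false false) / 3 ∧
  Φ (mon 2 1) = (tw A B false true true false true false +
    tw A B false false true true true false + tw A B false false true false true true) / 3 ∧
  Φ (mon 0 2) = tw A B false false false true false true ∧
  Φ (mon 2 0) = tw A B true false true false false false ∧
  Φ (mon 0 3) = tw A B false true false true false true ∧
  Φ (mon 3 0) = tw A B true false true false true false ∧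
  Φ (mon 1 3) = tw A B true true false true false true ∧
  Φ (mon 3 1) = tw A B true true true false true false

/-- QI: the quadratic inequality for words: for `h = a x²ȳ + 2b xyx̄ + c y²x̄ + 2d xyȳ`,
`Φ |h|² = ‖X‖² + (1/3) ⟨Γ, E⟩` with `X = a A Bᴴ A + b (A Aᴴ B + B Aᴴ A) + c B Aᴴ B +
d (A Bᴴ B + B Bᴴ A)`, `D_0 = A Aᴴ B - B Aᴴ A`, `D_1 = A Bᴴ B - B Bᴴ A`, `Γ` = Gram matrix of `D_0, D_1`,
`E = (|a|²+|b|², ·; ·, |c|²+|d|²)` with off-diagonal entry of modulus `|ād + b̄c - b d̄|`. -/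
def S_QI : Prop := ∀ (n : ℕ) (A B : Matrix (Fin n) (Fin n) ℂ) (Φ : Fn →ₗ[ℂ] ℂ), Herm Φ →
  Rep6 Φ A B → ∀ a b c d : ℂ,
  ‖conj a * d + conj b * c - b * conj d‖ ^ 2 ≤
    (‖a‖ ^ 2 + ‖b‖ ^ 2) * (‖c‖ ^ 2 + ‖d‖ ^ 2) →
  0 ≤ (Φ (sq (hh ![0, 2 * b, c, a, 2 * d, 0]))).re

/-- EM: existence of the functional of a pair (from S_EX: expand `tr ((MᴴM)³)` in `α, β`, the
coefficient of `α^(3-a) β^a conj (α^(3-b) β^b)` divided by `C(3,a) C(3,b)` is a Hermitian matrix). -/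
def S_EM : Prop := ∀ (n : ℕ) (A B : Matrix (Fin n) (Fin n) ℂ), ∃ Φ, Herm Φ ∧ Rep6 Φ A B

/-! ### The lemma on zeros -/

/-- ZR: if `h = a x²ȳ + 2b xyx̄ + c y²x̄ + 2d xyȳ` has, besides `(1,0)` and `(0,1)`, two more distinct
zeros `(1, z)`, `(1, z')`, then `E ≥ 0`. -/
def S_ZR : Prop := ∀ a b c d z z' : ℂ, z ≠ 0 → z' ≠ 0 → z ≠ z' →
  a * conj z + 2 * b * z + c * z ^ 2 + 2 * d * (z * conj z) = 0 →
  a * conj z' + 2 * b * z' + c * z' ^ 2 + 2 * d * (z' * conj z') = 0 →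
  ‖conj a * d + conj b * c - b * conj d‖ ^ 2 ≤ (‖a‖ ^ 2 + ‖b‖ ^ 2) * (‖c‖ ^ 2 + ‖d‖ ^ 2)

end Pool.Agent.K9h78.S6
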